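import Pool.Agent.PGB.Lsv

/-!
# Project PGB, Cnt: there are few bad characters

PROOF.  Let `L = log N`, `X = N ^ (1/20)`, so `X^2 = N ^ (1/10)`.  We may assume `A ≥ 0` (for
`A < 0` and `N ≥ 3` a bad character has `u < u / L^A < ‖mus j u‖ ≤ u`, a contradiction, so `F = ∅`).
Let `η = 1 / (8 L^A)` and for `k ≤ K := ⌊log (10 N) / η⌋₊ + 1` let `u_k = ⌊exp(k η)⌋₊`.  If `j` is bad
with `u`, choose `k` with `exp(k η) ≤ u < exp((k+1) η)` (`k = ⌊log u / η⌋₊ ≤ K`).  Then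
`u_k ≤ u` and `u - u_k ≤ u (1 - e^{-η}) + 1 ≤ η u + 1`, so
`‖mus j u_k‖ ≥ ‖mus j u‖ - (u - u_k) ≥ u / L^A - u / (8 L^A) - 1 ≥ u / (2 L^A)` for large `N`
(`u ≥ N ^ (1/10)`), and `u_k ≥ u / 2`, `u_k ≤ u ≤ 10 N`.
For fixed `k` with `u_k ≥ N^(1/10) / 2` the large sieve (`ls_Ls` with `s = 0`, `f n = μ(n)` for
`1 ≤ n ≤ u_k`, `P = u_k`; `Ls f j 0 = mus j u_k` by `Ls_eq_sum`, `nsq ≤ u_k`) gives for the set `F_k`
of all `j ∈ F` with `‖mus j u_k‖ ≥ u_k / (2 L^A)`: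
`card F_k * u_k^2 / (4 L^(2A)) ≤ (X^2 + 4 π (u_k + 1)) u_k ≤ 30 u_k^2` (as `X^2 ≤ 2 u_k`,
`u_k ≥ 1`), so `card F_k ≤ 120 L^(2A)`.  Summing over `k ≤ K`, `K ≤ 2 L * 8 L^A + 2`:
`card F ≤ 2000 L^(3A+1) ≤ L^(3A+3)` for large `N`.
-/

set_option autoImplicit false

open Finset Filter

namespace PGB

private theorem norm_mu_ch (j : PC) (m : ℕ) :
    ‖((ArithmeticFunction.moebius m : ℤ) : ℂ) * ch j m‖ ≤ 1 := by
  rw [norm_mul]
  have h1 : ‖((ArithmeticFunction.moebius m : ℤ) : ℂ)‖ ≤ 1 := by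
    rw [Complex.norm_intCast]
    exact_mod_cast ArithmeticFunction.abs_moebius_le_one
  exact mul_le_one₀ h1 (norm_nonneg _) (norm_ch_le j m)

private theorem mus_diff (j : PC) {v u : ℕ} (h : v ≤ u) :
    ‖mus j u‖ ≤ ‖mus j v‖ + ((u : ℝ) - v) := by
  have h1 : mus j u = mus j v +
      ∑ m ∈ Ico (v + 1) (u + 1), ((ArithmeticFunction.moebius m : ℤ) : ℂ) * ch j m := by
    unfold mus
    rw [Finset.range_eq_Ico, Finset.range_eq_Ico,
      Finset.sum_Ico_consecutive _ (Nat.zero_le _) (by omega)]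
  rw [h1]
  refine (norm_add_le _ _).trans (add_le_add le_rfl ?_)
  refine (norm_sum_le _ _).trans ?_
  refine (Finset.sum_le_sum fun m _ => norm_mu_ch j m).trans ?_
  rw [Finset.sum_const, Nat.card_Ico, nsmul_eq_mul, mul_one]
  have : u + 1 - (v + 1) = u - v := by omega
  rw [this, Nat.cast_sub h]

private theorem card_one {F : Finset PC} {X T : ℝ} (hF : Prims X F) {v : ℕ} (hv : 1 ≤ v)
    (hXv : X ^ 2 ≤ 2 * v) (hT : 0 < T) (h : ∀ j ∈ F, (v : ℝ) / (2 * T) ≤ ‖mus j v‖) :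
    (F.card : ℝ) ≤ 112 * T ^ 2 := by
  classical
  obtain ⟨f, hf⟩ : ∃ f : ℕ → ℂ, f = fun n =>
    if 1 ≤ n ∧ n ≤ v then ((ArithmeticFunction.moebius n : ℤ) : ℂ) else 0 := ⟨_, rfl⟩
  have hs : Supp v f := by
    intro n hn
    rw [hf]
    exact if_neg (by omega)
  have hL : ∀ j : PC, Ls f j 0 = mus j v := by
    intro j
    rw [Ls_eq_sum hs, mus]
    refine Finset.sum_congr rfl fun n hn => ?_
    rw [Finset.mem_range] at hn
    rw [neg_zero, Complex.cpow_zero, mul_one, hf]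
    rcases Nat.eq_zero_or_pos n with h0 | h0
    · subst h0
      simp
    · have : 1 ≤ n ∧ n ≤ v := ⟨h0, by omega⟩
      simp only [this, and_self, if_true]
      ring
  have hfn : ∀ n, ‖f n‖ ^ 2 ≤ 1 := by
    intro n
    have h1 : ‖f n‖ ≤ 1 := by
      rw [hf]
      by_cases hn : 1 ≤ n ∧ n ≤ v
      · simp only [hn, and_self, if_true]
        rw [Complex.norm_intCast]
        exact_mod_cast ArithmeticFunction.abs_moebius_le_one
      · simp only [hn, if_false, norm_zero]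
        exact zero_le_one
    exact pow_le_one₀ (norm_nonneg _) h1
  have hn : nsq f v ≤ v := by
    unfold nsq
    rw [Finset.sum_range_succ', hs 0 (Or.inl rfl), norm_zero]
    have h1 : ∑ k ∈ range v, ‖f (k + 1)‖ ^ 2 ≤ ∑ k ∈ range v, (1 : ℝ) :=
      Finset.sum_le_sum fun k _ => hfn _
    rw [Finset.sum_const, Finset.card_range, nsmul_eq_mul, mul_one] at h1
    simpa using h1
  have hv' : (1 : ℝ) ≤ v := by exact_mod_cast hv
  have h1 := ls_Ls hF hs (s := 0) (by simp)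
  simp only [hL] at h1
  have h2 : (F.card : ℝ) * ((v : ℝ) / (2 * T)) ^ 2 ≤ ∑ j ∈ F, ‖mus j v‖ ^ 2 := by
    rw [← nsmul_eq_mul, ← Finset.sum_const]
    exact Finset.sum_le_sum fun j hj => pow_le_pow_left₀ (by positivity) (h j hj) 2
  have hpi := Real.pi_lt_d2
  have hpi0 := Real.pi_pos
  have hn0 : 0 ≤ nsq f v := by
    unfold nsq
    exact Finset.sum_nonneg fun _ _ => by positivity
  have h3 : X ^ 2 + 4 * Real.pi * (v + 1) ≤ 28 * v := by
    have : Real.pi * (v + 1) ≤ 3.15 * (2 * v) := by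
      refine mul_le_mul hpi.le (by linarith) (by positivity) (by norm_num)
    nlinarith
  have h4 : (X ^ 2 + 4 * Real.pi * (v + 1)) * nsq f v ≤ 28 * v * v :=
    mul_le_mul h3 hn hn0 (by positivity)
  have h5 : (F.card : ℝ) * ((v : ℝ) / (2 * T)) ^ 2 ≤ 28 * v * v := (h2.trans h1).trans h4
  have h6 : (F.card : ℝ) * ((v : ℝ) / (2 * T)) ^ 2 = (F.card : ℝ) / (4 * T ^ 2) * (v * v) := by
    field_simp
    ring
  rw [h6, mul_assoc] at h5
  have h7 : (F.card : ℝ) / (4 * T ^ 2) ≤ 28 := le_of_mul_le_mul_right h5 (by positivity)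
  rw [div_le_iff₀ (by positivity)] at h7
  linarith

/-- the discretisation of the length -/
private theorem disc {j : PC} {u : ℕ} {T : ℝ} (hT : 1 ≤ T) (hu : 8 * T ≤ u)
    (hbad : (u : ℝ) / T < ‖mus j u‖) : ∃ k : ℕ, (k : ℝ) ≤ 8 * T * Real.log u ∧
      1 ≤ ⌊Real.exp (k * (1 / (8 * T)))⌋₊ ∧ (u : ℝ) ≤ 2 * ⌊Real.exp (k * (1 / (8 * T)))⌋₊ ∧
      (⌊Real.exp (k * (1 / (8 * T)))⌋₊ : ℝ) / (2 * T) ≤
        ‖mus j ⌊Real.exp (k * (1 / (8 * T)))⌋₊‖ := by
  have hT0 : 0 < T := by linarith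
  have hu8 : (8 : ℝ) ≤ u := by linarith
  have hu0 : (0 : ℝ) < u := by linarith
  obtain ⟨η, hη⟩ : ∃ η : ℝ, η = 1 / (8 * T) := ⟨_, rfl⟩
  have hη0 : 0 < η := by rw [hη]; positivity
  have hηT : η * (8 * T) = 1 := by rw [hη]; field_simp
  have hη8 : η ≤ 1 / 8 := by
    rw [hη]
    exact one_div_le_one_div_of_le (by norm_num) (by linarith)
  rw [← hη]
  have hlog : 0 ≤ Real.log u := Real.log_nonneg (by linarith)
  refine ⟨⌊8 * T * Real.log u⌋₊, Nat.floor_le (by positivity), ?_⟩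
  set k := ⌊8 * T * Real.log u⌋₊ with hk
  have hk1 : (k : ℝ) ≤ 8 * T * Real.log u := Nat.floor_le (by positivity)
  have hk2 : 8 * T * Real.log u < k + 1 := Nat.lt_floor_add_one _
  have hk3 : (k : ℝ) * η ≤ Real.log u := by nlinarith
  have hk4 : Real.log u - η ≤ k * η := by nlinarith
  have hx1 : Real.exp (k * η) ≤ u := by
    rw [← Real.exp_log hu0]
    exact Real.exp_le_exp.2 hk3
  have hx2 : (u : ℝ) * (1 - η) ≤ Real.exp (k * η) := by
    have h1 : Real.exp (Real.log u - η) ≤ Real.exp (k * η) := Real.exp_le_exp.2 hk4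
    rw [sub_eq_add_neg, Real.exp_add, Real.exp_log hu0] at h1
    have h2 := Real.add_one_le_exp (-η)
    nlinarith
  set v := ⌊Real.exp (k * η)⌋₊ with hv
  have hv1 : (v : ℝ) ≤ Real.exp (k * η) := Nat.floor_le (Real.exp_pos _).le
  have hv2 : Real.exp (k * η) < v + 1 := Nat.lt_floor_add_one _
  have hvu : v ≤ u := by
    have : (v : ℝ) ≤ u := hv1.trans hx1
    exact_mod_cast this
  have hvl : (u : ℝ) * (1 - η) - 1 ≤ v := by linarith
  have hvl2 : (u : ℝ) * (7 / 8) - 1 ≤ v := by nlinarith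
  have hv6 : (1 : ℝ) ≤ v := by linarith
  refine ⟨by exact_mod_cast hv6, by linarith, ?_⟩
  have h1 := mus_diff j hvu
  have h2 : (u : ℝ) * η = u / T / 8 := by
    rw [hη]
    field_simp
  have h3 : (8 : ℝ) ≤ u / T := by
    rw [le_div_iff₀ hT0]
    exact hu
  have h4 : (v : ℝ) / (2 * T) ≤ u / T / 2 := by
    rw [div_div, mul_comm T 2]
    exact div_le_div_of_nonneg_right (by exact_mod_cast hvu) (by positivity)
  linarith

/-- There are at most `(log N)^C` bad primitive characters to moduli `≤ N^(1/20)`. -/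
theorem bad_card (A : ℝ) : ∃ C : ℝ, ∀ᶠ N : ℕ in atTop, ∀ F : Finset PC,
    Prims ((N : ℝ) ^ (1 / 20 : ℝ)) F → (∀ j ∈ F, Bad A N j) → (F.card : ℝ) ≤ Real.log N ^ C := by
  classical
  obtain ⟨A', hA', hAA'⟩ : ∃ A' : ℝ, 0 ≤ A' ∧ A ≤ A' := ⟨max A 0, le_max_right _ _, le_max_left _ _⟩
  refine ⟨3 * A' + 3, ?_⟩
  have e1 : ∀ᶠ N : ℕ in atTop, 50 ≤ Real.log N :=
    (Real.tendsto_log_atTop.comp tendsto_natCast_atTop_atTop).eventually_ge_atTop 50
  have e2 : ∀ᶠ N : ℕ in atTop, 8 * Real.log N ^ A' ≤ (N : ℝ) ^ (1 / 10 : ℝ) := by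
    have h := (isLittleO_log_rpow_rpow_atTop A' (by norm_num : (0 : ℝ) < 1 / 10)).def
      (by norm_num : (0 : ℝ) < 1 / 8)
    have h' := tendsto_natCast_atTop_atTop.eventually h
    filter_upwards [h', e1] with N hN hL
    rw [Real.norm_of_nonneg (by positivity), Real.norm_of_nonneg (by positivity)] at hN
    linarith
  filter_upwards [e1, e2, eventually_ge_atTop 10] with N hL hN h10 F hF hbad
  obtain ⟨L, hLdef⟩ : ∃ L, L = Real.log N := ⟨_, rfl⟩
  rw [← hLdef] at hL hN ⊢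
  obtain ⟨T, hTdef⟩ : ∃ T, T = L ^ A' := ⟨_, rfl⟩
  rw [← hTdef] at hN
  have hL1 : 1 ≤ L := by linarith
  have hT : 1 ≤ T := by
    rw [hTdef]
    exact Real.one_le_rpow hL1 hA'
  have hT0 : 0 < T := by linarith
  have hN10 : (10 : ℝ) ≤ N := by exact_mod_cast h10
  have hN0 : (0 : ℝ) < N := by linarith
  obtain ⟨v, hv⟩ : ∃ v : ℕ → ℕ, v = fun k : ℕ => ⌊Real.exp ((k : ℝ) * (1 / (8 * T)))⌋₊ := ⟨_, rfl⟩
  obtain ⟨X, hX⟩ : ∃ X : ℝ, X = (N : ℝ) ^ (1 / 20 : ℝ) := ⟨_, rfl⟩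
  rw [← hX] at hF
  have hX2 : X ^ 2 = (N : ℝ) ^ (1 / 10 : ℝ) := by
    rw [hX, ← Real.rpow_natCast, ← Real.rpow_mul hN0.le]
    norm_num
  obtain ⟨G, hG⟩ : ∃ G : ℕ → Finset PC, G = fun k => F.filter (fun j => 1 ≤ v k ∧
    X ^ 2 ≤ 2 * (v k : ℝ) ∧ (v k : ℝ) / (2 * T) ≤ ‖mus j (v k)‖) := ⟨_, rfl⟩
  have hGc : ∀ k, ((G k).card : ℝ) ≤ 112 * T ^ 2 := by
    intro k
    by_cases h : 1 ≤ v k ∧ X ^ 2 ≤ 2 * (v k : ℝ)
    · refine card_one (X := X) ?_ h.1 h.2 hT0 ?_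
      · intro j hj
        rw [hG] at hj
        exact hF j (Finset.mem_filter.1 hj).1
      · intro j hj
        rw [hG] at hj
        exact (Finset.mem_filter.1 hj).2.2.2
    · have : G k = ∅ := by
        rw [hG]
        refine Finset.filter_eq_empty_iff.2 fun j _ hj => h ⟨hj.1, hj.2.1⟩
      rw [this, Finset.card_empty, Nat.cast_zero]
      positivity
  have hcov : F ⊆ (range (⌊16 * T * L⌋₊ + 1)).biUnion G := by
    intro j hj
    obtain ⟨u, hu1, hu2, hu3⟩ := hbad j hj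
    rw [← hLdef] at hu3
    have hLA : L ^ A ≤ T := by
      rw [hTdef]
      exact Real.rpow_le_rpow_of_exponent_le hL1 hAA'
    have hLA0 : 0 < L ^ A := Real.rpow_pos_of_pos (by linarith) A
    have hu4 : (u : ℝ) / T < ‖mus j u‖ := by
      refine lt_of_le_of_lt ?_ hu3
      exact div_le_div_of_nonneg_left (Nat.cast_nonneg u) hLA0 hLA
    have hu5 : 8 * T ≤ u := hN.trans hu1
    obtain ⟨k, hk1, hk2, hk3, hk4⟩ := disc hT hu5 hu4
    have hvk : ⌊Real.exp (k * (1 / (8 * T)))⌋₊ = v k := by rw [hv]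
    rw [hvk] at hk2 hk3 hk4
    rw [Finset.mem_biUnion]
    refine ⟨k, ?_, ?_⟩
    · rw [Finset.mem_range, Nat.lt_succ_iff]
      refine Nat.le_floor (hk1.trans ?_)
      have hu0 : (0 : ℝ) < u := by linarith
      have h1 : Real.log u ≤ 2 * L := by
        have h2 : Real.log u ≤ Real.log (10 * N) :=
          Real.log_le_log hu0 (by exact_mod_cast hu2)
        rw [Real.log_mul (by norm_num) hN0.ne', ← hLdef] at h2
        have h3 : Real.log 10 ≤ L := by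
          rw [hLdef]
          exact Real.log_le_log (by norm_num) hN10
        linarith
      nlinarith
    · rw [hG]
      exact Finset.mem_filter.2 ⟨hj, hk2, by rw [hX2]; linarith, hk4⟩
  have hc1 : (F.card : ℝ) ≤ ∑ k ∈ range (⌊16 * T * L⌋₊ + 1), ((G k).card : ℝ) := by
    have := (Finset.card_le_card hcov).trans Finset.card_biUnion_le
    exact_mod_cast this
  have hc2 : (F.card : ℝ) ≤ (⌊16 * T * L⌋₊ + 1) * (112 * T ^ 2) := by
    refine hc1.trans ((Finset.sum_le_sum fun k _ => hGc k).trans ?_)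
    rw [Finset.sum_const, Finset.card_range, nsmul_eq_mul]
    push_cast
    exact le_rfl
  have hfl : (⌊16 * T * L⌋₊ : ℝ) ≤ 16 * T * L := Nat.floor_le (by positivity)
  have hTL : 1 ≤ T * L := by nlinarith
  have hc3 : (F.card : ℝ) ≤ 1904 * (T ^ 3 * L) := by
    have h1 : (⌊16 * T * L⌋₊ + 1) * (112 * T ^ 2) ≤ (17 * (T * L)) * (112 * T ^ 2) :=
      mul_le_mul_of_nonneg_right (by linarith) (by positivity)
    calc (F.card : ℝ) ≤ _ := hc2
      _ ≤ _ := h1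
      _ = _ := by ring
  have hp : L ^ (3 * A' + 3) = T ^ 3 * L ^ 3 := by
    have hL0 : 0 < L := by linarith
    have f1 : L ^ (3 * A') = (L ^ A') ^ 3 := by
      rw [mul_comm, Real.rpow_mul hL0.le]
      exact_mod_cast Real.rpow_natCast (L ^ A') 3
    have f2 : L ^ (3 : ℝ) = L ^ 3 := by exact_mod_cast Real.rpow_natCast L 3
    rw [Real.rpow_add hL0, hTdef, f1, f2]
  rw [hp]
  have h1904 : 1904 ≤ L ^ 2 := by nlinarith
  calc (F.card : ℝ) ≤ 1904 * (T ^ 3 * L) := hc3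
    _ ≤ L ^ 2 * (T ^ 3 * L) := mul_le_mul_of_nonneg_right h1904 (by positivity)
    _ = T ^ 3 * L ^ 3 := by ring

end PGB
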