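import Pool.Agent.PGB.Defs

/-!
# Project PGB, Grp: sums over moduli `q₀ r` grouped by primitive characters

PROOFS.
* `phi_low`: `n ≤ (Nat.log 2 n + 1) φ(n)`.  `n / φ(n) = ∏_{p ∣ n} p/(p-1)` (`Nat.totient_eq_mul_prod_factors`)
  and for distinct primes `p_1 < … < p_ω` one has `p_i ≥ i + 1`, so the product is at most
  `∏_{i ≤ ω} (i+1)/i = ω + 1`, and `2^ω ≤ n`.  (Induction on the set of primes, largest element
  removed: a finite set of `ω` integers `≥ 2` has maximum `≥ ω + 1`.)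
* `phi_sum`: `∑_{n ≤ R} 1/φ(n) ≤ (Nat.log 2 R + 1)(1 + log R)` from `phi_low` and
  `harmonic_le_one_add_log`.
* `grp`: exchange the sums: the left side is `∑_{j ∈ J} g(j) ∑_{r ∈ R, j ∈ PR (q₀ r)} 1/φ(q₀ r)`,
  `J` the union.  If `j ∈ PR (q₀ r)`, `d = j.1 ∣ q₀ r`, `(q₀, r) = 1`: `d = gcd(d, q₀) gcd(d, r)`
  (`Nat.Coprime.gcd_mul`), so `sj q₀ j = gcd(d, r)` divides `r`; write `r = s r'`, `s = sj q₀ j ≥ 1`;
  `φ(q₀ r) = φ(q₀) φ(r)` (`Nat.totient_mul`), `φ(s r') ≥ φ(s) φ(r')`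
  (`Nat.totient_super_multiplicative`), `r' ≤ R₀`.  So the inner sum is at most
  `(1/φ(q₀)) (1/φ(s)) ∑_{r' ≤ R₀} 1/φ(r')`, with `1/φ(s) ≤ (Nat.log 2 R₀ + 1)/s` (`phi_low`, `s ≤ R₀`)
  and `phi_sum`.
-/

set_option autoImplicit false

open Finset

namespace PGB

private theorem prod_low (S : Finset ℕ) : (∀ p ∈ S, 2 ≤ p) →
    (1 : ℝ) / (S.card + 1) ≤ ∏ p ∈ S, (1 - (p : ℝ)⁻¹) := by
  induction S using Finset.induction_on_max with
  | empty => intro _; simp
  | insert a s hlt ih =>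
    intro h
    have has : a ∉ s := fun ha => lt_irrefl a (hlt a ha)
    have ih' := ih (fun p hp => h p (Finset.mem_insert_of_mem hp))
    have ha2 : 2 ≤ a := h a (Finset.mem_insert_self _ _)
    have hsub : s ⊆ Finset.Ico 2 a := by
      intro x hx
      rw [Finset.mem_Ico]
      exact ⟨h x (Finset.mem_insert_of_mem hx), hlt x hx⟩
    have hcard : s.card + 2 ≤ a := by
      have := Finset.card_le_card hsub
      rw [Nat.card_Ico] at this
      omega
    rw [Finset.prod_insert has, Finset.card_insert_of_notMem has]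
    have ha0 : (0 : ℝ) < a := by
      have : 0 < a := by omega
      exact_mod_cast this
    have hc : (s.card : ℝ) + 2 ≤ a := by exact_mod_cast hcard
    have hs0 : (0 : ℝ) ≤ s.card := by positivity
    have h1 : ((s.card : ℝ) + 1) / (s.card + 2) ≤ 1 - (a : ℝ)⁻¹ := by
      rw [div_le_iff₀ (by positivity)]
      have h2 : (a : ℝ)⁻¹ * (s.card + 2) ≤ 1 := by
        rw [inv_mul_le_iff₀ ha0]
        linarith
      nlinarith
    push_cast
    calc (1 : ℝ) / (s.card + 1 + 1)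
        = ((s.card : ℝ) + 1) / (s.card + 2) * (1 / (s.card + 1)) := by
          field_simp
          ring
      _ ≤ (1 - (a : ℝ)⁻¹) * ∏ p ∈ s, (1 - (p : ℝ)⁻¹) := by
          apply mul_le_mul h1 ih' (by positivity)
          have : 0 ≤ ((s.card : ℝ) + 1) / (s.card + 2) := by positivity
          linarith

theorem phi_low (n : ℕ) : (n : ℝ) ≤ (Nat.log 2 n + 1) * Nat.totient n := by
  rcases Nat.eq_zero_or_pos n with h0 | hn
  · subst h0
    simp
  have h1 : ((Nat.totient n : ℕ) : ℝ) = n * ∏ p ∈ n.primeFactors, (1 - (p : ℝ)⁻¹) := by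
    have := Nat.totient_eq_mul_prod_factors n
    have h2 := congrArg (fun q : ℚ => (q : ℝ)) this
    push_cast at h2
    exact h2
  have h2 := prod_low n.primeFactors (fun p hp => (Nat.prime_of_mem_primeFactors hp).two_le)
  have h3 : 2 ^ n.primeFactors.card ≤ n := by
    calc 2 ^ n.primeFactors.card ≤ ∏ p ∈ n.primeFactors, p :=
          Finset.pow_card_le_prod _ _ _
            (fun p hp => (Nat.prime_of_mem_primeFactors hp).two_le)
      _ ≤ n := Nat.le_of_dvd hn (Nat.prod_primeFactors_dvd n)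
  have h4 : n.primeFactors.card ≤ Nat.log 2 n := Nat.le_log_of_pow_le (by norm_num) h3
  have h5 : (n.primeFactors.card : ℝ) ≤ Nat.log 2 n := by exact_mod_cast h4
  have hn0 : (0 : ℝ) < n := by exact_mod_cast hn
  have h6 : (1 : ℝ) / (Nat.log 2 n + 1) ≤ ∏ p ∈ n.primeFactors, (1 - (p : ℝ)⁻¹) := by
    refine le_trans ?_ h2
    apply one_div_le_one_div_of_le (by positivity)
    linarith
  rw [h1]
  have h7 : (0 : ℝ) < Nat.log 2 n + 1 := by positivity
  calc (n : ℝ) = (Nat.log 2 n + 1) * (n * (1 / (Nat.log 2 n + 1))) := by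
        field_simp
    _ ≤ (Nat.log 2 n + 1) * (n * ∏ p ∈ n.primeFactors, (1 - (p : ℝ)⁻¹)) := by
        apply mul_le_mul_of_nonneg_left _ h7.le
        exact mul_le_mul_of_nonneg_left h6 hn0.le

private theorem inv_phi {n R : ℕ} (hn : 1 ≤ n) (hR : n ≤ R) :
    (1 : ℝ) / Nat.totient n ≤ (Nat.log 2 R + 1) * (n : ℝ)⁻¹ := by
  have h1 := phi_low n
  have h2 : (0 : ℝ) < n := by exact_mod_cast hn
  have h3 : (0 : ℝ) < Nat.totient n := by exact_mod_cast Nat.totient_pos.2 hn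
  have h4 : (Nat.log 2 n : ℝ) ≤ Nat.log 2 R := by
    exact_mod_cast Nat.log_mono_right hR
  rw [div_le_iff₀ h3]
  have h5 : (n : ℝ) ≤ (Nat.log 2 R + 1) * Nat.totient n := by nlinarith
  calc (1 : ℝ) = (n : ℝ)⁻¹ * n := by field_simp
    _ ≤ (n : ℝ)⁻¹ * ((Nat.log 2 R + 1) * Nat.totient n) :=
        mul_le_mul_of_nonneg_left h5 (by positivity)
    _ = _ := by ring

theorem phi_sum (R : ℕ) (hR : 1 ≤ R) :
    ∑ n ∈ Icc 1 R, (1 : ℝ) / Nat.totient n ≤ (Nat.log 2 R + 1) * (1 + Real.log R) := by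
  calc ∑ n ∈ Icc 1 R, (1 : ℝ) / Nat.totient n
      ≤ ∑ n ∈ Icc 1 R, (Nat.log 2 R + 1) * (n : ℝ)⁻¹ := by
        apply Finset.sum_le_sum
        intro n hn
        rw [Finset.mem_Icc] at hn
        exact inv_phi hn.1 hn.2
    _ = (Nat.log 2 R + 1) * ((harmonic R : ℚ) : ℝ) := by
        rw [harmonic_eq_sum_Icc, ← Finset.mul_sum]
        push_cast
        rfl
    _ ≤ (Nat.log 2 R + 1) * (1 + Real.log R) :=
        mul_le_mul_of_nonneg_left (harmonic_le_one_add_log R) (by positivity)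

private theorem sj_dvd {q₀ r : ℕ} (hq : 1 ≤ q₀) (hc : r.Coprime q₀) {j : PC}
    (h : j ∈ PR (q₀ * r)) : sj q₀ j ∣ r := by
  rw [mem_PR] at h
  obtain ⟨_, h2, _, _⟩ := h
  have h3 := Nat.Coprime.gcd_mul j.1 hc.symm
  rw [Nat.gcd_eq_left h2] at h3
  have h4 : 0 < Nat.gcd j.1 q₀ := Nat.gcd_pos_of_pos_right _ hq
  have h5 : sj q₀ j = Nat.gcd j.1 r := by
    unfold sj
    exact Nat.div_eq_of_eq_mul_right h4 h3
  rw [h5]
  exact Nat.gcd_dvd_right _ _

open Classical in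
private theorem inner {q₀ R₀ : ℕ} (hq : 1 ≤ q₀) (hR₀ : 1 ≤ R₀) (R : Finset ℕ)
    (hR : ∀ r ∈ R, 1 ≤ r ∧ r ≤ R₀ ∧ r.Coprime q₀) {j : PC}
    (hj : j ∈ R.biUnion (fun r => PR (q₀ * r))) :
    ∑ r ∈ R with j ∈ PR (q₀ * r), (1 : ℝ) / Nat.totient (q₀ * r) ≤
      (Nat.log 2 R₀ + 1) ^ 2 * (1 + Real.log R₀) / Nat.totient q₀ * (1 / sj q₀ j) := by
  set s : ℕ := sj q₀ j with hs
  obtain ⟨r₁, hr₁, hj₁⟩ := Finset.mem_biUnion.1 hj
  have hs1 : s ∣ r₁ := sj_dvd hq (hR r₁ hr₁).2.2 hj₁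
  have hsp : 1 ≤ s := Nat.pos_of_dvd_of_pos hs1 (hR r₁ hr₁).1
  have hsR : s ≤ R₀ := le_trans (Nat.le_of_dvd (hR r₁ hr₁).1 hs1) (hR r₁ hr₁).2.1
  have hq0 : (0 : ℝ) < Nat.totient q₀ := by exact_mod_cast Nat.totient_pos.2 hq
  have hs0 : (0 : ℝ) < Nat.totient s := by exact_mod_cast Nat.totient_pos.2 hsp
  set Fj : Finset ℕ := R.filter (fun r => j ∈ PR (q₀ * r)) with hF
  have hdv : ∀ r ∈ Fj, s ∣ r := by
    intro r hr
    rw [hF, Finset.mem_filter] at hr
    exact sj_dvd hq (hR r hr.1).2.2 hr.2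
  have hRF : ∀ r ∈ Fj, r ∈ R := fun r hr => (Finset.mem_filter.1 hr).1
  have hm : ∀ r ∈ Fj, r / s ∈ Icc 1 R₀ := by
    intro r hr
    have h1 := hR r (hRF r hr)
    rw [Finset.mem_Icc]
    refine ⟨?_, le_trans (Nat.div_le_self _ _) h1.2.1⟩
    exact Nat.div_pos (Nat.le_of_dvd h1.1 (hdv r hr)) hsp
  have hinj : Set.InjOn (fun r => r / s) (Fj : Set ℕ) := by
    intro r hr r' hr' he
    have h1 := Nat.div_mul_cancel (hdv r hr)
    have h2 := Nat.div_mul_cancel (hdv r' hr')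
    simp only at he
    rw [← h1, ← h2, he]
  have hterm : ∀ r ∈ Fj, (1 : ℝ) / Nat.totient (q₀ * r) ≤
      (1 / (Nat.totient q₀ * Nat.totient s)) * (1 / Nat.totient (r / s)) := by
    intro r hr
    have h1 := hR r (hRF r hr)
    have h2 : Nat.totient (q₀ * r) = Nat.totient q₀ * Nat.totient r :=
      Nat.totient_mul h1.2.2.symm
    have h3 : Nat.totient s * Nat.totient (r / s) ≤ Nat.totient r := by
      have := Nat.totient_super_multiplicative s (r / s)
      rwa [Nat.mul_div_cancel' (hdv r hr)] at this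
    have h4 : (0 : ℝ) < Nat.totient (r / s) := by
      have := (Finset.mem_Icc.1 (hm r hr)).1
      exact_mod_cast Nat.totient_pos.2 this
    rw [h2, one_div_mul_one_div]
    apply one_div_le_one_div_of_le (by positivity)
    push_cast
    rw [mul_assoc]
    apply mul_le_mul_of_nonneg_left _ hq0.le
    exact_mod_cast h3
  calc ∑ r ∈ Fj, (1 : ℝ) / Nat.totient (q₀ * r)
      ≤ ∑ r ∈ Fj, (1 / (Nat.totient q₀ * Nat.totient s)) * (1 / Nat.totient (r / s) : ℝ) :=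
        Finset.sum_le_sum hterm
    _ = (1 / (Nat.totient q₀ * Nat.totient s)) *
          ∑ m ∈ Fj.image (fun r => r / s), (1 : ℝ) / Nat.totient m := by
        rw [← Finset.mul_sum, Finset.sum_image hinj]
    _ ≤ (1 / (Nat.totient q₀ * Nat.totient s)) *
          ∑ m ∈ Icc 1 R₀, (1 : ℝ) / Nat.totient m := by
        apply mul_le_mul_of_nonneg_left _ (by positivity)
        apply Finset.sum_le_sum_of_subset_of_nonneg
        · intro m hm'
          obtain ⟨r, hr, rfl⟩ := Finset.mem_image.1 hm'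
          exact hm r hr
        · intro m _ _
          positivity
    _ ≤ (1 / (Nat.totient q₀ * Nat.totient s)) *
          ((Nat.log 2 R₀ + 1) * (1 + Real.log R₀)) :=
        mul_le_mul_of_nonneg_left (phi_sum R₀ hR₀) (by positivity)
    _ = (1 / Nat.totient s : ℝ) *
          ((Nat.log 2 R₀ + 1) * (1 + Real.log R₀) / Nat.totient q₀) := by
        field_simp
    _ ≤ ((Nat.log 2 R₀ + 1) * (s : ℝ)⁻¹) *
          ((Nat.log 2 R₀ + 1) * (1 + Real.log R₀) / Nat.totient q₀) := by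
        apply mul_le_mul_of_nonneg_right (inv_phi hsp hsR)
        have : 0 ≤ Real.log R₀ := Real.log_nonneg (by exact_mod_cast hR₀)
        positivity
    _ = _ := by
        rw [one_div]
        ring

open Classical in
theorem grp {q₀ R₀ : ℕ} (hq : 1 ≤ q₀) (hR₀ : 1 ≤ R₀) (R : Finset ℕ)
    (hR : ∀ r ∈ R, 1 ≤ r ∧ r ≤ R₀ ∧ r.Coprime q₀) (g : PC → ℝ) (hg : ∀ j, 0 ≤ g j) :
    ∑ r ∈ R, (∑ j ∈ PR (q₀ * r), g j) / Nat.totient (q₀ * r) ≤
      (Nat.log 2 R₀ + 1) ^ 2 * (1 + Real.log R₀) / Nat.totient q₀ *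
        ∑ j ∈ R.biUnion (fun r => PR (q₀ * r)), g j / sj q₀ j := by
  set J : Finset PC := R.biUnion (fun r => PR (q₀ * r)) with hJ
  have h1 : ∀ r ∈ R, (∑ j ∈ PR (q₀ * r), g j) / Nat.totient (q₀ * r) =
      ∑ j ∈ J, if j ∈ PR (q₀ * r) then g j * ((1 : ℝ) / Nat.totient (q₀ * r)) else 0 := by
    intro r hr
    rw [← Finset.sum_filter]
    have h2 : J.filter (fun j => j ∈ PR (q₀ * r)) = PR (q₀ * r) := by
      ext j
      rw [Finset.mem_filter]
      constructor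
      · exact fun h => h.2
      · intro h
        exact ⟨Finset.mem_biUnion.2 ⟨r, hr, h⟩, h⟩
    rw [h2, ← Finset.sum_mul, mul_one_div]
  rw [Finset.sum_congr rfl h1, Finset.sum_comm, Finset.mul_sum]
  apply Finset.sum_le_sum
  intro j hj
  rw [← Finset.sum_filter, ← Finset.mul_sum]
  calc g j * ∑ r ∈ R with j ∈ PR (q₀ * r), (1 : ℝ) / Nat.totient (q₀ * r)
      ≤ g j * ((Nat.log 2 R₀ + 1) ^ 2 * (1 + Real.log R₀) / Nat.totient q₀ * (1 / sj q₀ j)) :=
        mul_le_mul_of_nonneg_left (inner hq hR₀ R hR hj) (hg j)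
    _ = _ := by ring

end PGB
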