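import Pool.Agent.PGB.Lsb
import Pool.Agent.Helper4.ST.LS

/-!
# Project PGB, Lsv: consequences of the large sieve

PROOFS.
* `ls_Ls`: `Pool.Agent.Helper4.ST.large_sieve_prim` with the modulus bound `⌊X⌋₊`, the length `P` and
  the coefficients `a n = f n * n^(-s)`; `‖a n‖ ≤ ‖f n‖` (for `n ≥ 1` as `Re s ≥ 0`, for `n = 0` both
  vanish); `(⌊X⌋₊)^2 ≤ X^2`; `Ls_eq_sum`.
* `ls_ws`: the same with `a n = wt y Δ n * f n`, `0 ≤ wt ≤ 1`.
* `card_le`: the moduli of `F` are in `[2, ⌊X⌋₊]`, and there are at most `φ(q) ≤ q` characters modulo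
  `q` (`DirichletCharacter.card_eq_totient_of_hasEnoughRootsOfUnity`), so the number is at most
  `∑_{2 ≤ q ≤ X} φ(q) ≤ ∑_{2 ≤ q ≤ X} (q - 1) ≤ X^2`.
* `ls_cauchy`: Cauchy-Schwarz (`Finset.sum_mul_sq_le_sq_mul_sq` or `Finset.inner_mul_le_norm_mul_norm`)
  and `ls_Ls` for both factors.
* `ls_one`: Cauchy-Schwarz with the constant `1`, `card_le`, `ls_ws`.
-/

set_option autoImplicit false

open Finset

namespace PGB

private theorem lsv_core {X : ℝ} {F : Finset PC} (hF : Prims X F) {P : ℕ} {f a : ℕ → ℂ}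
    (ha : ∀ n, ‖a n‖ ≤ ‖f n‖) :
    ∑ j ∈ F, ‖∑ n ∈ range (P + 1), a n * j.2 (n : ZMod j.1)‖ ^ 2 ≤
      (X ^ 2 + 4 * Real.pi * (P + 1)) * nsq f P := by
  have hfl : ((⌊X⌋₊ : ℕ) : ℝ) ^ 2 ≤ X ^ 2 := by
    rcases le_total 0 X with h | h
    · exact pow_le_pow_left₀ (Nat.cast_nonneg _) (Nat.floor_le h) 2
    · rw [Nat.floor_of_nonpos h]
      simp only [Nat.cast_zero]
      nlinarith [sq_nonneg X]
  have h1 := Pool.Agent.Helper4.ST.large_sieve_prim ⌊X⌋₊ P F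
    (fun j hj => ⟨(hF j hj).1, Nat.le_floor (hF j hj).2.1, (hF j hj).2.2⟩) a
  have h2 : ∑ n ∈ range (P + 1), ‖a n‖ ^ 2 ≤ nsq f P := by
    unfold nsq
    exact sum_le_sum fun n _ => pow_le_pow_left₀ (norm_nonneg _) (ha n) 2
  have h3 : 0 ≤ nsq f P := by
    unfold nsq
    positivity
  have h4 : 0 ≤ ((⌊X⌋₊ : ℕ) : ℝ) ^ 2 + 4 * Real.pi * ((P : ℝ) + 1) := by positivity
  calc _ ≤ _ := h1
    _ ≤ (((⌊X⌋₊ : ℕ) : ℝ) ^ 2 + 4 * Real.pi * ((P : ℝ) + 1)) * nsq f P :=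
        mul_le_mul_of_nonneg_left h2 h4
    _ ≤ (X ^ 2 + 4 * Real.pi * (P + 1)) * nsq f P :=
        mul_le_mul_of_nonneg_right (by linarith) h3

theorem ls_Ls {X : ℝ} {F : Finset PC} (hF : Prims X F) {P : ℕ} {f : ℕ → ℂ} (hf : Supp P f)
    {s : ℂ} (hs : 0 ≤ s.re) :
    ∑ j ∈ F, ‖Ls f j s‖ ^ 2 ≤ (X ^ 2 + 4 * Real.pi * (P + 1)) * nsq f P := by
  refine le_trans (le_of_eq ?_) (lsv_core hF (P := P) (f := f)
    (a := fun n => f n * (n : ℂ) ^ (-s)) ?_)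
  · refine sum_congr rfl fun j _ => ?_
    rw [Ls_eq_sum hf j s]
    congr 2
    refine sum_congr rfl fun n _ => ?_
    unfold ch
    ring
  · intro n
    rcases Nat.eq_zero_or_pos n with h | h
    · rw [hf n (Or.inl h)]
      simp
    · rw [norm_mul, Complex.norm_natCast_cpow_of_pos h]
      refine mul_le_of_le_one_right (norm_nonneg _) ?_
      refine Real.rpow_le_one_of_one_le_of_nonpos (by exact_mod_cast h) ?_
      rw [Complex.neg_re]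
      linarith

theorem ls_ws {X : ℝ} {F : Finset PC} (hF : Prims X F) {P : ℕ} {f : ℕ → ℂ} (hf : Supp P f)
    {y Δ : ℝ} (hΔ : 0 < Δ) :
    ∑ j ∈ F, ‖ws y Δ f P j‖ ^ 2 ≤ (X ^ 2 + 4 * Real.pi * (P + 1)) * nsq f P := by
  refine le_trans (le_of_eq ?_) (lsv_core hF (P := P) (f := f)
    (a := fun n => (wt y Δ n : ℂ) * f n) ?_)
  · refine sum_congr rfl fun j _ => ?_
    unfold ws
    congr 2
    refine sum_congr rfl fun n _ => ?_
    unfold ch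
    ring
  · intro n
    rw [norm_mul, Complex.norm_real, Real.norm_eq_abs, abs_of_nonneg (wt_nonneg hΔ n)]
    exact mul_le_of_le_one_left (norm_nonneg _) (wt_le_one hΔ n)

theorem card_le {X : ℝ} (hX : 1 ≤ X) {F : Finset PC} (hF : Prims X F) :
    (F.card : ℝ) ≤ X ^ 2 := by
  classical
  have hX0 : 0 ≤ X := by linarith
  have hmaps : ∀ j ∈ F, j.1 ∈ Icc 2 ⌊X⌋₊ := fun j hj => by
    rw [Finset.mem_Icc]
    exact ⟨(hF j hj).1, Nat.le_floor (hF j hj).2.1⟩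
  have h1 : F.card = ∑ q ∈ Icc 2 ⌊X⌋₊, (F.filter (fun j => j.1 = q)).card :=
    card_eq_sum_card_fiberwise hmaps
  have h2 : ∀ q ∈ Icc 2 ⌊X⌋₊, (F.filter (fun j => j.1 = q)).card ≤ ⌊X⌋₊ := by
    intro q hq
    rw [Finset.mem_Icc] at hq
    have : NeZero q := ⟨by omega⟩
    let _ : Fintype (DirichletCharacter ℂ q) := Fintype.ofFinite _
    have h3 : F.filter (fun j => j.1 = q) ⊆
        (Finset.univ : Finset (DirichletCharacter ℂ q)).image (fun χ => (⟨q, χ⟩ : PC)) := by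
      rintro ⟨q', χ⟩ hj
      obtain ⟨_, h4⟩ := Finset.mem_filter.1 hj
      simp only at h4
      subst h4
      exact Finset.mem_image.2 ⟨χ, Finset.mem_univ _, rfl⟩
    refine (card_le_card h3).trans (card_image_le.trans ?_)
    rw [Finset.card_univ, ← Nat.card_eq_fintype_card,
      DirichletCharacter.card_eq_totient_of_hasEnoughRootsOfUnity ℂ q]
    exact (Nat.totient_le q).trans hq.2
  have h3 : F.card ≤ ⌊X⌋₊ * ⌊X⌋₊ := by
    rw [h1]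
    refine (sum_le_card_nsmul _ _ _ h2).trans ?_
    rw [smul_eq_mul, Nat.card_Icc]
    exact Nat.mul_le_mul_right _ (by omega)
  have h4 : (⌊X⌋₊ : ℝ) ≤ X := Nat.floor_le hX0
  calc (F.card : ℝ) ≤ ((⌊X⌋₊ * ⌊X⌋₊ : ℕ) : ℝ) := by exact_mod_cast h3
    _ = (⌊X⌋₊ : ℝ) ^ 2 := by
        push_cast
        ring
    _ ≤ X ^ 2 := pow_le_pow_left₀ (Nat.cast_nonneg _) h4 2

theorem ls_cauchy {X : ℝ} (hX : 1 ≤ X) {F : Finset PC} (hF : Prims X F) {P P' : ℕ}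
    {f g : ℕ → ℂ} (hf : Supp P f) (hg : Supp P' g) {s : ℂ} (hs : 0 ≤ s.re) :
    ∑ j ∈ F, ‖Ls f j s‖ * ‖Ls g j s‖ ≤
      √((X ^ 2 + 4 * Real.pi * (P + 1)) * nsq f P) *
        √((X ^ 2 + 4 * Real.pi * (P' + 1)) * nsq g P') := by
  refine (Real.sum_mul_le_sqrt_mul_sqrt F (fun j => ‖Ls f j s‖) (fun j => ‖Ls g j s‖)).trans ?_
  exact mul_le_mul (Real.sqrt_le_sqrt (ls_Ls hF hf hs)) (Real.sqrt_le_sqrt (ls_Ls hF hg hs))
    (Real.sqrt_nonneg _) (Real.sqrt_nonneg _)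

theorem ls_one {X : ℝ} (hX : 1 ≤ X) {F : Finset PC} (hF : Prims X F) {P : ℕ} {f : ℕ → ℂ}
    (hf : Supp P f) {y Δ : ℝ} (hΔ : 0 < Δ) :
    ∑ j ∈ F, ‖ws y Δ f P j‖ ≤ X * √((X ^ 2 + 4 * Real.pi * (P + 1)) * nsq f P) := by
  have hX0 : 0 ≤ X := by linarith
  have h1 := Real.sum_mul_le_sqrt_mul_sqrt F (fun _ => (1 : ℝ)) (fun j => ‖ws y Δ f P j‖)
  simp only [one_mul, one_pow, sum_const, nsmul_eq_mul, mul_one] at h1
  refine h1.trans ?_
  refine mul_le_mul ?_ (Real.sqrt_le_sqrt (ls_ws hF hf hΔ)) (Real.sqrt_nonneg _) hX0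
  rw [← Real.sqrt_sq hX0]
  exact Real.sqrt_le_sqrt (card_le hX hF)

end PGB
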