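import Pool.Agent.PGB.Pcb
import Pool.Agent.PGB.Lsv

/-!
# Project PGB, T0: short products

PROOF.  Let `E = 2 ^ ∑ e i`, `P = 2 ^ ∑ (e i + 1) = 64 E`, `C'` from `GS_size`.
`ws y Δ G (10 N) j = ws y Δ G P j` by `ws_congr` (`GS_supp` beyond `P`, `wt_eq_zero'` beyond
`10 N ≥ 3 y`; for `N ≥ 1`).  `ls_one` (with `y` of `Ctx`): the sum is at most
`X √((X^2 + 4 π (P + 1)) P (log N)^C') ≤ X (X + √(8 π P) ) √P (log N)^(C'/2)
≤ (X^2 √P + 6 X P) (log N)^(C'/2)` (`√(a + b) ≤ √a + √b`), and `√P = 8 √E`, `P = 64 E`;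
`400 (log N)^(C'/2) ≤ (log N)^C` for `C = C' / 2 + 1` and large `N`.
-/

set_option autoImplicit false

open Finset Filter

namespace PGB

theorem t0 : ∃ C : ℝ, 0 ≤ C ∧ ∀ᶠ N : ℕ in atTop, ∀ (y Δ X : ℝ) (F : Finset PC),
    Ctx N y Δ X F → ∀ (z : ℕ) (e : Fin 6 → ℕ) (c : Fin 6 → Fin 4), 2 ^ ∑ i, e i ≤ 10 * N →
    ∑ j ∈ F, ‖ws y Δ (GS z e c univ) (10 * N) j‖ ≤
      Real.log N ^ C * (X ^ 2 * √(2 ^ ∑ i, e i) + X * 2 ^ ∑ i, e i) := by
  obtain ⟨C', hC', hev⟩ := GS_size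
  refine ⟨C' / 2 + 1, by positivity, ?_⟩
  have hlog : ∀ᶠ N : ℕ in atTop, (400 : ℝ) ≤ Real.log N :=
    (Real.tendsto_log_atTop.comp tendsto_natCast_atTop_atTop).eventually_ge_atTop 400
  filter_upwards [hev, hlog, eventually_ge_atTop 1] with N hN hL hN1
  intro y Δ X F hctx z e c he
  obtain ⟨hy1, hy2, hΔ, hΔ1, hX, hF⟩ := hctx
  have hN1' : (1 : ℝ) ≤ N := by exact_mod_cast hN1
  have hy0 : 0 < y := by linarith
  have hX0 : 0 ≤ X := by linarith
  have hsup := GS_supp z e c univ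
  obtain ⟨hsz, -⟩ := hN z e c univ he
  set P : ℕ := 2 ^ ∑ i, (e i + 1) with hP
  set E : ℝ := 2 ^ ∑ i, e i with hE
  have hPE : (P : ℝ) = 64 * E := by
    rw [hP, hE, Finset.sum_add_distrib]
    simp only [sum_const, card_univ, Fintype.card_fin, smul_eq_mul, mul_one, pow_add]
    push_cast
    ring
  have hE1 : 1 ≤ E := one_le_pow₀ (by norm_num)
  have hcongr : ∀ j : PC, ws y Δ (GS z e c univ) (10 * N) j = ws y Δ (GS z e c univ) P j := by
    intro j
    refine ws_congr j fun n hn => ?_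
    rcases min_lt_iff.1 hn with h | h
    · rw [wt_eq_zero' hy0 hΔ hΔ1]
      · simp
      · have : ((10 * N : ℕ) : ℝ) ≤ n := by exact_mod_cast h.le
        push_cast at this
        linarith
    · rw [hsup n (Or.inr h)]
      simp
  have hsz' : nsq (GS z e c univ) P ≤ (P : ℝ) * Real.log N ^ C' := by
    refine hsz.trans (le_of_eq ?_)
    rw [hP]
    push_cast
    rfl
  have hL0 : 0 ≤ Real.log N := by linarith
  have hLC : 0 ≤ Real.log N ^ C' := Real.rpow_nonneg hL0 _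
  have hP0 : (0 : ℝ) ≤ P := Nat.cast_nonneg _
  have hP1 : (1 : ℝ) ≤ P := by rw [hPE]; linarith
  have hpi : 4 * Real.pi * ((P : ℝ) + 1) ≤ 36 * P := by
    have h1 := Real.pi_lt_d2
    have h2 := Real.pi_pos
    nlinarith
  have hmain : √((X ^ 2 + 4 * Real.pi * (P + 1)) * nsq (GS z e c univ) P) ≤
      (X + 6 * √P) * √P * Real.log N ^ (C' / 2) := by
    rw [Real.sqrt_le_left (by positivity)]
    have h1 : Real.log N ^ (C' / 2) * Real.log N ^ (C' / 2) = Real.log N ^ C' := by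
      rw [← Real.rpow_add (by linarith)]
      congr 1
      ring
    have h2 : √(P : ℝ) * √(P : ℝ) = P := Real.mul_self_sqrt hP0
    have h3 : ((X + 6 * √P) * √P * Real.log N ^ (C' / 2)) ^ 2 =
        (X ^ 2 + 36 * P + 12 * X * √P) * (P * Real.log N ^ C') := by
      calc ((X + 6 * √P) * √P * Real.log N ^ (C' / 2)) ^ 2
          = (X ^ 2 + 36 * (√P * √P) + 12 * X * √P) * ((√P * √P) *
            (Real.log N ^ (C' / 2) * Real.log N ^ (C' / 2))) := by ring
        _ = _ := by rw [h1, h2]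
    rw [h3]
    have h4 : 0 ≤ nsq (GS z e c univ) P := by
      unfold nsq
      positivity
    have h5 : 0 ≤ 12 * X * √P := by positivity
    refine mul_le_mul ?_ hsz' h4 (by positivity)
    linarith
  have hsP : √(P : ℝ) = 8 * √E := by
    rw [hPE, Real.sqrt_mul (by norm_num), show (64 : ℝ) = 8 ^ 2 by norm_num,
      Real.sqrt_sq (by norm_num)]
  have hLL : 400 * Real.log N ^ (C' / 2) ≤ Real.log N ^ (C' / 2 + 1) := by
    rw [Real.rpow_add (by linarith), Real.rpow_one, mul_comm]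
    exact mul_le_mul_of_nonneg_left hL (Real.rpow_nonneg hL0 _)
  have hLh : 0 ≤ Real.log N ^ (C' / 2) := Real.rpow_nonneg hL0 _
  have hsE : 0 ≤ √E := Real.sqrt_nonneg _
  have hE0 : 0 ≤ E := by linarith
  calc ∑ j ∈ F, ‖ws y Δ (GS z e c univ) (10 * N) j‖
      = ∑ j ∈ F, ‖ws y Δ (GS z e c univ) P j‖ := sum_congr rfl fun j _ => by rw [hcongr j]
    _ ≤ X * √((X ^ 2 + 4 * Real.pi * (P + 1)) * nsq (GS z e c univ) P) :=
        ls_one hX hF hsup hΔ
    _ ≤ X * ((X + 6 * √P) * √P * Real.log N ^ (C' / 2)) :=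
        mul_le_mul_of_nonneg_left hmain hX0
    _ = (X ^ 2 * (8 * √E) + 6 * X * (64 * E)) * Real.log N ^ (C' / 2) := by
        have h2 : √(P : ℝ) * √(P : ℝ) = 64 * E := by rw [Real.mul_self_sqrt hP0, hPE]
        calc X * ((X + 6 * √P) * √P * Real.log N ^ (C' / 2))
            = (X ^ 2 * √P + 6 * X * (√P * √P)) * Real.log N ^ (C' / 2) := by ring
          _ = _ := by rw [h2, hsP]
    _ ≤ (400 * (X ^ 2 * √E + X * E)) * Real.log N ^ (C' / 2) := by
        refine mul_le_mul_of_nonneg_right ?_ hLh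
        have h1 : 0 ≤ X ^ 2 * √E := by positivity
        have h2 : 0 ≤ X * E := by positivity
        nlinarith
    _ = (400 * Real.log N ^ (C' / 2)) * (X ^ 2 * √E + X * E) := by ring
    _ ≤ Real.log N ^ (C' / 2 + 1) * (X ^ 2 * √E + X * E) :=
        mul_le_mul_of_nonneg_right hLL (by positivity)

end PGB
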