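import Pool.Agent.PGB.Pcb
import Pool.Agent.PGB.Lsv

/-!
# Project PGB, T1: a long smooth variable

PROOFS.
* `char_sum`: `∑_{a < q} χ(a) = 0` for `χ ≠ 1` (`MulChar.sum_eq_zero_of_ne_one`), so the sum over any
  block of `q` consecutive integers vanishes (periodicity) and
  `‖∑_{n < u} χ(n)‖ ≤ q` (division with remainder; `Nat.div_add_mod`, `Finset.sum_range` over blocks:
  `Finset.sum_range_add`/`Nat.sum_range_mul` or induction on the number of blocks).
* `primitive_ne_one`: a primitive character modulo `q ≥ 2` is not `1`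
  (`DirichletCharacter.conductor_one`).
* `abel`: for real `g` on `[a, b)`, `‖∑_{n ∈ [a, b)} g(n) χ(n)‖ ≤ 2 q (|g(b - 1)| + ∑_{n ∈ [a, b-1)}
  |g(n+1) - g(n)|)`: summation by parts with `S(u) = ∑_{a ≤ n < u} χ(n)`, `‖S(u)‖ ≤ 2 q`
  (`Finset.sum_Ico_by_parts` or induction on `b`).
* `t1`: write `G = GS univ = pc z (e i₀) (c i₀) * B`, `B = GS (univ.erase i₀)`
  (`Finset.mul_prod_erase`).  With `P` larger than `10 N` and all supports (`ws_congr` as in `T0`)
  `ws = ∑_{n ≤ P} w(n) χ(n) ∑_{a b = n} (pc ..)(a) B(b) = ∑_b χ(b) B(b) ∑_a w(a b) χ(a) (pc ..)(a)`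
  (pairs `(a, b)` with `a ∈ [2^e, 2^(e+1))`, `b ≤ P_B := 2 ^ ∑_{i ≠ i₀} (e i + 1)`, `a b ≤ P` if
  `P = 2 ^ ∑ (e i + 1)`), where for `c i₀ = 2, 3` `(pc ..)(a) = (log a)^k`, `k = 0, 1`, on the dyadic
  interval.  For fixed `b ≥ 1` the function `g(a) = w(a b) (log a)^k` has total variation at most
  `3 (1 + log 2^(e+1))`: `w` is nonincreasing in `a` with values in `[0, 1]`
  (`max(A - t, 0) - max(B - t, 0)` is nonincreasing in `t` for `A ≥ B`), `log` is increasing and
  `≤ log 2^(e+1)`: `|g(a+1) - g(a)| ≤ (w(ab) - w((a+1)b)) log^k + (log^k(a+1) - log^k(a))`.  So the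
  inner sum is at most `8 X (1 + log 2^(e+1)) ≤ 8 X * 3 log N` for large `N`
  (`2^(e i₀) ≤ 10 N`), and the total is at most `card F * 24 X log N * ∑_b ‖B(b)‖ ≤
  24 X^3 log N * 32 * 2^(∑_{i ≠ i₀} e i) (log N)^C'` (`card_le`, `GS_size` with `S = univ.erase i₀`).
  Take `C = C' + 2`.
-/

set_option autoImplicit false

open Finset Filter

namespace PGB

theorem primitive_ne_one {j : PC} (hj : 2 ≤ j.1) (hp : j.2.IsPrimitive) : j.2 ≠ 1 := by
  intro h
  have : NeZero j.1 := ⟨by omega⟩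
  have h2 : j.2.conductor = j.1 := hp
  rw [h, DirichletCharacter.conductor_one] at h2
  omega

private theorem block_sum {r : ℕ} [NeZero r] {χ : DirichletCharacter ℂ r} (hχ : χ ≠ 1) (N : ℕ) :
    ∑ n ∈ Finset.range r, χ ((N + n : ℕ) : ZMod r) = 0 := by
  have h1 : ∑ n ∈ Finset.range r, χ ((N + n : ℕ) : ZMod r) =
      ∑ x : ZMod r, χ (((N : ℕ) : ZMod r) + x) := by
    refine Finset.sum_nbij (fun n => (n : ZMod r)) (fun _ _ => Finset.mem_univ _) ?_ ?_ ?_
    · intro a ha b hb hab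
      have ha' := Finset.mem_range.1 (Finset.mem_coe.1 ha)
      have hb' := Finset.mem_range.1 (Finset.mem_coe.1 hb)
      have h2 := (ZMod.natCast_eq_natCast_iff' a b r).1 hab
      rwa [Nat.mod_eq_of_lt ha', Nat.mod_eq_of_lt hb'] at h2
    · intro x _
      exact ⟨x.val, Finset.mem_coe.2 (Finset.mem_range.2 (ZMod.val_lt x)), ZMod.natCast_zmod_val x⟩
    · intro n _
      congr 1
      push_cast
      ring
  have h2 : ∑ x : ZMod r, χ (((N : ℕ) : ZMod r) + x) = ∑ x : ZMod r, χ x :=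
    Equiv.sum_comp (Equiv.addLeft ((N : ℕ) : ZMod r)) (fun x => χ x)
  rw [h1, h2]
  exact MulChar.sum_eq_zero_of_ne_one hχ

theorem char_sum {j : PC} (hj : 1 ≤ j.1) (h1 : j.2 ≠ 1) (u : ℕ) :
    ‖∑ n ∈ range u, ch j n‖ ≤ j.1 := by
  have : NeZero j.1 := ⟨by omega⟩
  have hp : Function.Periodic (fun u : ℕ => ∑ n ∈ range u, ch j n) j.1 := by
    intro u
    show ∑ n ∈ range (u + j.1), ch j n = ∑ n ∈ range u, ch j n
    rw [Finset.sum_range_add]
    have h3 : ∑ n ∈ range j.1, ch j (u + n) = 0 := block_sum h1 u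
    rw [h3, add_zero]
  have h4 : ∑ n ∈ range (u % j.1), ch j n = ∑ n ∈ range u, ch j n := hp.map_mod_nat u
  rw [← h4]
  refine (norm_sum_le _ _).trans ?_
  have h1 : ∑ n ∈ Finset.range (u % j.1), ‖ch j n‖ ≤ ∑ n ∈ Finset.range (u % j.1), (1 : ℝ) :=
    Finset.sum_le_sum fun n _ => norm_ch_le j n
  refine h1.trans ?_
  rw [Finset.sum_const, Finset.card_range, nsmul_eq_mul, mul_one]
  exact_mod_cast (Nat.mod_lt u (by omega)).le

theorem abel {j : PC} (hj : 1 ≤ j.1) (h1 : j.2 ≠ 1) (g : ℕ → ℝ) (a b : ℕ) (hab : a < b) :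
    ‖∑ n ∈ Ico a b, (g n : ℂ) * ch j n‖ ≤
      2 * j.1 * (|g (b - 1)| + ∑ n ∈ Ico a (b - 1), |g (n + 1) - g n|) := by
  obtain ⟨m, rfl⟩ : ∃ m, b = a + m + 1 := ⟨b - a - 1, by omega⟩
  have e0 : a + m + 1 - 1 = a + m := by omega
  rw [e0]
  set T : ℕ → ℂ := fun u => ∑ n ∈ range u, ch j n - ∑ n ∈ range a, ch j n with hT
  have hTb : ∀ u, ‖T u‖ ≤ 2 * j.1 := by
    intro u
    have h2 := char_sum hj h1 u
    have h3 := char_sum hj h1 a
    calc ‖T u‖ ≤ ‖∑ n ∈ range u, ch j n‖ + ‖∑ n ∈ range a, ch j n‖ := norm_sub_le _ _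
      _ ≤ 2 * j.1 := by linarith
  have hTs : ∀ u, T (u + 1) = T u + ch j u := by
    intro u
    simp only [hT, Finset.sum_range_succ]
    ring
  have hTa : T a = 0 := by simp [hT]
  have key : ∀ m : ℕ, ∑ n ∈ Ico a (a + m + 1), (g n : ℂ) * ch j n =
      (g (a + m) : ℂ) * T (a + m + 1) -
        ∑ n ∈ Ico a (a + m), ((g (n + 1) - g n : ℝ) : ℂ) * T (n + 1) := by
    intro m
    induction m with
    | zero => simp [hTs, hTa]
    | succ m ih =>
      have e1 : a + (m + 1) + 1 = (a + m + 1) + 1 := by ring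
      have e2 : a + (m + 1) = (a + m) + 1 := by ring
      rw [e1, e2, Finset.sum_Ico_succ_top (by omega), ih,
        Finset.sum_Ico_succ_top (show a ≤ a + m by omega), hTs (a + m + 1)]
      push_cast
      ring
  rw [key m]
  have h5 : ‖(g (a + m) : ℂ) * T (a + m + 1)‖ ≤ 2 * j.1 * |g (a + m)| := by
    rw [norm_mul, Complex.norm_real, Real.norm_eq_abs]
    have := hTb (a + m + 1)
    nlinarith [abs_nonneg (g (a + m))]
  have h6 : ‖∑ n ∈ Ico a (a + m), ((g (n + 1) - g n : ℝ) : ℂ) * T (n + 1)‖ ≤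
      2 * j.1 * ∑ n ∈ Ico a (a + m), |g (n + 1) - g n| := by
    rw [Finset.mul_sum]
    refine (norm_sum_le _ _).trans (Finset.sum_le_sum fun n _ => ?_)
    rw [norm_mul, Complex.norm_real, Real.norm_eq_abs]
    have := hTb (n + 1)
    nlinarith [abs_nonneg (g (n + 1) - g n)]
  calc _ ≤ ‖(g (a + m) : ℂ) * T (a + m + 1)‖ +
        ‖∑ n ∈ Ico a (a + m), ((g (n + 1) - g n : ℝ) : ℂ) * T (n + 1)‖ := norm_sub_le _ _
    _ ≤ _ := by linarith

/-- The weight is nonincreasing. -/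
private theorem wt_anti {y Δ : ℝ} (hΔ : 0 < Δ) {n m : ℕ} (hn : 1 ≤ n) (hnm : n ≤ m) :
    wt y Δ m ≤ wt y Δ n := by
  have hn' : (0 : ℝ) < n := by exact_mod_cast hn
  have h1 : Real.log n ≤ Real.log m := Real.log_le_log hn' (by exact_mod_cast hnm)
  unfold wt
  rw [div_le_div_iff_of_pos_right hΔ]
  rcases le_total (Real.log y + Δ - Real.log m) 0 with h2 | h2 <;>
    rcases le_total (Real.log y - Real.log m) 0 with h3 | h3 <;>
    rcases le_total (Real.log y + Δ - Real.log n) 0 with h4 | h4 <;>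
    rcases le_total (Real.log y - Real.log n) 0 with h5 | h5 <;>
    simp only [max_eq_left, max_eq_right, h2, h3, h4, h5] <;> linarith

/-- The variation of a product of a nonincreasing and a nondecreasing function. -/
private theorem var_bound (w l : ℕ → ℝ) (a b : ℕ) (hab : a < b) (Λ : ℝ)
    (hw0 : ∀ n, 0 ≤ w n) (hw1 : ∀ n, w n ≤ 1) (hwm : ∀ n, a ≤ n → w (n + 1) ≤ w n)
    (hl0 : ∀ n, a ≤ n → 0 ≤ l n) (hl1 : ∀ n, n < b → l n ≤ Λ)
    (hlm : ∀ n, a ≤ n → l n ≤ l (n + 1)) :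
    |w (b - 1) * l (b - 1)| + ∑ n ∈ Ico a (b - 1), |w (n + 1) * l (n + 1) - w n * l n| ≤
      3 * Λ := by
  obtain ⟨m, rfl⟩ : ∃ m, b = a + m + 1 := ⟨b - a - 1, by omega⟩
  have e0 : a + m + 1 - 1 = a + m := by omega
  rw [e0]
  have hΛ : 0 ≤ Λ := (hl0 a le_rfl).trans (hl1 a hab)
  have h1 : |w (a + m) * l (a + m)| ≤ Λ := by
    have h2 := hw0 (a + m)
    have h3 := hw1 (a + m)
    have h4 := hl0 (a + m) (by omega)
    have h5 := hl1 (a + m) (by omega)
    rw [abs_of_nonneg (mul_nonneg h2 h4)]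
    nlinarith
  have key : ∀ k : ℕ, k ≤ m → ∑ n ∈ Ico a (a + k), |w (n + 1) * l (n + 1) - w n * l n| ≤
      (l (a + k) - l a) + Λ * (w a - w (a + k)) := by
    intro k hk
    induction k with
    | zero => simp
    | succ k ih =>
      have e2 : a + (k + 1) = (a + k) + 1 := by ring
      rw [e2, Finset.sum_Ico_succ_top (by omega)]
      have h2 := ih (by omega)
      have h3 := hwm (a + k) (by omega)
      have h4 := hlm (a + k) (by omega)
      have h5 := hl0 (a + k) (by omega)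
      have h6 := hl1 (a + k) (by omega)
      have h7 := hw0 (a + k + 1)
      have h8 := hw1 (a + k + 1)
      have h9 : |w (a + k + 1) * l (a + k + 1) - w (a + k) * l (a + k)| ≤
          (l (a + k + 1) - l (a + k)) + Λ * (w (a + k) - w (a + k + 1)) := by
        have e3 : w (a + k + 1) * l (a + k + 1) - w (a + k) * l (a + k) =
            w (a + k + 1) * (l (a + k + 1) - l (a + k)) -
              (w (a + k) - w (a + k + 1)) * l (a + k) := by ring
        rw [e3, abs_le]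
        constructor
        · nlinarith [mul_nonneg h7 (sub_nonneg.2 h4), mul_le_mul_of_nonneg_left h6 (sub_nonneg.2 h3)]
        · nlinarith [mul_le_mul_of_nonneg_right h8 (sub_nonneg.2 h4),
            mul_nonneg (sub_nonneg.2 h3) h5, mul_nonneg hΛ (sub_nonneg.2 h3)]
      linarith
  have h2 := key m le_rfl
  have h3 := hl0 a le_rfl
  have h4 := hl1 (a + m) (by omega)
  have h5 : Λ * (w a - w (a + m)) ≤ Λ * 1 := by
    apply mul_le_mul_of_nonneg_left _ hΛ
    have := hw0 (a + m)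
    have := hw1 a
    linarith
  linarith

/-- A sum over a Dirichlet convolution as a double sum. -/
private theorem conv_sum (f g : ArithmeticFunction ℂ) (K L : Finset ℕ) (M : ℕ)
    (hf : ∀ a, a ∉ K → f a = 0) (hg : ∀ b, b ∉ L → g b = 0)
    (hKL : ∀ a ∈ K, ∀ b ∈ L, a * b ≤ M) (hK : 0 ∉ K) (hL : 0 ∉ L) (F : ℕ → ℂ) :
    ∑ n ∈ range (M + 1), F n * (f * g) n = ∑ b ∈ L, ∑ a ∈ K, F (a * b) * (f a * g b) := by
  have h1 : ∀ n ∈ range (M + 1), F n * (f * g) n =
      ∑ p ∈ (K ×ˢ L).filter (fun p => p.1 * p.2 = n), F (p.1 * p.2) * (f p.1 * g p.2) := by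
    intro n _
    rw [ArithmeticFunction.mul_apply, Finset.mul_sum]
    have h2 : ∀ p ∈ n.divisorsAntidiagonal, F n * (f p.1 * g p.2) =
        F (p.1 * p.2) * (f p.1 * g p.2) := by
      intro p hp
      rw [(Nat.mem_divisorsAntidiagonal.1 hp).1]
    rw [Finset.sum_congr rfl h2]
    symm
    apply Finset.sum_subset
    · intro p hp
      rw [Finset.mem_filter, Finset.mem_product] at hp
      rw [Nat.mem_divisorsAntidiagonal]
      refine ⟨hp.2, ?_⟩
      rw [← hp.2]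
      apply mul_ne_zero
      · intro h
        exact hK (h ▸ hp.1.1)
      · intro h
        exact hL (h ▸ hp.1.2)
    · intro p hp hp'
      rw [Finset.mem_filter, Finset.mem_product] at hp'
      have h3 := (Nat.mem_divisorsAntidiagonal.1 hp).1
      by_cases h4 : p.1 ∈ K
      · by_cases h5 : p.2 ∈ L
        · exact absurd ⟨⟨h4, h5⟩, h3⟩ hp'
        · rw [hg _ h5]; ring
      · rw [hf _ h4]; ring
  rw [Finset.sum_congr rfl h1, Finset.sum_fiberwise_of_maps_to, Finset.sum_product_right]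
  intro p hp
  rw [Finset.mem_product] at hp
  rw [Finset.mem_range]
  have := hKL _ hp.1 _ hp.2
  omega

/-- The bound for one character. -/
private theorem t1_one {N : ℕ} (hN : 1 ≤ N) {y Δ X : ℝ} (hy1 : (N : ℝ) / 3 ≤ y)
    (hy2 : y ≤ 3 * N) (hΔ : 0 < Δ) (hΔ1 : Δ ≤ 1) {j : PC} (hj1 : 1 ≤ j.1) (hj2 : j.2 ≠ 1)
    (hjX : (j.1 : ℝ) ≤ X) (z : ℕ) (e : Fin 6 → ℕ) (c : Fin 6 → Fin 4) (i₀ : Fin 6)
    (hc : c i₀ = 2 ∨ c i₀ = 3) :
    ‖ws y Δ (GS z e c univ) (10 * N) j‖ ≤
      6 * X * (1 + Real.log (2 ^ (e i₀ + 1))) *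
        ∑ n ∈ range (2 ^ (∑ i ∈ univ.erase i₀, (e i + 1)) + 1),
          ‖GS z e c (univ.erase i₀) n‖ := by
  set P := 2 ^ (∑ i ∈ univ.erase i₀, (e i + 1)) with hP
  set B := GS z e c (univ.erase i₀) with hB
  set Λ : ℝ := 1 + Real.log (2 ^ (e i₀ + 1)) with hΛ
  have hlog : 0 ≤ Real.log (2 ^ (e i₀ + 1)) := Real.log_nonneg (one_le_pow₀ (by norm_num))
  have hy0 : 0 < y := by
    have : (1 : ℝ) ≤ N := by exact_mod_cast hN
    linarith
  have hX0 : 0 ≤ X := le_trans (Nat.cast_nonneg _) hjX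
  -- a longer sum
  have h1 : ws y Δ (GS z e c univ) (10 * N) j =
      ws y Δ (GS z e c univ) (10 * N + 2 ^ (e i₀ + 1) * P) j := by
    apply ws_congr
    intro n hn
    rw [min_eq_left (by omega)] at hn
    have h2 : (10 * N : ℝ) < n := by exact_mod_cast hn
    have h3 : (0 : ℝ) ≤ N := Nat.cast_nonneg N
    rw [wt_eq_zero' hy0 hΔ hΔ1 (by linarith)]
    simp
  have h2 : GS z e c univ = pc z (e i₀) (c i₀) * B := by
    rw [hB]
    unfold GS
    exact (Finset.mul_prod_erase univ (fun i => pc z (e i) (c i)) (Finset.mem_univ i₀)).symm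
  have h3 : ws y Δ (GS z e c univ) (10 * N + 2 ^ (e i₀ + 1) * P) j =
      ∑ n ∈ range (10 * N + 2 ^ (e i₀ + 1) * P + 1),
        ((wt y Δ n : ℂ) * ch j n) * (pc z (e i₀) (c i₀) * B) n := by
    unfold ws
    rw [h2]
    apply Finset.sum_congr rfl
    intro n _
    ring
  have h4 : ∀ a, a ∉ Ico (2 ^ e i₀) (2 ^ (e i₀ + 1)) → pc z (e i₀) (c i₀) a = 0 := by
    intro a ha
    rw [Finset.mem_Ico] at ha
    unfold pc
    rw [ArithmeticFunction.coe_mk, if_neg ha]
  have h5 : ∀ b, b ∉ Icc 1 P → B b = 0 := by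
    intro b hb
    rw [Finset.mem_Icc] at hb
    exact GS_supp z e c (univ.erase i₀) b (by omega)
  rw [h1, h3, conv_sum _ _ (Ico (2 ^ e i₀) (2 ^ (e i₀ + 1))) (Icc 1 P) _ h4 h5
    (by
      intro a ha b hb
      rw [Finset.mem_Ico] at ha
      rw [Finset.mem_Icc] at hb
      have := Nat.mul_le_mul ha.2.le hb.2
      omega)
    (by
      rw [Finset.mem_Ico]
      have : 0 < 2 ^ e i₀ := by positivity
      omega)
    (by rw [Finset.mem_Icc]; omega)]
  -- the function l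
  set l : ℕ → ℝ := fun a => if c i₀ = 2 then 1 else Real.log a with hl
  have hpc : ∀ a ∈ Ico (2 ^ e i₀) (2 ^ (e i₀ + 1)), pc z (e i₀) (c i₀) a = (l a : ℂ) := by
    intro a ha
    rw [Finset.mem_Ico] at ha
    have ha0 : a ≠ 0 := by
      have : 0 < 2 ^ e i₀ := by positivity
      omega
    unfold pc
    rw [ArithmeticFunction.coe_mk, if_pos ha, hl]
    rcases hc with hc | hc
    · rw [hc]
      simp [base, ha0]
    · rw [hc]
      simp [base]
  have hapos : ∀ a : ℕ, 2 ^ e i₀ ≤ a → (1 : ℝ) ≤ a := by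
    intro a ha
    have : 1 ≤ 2 ^ e i₀ := Nat.one_le_two_pow
    exact_mod_cast this.trans ha
  have hinner : ∀ b ∈ Icc 1 P, ‖∑ a ∈ Ico (2 ^ e i₀) (2 ^ (e i₀ + 1)),
      ((wt y Δ (a * b) : ℂ) * ch j (a * b)) * (pc z (e i₀) (c i₀) a * B b)‖ ≤
      6 * X * Λ * ‖B b‖ := by
    intro b hb
    rw [Finset.mem_Icc] at hb
    have e1 : ∑ a ∈ Ico (2 ^ e i₀) (2 ^ (e i₀ + 1)),
        ((wt y Δ (a * b) : ℂ) * ch j (a * b)) * (pc z (e i₀) (c i₀) a * B b) =
        (ch j b * B b) * ∑ a ∈ Ico (2 ^ e i₀) (2 ^ (e i₀ + 1)),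
          ((wt y Δ (a * b) * l a : ℝ) : ℂ) * ch j a := by
      rw [Finset.mul_sum]
      apply Finset.sum_congr rfl
      intro a ha
      rw [hpc a ha, ch_mul]
      push_cast
      ring
    rw [e1, norm_mul, norm_mul]
    have hlt : 2 ^ e i₀ < 2 ^ (e i₀ + 1) := Nat.pow_lt_pow_right (by norm_num) (by omega)
    have h6 := abel hj1 hj2 (fun a => wt y Δ (a * b) * l a) (2 ^ e i₀) (2 ^ (e i₀ + 1)) hlt
    have h7 := var_bound (fun a => wt y Δ (a * b)) l (2 ^ e i₀) (2 ^ (e i₀ + 1)) hlt Λ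
      (fun n => wt_nonneg hΔ _) (fun n => wt_le_one hΔ _)
      (by
        intro n hn
        have h8 : 1 ≤ 2 ^ e i₀ := Nat.one_le_two_pow
        apply wt_anti hΔ
        · exact Nat.mul_pos (by omega) (by omega)
        · exact Nat.mul_le_mul_right b (by omega))
      (by
        intro n hn
        simp only [hl]
        split_ifs
        · norm_num
        · exact Real.log_nonneg (hapos n hn))
      (by
        intro n hn
        simp only [hl]
        split_ifs
        · linarith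
        · rcases Nat.eq_zero_or_pos n with h0 | h0
          · rw [h0]
            simp only [Nat.cast_zero, Real.log_zero]
            linarith
          · have : Real.log n ≤ Real.log (2 ^ (e i₀ + 1)) := by
              apply Real.log_le_log (by exact_mod_cast h0)
              exact_mod_cast hn.le
            linarith)
      (by
        intro n hn
        simp only [hl]
        split_ifs
        · exact le_rfl
        · apply Real.log_le_log
          · linarith [hapos n hn]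
          · push_cast
            linarith)
    have h8 : ‖∑ a ∈ Ico (2 ^ e i₀) (2 ^ (e i₀ + 1)),
        ((wt y Δ (a * b) * l a : ℝ) : ℂ) * ch j a‖ ≤ 6 * X * Λ := by
      refine h6.trans ?_
      have hΛ0 : 0 ≤ Λ := by linarith
      have hq : (0 : ℝ) ≤ j.1 := Nat.cast_nonneg _
      calc 2 * (j.1 : ℝ) * _ ≤ 2 * (j.1 : ℝ) * (3 * Λ) :=
            mul_le_mul_of_nonneg_left h7 (by linarith)
        _ ≤ 6 * X * Λ := by nlinarith [mul_le_mul_of_nonneg_right hjX hΛ0]
    have h9 := norm_ch_le j b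
    have h10 : ‖ch j b‖ * ‖B b‖ ≤ ‖B b‖ := by nlinarith [norm_nonneg (B b)]
    calc ‖ch j b‖ * ‖B b‖ * _ ≤ ‖B b‖ * (6 * X * Λ) :=
          mul_le_mul h10 h8 (norm_nonneg _) (norm_nonneg _)
      _ = _ := by ring
  refine (norm_sum_le _ _).trans ((Finset.sum_le_sum hinner).trans ?_)
  rw [← Finset.mul_sum]
  apply mul_le_mul_of_nonneg_left
  · apply Finset.sum_le_sum_of_subset_of_nonneg
    · intro b hb
      rw [Finset.mem_Icc] at hb
      rw [Finset.mem_range]
      omega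
    · intro b _ _
      exact norm_nonneg _
  · have hΛ0 : 0 ≤ Λ := by linarith
    positivity

theorem t1 : ∃ C : ℝ, 0 ≤ C ∧ ∀ᶠ N : ℕ in atTop, ∀ (y Δ X : ℝ) (F : Finset PC),
    Ctx N y Δ X F → ∀ (z : ℕ) (e : Fin 6 → ℕ) (c : Fin 6 → Fin 4), 2 ^ ∑ i, e i ≤ 10 * N →
    ∀ i₀ : Fin 6, c i₀ = 2 ∨ c i₀ = 3 →
    ∑ j ∈ F, ‖ws y Δ (GS z e c univ) (10 * N) j‖ ≤
      Real.log N ^ C * (X ^ 3 * 2 ^ ∑ i ∈ univ.erase i₀, e i) := by
  obtain ⟨C', hC', hs⟩ := GS_size
  refine ⟨C' + 2, by linarith, ?_⟩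
  have hlogN : Tendsto (fun N : ℕ => Real.log N) atTop atTop :=
    Real.tendsto_log_atTop.comp tendsto_natCast_atTop_atTop
  filter_upwards [hs, eventually_ge_atTop 1, hlogN.eventually_ge_atTop 400] with N hs hN hL
  intro y Δ X F hctx z e c he i₀ hc
  obtain ⟨hy1, hy2, hΔ, hΔ1, hX, hF⟩ := hctx
  have hN0 : (0 : ℝ) < N := by exact_mod_cast hN
  have hL0 : 0 < Real.log N := by linarith
  -- exponents
  have hsum : ∑ i, e i = e i₀ + ∑ i ∈ univ.erase i₀, e i :=
    (Finset.add_sum_erase univ e (Finset.mem_univ i₀)).symm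
  have hE1 : 2 ^ ∑ i ∈ univ.erase i₀, e i ≤ 10 * N := by
    refine le_trans (Nat.pow_le_pow_right (by norm_num) ?_) he
    omega
  have hE2 : 2 ^ e i₀ ≤ 10 * N := by
    refine le_trans (Nat.pow_le_pow_right (by norm_num) ?_) he
    omega
  obtain ⟨-, hsz⟩ := hs z e c (univ.erase i₀) hE1
  have hP : (2 : ℝ) ^ (∑ i ∈ univ.erase i₀, (e i + 1)) =
      32 * 2 ^ ∑ i ∈ univ.erase i₀, e i := by
    rw [Finset.sum_add_distrib, Finset.sum_const, Finset.card_erase_of_mem (Finset.mem_univ i₀),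
      Finset.card_univ, Fintype.card_fin, pow_add]
    norm_num
    ring
  rw [hP] at hsz
  have hΛ : 1 + Real.log (2 ^ (e i₀ + 1)) ≤ 2 * Real.log N := by
    have h1 : Real.log (2 ^ (e i₀ + 1)) ≤ Real.log (20 * N) := by
      apply Real.log_le_log (by positivity)
      have : (2 : ℝ) ^ e i₀ ≤ 10 * N := by exact_mod_cast hE2
      rw [pow_succ]
      linarith
    rw [Real.log_mul (by norm_num) hN0.ne'] at h1
    have h2 : Real.log 20 ≤ 20 - 1 := Real.log_le_sub_one_of_pos (by norm_num)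
    linarith
  have hone : ∀ j ∈ F, ‖ws y Δ (GS z e c univ) (10 * N) j‖ ≤
      6 * X * (2 * Real.log N) *
        (32 * 2 ^ (∑ i ∈ univ.erase i₀, e i) * Real.log N ^ C') := by
    intro j hj
    obtain ⟨hj1, hj2, hj3⟩ := hF j hj
    refine (t1_one hN hy1 hy2 hΔ hΔ1 (by omega) (primitive_ne_one hj1 hj3) hj2 z e c i₀
      hc).trans ?_
    apply mul_le_mul
    · exact mul_le_mul_of_nonneg_left hΛ (by linarith)
    · exact hsz
    · exact Finset.sum_nonneg fun n _ => norm_nonneg _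
    · positivity
  have hcard := card_le hX hF
  set E : ℝ := 2 ^ ∑ i ∈ univ.erase i₀, e i with hE
  have hE0 : 0 < E := by positivity
  set W : ℝ := 6 * X * (2 * Real.log N) * (32 * E * Real.log N ^ C') with hW
  have hW0 : 0 ≤ W := by positivity
  calc ∑ j ∈ F, ‖ws y Δ (GS z e c univ) (10 * N) j‖ ≤ ∑ j ∈ F, W := Finset.sum_le_sum hone
    _ = F.card * W := by rw [Finset.sum_const, nsmul_eq_mul]
    _ ≤ X ^ 2 * W := mul_le_mul_of_nonneg_right hcard hW0
    _ = (384 * Real.log N * Real.log N ^ C') * (X ^ 3 * E) := by rw [hW]; ring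
    _ ≤ Real.log N ^ (C' + 2) * (X ^ 3 * E) := by
        apply mul_le_mul_of_nonneg_right _ (by positivity)
        rw [Real.rpow_add hL0, Real.rpow_two]
        have h3 : 0 < Real.log N ^ C' := Real.rpow_pos_of_pos hL0 _
        have h4 : 384 * Real.log N ≤ Real.log N ^ 2 := by nlinarith
        calc 384 * Real.log N * Real.log N ^ C' ≤ Real.log N ^ 2 * Real.log N ^ C' :=
              mul_le_mul_of_nonneg_right h4 h3.le
          _ = _ := by ring

end PGB
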