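import Pool.Agent.PGB.Defs

/-!
# Project PGB, Lsb: twisted Dirichlet series of finitely supported functions

PROOFS.
* `Ls_eq_sum`: `LSeries` is a `tsum` of `LSeries.term`; the terms vanish for `n = 0` and for
  `n > P` (`tsum_eq_sum`); for `n ≠ 0` `LSeries.term f s n = f n / n ^ s`
  (`LSeries.term_of_ne_zero`), `Complex.cpow_neg`.
* `norm_Ls_le`: triangle inequality, `‖ch j n‖ ≤ 1`, `‖(n : ℂ) ^ (-s)‖ = n ^ (-Re s) ≤ 1`
  (`Complex.norm_natCast_cpow_of_pos`).
* `continuous_Ls`: finite sum (`Ls_eq_sum`) of continuous functions (`(0 : ℂ) ^ (-s)` only occurs with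
  the factor `f 0 = 0`).
* `Supp_mul`: `(f * g) n = ∑_{(a, b) : a b = n} f a g b` (`ArithmeticFunction.mul_apply`), a nonzero
  term has `1 ≤ a ≤ P`, `1 ≤ b ≤ P'`.
* `Ls_mul`: `ch j * (f * g) = (ch j * f) ⍟ (ch j * g)` (`DirichletCharacter.mul_convolution_distrib`
  and `ArithmeticFunction.coe_mul`), `LSeries_convolution'`; the series are summable since the
  functions have finite support (`LSeriesSummable` unfolds to summability of `LSeries.term`, which is
  zero outside `range (P + 1)`: `summable_of_ne_finset_zero`).  Or directly from `Ls_eq_sum`.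
-/

set_option autoImplicit false

open Finset

namespace PGB

theorem Ls_eq_sum {P : ℕ} {f : ℕ → ℂ} (hf : Supp P f) (j : PC) (s : ℂ) :
    Ls f j s = ∑ n ∈ range (P + 1), ch j n * f n * (n : ℂ) ^ (-s) := by
  unfold Ls LSeries
  rw [tsum_eq_sum (s := range (P + 1))]
  · refine Finset.sum_congr rfl fun n _ => ?_
    rcases Nat.eq_zero_or_pos n with h | h
    · rw [h, LSeries.term_zero, hf 0 (Or.inl rfl), mul_zero, zero_mul]
    · rw [LSeries.term_of_ne_zero h.ne', Complex.cpow_neg, div_eq_mul_inv]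
  · intro n hn
    rw [Finset.mem_range, not_lt] at hn
    rw [LSeries.term_of_ne_zero (by omega), hf n (Or.inr (by omega)), mul_zero, zero_div]

theorem norm_Ls_le {P : ℕ} {f : ℕ → ℂ} (hf : Supp P f) (j : PC) {s : ℂ} (hs : 0 ≤ s.re) :
    ‖Ls f j s‖ ≤ ∑ n ∈ range (P + 1), ‖f n‖ := by
  rw [Ls_eq_sum hf]
  refine (norm_sum_le _ _).trans (Finset.sum_le_sum fun n _ => ?_)
  rcases Nat.eq_zero_or_pos n with h | h
  · rw [h, hf 0 (Or.inl rfl), mul_zero, zero_mul]
  · rw [norm_mul, norm_mul, Complex.norm_natCast_cpow_of_pos h]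
    have h1 := norm_ch_le j n
    have h2 : (n : ℝ) ^ (-s).re ≤ 1 := by
      refine Real.rpow_le_one_of_one_le_of_nonpos (by exact_mod_cast h) ?_
      rw [Complex.neg_re]
      linarith
    have h3 : 0 ≤ (n : ℝ) ^ (-s).re := by positivity
    calc ‖ch j n‖ * ‖f n‖ * (n : ℝ) ^ (-s).re ≤ 1 * ‖f n‖ * 1 := by gcongr
      _ = ‖f n‖ := by ring

theorem continuous_Ls {P : ℕ} {f : ℕ → ℂ} (hf : Supp P f) (j : PC) :
    Continuous fun s : ℂ => Ls f j s := by
  have h1 : (fun s : ℂ => Ls f j s) =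
      fun s : ℂ => ∑ n ∈ range (P + 1), ch j n * f n * (n : ℂ) ^ (-s) := by
    funext s
    exact Ls_eq_sum hf j s
  rw [h1]
  refine continuous_finsetSum _ fun n _ => ?_
  rcases Nat.eq_zero_or_pos n with h | h
  · have : (fun s : ℂ => ch j n * f n * (n : ℂ) ^ (-s)) = fun _ => 0 := by
      funext s
      rw [h, hf 0 (Or.inl rfl), mul_zero, zero_mul]
    rw [this]
    exact continuous_const
  · refine continuous_const.mul ?_
    have hn : (n : ℂ) ≠ 0 := by exact_mod_cast h.ne'
    exact continuous_neg.const_cpow (Or.inl hn)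

theorem Supp_mul {P P' : ℕ} {f g : ArithmeticFunction ℂ} (hf : Supp P f) (hg : Supp P' g) :
    Supp (P * P') (f * g : ArithmeticFunction ℂ) := by
  intro n hn
  rw [ArithmeticFunction.mul_apply]
  refine Finset.sum_eq_zero fun x hx => ?_
  rw [Nat.mem_divisorsAntidiagonal] at hx
  rcases hn with hn | hn
  · exact absurd hn hx.2
  · by_cases h1 : P < x.1
    · rw [hf x.1 (Or.inr h1), zero_mul]
    · by_cases h2 : P' < x.2
      · rw [hg x.2 (Or.inr h2), mul_zero]
      · exfalso
        have := Nat.mul_le_mul (not_lt.1 h1) (not_lt.1 h2)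
        rw [hx.1] at this
        omega

theorem Ls_mul {P P' : ℕ} {f g : ArithmeticFunction ℂ} (hf : Supp P f) (hg : Supp P' g)
    (j : PC) (s : ℂ) :
    Ls (f * g : ArithmeticFunction ℂ) j s = Ls f j s * Ls g j s := by
  have hsum : ∀ {Q : ℕ} {u : ArithmeticFunction ℂ} (_ : Supp Q u),
      LSeriesSummable (fun n => ch j n * u n) s := by
    intro Q u hu
    refine summable_of_hasFiniteSupport ?_
    refine (Finset.finite_toSet (range (Q + 1))).subset fun n hn => ?_
    rw [Function.mem_support] at hn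
    rw [Finset.mem_coe, Finset.mem_range]
    by_contra h
    apply hn
    rw [LSeries.term_of_ne_zero (by omega), hu n (Or.inr (by omega)), mul_zero, zero_div]
  obtain ⟨F, hF⟩ : ∃ F : ArithmeticFunction ℂ, ∀ n, F n = ch j n * f n :=
    ⟨⟨fun n => ch j n * f n, by rw [hf 0 (Or.inl rfl), mul_zero]⟩, fun _ => rfl⟩
  obtain ⟨G, hG⟩ : ∃ G : ArithmeticFunction ℂ, ∀ n, G n = ch j n * g n :=
    ⟨⟨fun n => ch j n * g n, by rw [hg 0 (Or.inl rfl), mul_zero]⟩, fun _ => rfl⟩
  have h1 : (fun n => ch j n * f n) = (F : ℕ → ℂ) := funext fun n => (hF n).symm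
  have h2 : (fun n => ch j n * g n) = (G : ℕ → ℂ) := funext fun n => (hG n).symm
  have h3 : (fun n => ch j n * (f * g : ArithmeticFunction ℂ) n) =
      ((F * G : ArithmeticFunction ℂ) : ℕ → ℂ) := by
    funext n
    rw [ArithmeticFunction.mul_apply, ArithmeticFunction.mul_apply, Finset.mul_sum]
    refine Finset.sum_congr rfl fun x hx => ?_
    rw [Nat.mem_divisorsAntidiagonal] at hx
    rw [hF, hG, ← hx.1, ch_mul]
    ring
  unfold Ls
  rw [h3, h1, h2]
  refine ArithmeticFunction.LSeries_mul' ?_ ?_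
  · rw [← h1]
    exact hsum hf
  · rw [← h2]
    exact hsum hg

end PGB
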