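import Pool.Agent.PGB.Mel
import Pool.Agent.PGB.Lsb

/-!
# Project PGB, Sep: separation of variables for the trapezoid weight

PROOFS.  Let `c = 1 / log y`, `s = pt y t = c + i t`.
* `wt_eq`: for `n ≥ 1` write `wt y Δ n = (log⁺ (y e^Δ / n) - log⁺ (y / n)) / Δ`; apply `logplus_eq`
  with this `c` to both terms (`logplus_int` for linearity of the integral); in the integrand
  `(y e^Δ / n)^s - (y / n)^s = y^s n^(-s) (e^(Δ s) - 1)` (positive reals: `Complex.cpow_def_of_ne_zero`,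
  `Complex.ofReal_log`, or `Complex.mul_cpow_ofReal_nonneg`).
* `ker_norm`: `‖y^s‖ = y^c = e` (`Complex.norm_cpow_eq_rpow_re_of_pos`, `y^(1/log y) = e`),
  `‖e^(Δ s) - 1‖ ≤ e^(Δ c) + 1 ≤ e + 1` (`c ≤ 1` as `y ≥ 3`), `‖s‖^2 = c^2 + t^2`; and
  `e (e + 1) / (2 π) ≤ 3`.
* `ker_int`: continuous (the denominator does not vanish, `c > 0`) and dominated by the integrable
  function of `ker_norm` (`integrable_inv_one_add_sq` after scaling; or compare with
  `(3 / Δ) * max 1 (1 / c^2) / (1 + t^2)`).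
* `ker_l1`: `∫ 3 / (Δ (c^2 + t^2)) = 3 π / (Δ c) = 3 π log y / Δ ≤ 10 log y / Δ`
  (`integral_univ_inv_one_add_sq` and scaling).
* `ker_tail`: `∫_{|t| > T} 3 / (Δ t^2) = 6 / (Δ T)` (`integral_Ioi_rpow_of_lt`, symmetry).
* `ws_eq`: `ws` is a finite sum; the term `n = 0` vanishes since `f 0 = 0`; `wt_eq` for `n ≥ 1`,
  exchange the finite sum and the integral (`integral_finset_sum`, each term is integrable by
  `ker_int` times a bounded continuous function), `Ls_eq_sum`.
* `mul_int`: `ker_int` times a bounded continuous function (`norm_Ls_le`, `continuous_Ls`;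
  `Integrable.mul_bdd` or `Integrable.bdd_mul`).
-/

set_option autoImplicit false

open Finset MeasureTheory

namespace PGB

/-- The point `1 / log y + i t`. -/
noncomputable def pt (y t : ℝ) : ℂ := ((1 / Real.log y : ℝ) : ℂ) + t * Complex.I

/-- The kernel of the trapezoid weight. -/
noncomputable def ker (y Δ t : ℝ) : ℂ :=
  (y : ℂ) ^ (pt y t) * (Complex.exp (Δ * pt y t) - 1) / (2 * Real.pi * Δ * (pt y t) ^ 2)

theorem pt_re (y t : ℝ) : (pt y t).re = 1 / Real.log y := by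
  simp [pt]

theorem pt_im (y t : ℝ) : (pt y t).im = t := by
  simp [pt]

private theorem one_le_log {y : ℝ} (hy : 3 ≤ y) : 1 ≤ Real.log y := by
  rw [Real.le_log_iff_exp_le (by linarith)]
  have := Real.exp_one_lt_d9
  linarith

private theorem pt_ne {y : ℝ} (hy : 3 ≤ y) (t : ℝ) : pt y t ≠ 0 := by
  intro h
  have h1 := congrArg Complex.re h
  rw [pt_re, Complex.zero_re] at h1
  have h2 := one_le_log hy
  have h3 : 0 < 1 / Real.log y := by positivity
  linarith

private theorem pt_cont (y : ℝ) : Continuous (pt y) := by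
  unfold pt
  fun_prop

private theorem pt_sq (y t : ℝ) : ‖pt y t‖ ^ 2 = (1 / Real.log y) ^ 2 + t ^ 2 := by
  rw [← Complex.normSq_eq_norm_sq, pt, Complex.normSq_add_mul_I]

private theorem ker_cont {y Δ : ℝ} (hy : 3 ≤ y) (hΔ : 0 < Δ) : Continuous (ker y Δ) := by
  unfold ker
  refine Continuous.div ?_ ?_ ?_
  · refine Continuous.mul ?_ ?_
    · refine (pt_cont y).const_cpow (Or.inl ?_)
      have : y ≠ 0 := by linarith
      exact_mod_cast this
    · have := pt_cont y
      fun_prop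
  · have := pt_cont y
    fun_prop
  · intro t
    have h1 : (Δ : ℂ) ≠ 0 := by exact_mod_cast hΔ.ne'
    have h2 : (Real.pi : ℂ) ≠ 0 := by exact_mod_cast Real.pi_ne_zero
    exact mul_ne_zero (mul_ne_zero (mul_ne_zero two_ne_zero h2) h1) (pow_ne_zero 2 (pt_ne hy t))

private theorem cpow_exp {Y : ℝ} (hY : 0 < Y) (s : ℂ) :
    (Y : ℂ) ^ s = Complex.exp ((Real.log Y : ℂ) * s) := by
  rw [Complex.cpow_def_of_ne_zero (by exact_mod_cast hY.ne'), Complex.ofReal_log hY.le]

theorem ker_norm {y Δ : ℝ} (hy : 3 ≤ y) (hΔ : 0 < Δ) (hΔ1 : Δ ≤ 1) (t : ℝ) :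
    ‖ker y Δ t‖ ≤ 3 / (Δ * ((1 / Real.log y) ^ 2 + t ^ 2)) := by
  have hL := one_le_log hy
  have hy0 : (0 : ℝ) < y := by linarith
  have h1 : ‖(y : ℂ) ^ (pt y t)‖ = Real.exp 1 := by
    rw [Complex.norm_cpow_eq_rpow_re_of_pos hy0, pt_re, Real.rpow_def_of_pos hy0]
    congr 1
    field_simp
  have hc1 : 1 / Real.log y ≤ 1 := by
    rw [div_le_one (by linarith)]
    exact hL
  have h2 : ‖Complex.exp (Δ * pt y t) - 1‖ ≤ Real.exp 1 + 1 := by
    refine (norm_sub_le _ _).trans ?_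
    rw [norm_one, Complex.norm_exp]
    have e : ((Δ : ℂ) * pt y t).re = Δ * (1 / Real.log y) := by
      rw [Complex.re_ofReal_mul, pt_re]
    rw [e]
    have h3 : Δ * (1 / Real.log y) ≤ 1 := by
      have h4 : 0 ≤ 1 / Real.log y := by positivity
      nlinarith
    linarith [Real.exp_le_exp.2 h3]
  have h3 : 0 < (1 / Real.log y) ^ 2 + t ^ 2 := by positivity
  have h4 : ‖(2 * Real.pi * Δ * (pt y t) ^ 2 : ℂ)‖ =
      2 * Real.pi * Δ * ((1 / Real.log y) ^ 2 + t ^ 2) := by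
    rw [norm_mul, norm_pow, pt_sq, norm_mul, norm_mul, Complex.norm_ofNat, Complex.norm_real,
      Complex.norm_real, Real.norm_of_nonneg Real.pi_pos.le, Real.norm_of_nonneg hΔ.le]
  unfold ker
  rw [norm_div, norm_mul, h1, h4]
  have he := Real.exp_one_lt_d9
  have he0 := Real.exp_pos 1
  have hpi := Real.pi_gt_three
  have h5 : Real.exp 1 * ‖Complex.exp (Δ * pt y t) - 1‖ ≤ 6 * Real.pi := by
    have h6 : Real.exp 1 * ‖Complex.exp (Δ * pt y t) - 1‖ ≤ Real.exp 1 * (Real.exp 1 + 1) :=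
      mul_le_mul_of_nonneg_left h2 he0.le
    nlinarith
  rw [div_le_div_iff₀ (by positivity) (by positivity)]
  have h7 : 0 < Δ * ((1 / Real.log y) ^ 2 + t ^ 2) := by positivity
  calc Real.exp 1 * ‖Complex.exp (Δ * pt y t) - 1‖ * (Δ * ((1 / Real.log y) ^ 2 + t ^ 2))
      ≤ 6 * Real.pi * (Δ * ((1 / Real.log y) ^ 2 + t ^ 2)) :=
        mul_le_mul_of_nonneg_right h5 h7.le
    _ = 3 * (2 * Real.pi * Δ * ((1 / Real.log y) ^ 2 + t ^ 2)) := by ring

theorem ker_int {y Δ : ℝ} (hy : 3 ≤ y) (hΔ : 0 < Δ) (hΔ1 : Δ ≤ 1) : Integrable (ker y Δ) := by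
  have hL := one_le_log hy
  have h1 : Integrable (fun t : ℝ => 3 / Δ * Real.log y ^ 2 * (1 + t ^ 2)⁻¹) :=
    integrable_inv_one_add_sq.const_mul _
  refine h1.mono' (ker_cont hy hΔ).aestronglyMeasurable (Filter.Eventually.of_forall fun t => ?_)
  refine (ker_norm hy hΔ hΔ1 t).trans ?_
  have hL0 : 0 < Real.log y := by linarith
  have h2 : 3 / Δ * Real.log y ^ 2 * (1 + t ^ 2)⁻¹ = 3 / (Δ * ((1 / Real.log y) ^ 2 * (1 + t ^ 2))) := by
    field_simp
  rw [h2]
  have hc1 : 1 / Real.log y ≤ 1 := by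
    rw [div_le_one (by linarith)]
    exact hL
  have hc0 : 0 < 1 / Real.log y := by positivity
  have h3 : (1 / Real.log y) ^ 2 ≤ 1 := by nlinarith
  refine div_le_div_of_nonneg_left (by norm_num) (by positivity) ?_
  refine mul_le_mul_of_nonneg_left ?_ hΔ.le
  nlinarith [sq_nonneg t]

theorem ker_l1 {y Δ : ℝ} (hy : 3 ≤ y) (hΔ : 0 < Δ) (hΔ1 : Δ ≤ 1) :
    ∫ t, ‖ker y Δ t‖ ≤ 10 * Real.log y / Δ := by
  have hL := one_le_log hy
  have hL0 : 0 < Real.log y := by linarith
  have h0 : ∀ t : ℝ, 3 / (Δ * ((1 / Real.log y) ^ 2 + t ^ 2)) =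
      3 / Δ * Real.log y ^ 2 * (1 + (Real.log y * t) ^ 2)⁻¹ := by
    intro t
    have h1 : 0 < 1 + (Real.log y * t) ^ 2 := by positivity
    have h2 : (1 / Real.log y) ^ 2 + t ^ 2 = (1 + (Real.log y * t) ^ 2) / Real.log y ^ 2 := by
      field_simp
    rw [h2]
    field_simp
  have h1 : Integrable (fun t : ℝ => 3 / Δ * Real.log y ^ 2 * (1 + (Real.log y * t) ^ 2)⁻¹) :=
    (integrable_inv_one_add_sq.comp_mul_left' hL0.ne').const_mul _
  calc ∫ t, ‖ker y Δ t‖ ≤ ∫ t, 3 / Δ * Real.log y ^ 2 * (1 + (Real.log y * t) ^ 2)⁻¹ := by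
        refine integral_mono (ker_int hy hΔ hΔ1).norm h1 fun t => ?_
        show ‖ker y Δ t‖ ≤ 3 / Δ * Real.log y ^ 2 * (1 + (Real.log y * t) ^ 2)⁻¹
        rw [← h0]
        exact ker_norm hy hΔ hΔ1 t
    _ = 3 / Δ * Real.log y ^ 2 * ∫ t, (1 + (Real.log y * t) ^ 2)⁻¹ := integral_const_mul _ _
    _ = 3 / Δ * Real.log y ^ 2 * ((Real.log y)⁻¹ * Real.pi) := by
        rw [Measure.integral_comp_mul_left (fun u : ℝ => (1 + u ^ 2)⁻¹) (Real.log y),
          integral_univ_inv_one_add_sq, abs_of_pos (inv_pos.2 hL0), smul_eq_mul]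
    _ = 3 * Real.pi * Real.log y / Δ := by field_simp
    _ ≤ 10 * Real.log y / Δ := by
        refine div_le_div_of_nonneg_right ?_ hΔ.le
        refine mul_le_mul_of_nonneg_right ?_ hL0.le
        have := Real.pi_lt_d2
        linarith

theorem ker_tail {y Δ T : ℝ} (hy : 3 ≤ y) (hΔ : 0 < Δ) (hΔ1 : Δ ≤ 1) (hT : 0 < T) :
    ∫ t in {t : ℝ | T < |t|}, ‖ker y Δ t‖ ≤ 6 / (Δ * T) := by
  have hki := (ker_int hy hΔ hΔ1).norm
  have hset : {t : ℝ | T < |t|} = Set.Iio (-T) ∪ Set.Ioi T := by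
    ext t
    constructor
    · intro h
      have h' : T < |t| := h
      rcases lt_abs.1 h' with h1 | h1
      · exact Or.inr h1
      · exact Or.inl (by rw [Set.mem_Iio]; linarith)
    · rintro (h | h)
      · show T < |t|
        rw [Set.mem_Iio] at h
        exact lt_abs.2 (Or.inr (by linarith))
      · rw [Set.mem_Ioi] at h
        exact lt_abs.2 (Or.inl h)
  have hd : Disjoint (Set.Iio (-T)) (Set.Ioi T) := by
    rw [Set.disjoint_left]
    intro t h1 h2
    rw [Set.mem_Iio] at h1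
    rw [Set.mem_Ioi] at h2
    linarith
  have hg : IntegrableOn (fun t : ℝ => 3 / Δ * t ^ (-2 : ℝ)) (Set.Ioi T) :=
    (integrableOn_Ioi_rpow_of_lt (by norm_num) hT).const_mul _
  have hgi : ∫ t in Set.Ioi T, 3 / Δ * t ^ (-2 : ℝ) = 3 / (Δ * T) := by
    rw [integral_const_mul, integral_Ioi_rpow_of_lt (by norm_num) hT]
    have e : (-2 : ℝ) + 1 = -1 := by norm_num
    rw [e, Real.rpow_neg_one]
    field_simp
  have hb : ∀ t : ℝ, T < |t| → ‖ker y Δ t‖ ≤ 3 / Δ * |t| ^ (-2 : ℝ) := by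
    intro t ht
    refine (ker_norm hy hΔ hΔ1 t).trans ?_
    have ht0 : 0 < |t| := lt_trans hT ht
    have ht2 : 0 < t ^ 2 := by
      rw [← sq_abs]
      positivity
    have e : |t| ^ (-2 : ℝ) = (t ^ 2)⁻¹ := by
      rw [Real.rpow_neg ht0.le, ← sq_abs]
      norm_num
    rw [e, ← div_eq_mul_inv, div_div]
    refine div_le_div_of_nonneg_left (by norm_num) (by positivity) ?_
    refine mul_le_mul_of_nonneg_left ?_ hΔ.le
    have : 0 ≤ (1 / Real.log y) ^ 2 := sq_nonneg _
    linarith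
  have h1 : ∫ t in Set.Ioi T, ‖ker y Δ t‖ ≤ 3 / (Δ * T) := by
    rw [← hgi]
    refine setIntegral_mono_on hki.integrableOn hg measurableSet_Ioi fun t ht => ?_
    rw [Set.mem_Ioi] at ht
    have h2 := hb t (lt_of_lt_of_le ht (le_abs_self t))
    rwa [abs_of_pos (lt_trans hT ht)] at h2
  have h2 : ∫ t in Set.Iio (-T), ‖ker y Δ t‖ ≤ 3 / (Δ * T) := by
    rw [← integral_Iic_eq_integral_Iio, ← integral_comp_neg_Ioi T (fun t => ‖ker y Δ t‖), ← hgi]
    refine setIntegral_mono_on hki.comp_neg.integrableOn hg measurableSet_Ioi fun t ht => ?_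
    rw [Set.mem_Ioi] at ht
    have h2 := hb (-t) (by rw [abs_neg]; exact lt_of_lt_of_le ht (le_abs_self t))
    rwa [abs_neg, abs_of_pos (lt_trans hT ht)] at h2
  rw [hset, setIntegral_union hd measurableSet_Ioi hki.integrableOn hki.integrableOn]
  have e : 6 / (Δ * T) = 3 / (Δ * T) + 3 / (Δ * T) := by ring
  linarith

/-- The weight as a superposition of `n^(-s)`. -/
theorem wt_eq {y Δ : ℝ} (hy : 3 ≤ y) (hΔ : 0 < Δ) (hΔ1 : Δ ≤ 1) {n : ℕ} (hn : 1 ≤ n) :
    (wt y Δ n : ℂ) = ∫ t, ker y Δ t * (n : ℂ) ^ (-(pt y t)) := by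
  have hL := one_le_log hy
  have hL0 : 0 < Real.log y := by linarith
  have hc : 0 < 1 / Real.log y := by positivity
  have hy0 : 0 < y := by linarith
  have hn0 : (0 : ℝ) < n := by exact_mod_cast hn
  have hY1 : 0 < y * Real.exp Δ / n := by positivity
  have hY2 : 0 < y / n := by positivity
  have l1 : Real.log (y * Real.exp Δ / n) = Real.log y + Δ - Real.log n := by
    rw [Real.log_div (by positivity) hn0.ne', Real.log_mul hy0.ne' (Real.exp_pos _).ne',
      Real.log_exp]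
  have l2 : Real.log (y / n) = Real.log y - Real.log n := Real.log_div hy0.ne' hn0.ne'
  have k1 := logplus_eq hc hY1
  have k2 := logplus_eq hc hY2
  have i1 := logplus_int hc hY1
  have i2 := logplus_int hc hY2
  rw [l1] at k1
  rw [l2] at k2
  have hΔc : (Δ : ℂ) ≠ 0 := by exact_mod_cast hΔ.ne'
  have hpic : (Real.pi : ℂ) ≠ 0 := by exact_mod_cast Real.pi_ne_zero
  have e0 : (wt y Δ n : ℂ) = (((max (Real.log y + Δ - Real.log n) 0 : ℝ) : ℂ) -
      ((max (Real.log y - Real.log n) 0 : ℝ) : ℂ)) / Δ := by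
    unfold wt
    push_cast
    rfl
  rw [e0, k1, k2, ← mul_sub, ← integral_sub i1 i2, mul_div_right_comm, ← integral_const_mul]
  refine integral_congr_ae (Filter.Eventually.of_forall fun t => ?_)
  have hpt : ((1 / Real.log y : ℝ) : ℂ) + t * Complex.I = pt y t := rfl
  simp only [hpt]
  have hs := pt_ne hy t
  unfold ker
  rw [cpow_exp hY1, cpow_exp hY2, l1, l2, cpow_exp hy0]
  have e3 : (n : ℂ) ^ (-(pt y t)) = Complex.exp ((Real.log n : ℂ) * -(pt y t)) := by
    rw [← cpow_exp hn0]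
    push_cast
    rfl
  rw [e3]
  have e4 : Complex.exp (((Real.log y + Δ - Real.log n : ℝ) : ℂ) * pt y t) =
      Complex.exp ((Real.log y : ℂ) * pt y t) * Complex.exp (Δ * pt y t) *
        Complex.exp ((Real.log n : ℂ) * -(pt y t)) := by
    rw [← Complex.exp_add, ← Complex.exp_add]
    congr 1
    push_cast
    ring
  have e5 : Complex.exp (((Real.log y - Real.log n : ℝ) : ℂ) * pt y t) =
      Complex.exp ((Real.log y : ℂ) * pt y t) *
        Complex.exp ((Real.log n : ℂ) * -(pt y t)) := by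
    rw [← Complex.exp_add]
    congr 1
    push_cast
    ring
  rw [e4, e5]
  field_simp

theorem mul_int {y Δ : ℝ} (hy : 3 ≤ y) (hΔ : 0 < Δ) (hΔ1 : Δ ≤ 1) {P : ℕ} {f : ℕ → ℂ}
    (hf : Supp P f) (j : PC) : Integrable fun t => ker y Δ t * Ls f j (pt y t) := by
  refine (ker_int hy hΔ hΔ1).mul_bdd (c := ∑ n ∈ range (P + 1), ‖f n‖) ?_ ?_
  · exact ((continuous_Ls hf j).comp (pt_cont y)).aestronglyMeasurable
  · refine Filter.Eventually.of_forall fun t => norm_Ls_le hf j ?_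
    rw [pt_re]
    have := one_le_log hy
    positivity

/-- Separation of variables. -/
theorem ws_eq {y Δ : ℝ} (hy : 3 ≤ y) (hΔ : 0 < Δ) (hΔ1 : Δ ≤ 1) {P : ℕ} {f : ℕ → ℂ}
    (hf : Supp P f) (j : PC) : ws y Δ f P j = ∫ t, ker y Δ t * Ls f j (pt y t) := by
  have hy0 : 0 < y := by linarith
  have hint : ∀ n : ℕ, 1 ≤ n → Integrable fun t => ker y Δ t * (n : ℂ) ^ (-(pt y t)) := by
    intro n hn
    have hn0 : (n : ℂ) ≠ 0 := by exact_mod_cast (show n ≠ 0 by omega)
    refine (ker_int hy hΔ hΔ1).mul_bdd (c := 1) ?_ ?_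
    · exact ((pt_cont y).neg.const_cpow (Or.inl hn0)).aestronglyMeasurable
    · refine Filter.Eventually.of_forall fun t => ?_
      rw [Complex.norm_natCast_cpow_of_pos hn]
      refine Real.rpow_le_one_of_one_le_of_nonpos (by exact_mod_cast hn) ?_
      rw [Complex.neg_re, pt_re]
      have := one_le_log hy
      have h2 : 0 < 1 / Real.log y := by positivity
      linarith
  have hterm : ∀ n ∈ range (P + 1), Integrable (fun t => ker y Δ t *
      (ch j n * f n * (n : ℂ) ^ (-(pt y t)))) ∧ (wt y Δ n : ℂ) * (ch j n * f n) =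
      ∫ t, ker y Δ t * (ch j n * f n * (n : ℂ) ^ (-(pt y t))) := by
    intro n _
    rcases Nat.eq_zero_or_pos n with h | h
    · have h1 : f n = 0 := hf n (Or.inl h)
      constructor
      · have : (fun t => ker y Δ t * (ch j n * f n * (n : ℂ) ^ (-(pt y t)))) = fun _ => 0 := by
          funext t
          rw [h1]
          ring
        rw [this]
        exact integrable_zero _ _ _
      · rw [h1]
        simp
    · have e : (fun t => ker y Δ t * (ch j n * f n * (n : ℂ) ^ (-(pt y t)))) =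
          fun t => (ch j n * f n) * (ker y Δ t * (n : ℂ) ^ (-(pt y t))) := by
        funext t
        ring
      constructor
      · rw [e]
        exact (hint n h).const_mul _
      · rw [e, integral_const_mul, ← wt_eq hy hΔ hΔ1 h]
        ring
  unfold ws
  rw [Finset.sum_congr rfl fun n hn => (hterm n hn).2,
    ← integral_finsetSum _ fun n hn => (hterm n hn).1]
  refine integral_congr_ae (Filter.Eventually.of_forall fun t => ?_)
  simp only
  rw [Ls_eq_sum hf, Finset.mul_sum]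

end PGB
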