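import Pool.Agent.PGB.Pcb
import Pool.Agent.PGB.Lsv
import Pool.Agent.PGB.Sep

/-!
# Project PGB, T3: three factors with Moebius coefficients, one of them not bad

PROOFS.
* `mu_short`: let `j` be not bad for `N` (exponent `A`), `z ≤ 10 N`, `2 N^(1/10) ≤ 2^e ≤ 10 N`,
  `0 ≤ Re s`.  Then `‖Ls (pc z e 1) j s‖ ≤ (1 + ‖s‖) * 8 * 2^e / (log N)^A`.  Let `a = 2^e`,
  `b = min (2^(e+1)) (z + 1)`; if `b ≤ a` the function is `0`.  Otherwise
  `Ls = ∑_{a ≤ n < b} μ(n) χ(n) n^(-s)` (`Ls_eq_sum`).  For `a ≤ u < b`: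
  `S(u) := ∑_{a ≤ n ≤ u} μ(n) χ(n) = mus j u - mus j (a - 1)`, with `u ≤ z ≤ 10 N`,
  `u ≥ a ≥ N^(1/10)`, `a - 1 ≥ a / 2 ≥ N^(1/10)`; not bad: `‖S(u)‖ ≤ 2 * 2 a / (log N)^A =: β`.
  Partial summation (`Finset.sum_Ico_by_parts`-like):
  `‖∑‖ ≤ β (‖(b-1)^(-s)‖ + ∑_{a ≤ n < b - 1} ‖n^(-s) - (n+1)^(-s)‖) ≤ β (1 + ‖s‖ ∑_{a ≤ n < 2a} 1/n)
  ≤ β (1 + ‖s‖)`, since `‖n^(-s) - (n+1)^(-s)‖ = ‖∫_n^{n+1} s x^(-s-1) dx‖ ≤ ‖s‖ / n` for
  `Re s ≥ 0` (mean value inequality for `x ↦ x^(-s)`, derivative of norm `≤ ‖s‖ x^(-Re s - 1)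
  ≤ ‖s‖ / n`).
* `t3`: `G = GS univ = A₀ * (A₁ * B)`, `A₀ = pc z (e 0) 1`, `A₁ = pc z (e 1) 1`,
  `B = A₂ * R`, `A₂ = pc z (e 2) 1`, `R = GS {3, 4, 5}` (`Fin.prod_univ_six`).
  `ws = ∫ ker * Ls A₀ * Ls A₁ * Ls A₂ * Ls R` (`ws_congr`, `ws_eq`, `Ls_mul`; as in `T2`).
  Bounds: `‖Ls R‖ ≤ 8 * 2^(e 3 + e 4 + e 5) (log N)^C'` (`norm_Ls_le`, `GS_size` for `{3, 4, 5}`);
  `∑_{j ∈ F} ‖Ls A₁‖ ‖Ls A₂‖ ≤ √((X^2 + 4π(2^(e 1 + 1) + 1)) nsq A₁) √(same for 2)
  ≤ 100 * 2^(e 1) 2^(e 2) (log N)^C'` (`ls_cauchy`, `X^2 ≤ 2^(e 1)`, `X^2 ≤ 2^(e 2)`, `GS_size` for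
  `{1}`, `{2}`).
  `‖Ls A₀‖ ≤ 2^(e 0 + 1)` trivially (`norm_Ls_le`, at most `2^(e 0)` nonzero terms of norm `≤ 1`), and
  `≤ (2 + |t|) * 8 * 2^(e 0) / (log N)^A` by `mu_short` (`‖pt y t‖ ≤ 1 + |t|`; `2^(e 0) ≤ 10 N` from
  the hypothesis on the product).
  Split the integral at `|t| = T`: `∫_{|t| ≤ T} ‖ker‖ ≤ 10 log y / Δ` (`ker_l1`),
  `∫_{|t| > T} ‖ker‖ ≤ 6 / (Δ T)` (`ker_tail`).  Total:
  `(log N)^(2C') * 800 * E * ((10 log y / Δ) (2 + T) 8 / (log N)^A + 2 * 6 / (Δ T))`, `E = 2 ^ ∑ e i`,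
  `T ≥ 1`, `log y ≤ 2 log N`.  Take `C = 2 C' + 2` (large `N`).
-/

set_option autoImplicit false

open Finset Filter

namespace PGB

/-- The difference of two consecutive powers. -/
private theorem cpow_diff {s : ℂ} (hs : 0 ≤ s.re) {n : ℕ} (hn : 1 ≤ n) :
    ‖((n + 1 : ℕ) : ℂ) ^ (-s) - (n : ℂ) ^ (-s)‖ ≤ ‖s‖ / n := by
  have hn0 : (0 : ℝ) < n := by exact_mod_cast hn
  have hn1 : (1 : ℝ) ≤ n := by exact_mod_cast hn
  have hd : ∀ x ∈ Set.Icc (n : ℝ) (n + 1), HasDerivWithinAt (fun x : ℝ => (x : ℂ) ^ (-s))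
      ((-s) * (x : ℂ) ^ (-s - 1)) (Set.Icc (n : ℝ) (n + 1)) x := by
    intro x hx
    have hx0 : 0 < x := lt_of_lt_of_le hn0 hx.1
    have h1 : HasDerivAt (fun z : ℂ => z ^ (-s)) ((-s) * (x : ℂ) ^ (-s - 1) * 1) (x : ℂ) :=
      (hasDerivAt_id (x : ℂ)).cpow_const (Or.inl (by simpa using hx0))
    rw [mul_one] at h1
    exact (h1.comp_ofReal).hasDerivWithinAt
  have hb : ∀ x ∈ Set.Ico (n : ℝ) (n + 1), ‖(-s) * (x : ℂ) ^ (-s - 1)‖ ≤ ‖s‖ / n := by
    intro x hx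
    have hx0 : 0 < x := lt_of_lt_of_le hn0 hx.1
    rw [norm_mul, norm_neg, Complex.norm_cpow_eq_rpow_re_of_pos hx0, div_eq_mul_inv]
    refine mul_le_mul_of_nonneg_left ?_ (norm_nonneg _)
    have e1 : (-s - 1).re = -(s.re + 1) := by
      simp
      ring
    rw [e1, Real.rpow_neg hx0.le]
    apply inv_anti₀ hn0
    calc (n : ℝ) ≤ x := hx.1
      _ = x ^ (1 : ℝ) := (Real.rpow_one x).symm
      _ ≤ x ^ (s.re + 1) := by
          apply Real.rpow_le_rpow_of_exponent_le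
          · linarith [hx.1]
          · linarith
  have h := norm_image_sub_le_of_norm_deriv_le_segment' hd hb (n + 1)
    (Set.right_mem_Icc.2 (by linarith))
  have e2 : ((n : ℝ) + 1 - n) = 1 := by ring
  rw [e2, mul_one] at h
  have e3 : (((n : ℝ) + 1 : ℝ) : ℂ) = ((n + 1 : ℕ) : ℂ) := by push_cast; rfl
  simpa [e3] using h

/-- Partial summation with a bound for all partial sums. -/
private theorem part_sum (g w : ℕ → ℂ) (m : ℕ) {β σ : ℝ} (hσ : 0 ≤ σ)
    (hT : ∀ k, k ≤ m → ‖∑ i ∈ range k, g i‖ ≤ β) (hw : ∀ i, i < m → ‖w i‖ ≤ 1)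
    (hd : ∀ i, i < m → ‖w (i + 1) - w i‖ ≤ σ) :
    ‖∑ i ∈ range m, w i * g i‖ ≤ β * (1 + m * σ) := by
  have hβ : 0 ≤ β := le_trans (norm_nonneg _) (hT 0 (Nat.zero_le _))
  rcases Nat.eq_zero_or_pos m with h0 | hm0
  · subst h0
    simp
    exact hβ
  have h := Finset.sum_range_by_parts w g m
  simp only [smul_eq_mul] at h
  rw [h]
  refine le_trans (norm_sub_le _ _) ?_
  have h1 : ‖w (m - 1) * ∑ i ∈ range m, g i‖ ≤ β := by
    rw [norm_mul]
    calc ‖w (m - 1)‖ * ‖∑ i ∈ range m, g i‖ ≤ 1 * β :=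
          mul_le_mul (hw _ (by omega)) (hT m le_rfl) (norm_nonneg _) (by norm_num)
      _ = β := one_mul β
  have h2 : ‖∑ i ∈ range (m - 1), (w (i + 1) - w i) * ∑ i ∈ range (i + 1), g i‖ ≤
      m * (σ * β) := by
    calc _ ≤ ∑ i ∈ range (m - 1), ‖(w (i + 1) - w i) * ∑ i ∈ range (i + 1), g i‖ :=
          norm_sum_le _ _
      _ ≤ ∑ i ∈ range (m - 1), σ * β := by
          refine sum_le_sum fun i hi => ?_
          rw [Finset.mem_range] at hi
          rw [norm_mul]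
          exact mul_le_mul (hd i (by omega)) (hT (i + 1) (by omega)) (norm_nonneg _) hσ
      _ = ((m - 1 : ℕ) : ℝ) * (σ * β) := by rw [sum_const, card_range, nsmul_eq_mul]
      _ ≤ m * (σ * β) := by
          apply mul_le_mul_of_nonneg_right _ (by positivity)
          exact_mod_cast Nat.sub_le m 1
  calc _ ≤ β + m * (σ * β) := add_le_add h1 h2
    _ = β * (1 + m * σ) := by ring

theorem mu_short {A : ℝ} {N : ℕ} (hN : 3 ≤ N) {j : PC} (hj : ¬ Bad A N j) {z e : ℕ}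
    (hz : z ≤ 10 * N) (he : 2 * (N : ℝ) ^ (1 / 10 : ℝ) ≤ 2 ^ e) (he2 : 2 ^ e ≤ 10 * N)
    {s : ℂ} (hs : 0 ≤ s.re) :
    ‖Ls (pc z e 1) j s‖ ≤ (1 + ‖s‖) * (8 * 2 ^ e / Real.log N ^ A) := by
  have hN3 : (3 : ℝ) ≤ N := by exact_mod_cast hN
  have hL : 0 < Real.log N := Real.log_pos (by linarith)
  have hLA : 0 < Real.log N ^ A := Real.rpow_pos_of_pos hL A
  have hN1 : 1 ≤ (N : ℝ) ^ (1 / 10 : ℝ) := Real.one_le_rpow (by linarith) (by norm_num)
  set a : ℕ := 2 ^ e with ha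
  have haR : (a : ℝ) = 2 ^ e := by rw [ha]; push_cast; rfl
  have ha2 : 2 ≤ a := by
    have : (2 : ℝ) ≤ a := by rw [haR]; linarith
    exact_mod_cast this
  have hmus : ∀ u : ℕ, (N : ℝ) ^ (1 / 10 : ℝ) ≤ u → u ≤ 10 * N →
      ‖mus j u‖ ≤ (u : ℝ) / Real.log N ^ A := by
    intro u hu1 hu2
    by_contra h
    exact hj ⟨u, hu1, hu2, not_le.1 h⟩
  have ha1R : ((a - 1 : ℕ) : ℝ) = (a : ℝ) - 1 := by
    rw [Nat.cast_sub (by omega)]
    norm_num
  have hmusa : ‖mus j (a - 1)‖ ≤ (a : ℝ) / Real.log N ^ A := by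
    refine le_trans (hmus (a - 1) ?_ (by omega)) ?_
    · rw [ha1R]
      rw [← haR] at he
      linarith
    · apply div_le_div_of_nonneg_right _ hLA.le
      rw [ha1R]
      linarith
  -- the sum
  have hsupp : Supp (2 ^ (e + 1)) (pc z e 1) := by
    intro n hn
    show (if 2 ^ e ≤ n ∧ n < 2 ^ (e + 1) then base z 1 n else 0) = 0
    rw [if_neg]
    rcases hn with hn | hn
    · rw [hn]
      have : 0 < 2 ^ e := by positivity
      omega
    · omega
  have hval : ∀ n, pc z e 1 n = if a ≤ n ∧ n < 2 * a then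
      (if n ≤ z then ((ArithmeticFunction.moebius n : ℤ) : ℂ) else 0) else 0 := by
    intro n
    show (if 2 ^ e ≤ n ∧ n < 2 ^ (e + 1) then base z 1 n else 0) = _
    rw [pow_succ, mul_comm (2 ^ e) 2, ← ha]
    rfl
  set m : ℕ := min (2 * a) (z + 1) - a with hm
  have hma : m ≤ a := by omega
  have key : Ls (pc z e 1) j s = ∑ i ∈ range m, ((a + i : ℕ) : ℂ) ^ (-s) *
      (((ArithmeticFunction.moebius (a + i) : ℤ) : ℂ) * ch j (a + i)) := by
    rw [Ls_eq_sum hsupp j s]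
    have e1 : ∑ i ∈ range m, ((a + i : ℕ) : ℂ) ^ (-s) *
        (((ArithmeticFunction.moebius (a + i) : ℤ) : ℂ) * ch j (a + i)) =
        ∑ n ∈ Ico a (a + m), (n : ℂ) ^ (-s) *
        (((ArithmeticFunction.moebius n : ℤ) : ℂ) * ch j n) := by
      rw [Finset.sum_Ico_eq_sum_range]
      rw [Nat.add_sub_cancel_left]
    rw [e1]
    symm
    have e2 : ∀ n ∈ Ico a (a + m), (n : ℂ) ^ (-s) *
        (((ArithmeticFunction.moebius n : ℤ) : ℂ) * ch j n) =
        ch j n * pc z e 1 n * (n : ℂ) ^ (-s) := by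
      intro n hn
      rw [Finset.mem_Ico] at hn
      rw [hval n, if_pos (by omega), if_pos (by omega)]
      ring
    rw [Finset.sum_congr rfl e2]
    apply Finset.sum_subset
    · intro n hn
      rw [Finset.mem_Ico] at hn
      rw [Finset.mem_range, pow_succ, ← ha]
      omega
    · intro n _ hn
      rw [Finset.mem_Ico] at hn
      rw [hval n]
      by_cases h1 : a ≤ n ∧ n < 2 * a
      · rw [if_pos h1, if_neg (by omega)]
        simp
      · rw [if_neg h1]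
        simp
  have hpart : ∀ k, 1 ≤ k → mus j (a + k - 1) - mus j (a - 1) =
      ∑ i ∈ range k, ((ArithmeticFunction.moebius (a + i) : ℤ) : ℂ) * ch j (a + i) := by
    intro k hk
    unfold mus
    have e1 : a + k - 1 + 1 = a + k := by omega
    have e2 : a - 1 + 1 = a := by omega
    rw [e1, e2, Finset.sum_range_add, add_sub_cancel_left]
  set β : ℝ := 4 * (a : ℝ) / Real.log N ^ A with hβ
  have hβ0 : 0 ≤ β := by positivity
  have hT : ∀ k, k ≤ m → ‖∑ i ∈ range k,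
      ((ArithmeticFunction.moebius (a + i) : ℤ) : ℂ) * ch j (a + i)‖ ≤ β := by
    intro k hk
    rcases Nat.eq_zero_or_pos k with h0 | hk0
    · subst h0
      simpa using hβ0
    · rw [← hpart k hk0]
      have hu1 : (a : ℝ) ≤ ((a + k - 1 : ℕ) : ℝ) := by
        have : a ≤ a + k - 1 := by omega
        exact_mod_cast this
      have hu2 : ((a + k - 1 : ℕ) : ℝ) ≤ 2 * (a : ℝ) := by
        have : a + k - 1 ≤ 2 * a := by omega
        exact_mod_cast this
      have h1 : ‖mus j (a + k - 1)‖ ≤ (2 * (a : ℝ)) / Real.log N ^ A := by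
        refine le_trans (hmus (a + k - 1) ?_ (by omega)) ?_
        · rw [← haR] at he
          linarith
        · exact div_le_div_of_nonneg_right hu2 hLA.le
      calc ‖mus j (a + k - 1) - mus j (a - 1)‖ ≤ ‖mus j (a + k - 1)‖ + ‖mus j (a - 1)‖ :=
            norm_sub_le _ _
        _ ≤ (2 * (a : ℝ)) / Real.log N ^ A + (a : ℝ) / Real.log N ^ A := add_le_add h1 hmusa
        _ = 3 * (a : ℝ) / Real.log N ^ A := by ring
        _ ≤ β := by
            rw [hβ]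
            apply div_le_div_of_nonneg_right _ hLA.le
            have : (0 : ℝ) ≤ a := Nat.cast_nonneg _
            linarith
  have haR0 : (0 : ℝ) < a := by
    have : 0 < a := by omega
    exact_mod_cast this
  rw [key]
  have hfin := part_sum (fun i => ((ArithmeticFunction.moebius (a + i) : ℤ) : ℂ) * ch j (a + i))
    (fun i => ((a + i : ℕ) : ℂ) ^ (-s)) m (β := β) (σ := ‖s‖ / a) (by positivity) hT
    (by
      intro i _
      show ‖((a + i : ℕ) : ℂ) ^ (-s)‖ ≤ 1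
      rw [Complex.norm_natCast_cpow_of_pos (by omega)]
      apply Real.rpow_le_one_of_one_le_of_nonpos
      · have : 1 ≤ a + i := by omega
        exact_mod_cast this
      · rw [Complex.neg_re]
        linarith)
    (by
      intro i _
      show ‖((a + (i + 1) : ℕ) : ℂ) ^ (-s) - ((a + i : ℕ) : ℂ) ^ (-s)‖ ≤ ‖s‖ / a
      have h := cpow_diff hs (n := a + i) (by omega)
      refine le_trans h ?_
      apply div_le_div_of_nonneg_left (norm_nonneg _) haR0
      have : a ≤ a + i := by omega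
      exact_mod_cast this)
  refine le_trans hfin ?_
  have h1 : (m : ℝ) * (‖s‖ / a) ≤ ‖s‖ := by
    rw [mul_div_assoc', div_le_iff₀ haR0, mul_comm]
    apply mul_le_mul_of_nonneg_left _ (norm_nonneg _)
    exact_mod_cast hma
  calc β * (1 + m * (‖s‖ / a)) ≤ β * (1 + ‖s‖) := by
        apply mul_le_mul_of_nonneg_left _ hβ0
        linarith
    _ ≤ (8 * 2 ^ e / Real.log N ^ A) * (1 + ‖s‖) := by
        apply mul_le_mul_of_nonneg_right _ (by positivity)
        rw [hβ, haR]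
        apply div_le_div_of_nonneg_right _ hLA.le
        have : (0 : ℝ) ≤ 2 ^ e := by positivity
        linarith
    _ = _ := mul_comm _ _

private theorem ws_int3 {N : ℕ} (hN : 9 ≤ N) {y Δ X : ℝ} {F : Finset PC} (h : Ctx N y Δ X F)
    (z : ℕ) (e : Fin 6 → ℕ) (c : Fin 6 → Fin 4) (j : PC) :
    ws y Δ (GS z e c univ) (10 * N) j =
      ∫ t, ker y Δ t * Ls (GS z e c univ) j (pt y t) := by
  obtain ⟨h1, h2, h3, h4, h5, h6⟩ := h
  have hN' : (9 : ℝ) ≤ N := by exact_mod_cast hN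
  have hy : 3 ≤ y := by linarith
  rw [← ws_eq hy h3 h4 (GS_supp z e c univ) j]
  refine ws_congr j fun n hn => ?_
  rcases min_lt_iff.1 hn with hn | hn
  · rw [wt_eq_zero' (by linarith) h3 h4 (n := n) ?_]
    · simp
    · have : ((10 * N : ℕ) : ℝ) < n := by exact_mod_cast hn
      push_cast at this
      linarith
  · rw [GS_supp z e c univ n (Or.inr hn)]
    simp

/-- The elementary inequality for one factor. -/
private theorem fac3 {X a P n l : ℝ} (ha : 1 ≤ a) (hX : X ^ 2 ≤ a) (hP0 : 0 ≤ P)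
    (hP : P ≤ 2 * a) (hl : 0 ≤ l) (hn : n ≤ P * l ^ 2) (hn0 : 0 ≤ n) :
    √((X ^ 2 + 4 * Real.pi * (P + 1)) * n) ≤ 10 * (a * l) := by
  have hpi := Real.pi_lt_d2
  have hpi0 := Real.pi_pos
  rw [Real.sqrt_le_iff]
  constructor
  · positivity
  · have h1 : X ^ 2 + 4 * Real.pi * (P + 1) ≤ 50 * a := by
      have h2 : 4 * Real.pi * (P + 1) ≤ 4 * 3.15 * (2 * a + a) := by
        apply mul_le_mul
        · linarith
        · linarith
        · linarith
        · norm_num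
      nlinarith
    have h6 : n ≤ 2 * a * l ^ 2 := by
      refine le_trans hn ?_
      exact mul_le_mul_of_nonneg_right hP (sq_nonneg l)
    calc (X ^ 2 + 4 * Real.pi * (P + 1)) * n ≤ (50 * a) * (2 * a * l ^ 2) := by
          apply mul_le_mul h1 h6 hn0
          positivity
      _ = (10 * (a * l)) ^ 2 := by ring

/-- The trivial bound for one dyadic piece of the Moebius function. -/
private theorem triv3 (z e : ℕ) (j : PC) {s : ℂ} (hs : 0 ≤ s.re) :
    ‖Ls (pc z e 1) j s‖ ≤ 2 * 2 ^ e := by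
  have hsupp : Supp (2 ^ (e + 1)) (pc z e 1) := by
    intro n hn
    show (if 2 ^ e ≤ n ∧ n < 2 ^ (e + 1) then base z 1 n else 0) = 0
    rw [if_neg]
    rcases hn with hn | hn
    · rw [hn]
      have : 0 < 2 ^ e := by positivity
      omega
    · omega
  refine le_trans (norm_Ls_le hsupp j hs) ?_
  have h1 : ∀ n ∈ range (2 ^ (e + 1) + 1), ‖pc z e 1 n‖ ≤
      if n ∈ Ico (2 ^ e) (2 ^ (e + 1)) then (1 : ℝ) else 0 := by
    intro n _
    have hv : pc z e 1 n = if 2 ^ e ≤ n ∧ n < 2 ^ (e + 1) then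
      (if n ≤ z then ((ArithmeticFunction.moebius n : ℤ) : ℂ) else 0) else 0 := rfl
    rw [hv]
    by_cases h : 2 ^ e ≤ n ∧ n < 2 ^ (e + 1)
    · rw [if_pos h, if_pos (Finset.mem_Ico.2 h)]
      split_ifs
      · rw [Complex.norm_intCast]
        have := ArithmeticFunction.abs_moebius_le_one (n := n)
        exact_mod_cast this
      · rw [norm_zero]
        norm_num
    · rw [if_neg h, norm_zero]
      split_ifs <;> norm_num
  refine le_trans (sum_le_sum h1) ?_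
  rw [Finset.sum_ite_mem, Finset.sum_const, nsmul_eq_mul, mul_one]
  have h2 : (range (2 ^ (e + 1) + 1) ∩ Ico (2 ^ e) (2 ^ (e + 1))).card ≤ 2 * 2 ^ e := by
    refine le_trans (Finset.card_le_card Finset.inter_subset_right) ?_
    rw [Nat.card_Ico, pow_succ]
    omega
  exact_mod_cast h2

/-- The final numerical comparison. -/
private theorem num3 {L l a0 a1 a2 a3 T Δ LA ly R K b1 : ℝ} (hL : 1000 ≤ L)
    (h0 : 1 ≤ a0) (h1 : 1 ≤ a1) (h2 : 1 ≤ a2) (h3 : 1 ≤ a3) (hT : 1 ≤ T) (hΔ : 0 < Δ)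
    (hLA : 0 < LA) (hly : ly ≤ 2 * L) (hR : R = 8 * a3 * l ^ 2)
    (hK : K = 100 * (a1 * a2) * l ^ 2) (hb : b1 = 24 * (T * a0) / LA) :
    (R * K * b1) * (10 * ly / Δ) + (R * K * (2 * a0)) * (6 / (Δ * T)) ≤
      l ^ 4 * L ^ 3 * (a0 * a1 * a2 * a3 * (T / (Δ * LA) + 1 / (Δ * T))) := by
  have hL0 : 0 < L := by linarith
  have hT0 : 0 < T := by linarith
  have hly' : 10 * ly / Δ ≤ 20 * L / Δ := by
    apply div_le_div_of_nonneg_right _ hΔ.le
    linarith
  have hRK : R * K = 800 * (a1 * a2 * a3) * l ^ 4 := by rw [hR, hK]; ring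
  have hb0 : 0 ≤ b1 := by rw [hb]; positivity
  have hRK0 : 0 ≤ R * K := by rw [hRK]; positivity
  have q1 : (R * K * b1) * (10 * ly / Δ) ≤
      (384000 * L) * (l ^ 4 * (a0 * a1 * a2 * a3 * (T / (Δ * LA)))) := by
    calc (R * K * b1) * (10 * ly / Δ) ≤ (R * K * b1) * (20 * L / Δ) :=
          mul_le_mul_of_nonneg_left hly' (mul_nonneg hRK0 hb0)
      _ = (384000 * L) * (l ^ 4 * (a0 * a1 * a2 * a3 * (T / (Δ * LA)))) := by
          rw [hRK, hb]
          field_simp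
          ring
  have q2 : (R * K * (2 * a0)) * (6 / (Δ * T)) =
      9600 * (l ^ 4 * (a0 * a1 * a2 * a3 * (1 / (Δ * T)))) := by
    rw [hRK]
    ring
  have hL2 : 384000 ≤ L ^ 2 := by nlinarith
  have q3 : 384000 * L ≤ L ^ 3 := by
    calc 384000 * L ≤ L ^ 2 * L := mul_le_mul_of_nonneg_right hL2 hL0.le
      _ = L ^ 3 := by ring
  have q4 : 9600 ≤ L ^ 3 := le_trans (by linarith) q3
  have q5 : 0 ≤ l ^ 4 * (a0 * a1 * a2 * a3 * (T / (Δ * LA))) := by positivity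
  have q6 : 0 ≤ l ^ 4 * (a0 * a1 * a2 * a3 * (1 / (Δ * T))) := by positivity
  calc (R * K * b1) * (10 * ly / Δ) + (R * K * (2 * a0)) * (6 / (Δ * T))
      ≤ (384000 * L) * (l ^ 4 * (a0 * a1 * a2 * a3 * (T / (Δ * LA)))) +
        9600 * (l ^ 4 * (a0 * a1 * a2 * a3 * (1 / (Δ * T)))) := add_le_add q1 q2.le
    _ ≤ L ^ 3 * (l ^ 4 * (a0 * a1 * a2 * a3 * (T / (Δ * LA)))) +
        L ^ 3 * (l ^ 4 * (a0 * a1 * a2 * a3 * (1 / (Δ * T)))) :=
        add_le_add (mul_le_mul_of_nonneg_right q3 q5) (mul_le_mul_of_nonneg_right q4 q6)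
    _ = _ := by ring

theorem t3 : ∃ C : ℝ, 0 ≤ C ∧ ∀ᶠ N : ℕ in atTop, ∀ (y Δ X : ℝ) (F : Finset PC),
    Ctx N y Δ X F → ∀ A : ℝ, (∀ j ∈ F, ¬ Bad A N j) → ∀ (z : ℕ) (e : Fin 6 → ℕ), z ≤ 10 * N →
    2 ^ ∑ i, e i ≤ 10 * N → 2 * (N : ℝ) ^ (1 / 10 : ℝ) ≤ 2 ^ e 0 → X ^ 2 ≤ 2 ^ e 1 →
    X ^ 2 ≤ 2 ^ e 2 → ∀ T : ℝ, 1 ≤ T →
    ∑ j ∈ F, ‖ws y Δ (GS z e (pat 2) univ) (10 * N) j‖ ≤
      Real.log N ^ C * (2 ^ (∑ i, e i) * (T / (Δ * Real.log N ^ A) + 1 / (Δ * T))) := by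
  classical
  obtain ⟨C', hC', hsize⟩ := GS_size
  refine ⟨2 * C' + 3, by linarith, ?_⟩
  have hlog : ∀ᶠ N : ℕ in atTop, (1000 : ℝ) ≤ Real.log N :=
    (Real.tendsto_log_atTop.comp tendsto_natCast_atTop_atTop).eventually_ge_atTop 1000
  filter_upwards [hsize, hlog, eventually_ge_atTop 9] with N hs hL hN
  intro y Δ X F hctx A hbad z e hz hE he0 he1 he2 T hT
  have hctx' := hctx
  obtain ⟨h1, h2, h3, h4, h5, h6⟩ := hctx
  have hN' : (9 : ℝ) ≤ N := by exact_mod_cast hN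
  have hy : 3 ≤ y := by linarith
  have hlogy : Real.log y ≤ 2 * Real.log N := by
    have e1 : Real.log y ≤ Real.log ((N : ℝ) ^ 2) := by
      apply Real.log_le_log (by linarith)
      nlinarith
    rw [Real.log_pow] at e1
    exact_mod_cast e1
  have hlogy1 : 1 ≤ Real.log y := by
    rw [Real.le_log_iff_exp_le (by linarith)]
    have := Real.exp_one_lt_d9
    linarith
  set L := Real.log N with hLdef
  have hL0 : 0 < L := by linarith
  have hLA : 0 < L ^ A := Real.rpow_pos_of_pos hL0 A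
  set c : Fin 6 → Fin 4 := pat 2 with hc
  have hc0 : c 0 = 1 := rfl
  have hc1 : c 1 = 1 := rfl
  have hc2 : c 2 = 1 := rfl
  have hsum : ∑ i, e i = e 0 + e 1 + e 2 + (e 3 + e 4 + e 5) := by
    rw [Fin.sum_univ_six]
    ring
  set S : Finset (Fin 6) := {3, 4, 5} with hS
  have hSsum : ∀ g : Fin 6 → ℕ, ∑ i ∈ S, g i = g 3 + g 4 + g 5 := by
    intro g
    rw [hS, Finset.sum_insert (by decide), Finset.sum_insert (by decide), Finset.sum_singleton]
    ring
  have hG : GS z e c univ = GS z e c {0} * (GS z e c {1} * (GS z e c {2} * GS z e c S)) := by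
    unfold GS
    rw [Finset.prod_singleton, Finset.prod_singleton, Finset.prod_singleton, hS,
      Finset.prod_insert (by decide), Finset.prod_insert (by decide), Finset.prod_singleton,
      Fin.prod_univ_six]
    ring
  have hG0 : GS z e c {0} = pc z (e 0) 1 := by
    unfold GS
    rw [Finset.prod_singleton, hc0]
  have hs0 := GS_supp z e c {0}
  have hs1 := GS_supp z e c {1}
  have hs2 := GS_supp z e c {2}
  have hs3 := GS_supp z e c S
  have hle : ∀ k : ℕ, k ≤ ∑ i, e i → 2 ^ k ≤ 10 * N := fun k hk =>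
    le_trans (Nat.pow_le_pow_right (by norm_num) hk) hE
  have hz1 := (hs z e c {1} (hle _ (by rw [Finset.sum_singleton]; omega))).1
  have hz2 := (hs z e c {2} (hle _ (by rw [Finset.sum_singleton]; omega))).1
  have hz3 := (hs z e c S (hle _ (by rw [hSsum]; omega))).2
  set P1 : ℕ := 2 ^ ∑ i ∈ {1}, (e i + 1) with hP1
  set P2 : ℕ := 2 ^ ∑ i ∈ {2}, (e i + 1) with hP2
  set a0 : ℝ := 2 ^ e 0 with ha0
  set a1 : ℝ := 2 ^ e 1 with ha1
  set a2 : ℝ := 2 ^ e 2 with ha2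
  set a3 : ℝ := 2 ^ (e 3 + e 4 + e 5) with ha3
  have ha0' : 1 ≤ a0 := one_le_pow₀ (by norm_num)
  have ha1' : 1 ≤ a1 := one_le_pow₀ (by norm_num)
  have ha2' : 1 ≤ a2 := one_le_pow₀ (by norm_num)
  have ha3' : 1 ≤ a3 := one_le_pow₀ (by norm_num)
  have hEa : (2 : ℝ) ^ (∑ i, e i) = a0 * a1 * a2 * a3 := by
    rw [hsum, pow_add, pow_add, pow_add]
  have hP1a : (2 : ℝ) ^ (∑ i ∈ {1}, (e i + 1)) = 2 * a1 := by
    rw [Finset.sum_singleton, pow_succ, mul_comm]
  have hP2a : (2 : ℝ) ^ (∑ i ∈ {2}, (e i + 1)) = 2 * a2 := by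
    rw [Finset.sum_singleton, pow_succ, mul_comm]
  have hP3a : (2 : ℝ) ^ (∑ i ∈ S, (e i + 1)) = 8 * a3 := by
    rw [hSsum]
    have : e 3 + 1 + (e 4 + 1) + (e 5 + 1) = (e 3 + e 4 + e 5) + 3 := by ring
    rw [this, pow_add, ← ha3]
    norm_num
    ring
  have hP1b : (P1 : ℝ) = 2 * a1 := by
    rw [← hP1a, hP1]
    push_cast
    rfl
  have hP2b : (P2 : ℝ) = 2 * a2 := by
    rw [← hP2a, hP2]
    push_cast
    rfl
  rw [hP1a] at hz1
  rw [hP2a] at hz2
  rw [hP3a] at hz3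
  set l : ℝ := √(L ^ C') with hl
  have hLC : 0 ≤ L ^ C' := (Real.rpow_pos_of_pos hL0 _).le
  have hlsq : l ^ 2 = L ^ C' := Real.sq_sqrt hLC
  have hl0 : 0 ≤ l := Real.sqrt_nonneg _
  rw [← hlsq] at hz1 hz2 hz3
  have hn1 : 0 ≤ nsq (GS z e c {1}) P1 := by unfold nsq; positivity
  have hn2 : 0 ≤ nsq (GS z e c {2}) P2 := by unfold nsq; positivity
  have k1 : √((X ^ 2 + 4 * Real.pi * (P1 + 1)) * nsq (GS z e c {1}) P1) ≤ 10 * (a1 * l) := by
    apply fac3 ha1' he1 (by positivity) hP1b.le hl0 ?_ hn1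
    rw [hP1b]
    exact hz1
  have k2 : √((X ^ 2 + 4 * Real.pi * (P2 + 1)) * nsq (GS z e c {2}) P2) ≤ 10 * (a2 * l) := by
    apply fac3 ha2' he2 (by positivity) hP2b.le hl0 ?_ hn2
    rw [hP2b]
    exact hz2
  have hre : ∀ t : ℝ, 0 ≤ (pt y t).re := by
    intro t
    rw [pt_re]
    positivity
  have hnpt : ∀ t : ℝ, ‖pt y t‖ ≤ 1 + |t| := by
    intro t
    unfold pt
    refine le_trans (norm_add_le _ _) ?_
    rw [norm_mul, Complex.norm_I, mul_one, Complex.norm_real, Complex.norm_real,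
      Real.norm_eq_abs, Real.norm_eq_abs]
    have : |1 / Real.log y| ≤ 1 := by
      rw [abs_of_nonneg (by positivity), div_le_one (by linarith)]
      exact hlogy1
    linarith
  -- the pointwise bound
  set R : ℝ := 8 * a3 * l ^ 2 with hR
  have hR0 : 0 ≤ R := by positivity
  set K : ℝ := 100 * (a1 * a2) * l ^ 2 with hK
  have hK0 : 0 ≤ K := by positivity
  set b1 : ℝ := 24 * (T * a0) / L ^ A with hb1
  have hb10 : 0 ≤ b1 := by positivity
  set W : Set ℝ := {t : ℝ | T < |t|} with hW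
  have hWm : MeasurableSet W := measurableSet_lt measurable_const (measurable_id.abs)
  have hA0 : ∀ j ∈ F, ∀ t : ℝ, ‖Ls (GS z e c {0}) j (pt y t)‖ ≤
      b1 + W.indicator (fun _ => 2 * a0) t := by
    intro j hj t
    rw [hG0]
    by_cases ht : t ∈ W
    · rw [Set.indicator_of_mem ht]
      have := triv3 z (e 0) j (hre t)
      linarith
    · rw [Set.indicator_of_notMem ht, add_zero]
      have ht' : |t| ≤ T := not_lt.1 ht
      have := mu_short (by omega : 3 ≤ N) (hbad j hj) hz he0 (hle _ (by omega)) (hre t)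
      refine le_trans this ?_
      rw [← hLdef, ← ha0]
      calc (1 + ‖pt y t‖) * (8 * a0 / L ^ A) ≤ (3 * T) * (8 * a0 / L ^ A) := by
            apply mul_le_mul_of_nonneg_right _ (by positivity)
            linarith [hnpt t]
        _ = b1 := by rw [hb1]; ring
  have hR1 : ∀ (j : PC) (t : ℝ), ‖Ls (GS z e c S) j (pt y t)‖ ≤ R := fun j t =>
    le_trans (norm_Ls_le hs3 j (hre t)) hz3
  have hint : ∀ j : PC, MeasureTheory.Integrable
      fun t => ‖ker y Δ t * Ls (GS z e c univ) j (pt y t)‖ := fun j =>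
    (mul_int hy h3 h4 (GS_supp z e c univ) j).norm
  have hkn := (ker_int hy h3 h4).norm
  have hpw : ∀ t : ℝ, ∑ j ∈ F, ‖ker y Δ t * Ls (GS z e c univ) j (pt y t)‖ ≤
      (R * K * b1) * ‖ker y Δ t‖ +
        (R * K * (2 * a0)) * W.indicator (fun t => ‖ker y Δ t‖) t := by
    intro t
    have hind : W.indicator (fun _ => 2 * a0) t * ‖ker y Δ t‖ =
        2 * a0 * W.indicator (fun t => ‖ker y Δ t‖) t := by
      by_cases ht : t ∈ W
      · rw [Set.indicator_of_mem ht, Set.indicator_of_mem ht]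
      · rw [Set.indicator_of_notMem ht, Set.indicator_of_notMem ht]
        ring
    have hind0 : 0 ≤ W.indicator (fun _ => 2 * a0) t :=
      Set.indicator_nonneg (fun _ _ => by positivity) t
    have e1 : ∀ j ∈ F, ‖ker y Δ t * Ls (GS z e c univ) j (pt y t)‖ ≤
        (‖ker y Δ t‖ * (b1 + W.indicator (fun _ => 2 * a0) t) * R) *
          (‖Ls (GS z e c {1}) j (pt y t)‖ * ‖Ls (GS z e c {2}) j (pt y t)‖) := by
      intro j hj
      rw [norm_mul, hG, Ls_mul hs0 (Supp_mul hs1 (Supp_mul hs2 hs3)),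
        Ls_mul hs1 (Supp_mul hs2 hs3), Ls_mul hs2 hs3, norm_mul, norm_mul, norm_mul]
      have q0 := hA0 j hj t
      have q3 := hR1 j t
      have q1 : 0 ≤ ‖Ls (GS z e c {1}) j (pt y t)‖ * ‖Ls (GS z e c {2}) j (pt y t)‖ := by
        positivity
      calc ‖ker y Δ t‖ * (‖Ls (GS z e c {0}) j (pt y t)‖ * (‖Ls (GS z e c {1}) j (pt y t)‖ *
            (‖Ls (GS z e c {2}) j (pt y t)‖ * ‖Ls (GS z e c S) j (pt y t)‖)))
          = (‖ker y Δ t‖ * (‖Ls (GS z e c {0}) j (pt y t)‖ * ‖Ls (GS z e c S) j (pt y t)‖)) *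
            (‖Ls (GS z e c {1}) j (pt y t)‖ * ‖Ls (GS z e c {2}) j (pt y t)‖) := by ring
        _ ≤ (‖ker y Δ t‖ * ((b1 + W.indicator (fun _ => 2 * a0) t) * R)) *
            (‖Ls (GS z e c {1}) j (pt y t)‖ * ‖Ls (GS z e c {2}) j (pt y t)‖) := by
            apply mul_le_mul_of_nonneg_right _ q1
            apply mul_le_mul_of_nonneg_left _ (norm_nonneg _)
            exact mul_le_mul q0 q3 (norm_nonneg _) (by positivity)
        _ = _ := by ring
    have hcau : ∑ j ∈ F, ‖Ls (GS z e c {1}) j (pt y t)‖ * ‖Ls (GS z e c {2}) j (pt y t)‖ ≤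
        K := by
      refine le_trans (ls_cauchy h5 h6 hs1 hs2 (hre t)) ?_
      calc _ ≤ (10 * (a1 * l)) * (10 * (a2 * l)) :=
            mul_le_mul k1 k2 (Real.sqrt_nonneg _) (by positivity)
        _ = K := by rw [hK]; ring
    calc _ ≤ _ := sum_le_sum e1
      _ = (‖ker y Δ t‖ * (b1 + W.indicator (fun _ => 2 * a0) t) * R) *
          ∑ j ∈ F, ‖Ls (GS z e c {1}) j (pt y t)‖ * ‖Ls (GS z e c {2}) j (pt y t)‖ := by
          rw [Finset.mul_sum]
      _ ≤ (‖ker y Δ t‖ * (b1 + W.indicator (fun _ => 2 * a0) t) * R) * K := by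
          apply mul_le_mul_of_nonneg_left hcau
          positivity
      _ = (R * K * b1) * ‖ker y Δ t‖ +
          R * K * (W.indicator (fun _ => 2 * a0) t * ‖ker y Δ t‖) := by ring
      _ = _ := by rw [hind]; ring
  have hindint : MeasureTheory.Integrable (W.indicator fun t => ‖ker y Δ t‖) :=
    hkn.indicator hWm
  have main : ∑ j ∈ F, ‖ws y Δ (GS z e c univ) (10 * N) j‖ ≤
      (R * K * b1) * (10 * Real.log y / Δ) + (R * K * (2 * a0)) * (6 / (Δ * T)) := by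
    calc ∑ j ∈ F, ‖ws y Δ (GS z e c univ) (10 * N) j‖
        ≤ ∑ j ∈ F, ∫ t, ‖ker y Δ t * Ls (GS z e c univ) j (pt y t)‖ := by
          refine sum_le_sum fun j _ => ?_
          rw [ws_int3 hN hctx' z e c j]
          exact MeasureTheory.norm_integral_le_integral_norm _
      _ = ∫ t, ∑ j ∈ F, ‖ker y Δ t * Ls (GS z e c univ) j (pt y t)‖ := by
          rw [MeasureTheory.integral_finsetSum]
          exact fun j _ => hint j
      _ ≤ ∫ t, ((R * K * b1) * ‖ker y Δ t‖ +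
            (R * K * (2 * a0)) * W.indicator (fun t => ‖ker y Δ t‖) t) := by
          apply MeasureTheory.integral_mono
          · exact MeasureTheory.integrable_finsetSum F fun j _ => hint j
          · exact (hkn.const_mul _).add (hindint.const_mul _)
          · exact hpw
      _ = (R * K * b1) * (∫ t, ‖ker y Δ t‖) +
            (R * K * (2 * a0)) * ∫ t in W, ‖ker y Δ t‖ := by
          rw [MeasureTheory.integral_add (hkn.const_mul _) (hindint.const_mul _),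
            MeasureTheory.integral_const_mul, MeasureTheory.integral_const_mul,
            MeasureTheory.integral_indicator hWm]
      _ ≤ _ := by
          apply add_le_add
          · exact mul_le_mul_of_nonneg_left (ker_l1 hy h3 h4) (by positivity)
          · exact mul_le_mul_of_nonneg_left (ker_tail hy h3 h4 (by linarith)) (by positivity)
  refine le_trans main ?_
  have hrp1 : L ^ (2 * C') = (L ^ C') ^ 2 := by
    rw [mul_comm, Real.rpow_mul hL0.le, Real.rpow_two]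
  have hrp2 : L ^ (3 : ℝ) = L ^ 3 := by exact_mod_cast Real.rpow_natCast L 3
  have hrp : L ^ (2 * C' + 3) = l ^ 4 * L ^ 3 := by
    rw [Real.rpow_add hL0, hrp1, hrp2, ← hlsq]
    ring
  rw [hrp, hEa]
  exact num3 hL ha0' ha1' ha2' ha3' hT h3 hLA hlogy hR hK hb1

end PGB
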