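import Pool.Agent.PGB.Dec
import Pool.Agent.PGB.T0
import Pool.Agent.PGB.T1
import Pool.Agent.PGB.T3

/-!
# Project PGB, Sml: the mean value theorem for characters which are not bad

PROOF.  `X = N^(1/200)`, `Δ = (log N)^(-A₂)`.  Take `z` from `dec`, `C` the maximum of the constants
of `t0`, `t1`, `t3`; `T = (log N)^(A₂ + A + C + 12)`, `A' = 2 A₂ + 2 A + 2 C + 24` (increase to be
positive if you like: `A' = max ...`; the statement only needs some `A'`).  The number of terms of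
`dec` is at most `(log N)^8` with the factor `3`.  Let `(k, e)` be one term, `c = pat k`,
`E = 2 ^ ∑ e i`; if `E > 10 N` it is `0` (`ws_zero_big`); let `E ≤ 10 N`.
(a) `E ≤ N^0.9`: `t0`: `(log N)^C (N^0.01 N^0.45 + N^0.005 N^0.9) ≤ N / (log N)^(A + 10)`.
(b) `E > N^0.9` and some `i₀` has `c i₀ = 2` or `3` and `2^(e i₀) ≥ N^0.03`: `t1`:
    `(log N)^C X^3 E / 2^(e i₀) ≤ (log N)^C N^0.015 * 10 N^0.97 ≤ N / (log N)^(A+10)`
    (`2 ^ ∑_{i ≠ i₀} e i = E / 2^(e i₀)`, `Finset.add_sum_erase`).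
(c) `E > N^0.9` and all `i` with `c i ∈ {2, 3}` have `2^(e i) < N^0.03`.  Indices with `c i = 0` have
    `e i = 0` and those with `c i = 1` have `2^(e i) ≤ z ≤ 3 N^(1/3)`, else the term is `0`
    (`GS_zero_delta`, `GS_zero_mu`).  Multiply (`Fin.prod_univ_six`):
    `k = 0`: `E ≤ 3 N^(1/3) N^0.03 < N^0.9`; `k = 1`: `E ≤ 9 N^(2/3) N^0.06 < N^0.9`: impossible.
    `k = 2`: `c = (1,1,1,2,2,3)`, so `E ≤ 2^(e 0) 2^(e 1) 2^(e 2) N^0.09`, and each of the three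
    factors is `≥ N^0.9 / (9 N^(2/3) N^0.09) ≥ 2 N^(1/10)` (`0.9 - 0.09 - 0.6667 = 0.1433`) and
    `≥ X^2 = N^0.01`.  `t3`:
    `(log N)^C 10 N (T (log N)^(A₂ - A') + (log N)^(A₂) / T) ≤ 20 N (log N)^(-A-12)`.
Sum of `(log N)^8` terms: `≤ N (log N)^(-A)` for large `N`.
-/

set_option autoImplicit false

open Finset Filter

namespace PGB

private theorem ev_aux (a b : ℝ) : ∀ᶠ N : ℕ in atTop,
    b * Real.log N ^ a ≤ (N : ℝ) ^ (1 / 600 : ℝ) := by
  have h := (isLittleO_log_rpow_rpow_atTop a (show (0 : ℝ) < 1 / 600 by norm_num)).bound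
    (show (0 : ℝ) < 1 / (|b| + 1) by positivity)
  have h2 := tendsto_natCast_atTop_atTop.eventually h
  filter_upwards [h2, eventually_ge_atTop 1] with N hN h1
  have h3 : (0 : ℝ) ≤ (N : ℝ) ^ (1 / 600 : ℝ) := by positivity
  have h4 : (0 : ℝ) ≤ Real.log N ^ a :=
    Real.rpow_nonneg (Real.log_nonneg (by exact_mod_cast h1)) _
  rw [Real.norm_of_nonneg h4, Real.norm_of_nonneg h3] at hN
  have hb : (0 : ℝ) < |b| + 1 := by positivity
  rw [one_div_mul_eq_div, le_div_iff₀ hb] at hN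
  have h5 : b ≤ |b| + 1 := by linarith [le_abs_self b]
  nlinarith

private theorem card_aux {N : ℕ} (hN : 1 ≤ N) (hL : 24 ≤ Real.log N) :
    9 * ((Nat.log 2 (10 * N) + 1 : ℕ) : ℝ) ^ 6 ≤ Real.log N ^ 8 := by
  have h1 : (2 : ℝ) ^ (Nat.log 2 (10 * N)) ≤ 10 * N := by
    exact_mod_cast Nat.pow_log_le_self 2 (by omega)
  have h0 : (0 : ℝ) < N := by exact_mod_cast hN
  have h2 := Real.log_le_log (by positivity) h1
  rw [Real.log_pow, Real.log_mul (by norm_num) h0.ne'] at h2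
  have h3 := Real.log_two_gt_d9
  have h4 : Real.log 10 ≤ 3 := by
    have h5 : Real.log 10 ≤ Real.log 16 := Real.log_le_log (by norm_num) (by norm_num)
    have h6 : Real.log 16 = 4 * Real.log 2 := by
      rw [show (16 : ℝ) = 2 ^ 4 by norm_num, Real.log_pow]
      norm_num
    have h7 := Real.log_two_lt_d9
    linarith
  set K : ℝ := (Nat.log 2 (10 * N) : ℝ) with hK
  have hK0 : 0 ≤ K := by positivity
  have h8 : K + 1 ≤ 2 * Real.log N := by nlinarith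
  have h9 : (K + 1) ^ 6 ≤ (2 * Real.log N) ^ 6 := pow_le_pow_left₀ (by positivity) h8 6
  push_cast
  rw [← hK]
  have h10 : 9 * (2 * Real.log N) ^ 6 ≤ Real.log N ^ 8 := by
    have : 9 * (2 * Real.log N) ^ 6 = 24 ^ 2 * Real.log N ^ 6 := by ring
    rw [this]
    have h11 : Real.log N ^ 8 = Real.log N ^ 2 * Real.log N ^ 6 := by ring
    rw [h11]
    apply mul_le_mul_of_nonneg_right _ (by positivity)
    apply pow_le_pow_left₀ (by norm_num) hL
  linarith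

private theorem ws_zero' (y Δ : ℝ) (M : ℕ) (j : PC) :
    ws y Δ (fun n => (0 : ArithmeticFunction ℂ) n) M j = 0 := by
  unfold ws
  simp

/-- One term of the decomposition, in terms of `u = N^(1/600)` and `L = log N`. -/
private theorem term {a A₂ C t : ℝ} {N z : ℕ} {y : ℝ} {F : Finset PC}
    (ha : 0 ≤ a) (hA₂ : 0 ≤ A₂) (hC : 0 ≤ C) (ht : t = A₂ + a + C + 9)
    (hN : 1 ≤ N) (hL : 24 ≤ Real.log N)
    (hu : 10 * Real.log N ^ (C + a + 8) ≤ (N : ℝ) ^ (1 / 600 : ℝ))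
    (hz : (z : ℝ) ≤ 3 * (N : ℝ) ^ (1 / 3 : ℝ))
    (h0 : ∀ e : Fin 6 → ℕ, ∀ c : Fin 6 → Fin 4, 2 ^ ∑ i, e i ≤ 10 * N →
      ∑ j ∈ F, ‖ws y (Real.log N ^ (-A₂)) (GS z e c univ) (10 * N) j‖ ≤
        Real.log N ^ C * (((N : ℝ) ^ (1 / 200 : ℝ)) ^ 2 * √(2 ^ ∑ i, e i)
          + (N : ℝ) ^ (1 / 200 : ℝ) * 2 ^ ∑ i, e i))
    (h1 : ∀ e : Fin 6 → ℕ, ∀ c : Fin 6 → Fin 4, 2 ^ ∑ i, e i ≤ 10 * N →
      ∀ i₀ : Fin 6, c i₀ = 2 ∨ c i₀ = 3 →
      ∑ j ∈ F, ‖ws y (Real.log N ^ (-A₂)) (GS z e c univ) (10 * N) j‖ ≤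
        Real.log N ^ C * (((N : ℝ) ^ (1 / 200 : ℝ)) ^ 3 * 2 ^ ∑ i ∈ univ.erase i₀, e i))
    (h3 : ∀ e : Fin 6 → ℕ, 2 ^ ∑ i, e i ≤ 10 * N →
      2 * (N : ℝ) ^ (1 / 10 : ℝ) ≤ 2 ^ e 0 → ((N : ℝ) ^ (1 / 200 : ℝ)) ^ 2 ≤ 2 ^ e 1 →
      ((N : ℝ) ^ (1 / 200 : ℝ)) ^ 2 ≤ 2 ^ e 2 →
      ∑ j ∈ F, ‖ws y (Real.log N ^ (-A₂)) (GS z e (pat 2) univ) (10 * N) j‖ ≤
      Real.log N ^ C * (2 ^ (∑ i, e i) * (Real.log N ^ t /
        (Real.log N ^ (-A₂) * Real.log N ^ (2 * t)) + 1 / (Real.log N ^ (-A₂) * Real.log N ^ t))))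
    (k : Fin 3) (e : Fin 6 → ℕ) :
    ∑ j ∈ F, ‖ws y (Real.log N ^ (-A₂)) (GS z e (pat k) univ) (10 * N) j‖ ≤
      N / Real.log N ^ (a + 8) := by
  have hn : (1 : ℝ) ≤ N := by exact_mod_cast hN
  have hn0 : (0 : ℝ) ≤ N := by linarith
  set L : ℝ := Real.log N with hLdef
  set u : ℝ := (N : ℝ) ^ (1 / 600 : ℝ) with hudef
  have hL1 : 1 ≤ L := by linarith
  have hL0 : 0 < L := by linarith
  have hpw : ∀ (x : ℝ) (m : ℕ), x = m / 600 → (N : ℝ) ^ x = u ^ m := by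
    intro x m hx
    rw [hudef, ← Real.rpow_natCast, ← Real.rpow_mul hn0, hx]
    congr 1
    ring
  have hX : (N : ℝ) ^ (1 / 200 : ℝ) = u ^ 3 := hpw _ _ (by norm_num)
  have hN3 : (N : ℝ) ^ (1 / 3 : ℝ) = u ^ 200 := hpw _ _ (by norm_num)
  have hN10 : (N : ℝ) ^ (1 / 10 : ℝ) = u ^ 60 := hpw _ _ (by norm_num)
  have hN1 : (N : ℝ) = u ^ 600 := by
    have := hpw 1 600 (by norm_num)
    rwa [Real.rpow_one] at this
  have hP1 : 1 ≤ L ^ (C + a + 8) := Real.one_le_rpow hL1 (by linarith)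
  have hPC : L ^ (C + a + 8) = L ^ C * L ^ (a + 8) := by
    rw [← Real.rpow_add hL0]
    congr 1
    ring
  have hu10 : 10 ≤ u := by linarith
  have hu1 : 1 ≤ u := by linarith
  have hu0 : 0 < u := by linarith
  have hLC : 0 < L ^ C := Real.rpow_pos_of_pos hL0 _
  have hLa : 0 < L ^ (a + 8) := Real.rpow_pos_of_pos hL0 _
  have hB : 0 ≤ (N : ℝ) / L ^ (a + 8) := by positivity
  by_cases hE : 2 ^ ∑ i, e i ≤ 10 * N
  swap
  · rw [Finset.sum_eq_zero]
    · exact hB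
    · intro j _
      rw [ws_zero_big (by omega), norm_zero]
  by_cases hG : GS z e (pat k) univ = 0
  · rw [hG]
    rw [Finset.sum_eq_zero]
    · exact hB
    · intro j _
      have := ws_zero' y (L ^ (-A₂)) (10 * N) j
      rw [show (⇑(0 : ArithmeticFunction ℂ)) = (fun n => (0 : ArithmeticFunction ℂ) n) from rfl,
        this, norm_zero]
  have hdl : ∀ i, pat k i = 0 → e i = 0 := by
    intro i hi
    by_contra hne
    exact hG (GS_zero_delta hi (by omega))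
  have hmu : ∀ i, pat k i = 1 → (2 : ℝ) ^ e i ≤ 3 * u ^ 200 := by
    intro i hi
    by_contra hne
    apply hG
    apply GS_zero_mu hi
    rw [hN3] at hz
    have : (z : ℝ) < 2 ^ e i := by linarith [not_le.1 hne]
    exact_mod_cast this
  have hER : (2 : ℝ) ^ (∑ i, e i) ≤ 10 * u ^ 600 := by
    rw [← hN1]
    exact_mod_cast hE
  rw [le_div_iff₀ hLa]
  by_cases hA : (2 : ℝ) ^ (∑ i, e i) ≤ u ^ 540
  · have h := h0 e (pat k) hE
    rw [hX] at h
    have hs : √((2 : ℝ) ^ (∑ i, e i)) ≤ u ^ 270 := by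
      rw [Real.sqrt_le_left (by positivity)]
      calc (2 : ℝ) ^ (∑ i, e i) ≤ u ^ 540 := hA
        _ = (u ^ 270) ^ 2 := by ring
    have h5 : (u ^ 3) ^ 2 * √((2 : ℝ) ^ (∑ i, e i)) ≤ u ^ 543 := by
      calc (u ^ 3) ^ 2 * √((2 : ℝ) ^ (∑ i, e i)) ≤ (u ^ 3) ^ 2 * u ^ 270 :=
            mul_le_mul_of_nonneg_left hs (by positivity)
        _ = u ^ 276 := by ring
        _ ≤ u ^ 543 := pow_le_pow_right₀ hu1 (by norm_num)
    have h6 : u ^ 3 * (2 : ℝ) ^ (∑ i, e i) ≤ u ^ 543 := by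
      calc u ^ 3 * (2 : ℝ) ^ (∑ i, e i) ≤ u ^ 3 * u ^ 540 :=
            mul_le_mul_of_nonneg_left hA (by positivity)
        _ = u ^ 543 := by ring
    calc _ ≤ (L ^ C * ((u ^ 3) ^ 2 * √((2 : ℝ) ^ (∑ i, e i)) + u ^ 3 * 2 ^ (∑ i, e i)))
            * L ^ (a + 8) := mul_le_mul_of_nonneg_right h hLa.le
      _ ≤ (L ^ C * (u ^ 543 + u ^ 543)) * L ^ (a + 8) := by
          apply mul_le_mul_of_nonneg_right _ hLa.le
          apply mul_le_mul_of_nonneg_left _ hLC.le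
          linarith
      _ = (2 * (L ^ C * L ^ (a + 8))) * u ^ 543 := by ring
      _ = (2 * L ^ (C + a + 8)) * u ^ 543 := by rw [hPC]
      _ ≤ u * u ^ 543 := by
          apply mul_le_mul_of_nonneg_right _ (by positivity)
          linarith
      _ = u ^ 544 := by ring
      _ ≤ u ^ 600 := pow_le_pow_right₀ hu1 (by norm_num)
      _ = N := hN1.symm
  by_cases hb : ∃ i₀, (pat k i₀ = 2 ∨ pat k i₀ = 3) ∧ u ^ 18 ≤ (2 : ℝ) ^ e i₀
  · obtain ⟨i₀, hi₀, hbig⟩ := hb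
    have h := h1 e (pat k) hE i₀ hi₀
    rw [hX] at h
    have h5 : (2 : ℝ) ^ e i₀ * 2 ^ (∑ i ∈ univ.erase i₀, e i) ≤ 10 * u ^ 600 := by
      rw [← pow_add, Finset.add_sum_erase _ _ (Finset.mem_univ i₀)]
      exact hER
    have h6 : (2 : ℝ) ^ (∑ i ∈ univ.erase i₀, e i) ≤ 10 * u ^ 582 := by
      have h7 : u ^ 18 * (2 : ℝ) ^ (∑ i ∈ univ.erase i₀, e i) ≤ u ^ 18 * (10 * u ^ 582) := by
        calc u ^ 18 * (2 : ℝ) ^ (∑ i ∈ univ.erase i₀, e i)
            ≤ (2 : ℝ) ^ e i₀ * 2 ^ (∑ i ∈ univ.erase i₀, e i) :=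
              mul_le_mul_of_nonneg_right hbig (by positivity)
          _ ≤ 10 * u ^ 600 := h5
          _ = u ^ 18 * (10 * u ^ 582) := by ring
      exact le_of_mul_le_mul_left h7 (by positivity)
    calc _ ≤ (L ^ C * ((u ^ 3) ^ 3 * 2 ^ (∑ i ∈ univ.erase i₀, e i))) * L ^ (a + 8) :=
            mul_le_mul_of_nonneg_right h hLa.le
      _ ≤ (L ^ C * ((u ^ 3) ^ 3 * (10 * u ^ 582))) * L ^ (a + 8) := by
          apply mul_le_mul_of_nonneg_right _ hLa.le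
          apply mul_le_mul_of_nonneg_left _ hLC.le
          apply mul_le_mul_of_nonneg_left h6 (by positivity)
      _ = (10 * (L ^ C * L ^ (a + 8))) * u ^ 591 := by ring
      _ = (10 * L ^ (C + a + 8)) * u ^ 591 := by rw [hPC]
      _ ≤ u * u ^ 591 := mul_le_mul_of_nonneg_right hu (by positivity)
      _ = u ^ 592 := by ring
      _ ≤ u ^ 600 := pow_le_pow_right₀ hu1 (by norm_num)
      _ = N := hN1.symm
  have hsm : ∀ i, (pat k i = 2 ∨ pat k i = 3) → (2 : ℝ) ^ e i ≤ u ^ 18 := by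
    intro i hi
    by_contra hne
    exact hb ⟨i, hi, (not_le.1 hne).le⟩
  rw [not_le] at hA
  have hprod : (2 : ℝ) ^ (∑ i, e i) =
      2 ^ e 0 * 2 ^ e 1 * 2 ^ e 2 * 2 ^ e 3 * 2 ^ e 4 * 2 ^ e 5 := by
    rw [← Finset.prod_pow_eq_pow_sum, Fin.prod_univ_six]
  have hp : ∀ i, (0 : ℝ) < 2 ^ e i := fun i => by positivity
  -- the product of the last three factors in the third pattern
  by_cases hk2 : k = 2
  · subst hk2
    have q0 : (2 : ℝ) ^ e 0 ≤ 3 * u ^ 200 := hmu 0 (by decide)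
    have q1 : (2 : ℝ) ^ e 1 ≤ 3 * u ^ 200 := hmu 1 (by decide)
    have q2 : (2 : ℝ) ^ e 2 ≤ 3 * u ^ 200 := hmu 2 (by decide)
    have q3 : (2 : ℝ) ^ e 3 ≤ u ^ 18 := hsm 3 (by decide)
    have q4 : (2 : ℝ) ^ e 4 ≤ u ^ 18 := hsm 4 (by decide)
    have q5 : (2 : ℝ) ^ e 5 ≤ u ^ 18 := hsm 5 (by decide)
    have q345 : (2 : ℝ) ^ e 3 * 2 ^ e 4 * 2 ^ e 5 ≤ u ^ 54 := by
      calc (2 : ℝ) ^ e 3 * 2 ^ e 4 * 2 ^ e 5 ≤ u ^ 18 * u ^ 18 * u ^ 18 := by gcongr
        _ = u ^ 54 := by ring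
    have hlow : ∀ p q r : ℝ, 0 < p → 0 < q → 0 < r → q ≤ 3 * u ^ 200 → r ≤ 3 * u ^ 200 →
        u ^ 540 < p * q * r * u ^ 54 → 2 * u ^ 60 ≤ p := by
      intro p q r hp' hq' hr' hq hr hlt
      by_contra hcon
      rw [not_le] at hcon
      have h7 : p * q * r * u ^ 54 ≤ (2 * u ^ 60) * (3 * u ^ 200) * (3 * u ^ 200) * u ^ 54 := by
        gcongr
      have h8 : (2 * u ^ 60) * (3 * u ^ 200) * (3 * u ^ 200) * u ^ 54 = 18 * u ^ 514 := by ring
      have h9 : 18 * u ^ 514 ≤ u ^ 2 * u ^ 514 := by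
        apply mul_le_mul_of_nonneg_right _ (by positivity)
        nlinarith
      have h10 : u ^ 2 * u ^ 514 = u ^ 516 := by ring
      have h11 : u ^ 516 ≤ u ^ 540 := pow_le_pow_right₀ hu1 (by norm_num)
      linarith
    have hmain : u ^ 540 < 2 ^ e 0 * 2 ^ e 1 * 2 ^ e 2 * u ^ 54 := by
      calc u ^ 540 < (2 : ℝ) ^ (∑ i, e i) := hA
        _ = (2 ^ e 0 * 2 ^ e 1 * 2 ^ e 2) * (2 ^ e 3 * 2 ^ e 4 * 2 ^ e 5) := by
            rw [hprod]; ring
        _ ≤ (2 ^ e 0 * 2 ^ e 1 * 2 ^ e 2) * u ^ 54 :=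
            mul_le_mul_of_nonneg_left q345 (by positivity)
        _ = _ := by ring
    have r0 : 2 * u ^ 60 ≤ (2 : ℝ) ^ e 0 :=
      hlow _ _ _ (hp 0) (hp 1) (hp 2) q1 q2 hmain
    have r1 : 2 * u ^ 60 ≤ (2 : ℝ) ^ e 1 := by
      refine hlow _ _ _ (hp 1) (hp 0) (hp 2) q0 q2 ?_
      rw [mul_comm ((2 : ℝ) ^ e 1)]
      exact hmain
    have r2 : 2 * u ^ 60 ≤ (2 : ℝ) ^ e 2 := by
      refine hlow _ _ _ (hp 2) (hp 0) (hp 1) q0 q1 ?_
      rw [show (2 : ℝ) ^ e 2 * 2 ^ e 0 * 2 ^ e 1 = 2 ^ e 0 * 2 ^ e 1 * 2 ^ e 2 by ring]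
      exact hmain
    have h6 : (u ^ 3) ^ 2 ≤ 2 * u ^ 60 := by
      calc (u ^ 3) ^ 2 = u ^ 6 := by ring
        _ ≤ u ^ 60 := pow_le_pow_right₀ hu1 (by norm_num)
        _ ≤ 2 * u ^ 60 := by nlinarith [pow_pos hu0 60]
    have h := h3 e hE (by rw [hN10]; exact r0) (by rw [hX]; linarith) (by rw [hX]; linarith)
    have ht1 : L ^ t / (L ^ (-A₂) * L ^ (2 * t)) = L ^ (-(a + C + 9)) := by
      rw [← Real.rpow_add hL0, ← Real.rpow_sub hL0]
      congr 1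
      rw [ht]
      ring
    have ht2 : 1 / (L ^ (-A₂) * L ^ t) = L ^ (-(a + C + 9)) := by
      rw [← Real.rpow_add hL0, one_div, ← Real.rpow_neg hL0.le]
      congr 1
      rw [ht]
      ring
    rw [ht1, ht2] at h
    have hq : L ^ C * L ^ (-(a + C + 9)) * L ^ (a + 8) = L⁻¹ := by
      rw [← Real.rpow_add hL0, ← Real.rpow_add hL0, ← Real.rpow_neg_one]
      congr 1
      ring
    have hLm : 0 < L ^ (-(a + C + 9)) := Real.rpow_pos_of_pos hL0 _
    calc _ ≤ (L ^ C * (2 ^ (∑ i, e i) * (L ^ (-(a + C + 9)) + L ^ (-(a + C + 9)))))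
            * L ^ (a + 8) := mul_le_mul_of_nonneg_right h hLa.le
      _ = 2 * 2 ^ (∑ i, e i) * (L ^ C * L ^ (-(a + C + 9)) * L ^ (a + 8)) := by ring
      _ = 2 * 2 ^ (∑ i, e i) * L⁻¹ := by rw [hq]
      _ ≤ 2 * (10 * u ^ 600) * L⁻¹ := by
          apply mul_le_mul_of_nonneg_right _ (by positivity)
          linarith
      _ = (20 * L⁻¹) * u ^ 600 := by ring
      _ ≤ 1 * u ^ 600 := by
          apply mul_le_mul_of_nonneg_right _ (by positivity)
          rw [← div_eq_mul_inv, div_le_one hL0]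
          linarith
      _ = N := by rw [one_mul, ← hN1]
  · exfalso
    by_cases hk0 : k = 0
    · subst hk0
      have q0 : (2 : ℝ) ^ e 0 ≤ 3 * u ^ 200 := hmu 0 (by decide)
      have q1 : e 1 = 0 := hdl 1 (by decide)
      have q2 : e 2 = 0 := hdl 2 (by decide)
      have q3 : e 3 = 0 := hdl 3 (by decide)
      have q4 : e 4 = 0 := hdl 4 (by decide)
      have q5 : (2 : ℝ) ^ e 5 ≤ u ^ 18 := hsm 5 (by decide)
      rw [q1, q2, q3, q4] at hprod
      simp only [pow_zero, mul_one] at hprod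
      have h7 : (2 : ℝ) ^ (∑ i, e i) ≤ u ^ 219 := by
        rw [hprod]
        calc (2 : ℝ) ^ e 0 * 2 ^ e 5 ≤ (3 * u ^ 200) * u ^ 18 := by gcongr
          _ = 3 * u ^ 218 := by ring
          _ ≤ u * u ^ 218 := by
              apply mul_le_mul_of_nonneg_right _ (by positivity)
              linarith
          _ = u ^ 219 := by ring
      have h8 : u ^ 219 ≤ u ^ 540 := pow_le_pow_right₀ hu1 (by norm_num)
      linarith
    · have hk1 : k = 1 := by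
        have := k.isLt
        apply Fin.ext
        have h1' : (k : ℕ) ≠ 0 := fun h => hk0 (Fin.ext h)
        have h2' : (k : ℕ) ≠ 2 := fun h => hk2 (Fin.ext h)
        show (k : ℕ) = 1
        omega
      subst hk1
      have q0 : (2 : ℝ) ^ e 0 ≤ 3 * u ^ 200 := hmu 0 (by decide)
      have q1 : (2 : ℝ) ^ e 1 ≤ 3 * u ^ 200 := hmu 1 (by decide)
      have q2 : e 2 = 0 := hdl 2 (by decide)
      have q3 : (2 : ℝ) ^ e 3 ≤ u ^ 18 := hsm 3 (by decide)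
      have q4 : e 4 = 0 := hdl 4 (by decide)
      have q5 : (2 : ℝ) ^ e 5 ≤ u ^ 18 := hsm 5 (by decide)
      rw [q2, q4] at hprod
      simp only [pow_zero, mul_one] at hprod
      have h7 : (2 : ℝ) ^ (∑ i, e i) ≤ u ^ 437 := by
        rw [hprod]
        calc (2 : ℝ) ^ e 0 * 2 ^ e 1 * 2 ^ e 3 * 2 ^ e 5
            ≤ (3 * u ^ 200) * (3 * u ^ 200) * u ^ 18 * u ^ 18 := by gcongr
          _ = 9 * u ^ 436 := by ring
          _ ≤ u * u ^ 436 := by
              apply mul_le_mul_of_nonneg_right _ (by positivity)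
              linarith
          _ = u ^ 437 := by ring
      have h8 : u ^ 437 ≤ u ^ 540 := pow_le_pow_right₀ hu1 (by norm_num)
      linarith

theorem mean_small (A A₂ : ℝ) (hA₂ : 0 ≤ A₂) : ∃ A' : ℝ, ∀ᶠ N : ℕ in atTop,
    ∀ (y : ℝ) (F : Finset PC),
      Ctx N y (Real.log N ^ (-A₂)) ((N : ℝ) ^ (1 / 200 : ℝ)) F → (∀ j ∈ F, ¬ Bad A' N j) →
      ∑ j ∈ F, ‖ws y (Real.log N ^ (-A₂)) Lam (10 * N) j‖ ≤ N / Real.log N ^ A := by
  obtain ⟨C0, hC0, H0⟩ := t0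
  obtain ⟨C1, hC1, H1⟩ := t1
  obtain ⟨C3, hC3, H3⟩ := t3
  set C : ℝ := max C0 (max C1 C3) with hCdef
  have hc0 : C0 ≤ C := le_max_left _ _
  have hc1 : C1 ≤ C := le_trans (le_max_left _ _) (le_max_right _ _)
  have hc3 : C3 ≤ C := le_trans (le_max_right _ _) (le_max_right _ _)
  have hC : 0 ≤ C := le_trans hC0 hc0
  set a : ℝ := |A| with hadef
  have ha : 0 ≤ a := abs_nonneg A
  set t : ℝ := A₂ + a + C + 9 with htdef
  refine ⟨2 * t, ?_⟩
  have hlog : ∀ᶠ N : ℕ in atTop, 24 ≤ Real.log (N : ℝ) :=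
    (Real.tendsto_log_atTop.comp tendsto_natCast_atTop_atTop).eventually_ge_atTop 24
  filter_upwards [dec, H0, H1, H3, ev_aux (C + a + 8) 10, hlog, eventually_ge_atTop 1] with
    N hdec h0 h1 h3 hu hL hN
  intro y F hctx hbad
  obtain ⟨z, hz1, hz2, hz3⟩ := hdec
  have hL0 : 0 < Real.log (N : ℝ) := by linarith
  have hL1 : 1 ≤ Real.log (N : ℝ) := by linarith
  have hmono : ∀ D : ℝ, D ≤ C → Real.log (N : ℝ) ^ D ≤ Real.log (N : ℝ) ^ C :=
    fun D hD => Real.rpow_le_rpow_of_exponent_le hL1 hD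
  have hT1 : 1 ≤ Real.log (N : ℝ) ^ t := Real.one_le_rpow hL1 (by rw [htdef]; linarith)
  have key : ∀ (k : Fin 3) (e : Fin 6 → ℕ),
      ∑ j ∈ F, ‖ws y (Real.log N ^ (-A₂)) (GS z e (pat k) univ) (10 * N) j‖ ≤
      N / Real.log N ^ (a + 8) := by
    intro k e
    refine term ha hA₂ hC htdef hN hL hu hz2 ?_ ?_ ?_ k e
    · intro e c hE
      refine le_trans (h0 y _ _ F hctx z e c hE) ?_
      apply mul_le_mul_of_nonneg_right (hmono C0 hc0)
      positivity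
    · intro e c hE i₀ hi₀
      refine le_trans (h1 y _ _ F hctx z e c hE i₀ hi₀) ?_
      apply mul_le_mul_of_nonneg_right (hmono C1 hc1)
      positivity
    · intro e hE g0 g1 g2
      refine le_trans (h3 y _ _ F hctx (2 * t) hbad z e hz1 hE g0 g1 g2 _ hT1) ?_
      apply mul_le_mul_of_nonneg_right (hmono C3 hc3)
      positivity
  have hLa : 0 < Real.log (N : ℝ) ^ (a + 8) := Real.rpow_pos_of_pos hL0 _
  calc ∑ j ∈ F, ‖ws y (Real.log N ^ (-A₂)) Lam (10 * N) j‖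
      ≤ ∑ j ∈ F, ∑ k : Fin 3,
          ∑ e ∈ Fintype.piFinset (fun _ : Fin 6 => range (Nat.log 2 (10 * N) + 1)),
            3 * ‖ws y (Real.log N ^ (-A₂)) (GS z e (pat k) univ) (10 * N) j‖ :=
        Finset.sum_le_sum fun j _ => hz3 y _ j
    _ = ∑ k : Fin 3,
          ∑ e ∈ Fintype.piFinset (fun _ : Fin 6 => range (Nat.log 2 (10 * N) + 1)),
            3 * ∑ j ∈ F, ‖ws y (Real.log N ^ (-A₂)) (GS z e (pat k) univ) (10 * N) j‖ := by
        rw [Finset.sum_comm]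
        apply Finset.sum_congr rfl
        intro k _
        rw [Finset.sum_comm]
        apply Finset.sum_congr rfl
        intro e _
        rw [Finset.mul_sum]
    _ ≤ ∑ k : Fin 3,
          ∑ e ∈ Fintype.piFinset (fun _ : Fin 6 => range (Nat.log 2 (10 * N) + 1)),
            3 * (N / Real.log N ^ (a + 8)) := by
        apply Finset.sum_le_sum
        intro k _
        apply Finset.sum_le_sum
        intro e _
        exact mul_le_mul_of_nonneg_left (key k e) (by norm_num)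
    _ = (9 * ((Nat.log 2 (10 * N) + 1 : ℕ) : ℝ) ^ 6) * (N / Real.log N ^ (a + 8)) := by
        rw [Finset.sum_const, Finset.sum_const, Fintype.card_piFinset]
        simp only [Finset.card_range, Finset.prod_const, Finset.card_univ, Fintype.card_fin,
          nsmul_eq_mul]
        push_cast
        ring
    _ ≤ Real.log N ^ 8 * (N / Real.log N ^ (a + 8)) := by
        apply mul_le_mul_of_nonneg_right (card_aux hN hL)
        positivity
    _ = N / Real.log N ^ a := by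
        rw [Real.rpow_add hL0]
        rw [show Real.log (N : ℝ) ^ (8 : ℝ) = Real.log (N : ℝ) ^ (8 : ℕ) by
          rw [← Real.rpow_natCast]; norm_num]
        have h8 : Real.log (N : ℝ) ^ (8 : ℕ) ≠ 0 := by positivity
        have h9 : Real.log (N : ℝ) ^ a ≠ 0 := (Real.rpow_pos_of_pos hL0 _).ne'
        field_simp
    _ ≤ N / Real.log N ^ A := by
        apply div_le_div_of_nonneg_left (by positivity) (Real.rpow_pos_of_pos hL0 _)
        exact Real.rpow_le_rpow_of_exponent_le hL1 (le_abs_self A)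

end PGB
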