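import Pool.Agent.PGB.Red

/-!
# Project PGB, Swd: removing the smooth weight

PROOF of `swd`.  Let `y₁ = x`, `y₂ = x e^(-Δ)`, `M ≥ 3 x`.  For `1 ≤ n ≤ M`:
`wt y₂ Δ n ≤ [n ≤ x] ≤ wt y₁ Δ n` (`wt_eq_one`, `wt_eq_zero`, `wt_nonneg`, `wt_le_one`).  Since `Λ ≥ 0`,
the class sum `ψ(x; q, a)` lies between the weighted class sums with `y₂` and `y₁`, and
`|∑_n wt yᵢ Δ n Λ(n) - ψ(x)| ≤ ∑_{x e^(-Δ) < n < x e^Δ} Λ(n) ≤ (x (e^Δ - e^(-Δ)) + 1) log(3x)
≤ (4 Δ x + 1) log (3 x)` (`Λ(n) ≤ log n`, `e^Δ - e^(-Δ) ≤ 4 Δ` for `0 < Δ ≤ 1`).  Hence with `red` for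
`y₁` and `y₂`
`|ψ(x;q,a) - ψ(x)/φ(q)| ≤ max_i (|ψ_{yᵢ}(q, a) - ψ_{yᵢ}/φ(q)| + |ψ_{yᵢ} - ψ(x)|/φ(q))`.
(`psiA x q a` is the sum over `n ≤ x`, a subset of `range (M + 1)`.)
-/

set_option autoImplicit false

open Finset

namespace PGB

theorem swd_ind {x M : ℕ} (hxM : x ≤ M) (p : ℕ → Prop) [DecidablePred p] :
    ∑ n ∈ (range (x + 1)).filter p, ArithmeticFunction.vonMangoldt n =
      ∑ n ∈ (range (M + 1)).filter p,
        (if n ≤ x then (1 : ℝ) else 0) * ArithmeticFunction.vonMangoldt n := by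
  have h1 : ∑ n ∈ (range (x + 1)).filter p, ArithmeticFunction.vonMangoldt n =
      ∑ n ∈ (range (x + 1)).filter p,
        (if n ≤ x then (1 : ℝ) else 0) * ArithmeticFunction.vonMangoldt n := by
    apply Finset.sum_congr rfl
    intro n hn
    rw [Finset.mem_filter, Finset.mem_range] at hn
    rw [if_pos (by omega), one_mul]
  rw [h1]
  apply Finset.sum_subset
  · intro n hn
    rw [Finset.mem_filter, Finset.mem_range] at hn ⊢
    exact ⟨by omega, hn.2⟩
  · intro n hn hn'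
    rw [Finset.mem_filter, Finset.mem_range] at hn hn'
    have : ¬ n ≤ x := fun h => hn' ⟨by omega, hn.2⟩
    rw [if_neg this, zero_mul]

theorem swd_mid (f g : ℕ → ℝ) (M a b : ℕ)
    (h : ∀ n, 1 ≤ n → f n ≤ g n + (if a < n ∧ n ≤ b then 1 else 0)) :
    ∑ n ∈ range (M + 1), f n * ArithmeticFunction.vonMangoldt n ≤
      ∑ n ∈ range (M + 1), g n * ArithmeticFunction.vonMangoldt n +
        ((b - a : ℕ) : ℝ) * Real.log b := by
  have h1 : ∑ n ∈ range (M + 1), f n * ArithmeticFunction.vonMangoldt n ≤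
      ∑ n ∈ range (M + 1), (g n * ArithmeticFunction.vonMangoldt n +
        (if a < n ∧ n ≤ b then ArithmeticFunction.vonMangoldt n else 0)) := by
    apply Finset.sum_le_sum
    intro n _
    rcases Nat.eq_zero_or_pos n with h0 | h0
    · subst h0
      simp
    · have h2 := h n h0
      have h3 := mul_le_mul_of_nonneg_right h2
        (ArithmeticFunction.vonMangoldt_nonneg (n := n))
      refine h3.trans (le_of_eq ?_)
      split_ifs <;> ring
  refine h1.trans ?_
  rw [Finset.sum_add_distrib]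
  apply add_le_add le_rfl
  rw [← Finset.sum_filter]
  calc ∑ n ∈ (range (M + 1)).filter (fun n => a < n ∧ n ≤ b),
        ArithmeticFunction.vonMangoldt n
      ≤ ∑ n ∈ Ioc a b, ArithmeticFunction.vonMangoldt n := by
        apply Finset.sum_le_sum_of_subset_of_nonneg
        · intro n hn
          rw [Finset.mem_filter] at hn
          exact Finset.mem_Ioc.2 hn.2
        · intro n _ _
          exact ArithmeticFunction.vonMangoldt_nonneg
    _ ≤ ∑ n ∈ Ioc a b, Real.log b := by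
        apply Finset.sum_le_sum
        intro n hn
        rw [Finset.mem_Ioc] at hn
        refine ArithmeticFunction.vonMangoldt_le_log.trans ?_
        apply Real.log_le_log
        · exact_mod_cast (by omega : 0 < n)
        · exact_mod_cast hn.2
    _ = ((b - a : ℕ) : ℝ) * Real.log b := by
        rw [Finset.sum_const, Nat.card_Ioc, nsmul_eq_mul]

theorem swd {x q a M : ℕ} (hx : 1 ≤ x) (hq : 1 ≤ q) (hM : 3 * x ≤ M) (ha : a.Coprime q) {Δ : ℝ}
    (hΔ : 0 < Δ) (hΔ1 : Δ ≤ 1) :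
    |psiA x q a - psi0 x / Nat.totient q| ≤
      (∑ j ∈ PR q, ‖ws x Δ Lam M j‖ + ∑ j ∈ PR q, ‖ws (x * Real.exp (-Δ)) Δ Lam M j‖ +
        (4 * Δ * x + 1) * Real.log (3 * x)) / Nat.totient q + Nat.log 2 q * Real.log M := by
  have hx0 : (0 : ℝ) < x := by exact_mod_cast hx
  have hx1 : (1 : ℝ) ≤ x := by exact_mod_cast hx
  have hφ : (0 : ℝ) < Nat.totient q := by exact_mod_cast Nat.totient_pos.2 hq
  have hxM : x ≤ M := by omega
  have r1 := red (M := M) hq (by omega) ha (y := (x : ℝ)) hΔ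
  have r2 := red (M := M) hq (by omega) ha (y := (x : ℝ) * Real.exp (-Δ)) hΔ
  have hy2 : 0 < (x : ℝ) * Real.exp (-Δ) := by positivity
  have hy2e : (x : ℝ) * Real.exp (-Δ) * Real.exp Δ = x := by
    rw [mul_assoc, ← Real.exp_add]
    simp
  have hlog3 : 0 ≤ Real.log (3 * x) := Real.log_nonneg (by linarith)
  -- pointwise comparison
  have hup : ∀ n : ℕ, 1 ≤ n → (if n ≤ x then (1 : ℝ) else 0) ≤ wt x Δ n := by
    intro n hn
    split_ifs with h
    · rw [wt_eq_one hΔ hn (by exact_mod_cast h)]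
    · exact wt_nonneg hΔ n
  have hlo : ∀ n : ℕ, wt ((x : ℝ) * Real.exp (-Δ)) Δ n ≤ (if n ≤ x then (1 : ℝ) else 0) := by
    intro n
    split_ifs with h
    · exact wt_le_one hΔ n
    · refine (wt_eq_zero hy2 hΔ ?_).le
      rw [hy2e]
      push Not at h
      exact_mod_cast h.le
  -- class sums
  have hA1 : psiA x q a ≤ ∑ n ∈ (range (M + 1)).filter (fun n => n ≡ a [MOD q]),
      wt x Δ n * ArithmeticFunction.vonMangoldt n := by
    unfold psiA
    rw [swd_ind hxM]
    apply Finset.sum_le_sum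
    intro n _
    rcases Nat.eq_zero_or_pos n with h0 | h0
    · subst h0
      simp
    · exact mul_le_mul_of_nonneg_right (hup n h0) ArithmeticFunction.vonMangoldt_nonneg
  have hA2 : ∑ n ∈ (range (M + 1)).filter (fun n => n ≡ a [MOD q]),
      wt ((x : ℝ) * Real.exp (-Δ)) Δ n * ArithmeticFunction.vonMangoldt n ≤ psiA x q a := by
    unfold psiA
    rw [swd_ind hxM]
    apply Finset.sum_le_sum
    intro n _
    exact mul_le_mul_of_nonneg_right (hlo n) ArithmeticFunction.vonMangoldt_nonneg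
  have hpsi : psi0 x = ∑ n ∈ range (M + 1),
      (if n ≤ x then (1 : ℝ) else 0) * ArithmeticFunction.vonMangoldt n := by
    have := swd_ind hxM (fun _ => True)
    rw [Finset.filter_true, Finset.filter_true] at this
    exact this
  have hexp1 : Real.exp Δ - 1 ≤ 2 * Δ := by
    have h1 : Real.exp Δ ≤ 1 + Δ + Δ ^ 2 := by
      have := Real.abs_exp_sub_one_sub_id_le (x := Δ) (by rw [abs_of_pos hΔ]; exact hΔ1)
      have h2 := (abs_le.1 this).2
      linarith
    nlinarith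
  have hexp2 : 1 - Δ ≤ Real.exp (-Δ) := Real.one_sub_le_exp_neg Δ
  have hB1 : ∑ n ∈ range (M + 1), wt x Δ n * ArithmeticFunction.vonMangoldt n ≤
      psi0 x + (4 * Δ * x + 1) * Real.log (3 * x) := by
    rw [hpsi]
    have hb3 : (⌊(x : ℝ) * Real.exp Δ⌋₊ : ℝ) ≤ 3 * x := by
      have h1 := Nat.floor_le (show 0 ≤ (x : ℝ) * Real.exp Δ by positivity)
      have h2 : (x : ℝ) * Real.exp Δ ≤ x * 3 :=
        mul_le_mul_of_nonneg_left (by linarith) hx0.le
      linarith
    have hxb : x ≤ ⌊(x : ℝ) * Real.exp Δ⌋₊ := by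
      apply Nat.le_floor
      have : (1 : ℝ) ≤ Real.exp Δ := Real.one_le_exp hΔ.le
      nlinarith
    have h := swd_mid (fun n => wt x Δ n) (fun n => if n ≤ x then (1 : ℝ) else 0) M x
      ⌊(x : ℝ) * Real.exp Δ⌋₊ (by
        intro n _
        by_cases h1 : n ≤ x
        · rw [if_pos h1, if_neg (by omega)]
          have := wt_le_one (y := x) hΔ n
          linarith
        · by_cases h2 : n ≤ ⌊(x : ℝ) * Real.exp Δ⌋₊
          · rw [if_neg h1, if_pos ⟨by omega, h2⟩]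
            have := wt_le_one (y := x) hΔ n
            linarith
          · rw [if_neg h1, if_neg (by omega)]
            rw [wt_eq_zero hx0 hΔ (Nat.lt_of_floor_lt (by omega)).le]
            norm_num)
    refine h.trans (add_le_add le_rfl ?_)
    have h3 : ((⌊(x : ℝ) * Real.exp Δ⌋₊ - x : ℕ) : ℝ) ≤ 4 * Δ * x + 1 := by
      rw [Nat.cast_sub hxb]
      have h1 := Nat.floor_le (show 0 ≤ (x : ℝ) * Real.exp Δ by positivity)
      have h2 : (x : ℝ) * (Real.exp Δ - 1) ≤ x * (2 * Δ) :=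
        mul_le_mul_of_nonneg_left hexp1 hx0.le
      nlinarith [mul_pos hx0 hΔ]
    have h4 : Real.log (⌊(x : ℝ) * Real.exp Δ⌋₊ : ℝ) ≤ Real.log (3 * x) := by
      apply Real.log_le_log _ hb3
      exact_mod_cast (by omega : 0 < ⌊(x : ℝ) * Real.exp Δ⌋₊)
    calc _ ≤ ((⌊(x : ℝ) * Real.exp Δ⌋₊ - x : ℕ) : ℝ) * Real.log (3 * x) :=
          mul_le_mul_of_nonneg_left h4 (by positivity)
      _ ≤ _ := mul_le_mul_of_nonneg_right h3 hlog3
  have hB2 : psi0 x ≤ ∑ n ∈ range (M + 1),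
      wt ((x : ℝ) * Real.exp (-Δ)) Δ n * ArithmeticFunction.vonMangoldt n +
        (4 * Δ * x + 1) * Real.log (3 * x) := by
    rw [hpsi]
    have hax : ⌊(x : ℝ) * Real.exp (-Δ)⌋₊ ≤ x := by
      apply Nat.floor_le_of_le
      have : Real.exp (-Δ) ≤ 1 := Real.exp_le_one_iff.2 (by linarith)
      nlinarith
    have h := swd_mid (fun n => if n ≤ x then (1 : ℝ) else 0)
      (fun n => wt ((x : ℝ) * Real.exp (-Δ)) Δ n) M ⌊(x : ℝ) * Real.exp (-Δ)⌋₊ x (by
        intro n hn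
        have hw := wt_nonneg (y := (x : ℝ) * Real.exp (-Δ)) hΔ n
        by_cases h1 : n ≤ x
        · by_cases h2 : n ≤ ⌊(x : ℝ) * Real.exp (-Δ)⌋₊
          · rw [if_pos h1, if_neg (by omega)]
            have h5 : (n : ℝ) ≤ (x : ℝ) * Real.exp (-Δ) :=
              (Nat.le_floor_iff hy2.le).1 h2
            rw [wt_eq_one hΔ hn h5]
            norm_num
          · rw [if_pos h1, if_pos ⟨by omega, h1⟩]
            linarith
        · rw [if_neg h1, if_neg (by omega)]
          linarith)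
    refine h.trans (add_le_add le_rfl ?_)
    have h3 : ((x - ⌊(x : ℝ) * Real.exp (-Δ)⌋₊ : ℕ) : ℝ) ≤ 4 * Δ * x + 1 := by
      rw [Nat.cast_sub hax]
      have h1 := Nat.lt_floor_add_one ((x : ℝ) * Real.exp (-Δ))
      have h2 : (x : ℝ) * (1 - Δ) ≤ x * Real.exp (-Δ) :=
        mul_le_mul_of_nonneg_left hexp2 hx0.le
      nlinarith [mul_pos hx0 hΔ]
    have h4 : Real.log (x : ℝ) ≤ Real.log (3 * x) := Real.log_le_log hx0 (by linarith)
    calc _ ≤ ((x - ⌊(x : ℝ) * Real.exp (-Δ)⌋₊ : ℕ) : ℝ) * Real.log (3 * x) :=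
          mul_le_mul_of_nonneg_left h4 (by positivity)
      _ ≤ _ := mul_le_mul_of_nonneg_right h3 hlog3
  -- assembly
  set S1 := ∑ j ∈ PR q, ‖ws x Δ Lam M j‖ with hS1
  set S2 := ∑ j ∈ PR q, ‖ws (x * Real.exp (-Δ)) Δ Lam M j‖ with hS2
  set D := (4 * Δ * x + 1) * Real.log (3 * x) with hD
  set A1 := ∑ n ∈ (range (M + 1)).filter (fun n => n ≡ a [MOD q]),
      wt x Δ n * ArithmeticFunction.vonMangoldt n with hA1d
  set A2 := ∑ n ∈ (range (M + 1)).filter (fun n => n ≡ a [MOD q]),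
      wt ((x : ℝ) * Real.exp (-Δ)) Δ n * ArithmeticFunction.vonMangoldt n with hA2d
  set B1 := ∑ n ∈ range (M + 1), wt x Δ n * ArithmeticFunction.vonMangoldt n with hB1d
  set B2 := ∑ n ∈ range (M + 1),
      wt ((x : ℝ) * Real.exp (-Δ)) Δ n * ArithmeticFunction.vonMangoldt n with hB2d
  have hS1n : 0 ≤ S1 / Nat.totient q :=
    div_nonneg (Finset.sum_nonneg fun _ _ => norm_nonneg _) hφ.le
  have hS2n : 0 ≤ S2 / Nat.totient q :=
    div_nonneg (Finset.sum_nonneg fun _ _ => norm_nonneg _) hφ.le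
  have e1 : (S1 + S2 + D) / Nat.totient q =
      S1 / Nat.totient q + S2 / Nat.totient q + D / Nat.totient q := by
    rw [add_div, add_div]
  have f1 : B1 / Nat.totient q ≤ psi0 x / Nat.totient q + D / Nat.totient q := by
    rw [← add_div]
    exact div_le_div_of_nonneg_right hB1 hφ.le
  have f2 : psi0 x / Nat.totient q ≤ B2 / Nat.totient q + D / Nat.totient q := by
    rw [← add_div]
    exact div_le_div_of_nonneg_right hB2 hφ.le
  rw [e1, abs_le]
  rw [abs_le] at r1 r2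
  constructor
  · linarith [r2.1]
  · linarith [r1.2]

end PGB
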