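import Pool.Agent.PGB.Lrg
import Pool.Agent.PGB.Sml
import Pool.Agent.PGB.Swd
import Pool.Agent.PGB.Grp

/-!
# Project PGB, Core: the Bombieri-Vinogradov theorem for moduli `q₀ r`, no bad characters

PROOF.  We may assume `A ≥ 0` (otherwise prove it for `0`, the right side is larger for smaller `A`).
Let `L = log N`, `M = 10 N`, `A₂ = A + 10`, `Δ = L^(-A₂)`, `C` from `mean_large δ`,
`B = C + A₂ + A + 10`, `A'` from `mean_small (A + 10) A₂`, `ε = min (δ/32) (1/400)`.  `N` large.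
Let `x ∈ {N, 2N}`, `y₁ = x`, `y₂ = x e^(-Δ)`; both are in `[N/3, 3N]` (`e^{-1} > 1/3`).
`R₀ = ⌊N^(1/2-δ)⌋₊`.
1. `swd` for each `r ∈ R` (`q = q₀ r`, `a = a r`; `3 x ≤ M`), summed over `r`:
   `∑_r |psiA x q a - psi0 x/φ(q)| ≤ ∑_{y ∈ {y₁,y₂}} S(y) + E₁ + E₂`, where
   `S(y) = ∑_{r ∈ R} (∑_{j ∈ PR (q₀ r)} ‖ws y Δ Lam M j‖)/φ(q₀ r)`,
   `E₁ = (4Δx + 1) log(3x) ∑_{r ∈ R} 1/φ(q₀ r)`, `φ(q₀ r) = φ(q₀) φ(r)`, `phi_sum`:
   `∑_r 1/φ(q₀ r) ≤ 5 L^2 / φ(q₀)`; `(4 Δ x + 1) log (3x) ≤ 20 N L^(1-A₂)`; so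
   `E₁ ≤ 100 N L^(3 - A₂)/φ(q₀) ≤ N/(8 φ(q₀) L^A)`.
   `E₂ = ∑_{r ∈ R} Nat.log 2 (q₀ r) log M ≤ R₀ * 2 L * 2 L ≤ N^(1/2)·4L^2 ≤ N/(8 φ(q₀) L^A)` since
   `φ(q₀) ≤ N^ε`.
2. `grp` with `g j = ‖ws y Δ Lam M j‖`, `R₀`: `S(y) ≤ (20 L^3/φ(q₀)) ∑_{j ∈ J} g j / sj q₀ j`,
   `J = ⋃_r PR (q₀ r)`.  For `j ∈ J`: `s = sj q₀ j` is `≥ 1`, `≤ R₀`, `j.1 = gcd(j.1, q₀) s ≤ q₀ s`
   (see the header of `Grp`).  For `i ≤ Nat.log 2 R₀` let `J_i = {j ∈ J : Nat.log 2 (sj q₀ j) = i}`: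
   `2^i ≤ s < 2^(i+1)`, `Prims (q₀ 2^(i+1)) J_i`, and
   `∑_{j ∈ J} g j / s ≤ ∑_i 2^(-i) ∑_{j ∈ J_i} g j`.
 (a) `2^i ≥ L^B`: `X = 2 q₀ 2^i ≤ 2 N^ε N^(1/2-δ) ≤ N^(1/2-δ/2)`; `mean_large`:
   `2^(-i) ∑ g ≤ L^(C+A₂) (N 2^(-i) + 2 q₀ N^(1-δ/8)) ≤ L^(C+A₂) (N L^(-B) + 2 N^(1-δ/8+δ/32))
   ≤ 2 N L^(-A-10)`.
 (b) `2^i < L^B`: `X = N^(1/200)`: `q₀ 2^(i+1) ≤ 2 N^ε L^B ≤ N^(1/200)`, so `Prims X J_i`; for
   `j ∈ J_i`, `j ∈ PR (q₀ r)` for some `r ∈ R` and `sj q₀ j < 2 L^B ≤ L^(B+1)`: not bad by the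
   hypothesis (used with the exponent `B + 1`); `mean_small`: `∑ g ≤ N L^(-A-10)`.
   Number of `i`: `≤ 2 L`.  So `S(y) ≤ (20 L^3/φ(q₀)) * 2 L * 3 N L^(-A-10) ≤ N/(8 φ(q₀) L^A)`.
The constant `B` of the statement is `B + 1`.
-/

set_option autoImplicit false

open Finset Filter

namespace PGB

private theorem ev_pow (a c K : ℝ) (hc : 0 < c) : ∀ᶠ N : ℕ in atTop,
    K * Real.log N ^ a ≤ (N : ℝ) ^ c := by
  have h := (isLittleO_log_rpow_rpow_atTop a hc).bound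
    (show (0 : ℝ) < 1 / (|K| + 1) by positivity)
  have h2 := tendsto_natCast_atTop_atTop.eventually h
  filter_upwards [h2, eventually_ge_atTop 1] with N hN h1
  have h3 : (0 : ℝ) ≤ (N : ℝ) ^ c := by positivity
  have h4 : (0 : ℝ) ≤ Real.log N ^ a :=
    Real.rpow_nonneg (Real.log_nonneg (by exact_mod_cast h1)) _
  rw [Real.norm_of_nonneg h4, Real.norm_of_nonneg h3] at hN
  have hb : (0 : ℝ) < |K| + 1 := by positivity
  rw [one_div_mul_eq_div, le_div_iff₀ hb] at hN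
  have h5 : K ≤ |K| + 1 := by linarith [le_abs_self K]
  nlinarith

private theorem sj_pos {q₀ : ℕ} {j : PC} (hj : 2 ≤ j.1) : 1 ≤ sj q₀ j := by
  unfold sj
  exact Nat.div_pos (Nat.gcd_le_left _ (by omega)) (Nat.gcd_pos_of_pos_left _ (by omega))

private theorem sj_dvd {q₀ r : ℕ} {j : PC} (hj : 2 ≤ j.1) (hd : j.1 ∣ q₀ * r) :
    sj q₀ j ∣ r := by
  unfold sj
  have hg0 : 0 < Nat.gcd j.1 q₀ := Nat.gcd_pos_of_pos_left _ (by omega)
  have hc : Nat.Coprime (j.1 / Nat.gcd j.1 q₀) (q₀ / Nat.gcd j.1 q₀) :=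
    Nat.coprime_div_gcd_div_gcd hg0
  have h1 : Nat.gcd j.1 q₀ * (j.1 / Nat.gcd j.1 q₀) = j.1 :=
    Nat.mul_div_cancel' (Nat.gcd_dvd_left _ _)
  have h2 : Nat.gcd j.1 q₀ * (q₀ / Nat.gcd j.1 q₀) = q₀ :=
    Nat.mul_div_cancel' (Nat.gcd_dvd_right _ _)
  have h3 : Nat.gcd j.1 q₀ * (j.1 / Nat.gcd j.1 q₀) ∣
      Nat.gcd j.1 q₀ * ((q₀ / Nat.gcd j.1 q₀) * r) := by
    rw [h1, ← mul_assoc, h2]
    exact hd
  exact hc.dvd_of_dvd_mul_left (Nat.dvd_of_mul_dvd_mul_left hg0 h3)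

private theorem j_le {q₀ : ℕ} (hq : 1 ≤ q₀) (j : PC) : j.1 ≤ q₀ * sj q₀ j := by
  unfold sj
  have h1 : Nat.gcd j.1 q₀ * (j.1 / Nat.gcd j.1 q₀) = j.1 :=
    Nat.mul_div_cancel' (Nat.gcd_dvd_left _ _)
  have h2 := Nat.mul_le_mul_right (j.1 / Nat.gcd j.1 q₀) (Nat.gcd_le_right j.1 (n := q₀) (by omega))
  omega

open Classical in
private theorem core_dyadic {q₀ R₀ : ℕ} (J : Finset PC)
    (hJ : ∀ j ∈ J, 1 ≤ sj q₀ j ∧ sj q₀ j ≤ R₀) (g : PC → ℝ) (hg : ∀ j, 0 ≤ g j) (T : ℝ)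
    (hT : ∀ i ≤ Nat.log 2 R₀,
      (∑ j ∈ J.filter (fun j => Nat.log 2 (sj q₀ j) = i), g j) ≤ T * 2 ^ i) :
    ∑ j ∈ J, g j / sj q₀ j ≤ (Nat.log 2 R₀ + 1) * T := by
  have h1 : ∑ j ∈ J, g j / sj q₀ j = ∑ i ∈ range (Nat.log 2 R₀ + 1),
      ∑ j ∈ J.filter (fun j => Nat.log 2 (sj q₀ j) = i), g j / sj q₀ j := by
    symm
    apply Finset.sum_fiberwise_of_maps_to
    intro j hj
    rw [mem_range]
    have := Nat.log_mono_right (b := 2) (hJ j hj).2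
    omega
  rw [h1]
  calc _ ≤ ∑ i ∈ range (Nat.log 2 R₀ + 1), T := by
        apply sum_le_sum
        intro i hi
        rw [mem_range] at hi
        have h2 : ∑ j ∈ J.filter (fun j => Nat.log 2 (sj q₀ j) = i), g j / sj q₀ j ≤
            ∑ j ∈ J.filter (fun j => Nat.log 2 (sj q₀ j) = i), g j / 2 ^ i := by
          apply sum_le_sum
          intro j hj
          rw [mem_filter] at hj
          have h3 : 2 ^ i ≤ sj q₀ j := by
            rw [← hj.2]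
            exact Nat.pow_log_le_self 2 (by have := (hJ j hj.1).1; omega)
          exact div_le_div_of_nonneg_left (hg j) (by positivity) (by exact_mod_cast h3)
        refine h2.trans ?_
        rw [← sum_div, div_le_iff₀ (by positivity)]
        exact hT i (by omega)
    _ = (Nat.log 2 R₀ + 1) * T := by
        rw [sum_const, card_range, nsmul_eq_mul]
        push_cast
        ring

/-- Logarithms of `R₀ = ⌊N^(1/2-δ)⌋₊`. -/
private theorem logs {δ : ℝ} {N R₀ : ℕ} (hδ : 0 < δ) (hN : 1 ≤ N) (hL : 24 ≤ Real.log N)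
    (hR1 : 1 ≤ R₀) (hR2 : (R₀ : ℝ) ≤ (N : ℝ) ^ (1 / 2 - δ)) :
    (Nat.log 2 R₀ + 1 : ℝ) ≤ Real.log N ∧ 1 + Real.log R₀ ≤ Real.log N := by
  have hN0 : (0 : ℝ) < N := by exact_mod_cast hN
  have hR0 : (0 : ℝ) < R₀ := by exact_mod_cast hR1
  have h1 : Real.log R₀ ≤ (1 / 2 - δ) * Real.log N := by
    rw [← Real.log_rpow hN0]
    exact Real.log_le_log hR0 hR2
  have h2 : Real.log R₀ ≤ 1 / 2 * Real.log N := by nlinarith
  have h3 : ((2 ^ Nat.log 2 R₀ : ℕ) : ℝ) ≤ R₀ := by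
    exact_mod_cast Nat.pow_log_le_self 2 (by omega)
  push_cast at h3
  have h4 := Real.log_le_log (by positivity) h3
  rw [Real.log_pow] at h4
  have h5 := Real.log_two_gt_d9
  have h6 : (Nat.log 2 R₀ : ℝ) * 0.69 ≤ (Nat.log 2 R₀ : ℝ) * Real.log 2 :=
    mul_le_mul_of_nonneg_left (by linarith) (by positivity)
  constructor
  · nlinarith
  · linarith

open Classical in
private theorem sy {δ A₀ A₂ C B ε A' : ℝ} {N : ℕ} (hδ : 0 < δ) (hδ2 : δ < 1 / 2)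
    (hA₀ : 0 ≤ A₀) (hA₂ : A₂ = A₀ + 10) (hC : 0 ≤ C) (hB : B = C + A₂ + A₀ + 10)
    (hε1 : ε ≤ δ / 32) (hε2 : ε ≤ 1 / 400) (hN : 1 ≤ N) (hL : 24 ≤ Real.log N)
    (h1 : ∀ (y Δ X : ℝ) (F : Finset PC), Ctx N y Δ X F → X ≤ (N : ℝ) ^ (1 / 2 - δ / 2) →
      ∑ j ∈ F, ‖ws y Δ Lam (10 * N) j‖ ≤
        Real.log N ^ C / Δ * (N + X * (N : ℝ) ^ (1 - δ / 8)))
    (h2 : ∀ (y : ℝ) (F : Finset PC),
      Ctx N y (Real.log N ^ (-A₂)) ((N : ℝ) ^ (1 / 200 : ℝ)) F → (∀ j ∈ F, ¬ Bad A' N j) →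
      ∑ j ∈ F, ‖ws y (Real.log N ^ (-A₂)) Lam (10 * N) j‖ ≤ N / Real.log N ^ (A₀ + 10))
    (e2 : 2 ≤ (N : ℝ) ^ (δ / 4))
    (e3 : 2 * Real.log N ^ (C + A₂ + (A₀ + 10)) ≤ (N : ℝ) ^ (δ / 16))
    (e4 : 2 * Real.log N ^ B ≤ (N : ℝ) ^ (1 / 400 : ℝ))
    {q₀ : ℕ} (hq : 1 ≤ q₀) (hq2 : (q₀ : ℝ) ≤ (N : ℝ) ^ ε) (R : Finset ℕ)
    (hR : ∀ r ∈ R, 1 ≤ r ∧ (r : ℝ) ≤ (N : ℝ) ^ (1 / 2 - δ) ∧ r.Coprime q₀)
    (hb : ∀ r ∈ R, ∀ j ∈ PR (q₀ * r), (sj q₀ j : ℝ) ≤ Real.log N ^ (B + 1) → ¬ Bad A' N j)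
    {y : ℝ} (hy1 : (N : ℝ) / 3 ≤ y) (hy2 : y ≤ 3 * N) :
    ∑ r ∈ R, (∑ j ∈ PR (q₀ * r), ‖ws y (Real.log N ^ (-A₂)) Lam (10 * N) j‖) /
      Nat.totient (q₀ * r) ≤ 2 * N / (Nat.totient q₀ * Real.log N ^ (A₀ + 6)) := by
  have hN1 : (1 : ℝ) ≤ N := by exact_mod_cast hN
  have hN0 : (0 : ℝ) < N := by linarith
  have hL0 : 0 < Real.log N := by linarith
  have hL1 : 1 ≤ Real.log N := by linarith
  have hq0 : (1 : ℝ) ≤ q₀ := by exact_mod_cast hq
  have hΔ : 0 < Real.log N ^ (-A₂) := Real.rpow_pos_of_pos hL0 _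
  have hΔ1 : Real.log N ^ (-A₂) ≤ 1 :=
    Real.rpow_le_one_of_one_le_of_nonpos hL1 (by linarith)
  obtain ⟨R₀, hR₀⟩ : ∃ R₀ : ℕ, R₀ = ⌊(N : ℝ) ^ (1 / 2 - δ)⌋₊ := ⟨_, rfl⟩
  have hNp : 1 ≤ (N : ℝ) ^ (1 / 2 - δ) := Real.one_le_rpow hN1 (by linarith)
  have hR1 : 1 ≤ R₀ := by
    rw [hR₀]
    exact Nat.le_floor (by exact_mod_cast hNp)
  have hR2 : (R₀ : ℝ) ≤ (N : ℝ) ^ (1 / 2 - δ) := by
    rw [hR₀]
    exact Nat.floor_le (by linarith)
  have hRR : ∀ r ∈ R, 1 ≤ r ∧ r ≤ R₀ ∧ r.Coprime q₀ := by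
    intro r hr
    refine ⟨(hR r hr).1, ?_, (hR r hr).2.2⟩
    rw [hR₀]
    exact Nat.le_floor (hR r hr).2.1
  obtain ⟨hl1, hl2⟩ := logs hδ hN hL hR1 hR2
  have hg := grp hq hR1 R hRR (fun j => ‖ws y (Real.log N ^ (-A₂)) Lam (10 * N) j‖)
    (fun j => norm_nonneg _)
  refine hg.trans ?_
  set J : Finset PC := R.biUnion (fun r => PR (q₀ * r)) with hJ
  have hJm : ∀ j ∈ J, ∃ r ∈ R, j ∈ PR (q₀ * r) := by
    intro j hj
    rw [hJ, mem_biUnion] at hj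
    exact hj
  have hJ1 : ∀ j ∈ J, 1 ≤ sj q₀ j ∧ sj q₀ j ≤ R₀ := by
    intro j hj
    obtain ⟨r, hr, hjr⟩ := hJm j hj
    rw [mem_PR] at hjr
    refine ⟨sj_pos hjr.2.2.1, ?_⟩
    exact (Nat.le_of_dvd (hRR r hr).1 (sj_dvd hjr.2.2.1 hjr.2.1)).trans (hRR r hr).2.1
  have hd := core_dyadic J hJ1 (fun j => ‖ws y (Real.log N ^ (-A₂)) Lam (10 * N) j‖)
    (fun j => norm_nonneg _) (2 * (N / Real.log N ^ (A₀ + 10))) ?_
  · have hP : 0 < Real.log N ^ A₀ := Real.rpow_pos_of_pos hL0 _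
    have e10 : Real.log N ^ (A₀ + 10) = Real.log N ^ A₀ * Real.log N ^ 10 := by
      rw [Real.rpow_add hL0]
      norm_num
    have e6 : Real.log N ^ (A₀ + 6) = Real.log N ^ A₀ * Real.log N ^ 6 := by
      rw [Real.rpow_add hL0]
      norm_num
    have hφ : (0 : ℝ) < Nat.totient q₀ := by
      exact_mod_cast Nat.totient_pos.2 (by omega)
    have hl0 : (0 : ℝ) ≤ Nat.log 2 R₀ + 1 := by positivity
    have hl3 : 0 ≤ 1 + Real.log R₀ := by
      have := Real.log_nonneg (show (1 : ℝ) ≤ R₀ by exact_mod_cast hR1)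
      linarith
    have k1 : ((Nat.log 2 R₀ : ℝ) + 1) ^ 2 * (1 + Real.log R₀) ≤
        Real.log N ^ 2 * Real.log N :=
      mul_le_mul (pow_le_pow_left₀ hl0 hl1 2) hl2 hl3 (by positivity)
    have k2 : ((Nat.log 2 R₀ : ℝ) + 1) * (2 * (N / Real.log N ^ (A₀ + 10))) ≤
        Real.log N * (2 * (N / Real.log N ^ (A₀ + 10))) :=
      mul_le_mul_of_nonneg_right hl1 (by positivity)
    have k3 : ((Nat.log 2 R₀ : ℝ) + 1) ^ 2 * (1 + Real.log R₀) / Nat.totient q₀ ≤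
        Real.log N ^ 2 * Real.log N / Nat.totient q₀ :=
      div_le_div_of_nonneg_right k1 hφ.le
    calc _ ≤ Real.log N ^ 2 * Real.log N / Nat.totient q₀ *
          (Real.log N * (2 * (N / Real.log N ^ (A₀ + 10)))) := by
          apply mul_le_mul k3 (hd.trans k2)
          · apply sum_nonneg
            intro j _
            positivity
          · positivity
      _ = 2 * N / (Nat.totient q₀ * Real.log N ^ (A₀ + 6)) := by
          rw [e10, e6]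
          field_simp
  · intro i hi
    have hpi : (2 : ℝ) ^ i ≤ R₀ := by
      have h3 : 2 ^ i ≤ R₀ :=
        (Nat.pow_le_pow_right (by norm_num) hi).trans (Nat.pow_log_le_self 2 (by omega))
      exact_mod_cast h3
    have hP : ∀ j ∈ J.filter (fun j => Nat.log 2 (sj q₀ j) = i),
        2 ≤ j.1 ∧ (j.1 : ℝ) ≤ q₀ * (2 * 2 ^ i) ∧ j.2.IsPrimitive ∧
          (sj q₀ j : ℝ) ≤ 2 * 2 ^ i := by
      intro j hj
      rw [mem_filter] at hj
      obtain ⟨r, hr, hjr⟩ := hJm j hj.1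
      rw [mem_PR] at hjr
      have hs : sj q₀ j < 2 ^ (i + 1) := by
        rw [← hj.2]
        exact Nat.lt_pow_succ_log_self (by norm_num) _
      have hs2 : (sj q₀ j : ℝ) ≤ 2 * 2 ^ i := by
        have : (sj q₀ j : ℝ) ≤ 2 ^ (i + 1) := by exact_mod_cast hs.le
        rw [pow_succ] at this
        linarith
      refine ⟨hjr.2.2.1, ?_, hjr.2.2.2, hs2⟩
      calc (j.1 : ℝ) ≤ q₀ * sj q₀ j := by exact_mod_cast j_le hq j
        _ ≤ q₀ * (2 * 2 ^ i) := mul_le_mul_of_nonneg_left hs2 (by linarith)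
    have h2i : (1 : ℝ) ≤ 2 ^ i := one_le_pow₀ (by norm_num)
    have hLA : 0 < Real.log N ^ (A₀ + 10) := Real.rpow_pos_of_pos hL0 _
    rcases le_or_gt (Real.log N ^ B) (2 ^ i) with hc | hc
    · -- large conductors
      have hX : q₀ * (2 * 2 ^ i) ≤ (N : ℝ) ^ (1 / 2 - δ / 2) := by
        calc q₀ * (2 * (2 : ℝ) ^ i) ≤ (N : ℝ) ^ ε * ((N : ℝ) ^ (δ / 4) *
              (N : ℝ) ^ (1 / 2 - δ)) := by
              apply mul_le_mul hq2 _ (by positivity) (by positivity)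
              exact mul_le_mul e2 (hpi.trans hR2) (by positivity) (by positivity)
          _ = (N : ℝ) ^ (ε + (δ / 4 + (1 / 2 - δ))) := by
              rw [Real.rpow_add hN0, Real.rpow_add hN0]
          _ ≤ (N : ℝ) ^ (1 / 2 - δ / 2) :=
              Real.rpow_le_rpow_of_exponent_le hN1 (by linarith)
      have hctx : Ctx N y (Real.log N ^ (-A₂)) (q₀ * (2 * 2 ^ i))
          (J.filter (fun j => Nat.log 2 (sj q₀ j) = i)) := by
        refine ⟨hy1, hy2, hΔ, hΔ1, by nlinarith, ?_⟩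
        intro j hj
        exact ⟨(hP j hj).1, (hP j hj).2.1, (hP j hj).2.2.1⟩
      have hm := h1 y _ _ _ hctx hX
      refine hm.trans ?_
      have m1 : Real.log N ^ C / Real.log N ^ (-A₂) = Real.log N ^ (C + A₂) := by
        rw [← Real.rpow_sub hL0]
        congr 1
        ring
      rw [m1]
      have m2 : Real.log N ^ B = Real.log N ^ (C + A₂) * Real.log N ^ (A₀ + 10) := by
        rw [← Real.rpow_add hL0, hB]
        congr 1
        ring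
      have m3 : Real.log N ^ (C + A₂) * N ≤ N / Real.log N ^ (A₀ + 10) * 2 ^ i := by
        rw [div_mul_eq_mul_div, le_div_iff₀ hLA]
        rw [m2] at hc
        calc Real.log N ^ (C + A₂) * N * Real.log N ^ (A₀ + 10) =
            N * (Real.log N ^ (C + A₂) * Real.log N ^ (A₀ + 10)) := by ring
          _ ≤ N * 2 ^ i := mul_le_mul_of_nonneg_left hc hN0.le
      have m4 : Real.log N ^ (C + A₂) * (2 * (N : ℝ) ^ ε * (N : ℝ) ^ (1 - δ / 8)) ≤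
          N / Real.log N ^ (A₀ + 10) := by
        rw [le_div_iff₀ hLA]
        calc Real.log N ^ (C + A₂) * (2 * (N : ℝ) ^ ε * (N : ℝ) ^ (1 - δ / 8)) *
              Real.log N ^ (A₀ + 10) =
            (2 * (Real.log N ^ (C + A₂) * Real.log N ^ (A₀ + 10))) *
              ((N : ℝ) ^ ε * (N : ℝ) ^ (1 - δ / 8)) := by ring
          _ = (2 * Real.log N ^ (C + A₂ + (A₀ + 10))) * (N : ℝ) ^ (ε + (1 - δ / 8)) := by
              rw [← Real.rpow_add hL0, ← Real.rpow_add hN0]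
          _ ≤ (N : ℝ) ^ (δ / 16) * (N : ℝ) ^ (ε + (1 - δ / 8)) :=
              mul_le_mul_of_nonneg_right e3 (by positivity)
          _ = (N : ℝ) ^ (δ / 16 + (ε + (1 - δ / 8))) := (Real.rpow_add hN0 _ _).symm
          _ ≤ (N : ℝ) ^ (1 : ℝ) := Real.rpow_le_rpow_of_exponent_le hN1 (by linarith)
          _ = N := Real.rpow_one _
      have m5 : Real.log N ^ (C + A₂) * (q₀ * (2 * 2 ^ i) * (N : ℝ) ^ (1 - δ / 8)) ≤
          N / Real.log N ^ (A₀ + 10) * 2 ^ i := by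
        calc Real.log N ^ (C + A₂) * (q₀ * (2 * 2 ^ i) * (N : ℝ) ^ (1 - δ / 8)) =
            (Real.log N ^ (C + A₂) * (2 * q₀ * (N : ℝ) ^ (1 - δ / 8))) * 2 ^ i := by ring
          _ ≤ (Real.log N ^ (C + A₂) * (2 * (N : ℝ) ^ ε * (N : ℝ) ^ (1 - δ / 8))) * 2 ^ i := by
              gcongr
          _ ≤ _ := mul_le_mul_of_nonneg_right m4 (by positivity)
      calc Real.log N ^ (C + A₂) * (N + q₀ * (2 * 2 ^ i) * (N : ℝ) ^ (1 - δ / 8)) =
          Real.log N ^ (C + A₂) * N +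
            Real.log N ^ (C + A₂) * (q₀ * (2 * 2 ^ i) * (N : ℝ) ^ (1 - δ / 8)) := by ring
        _ ≤ N / Real.log N ^ (A₀ + 10) * 2 ^ i + N / Real.log N ^ (A₀ + 10) * 2 ^ i :=
            add_le_add m3 m5
        _ = _ := by ring
    · -- small conductors
      have hX : (q₀ : ℝ) * (2 * 2 ^ i) ≤ (N : ℝ) ^ (1 / 200 : ℝ) := by
        calc (q₀ : ℝ) * (2 * 2 ^ i) ≤ (N : ℝ) ^ (1 / 400 : ℝ) * (N : ℝ) ^ (1 / 400 : ℝ) := by
              apply mul_le_mul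
              · exact hq2.trans (Real.rpow_le_rpow_of_exponent_le hN1 hε2)
              · linarith
              · positivity
              · positivity
          _ = (N : ℝ) ^ (1 / 200 : ℝ) := by
              rw [← Real.rpow_add hN0]
              norm_num
      have hctx : Ctx N y (Real.log N ^ (-A₂)) ((N : ℝ) ^ (1 / 200 : ℝ))
          (J.filter (fun j => Nat.log 2 (sj q₀ j) = i)) := by
        refine ⟨hy1, hy2, hΔ, hΔ1, Real.one_le_rpow hN1 (by norm_num), ?_⟩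
        intro j hj
        exact ⟨(hP j hj).1, (hP j hj).2.1.trans hX, (hP j hj).2.2.1⟩
      have hm := h2 y _ hctx ?_
      · refine hm.trans ?_
        have : 0 ≤ N / Real.log N ^ (A₀ + 10) := by positivity
        nlinarith
      · intro j hj
        have hj' := hj
        rw [mem_filter] at hj'
        obtain ⟨r, hr, hjr⟩ := hJm j hj'.1
        refine hb r hr j hjr ((hP j hj).2.2.2.trans ?_)
        rw [Real.rpow_add hL0, Real.rpow_one]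
        have : 0 < Real.log N ^ B := Real.rpow_pos_of_pos hL0 _
        nlinarith

theorem core (δ A : ℝ) (hδ : 0 < δ) (hδ2 : δ < 1 / 2) : ∃ ε A' B : ℝ, 0 < ε ∧ ε ≤ 1 / 400 ∧
    0 < B ∧ ∀ᶠ N : ℕ in atTop, ∀ q₀ : ℕ, 1 ≤ q₀ → (q₀ : ℝ) ≤ (N : ℝ) ^ ε →
      ∀ R : Finset ℕ, (∀ r ∈ R, 1 ≤ r ∧ (r : ℝ) ≤ (N : ℝ) ^ (1 / 2 - δ) ∧ r.Coprime q₀) →
      (∀ r ∈ R, ∀ j ∈ PR (q₀ * r), (sj q₀ j : ℝ) ≤ Real.log N ^ B → ¬ Bad A' N j) →
      ∀ a : ℕ → ℕ, (∀ r ∈ R, (a r).Coprime (q₀ * r)) → ∀ x : ℕ, x = N ∨ x = 2 * N →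
        ∑ r ∈ R, |psiA x (q₀ * r) (a r) - psi0 x / Nat.totient (q₀ * r)| ≤
          N / (Nat.totient q₀ * Real.log N ^ A) := by
  obtain ⟨A₀, hA₀, hAA⟩ : ∃ A₀ : ℝ, 0 ≤ A₀ ∧ A ≤ A₀ := ⟨max A 0, le_max_right _ _, le_max_left _ _⟩
  obtain ⟨C, hC, h1⟩ := mean_large δ hδ hδ2.le
  obtain ⟨A', h2⟩ := mean_small (A₀ + 10) (A₀ + 10) (by linarith)
  have hε0 : 0 < min (δ / 32) (1 / 400 : ℝ) := lt_min (by linarith) (by norm_num)
  refine ⟨min (δ / 32) (1 / 400), A', C + (A₀ + 10) + A₀ + 10 + 1, hε0, min_le_right _ _,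
    by linarith, ?_⟩
  have hLN : ∀ᶠ N : ℕ in atTop, 24 ≤ Real.log N :=
    (Real.tendsto_log_atTop.comp tendsto_natCast_atTop_atTop).eventually_ge_atTop 24
  filter_upwards [h1, h2, hLN, eventually_ge_atTop 1, ev_pow 0 (δ / 4) 2 (by linarith),
    ev_pow (C + (A₀ + 10) + (A₀ + 10)) (δ / 16) 2 (by linarith),
    ev_pow (C + (A₀ + 10) + A₀ + 10) (1 / 400) 2 (by norm_num),
    ev_pow (A₀ + 2) (1 / 4) 32 (by norm_num), ev_pow (A₀ + 10) 1 1 (by norm_num)] with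
    N g1 g2 hL hN e2 e3 e4 e5 e6
  intro q₀ hq hq2 R hR hb a ha x hx
  have hN1 : (1 : ℝ) ≤ N := by exact_mod_cast hN
  have hN0 : (0 : ℝ) < N := by linarith
  have hL0 : 0 < Real.log N := by linarith
  have hL1 : 1 ≤ Real.log N := by linarith
  rw [Real.rpow_zero, mul_one] at e2
  rw [one_mul, Real.rpow_one] at e6
  have hΔ : 0 < Real.log N ^ (-(A₀ + 10)) := Real.rpow_pos_of_pos hL0 _
  have hΔ1 : Real.log N ^ (-(A₀ + 10)) ≤ 1 :=
    Real.rpow_le_one_of_one_le_of_nonpos hL1 (by linarith)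
  have hx1 : (N : ℝ) ≤ x := by rcases hx with h | h <;> rw [h] <;> push_cast <;> linarith
  have hx2 : (x : ℝ) ≤ 2 * N := by rcases hx with h | h <;> rw [h] <;> push_cast <;> linarith
  have hxn : 1 ≤ x := by rcases hx with h | h <;> omega
  have hxM : 3 * x ≤ 10 * N := by rcases hx with h | h <;> omega
  have S : ∀ {y : ℝ}, (N : ℝ) / 3 ≤ y → y ≤ 3 * N →
      ∑ r ∈ R, (∑ j ∈ PR (q₀ * r), ‖ws y (Real.log N ^ (-(A₀ + 10))) Lam (10 * N) j‖) /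
      Nat.totient (q₀ * r) ≤ 2 * N / (Nat.totient q₀ * Real.log N ^ (A₀ + 6)) :=
    fun {y} hy1 hy2 => sy hδ hδ2 hA₀ rfl hC rfl (min_le_left _ _) (min_le_right _ _) hN hL g1 g2
      e2 e3 e4 hq hq2 R hR hb hy1 hy2
  have S1 := S (y := x) (by linarith) (by linarith)
  have hexp1 : Real.exp (-(Real.log N ^ (-(A₀ + 10)))) ≤ 1 := by
    rw [Real.exp_le_one_iff]
    linarith
  have hexp2 : 1 / 3 ≤ Real.exp (-(Real.log N ^ (-(A₀ + 10)))) := by
    have k1 : Real.exp (-1) ≤ Real.exp (-(Real.log N ^ (-(A₀ + 10)))) :=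
      Real.exp_le_exp.2 (by linarith)
    have k2 : 1 / 3 ≤ Real.exp (-1) := by
      rw [Real.exp_neg, ← one_div]
      exact one_div_le_one_div_of_le (Real.exp_pos _) (by linarith [Real.exp_one_lt_d9])
    linarith
  have S2 := S (y := x * Real.exp (-(Real.log N ^ (-(A₀ + 10))))) (by nlinarith) (by nlinarith)
  obtain ⟨R₀, hR₀⟩ : ∃ R₀ : ℕ, R₀ = ⌊(N : ℝ) ^ (1 / 2 - δ)⌋₊ := ⟨_, rfl⟩
  have hNp : 1 ≤ (N : ℝ) ^ (1 / 2 - δ) := Real.one_le_rpow hN1 (by linarith)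
  have hR1 : 1 ≤ R₀ := by
    rw [hR₀]
    exact Nat.le_floor (by exact_mod_cast hNp)
  have hR2 : (R₀ : ℝ) ≤ (N : ℝ) ^ (1 / 2 - δ) := by
    rw [hR₀]
    exact Nat.floor_le (by linarith)
  have hRI : R ⊆ Icc 1 R₀ := by
    intro r hr
    rw [mem_Icc]
    refine ⟨(hR r hr).1, ?_⟩
    rw [hR₀]
    exact Nat.le_floor (hR r hr).2.1
  obtain ⟨hl1, hl2⟩ := logs hδ hN hL hR1 hR2
  have hφ1 : (1 : ℝ) ≤ Nat.totient q₀ := by
    exact_mod_cast Nat.totient_pos.2 (by omega)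
  have hφ : (0 : ℝ) < Nat.totient q₀ := by linarith
  have hφ2 : (Nat.totient q₀ : ℝ) ≤ q₀ := by exact_mod_cast Nat.totient_le q₀
  -- logs
  have hl10 : Real.log ((10 * N : ℕ) : ℝ) ≤ 2 * Real.log N := by
    push_cast
    rw [Real.log_mul (by norm_num) hN0.ne']
    have h4 : Real.log 10 ≤ 9 := by
      have := Real.log_le_sub_one_of_pos (show (0 : ℝ) < 10 by norm_num)
      linarith
    linarith
  have hlx : Real.log (3 * x) ≤ 2 * Real.log N := by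
    refine le_trans (Real.log_le_log (by linarith) ?_) hl10
    exact_mod_cast hxM
  have hlx0 : 0 ≤ Real.log (3 * x) := Real.log_nonneg (by linarith)
  have hl100 : 0 ≤ Real.log ((10 * N : ℕ) : ℝ) := by
    apply Real.log_nonneg
    push_cast
    linarith
  -- the error terms
  obtain ⟨W, hW⟩ : ∃ W : ℝ, W = (4 * Real.log N ^ (-(A₀ + 10)) * x + 1) * Real.log (3 * x) :=
    ⟨_, rfl⟩
  have hW0 : 0 ≤ W := by
    rw [hW]
    apply mul_nonneg _ hlx0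
    have : 0 ≤ 4 * Real.log N ^ (-(A₀ + 10)) * x := by positivity
    linarith
  have hW1 : W ≤ 18 * N * Real.log N ^ (-(A₀ + 10)) * Real.log N := by
    have k1 : 1 ≤ N * Real.log N ^ (-(A₀ + 10)) := by
      rw [Real.rpow_neg hL0.le, ← div_eq_mul_inv, le_div_iff₀ (Real.rpow_pos_of_pos hL0 _)]
      linarith
    have k2 : 4 * Real.log N ^ (-(A₀ + 10)) * x + 1 ≤ 9 * (N * Real.log N ^ (-(A₀ + 10))) := by
      nlinarith
    rw [hW]
    calc _ ≤ 9 * (N * Real.log N ^ (-(A₀ + 10))) * (2 * Real.log N) :=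
          mul_le_mul k2 hlx hlx0 (by positivity)
      _ = _ := by ring
  have E1 : ∑ r ∈ R, W / Nat.totient (q₀ * r) ≤ W / Nat.totient q₀ * Real.log N ^ 2 := by
    have k1 : ∑ r ∈ R, W / Nat.totient (q₀ * r) =
        W / Nat.totient q₀ * ∑ r ∈ R, (1 : ℝ) / Nat.totient r := by
      rw [mul_sum]
      apply sum_congr rfl
      intro r hr
      rw [Nat.totient_mul (hR r hr).2.2.symm]
      push_cast
      have : (Nat.totient r : ℝ) ≠ 0 := by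
        have := Nat.totient_pos.2 (hR r hr).1
        positivity
      field_simp
    rw [k1]
    apply mul_le_mul_of_nonneg_left _ (by positivity)
    calc ∑ r ∈ R, (1 : ℝ) / Nat.totient r ≤ ∑ n ∈ Icc 1 R₀, (1 : ℝ) / Nat.totient n :=
          sum_le_sum_of_subset_of_nonneg hRI (fun _ _ _ => by positivity)
      _ ≤ (Nat.log 2 R₀ + 1) * (1 + Real.log R₀) := phi_sum R₀ hR1
      _ ≤ Real.log N * Real.log N := by
          apply mul_le_mul hl1 hl2 _ hL0.le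
          have := Real.log_nonneg (show (1 : ℝ) ≤ R₀ by exact_mod_cast hR1)
          linarith
      _ = Real.log N ^ 2 := by ring
  have E2 : ∑ r ∈ R, (Nat.log 2 (q₀ * r) : ℝ) * Real.log ((10 * N : ℕ) : ℝ) ≤
      (N : ℝ) ^ (1 / 2 - δ) * (4 * Real.log N ^ 2) := by
    have k1 : ∀ r ∈ R, (Nat.log 2 (q₀ * r) : ℝ) * Real.log ((10 * N : ℕ) : ℝ) ≤
        4 * Real.log N ^ 2 := by
      intro r hr
      have hr1 := (hR r hr).1
      have hqr : 0 < q₀ * r := Nat.mul_pos (by omega) (by omega)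
      have j1 : ((q₀ * r : ℕ) : ℝ) ≤ N := by
        push_cast
        calc (q₀ : ℝ) * r ≤ (N : ℝ) ^ min (δ / 32) (1 / 400 : ℝ) * (N : ℝ) ^ (1 / 2 - δ) :=
              mul_le_mul hq2 (hR r hr).2.1 (by positivity) (by positivity)
          _ = (N : ℝ) ^ (min (δ / 32) (1 / 400 : ℝ) + (1 / 2 - δ)) :=
              (Real.rpow_add hN0 _ _).symm
          _ ≤ (N : ℝ) ^ (1 : ℝ) := by
              apply Real.rpow_le_rpow_of_exponent_le hN1
              have := min_le_right (δ / 32) (1 / 400 : ℝ)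
              linarith
          _ = N := Real.rpow_one _
      have j2 : ((2 ^ Nat.log 2 (q₀ * r) : ℕ) : ℝ) ≤ N := by
        refine le_trans ?_ j1
        exact_mod_cast Nat.pow_log_le_self 2 hqr.ne'
      push_cast at j2
      have j3 := Real.log_le_log (by positivity) j2
      rw [Real.log_pow] at j3
      have j5 := Real.log_two_gt_d9
      have j6 : (Nat.log 2 (q₀ * r) : ℝ) * 0.69 ≤ (Nat.log 2 (q₀ * r) : ℝ) * Real.log 2 :=
        mul_le_mul_of_nonneg_left (by linarith) (by positivity)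
      have j7 : (Nat.log 2 (q₀ * r) : ℝ) ≤ 2 * Real.log N := by linarith
      calc (Nat.log 2 (q₀ * r) : ℝ) * Real.log ((10 * N : ℕ) : ℝ) ≤
          2 * Real.log N * (2 * Real.log N) :=
            mul_le_mul j7 hl10 hl100 (by positivity)
        _ = 4 * Real.log N ^ 2 := by ring
    calc _ ≤ ∑ r ∈ R, 4 * Real.log N ^ 2 := sum_le_sum k1
      _ = (R.card : ℝ) * (4 * Real.log N ^ 2) := by rw [sum_const, nsmul_eq_mul]
      _ ≤ _ := by
          apply mul_le_mul_of_nonneg_right _ (by positivity)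
          have : R.card ≤ R₀ := by
            have := card_le_card hRI
            rwa [Nat.card_Icc, Nat.add_sub_cancel] at this
          exact le_trans (by exact_mod_cast this) hR2
  -- putting together
  have tot : ∑ r ∈ R, |psiA x (q₀ * r) (a r) - psi0 x / Nat.totient (q₀ * r)| ≤
      2 * N / (Nat.totient q₀ * Real.log N ^ (A₀ + 6)) +
      2 * N / (Nat.totient q₀ * Real.log N ^ (A₀ + 6)) +
      W / Nat.totient q₀ * Real.log N ^ 2 +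
      (N : ℝ) ^ (1 / 2 - δ) * (4 * Real.log N ^ 2) := by
    refine le_trans ?_ (add_le_add (add_le_add (add_le_add S1 S2) E1) E2)
    rw [← sum_add_distrib, ← sum_add_distrib, ← sum_add_distrib]
    apply sum_le_sum
    intro r hr
    have hqr : 1 ≤ q₀ * r := Nat.mul_pos (by omega) (hR r hr).1
    have := swd hxn hqr hxM (ha r hr) hΔ hΔ1
    refine this.trans (le_of_eq ?_)
    rw [hW]
    ring
  refine tot.trans ?_
  have hP : 0 < Real.log N ^ A₀ := Real.rpow_pos_of_pos hL0 _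
  have e6' : Real.log N ^ (A₀ + 6) = Real.log N ^ A₀ * Real.log N ^ 6 := by
    rw [Real.rpow_add hL0]
    norm_num
  have e2' : Real.log N ^ (A₀ + 2) = Real.log N ^ A₀ * Real.log N ^ 2 := by
    rw [Real.rpow_add hL0]
    norm_num
  have e10' : Real.log N ^ (-(A₀ + 10)) = (Real.log N ^ A₀ * Real.log N ^ 10)⁻¹ := by
    rw [Real.rpow_neg hL0.le, Real.rpow_add hL0]
    norm_num
  have hZ : N / (Nat.totient q₀ * Real.log N ^ A₀) ≤ N / (Nat.totient q₀ * Real.log N ^ A) := by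
    apply div_le_div_of_nonneg_left hN0.le (mul_pos hφ (Real.rpow_pos_of_pos hL0 _))
    exact mul_le_mul_of_nonneg_left (Real.rpow_le_rpow_of_exponent_le hL1 hAA) hφ.le
  refine le_trans ?_ hZ
  obtain ⟨Z, hZZ⟩ : ∃ Z : ℝ, Z = N / (Nat.totient q₀ * Real.log N ^ A₀) := ⟨_, rfl⟩
  have hZ0 : 0 < Z := by rw [hZZ]; positivity
  have p1 : 2 * N / (Nat.totient q₀ * Real.log N ^ (A₀ + 6)) ≤ Z / 4 := by
    have : 2 * N / (Nat.totient q₀ * Real.log N ^ (A₀ + 6)) = Z * (2 / Real.log N ^ 6) := by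
      rw [e6', hZZ]
      field_simp
    rw [this]
    have k : 2 / Real.log N ^ 6 ≤ 1 / 4 := by
      rw [div_le_div_iff₀ (by positivity) (by norm_num)]
      have : (24 : ℝ) ^ 6 ≤ Real.log N ^ 6 := pow_le_pow_left₀ (by norm_num) hL 6
      norm_num at this
      linarith
    nlinarith
  have p2 : W / Nat.totient q₀ * Real.log N ^ 2 ≤ Z / 8 := by
    have k0 : W / Nat.totient q₀ * Real.log N ^ 2 ≤
        18 * N * Real.log N ^ (-(A₀ + 10)) * Real.log N / Nat.totient q₀ * Real.log N ^ 2 :=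
      mul_le_mul_of_nonneg_right (div_le_div_of_nonneg_right hW1 hφ.le) (by positivity)
    refine k0.trans ?_
    have : 18 * N * Real.log N ^ (-(A₀ + 10)) * Real.log N / Nat.totient q₀ *
        Real.log N ^ 2 = Z * (18 / Real.log N ^ 7) := by
      rw [e10', hZZ]
      field_simp
    rw [this]
    have k : 18 / Real.log N ^ 7 ≤ 1 / 8 := by
      rw [div_le_div_iff₀ (by positivity) (by norm_num)]
      have : (24 : ℝ) ^ 7 ≤ Real.log N ^ 7 := pow_le_pow_left₀ (by norm_num) hL 7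
      norm_num at this
      linarith
    nlinarith
  have p3 : (N : ℝ) ^ (1 / 2 - δ) * (4 * Real.log N ^ 2) ≤ Z / 8 := by
    rw [hZZ, div_div, le_div_iff₀ (by positivity)]
    rw [e2'] at e5
    calc (N : ℝ) ^ (1 / 2 - δ) * (4 * Real.log N ^ 2) * (Nat.totient q₀ * Real.log N ^ A₀ * 8) =
        (N : ℝ) ^ (1 / 2 - δ) * Nat.totient q₀ *
          (32 * (Real.log N ^ A₀ * Real.log N ^ 2)) := by ring
      _ ≤ (N : ℝ) ^ (1 / 2 : ℝ) * (N : ℝ) ^ (1 / 4 : ℝ) * (N : ℝ) ^ (1 / 4 : ℝ) := by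
          apply mul_le_mul _ e5 (by positivity) (by positivity)
          apply mul_le_mul _ _ (by positivity) (by positivity)
          · exact Real.rpow_le_rpow_of_exponent_le hN1 (by linarith)
          · refine (hφ2.trans hq2).trans (Real.rpow_le_rpow_of_exponent_le hN1 ?_)
            have := min_le_right (δ / 32) (1 / 400 : ℝ)
            linarith
      _ = (N : ℝ) ^ (1 / 2 + 1 / 4 + 1 / 4 : ℝ) := by
          rw [Real.rpow_add hN0, Real.rpow_add hN0]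
      _ = N := by norm_num
  linarith

end PGB
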