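import Pool.Agent.PGB.Pcb

/-!
# Project PGB, Dec: the decomposition of the von Mangoldt sum

PROOFS.
* `dec`: for `N ≥ 1000` let `z = ⌈(10 N)^(1/3)⌉₊`; `10 N ≤ z^3`, `z ≤ (10 N)^(1/3) + 1 ≤ 3 N^(1/3)`
  (`10^(1/3) ≤ 2.2`), `z ≤ 10 N`.  With `I = Nat.log 2 (10 N) + 1`, `10 N < 2^I`.  For `n ≤ 10 N`
  `heath_brown` and `dyadic` give `Lam n = ∑_k cf k * ∑_e GS z e (pat k) univ n`; insert this in
  `ws`, exchange the finite sums, triangle inequality, `‖cf k‖ ≤ 3`.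
* `ws_zero_big`: if `10 N < 2 ^ ∑ e i` then all `GS .. n` with `n ≤ 10 N` vanish (`GS_low`).
* `GS_zero_delta`: `pc z e 0 = 0` for `e ≥ 1` (`(1 : ArithmeticFunction ℂ) n = 0` for `n ≥ 2`), a
  product with a factor `0` is `0` (`Finset.prod_eq_zero`).
* `GS_zero_mu`: `pc z e 1 = 0` if `z < 2^e`.
* `exists_max`: some index has maximal `e i`, and then `∑ e ≤ 6 * e i`.
-/

set_option autoImplicit false

open Finset Filter

namespace PGB

private theorem dec_ws (z N : ℕ) (hz : 10 * N ≤ z ^ 3) (y Δ : ℝ) (j : PC) :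
    ws y Δ Lam (10 * N) j = ∑ k : Fin 3,
      ∑ e ∈ Fintype.piFinset (fun _ : Fin 6 => range (Nat.log 2 (10 * N) + 1)),
        cf k * ws y Δ (GS z e (pat k) univ) (10 * N) j := by
  have h1 : ∀ n ∈ range (10 * N + 1), (wt y Δ n : ℂ) * (ch j n * Lam n) = ∑ k : Fin 3,
      ∑ e ∈ Fintype.piFinset (fun _ : Fin 6 => range (Nat.log 2 (10 * N) + 1)),
        cf k * ((wt y Δ n : ℂ) * (ch j n * GS z e (pat k) univ n)) := by
    intro n hn
    rw [Finset.mem_range] at hn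
    have h2 : n ≤ z ^ 3 := by omega
    have h3 : n < 2 ^ (Nat.log 2 (10 * N) + 1) :=
      lt_of_le_of_lt (show n ≤ 10 * N by omega) (Nat.lt_pow_succ_log_self (by norm_num) _)
    rw [heath_brown z n h2, Finset.mul_sum, Finset.mul_sum]
    refine Finset.sum_congr rfl fun k _ => ?_
    rw [dyadic z _ n h3 (pat k), Finset.mul_sum, Finset.mul_sum, Finset.mul_sum]
    refine Finset.sum_congr rfl fun e _ => ?_
    ring
  unfold ws
  rw [Finset.sum_congr rfl h1, Finset.sum_comm]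
  refine Finset.sum_congr rfl fun k _ => ?_
  rw [Finset.sum_comm]
  refine Finset.sum_congr rfl fun e _ => ?_
  rw [Finset.mul_sum]

private theorem norm_cf (k : Fin 3) : ‖cf k‖ ≤ 3 := by
  have h : k = 0 ∨ k = 1 ∨ k = 2 := by
    fin_cases k <;> simp
  rcases h with rfl | rfl | rfl
  · show ‖(3 : ℂ)‖ ≤ 3
    norm_num
  · show ‖(-3 : ℂ)‖ ≤ 3
    norm_num
  · show ‖(1 : ℂ)‖ ≤ 3
    norm_num

/-- The decomposition of the von Mangoldt sum into products of dyadic pieces. -/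
theorem dec : ∀ᶠ N : ℕ in atTop, ∃ z : ℕ, z ≤ 10 * N ∧ (z : ℝ) ≤ 3 * (N : ℝ) ^ (1 / 3 : ℝ) ∧
    ∀ (y Δ : ℝ) (j : PC), ‖ws y Δ Lam (10 * N) j‖ ≤
      ∑ k : Fin 3, ∑ e ∈ Fintype.piFinset (fun _ : Fin 6 => range (Nat.log 2 (10 * N) + 1)),
        3 * ‖ws y Δ (GS z e (pat k) univ) (10 * N) j‖ := by
  filter_upwards [eventually_ge_atTop 1000] with N hN
  obtain ⟨t, ht⟩ : ∃ t : ℝ, t = (N : ℝ) ^ (1 / 3 : ℝ) := ⟨_, rfl⟩
  have hNr : (1000 : ℝ) ≤ N := by exact_mod_cast hN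
  have ht0 : 0 ≤ t := by
    rw [ht]
    positivity
  have ht3 : t ^ 3 = N := by
    rw [ht, ← Real.rpow_natCast, ← Real.rpow_mul (by positivity)]
    norm_num
  have ht10 : 10 ≤ t := by
    by_contra hlt
    rw [not_le] at hlt
    have h1 : t ^ 3 < 10 ^ 3 := pow_lt_pow_left₀ hlt ht0 (by norm_num)
    rw [ht3] at h1
    linarith
  rw [← ht]
  obtain ⟨z, hz⟩ : ∃ z : ℕ, z = ⌈2.2 * t⌉₊ := ⟨_, rfl⟩
  have hz1 : 2.2 * t ≤ z := by
    rw [hz]
    exact Nat.le_ceil _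
  have hz2 : (z : ℝ) < 2.2 * t + 1 := by
    rw [hz]
    exact Nat.ceil_lt_add_one (by positivity)
  have hz3 : (z : ℝ) ≤ 3 * t := by linarith
  have hz4 : z ≤ 10 * N := by
    have h1 : (z : ℝ) ≤ 10 * N := by
      have h2 : t ≤ t ^ 3 := le_self_pow₀ (by linarith) (by norm_num)
      rw [← ht3]
      linarith
    exact_mod_cast h1
  have hz5 : 10 * N ≤ z ^ 3 := by
    have h1 : (2.2 * t) ^ 3 ≤ (z : ℝ) ^ 3 := pow_le_pow_left₀ (by positivity) hz1 3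
    have h2 : (10 * N : ℝ) ≤ (z : ℝ) ^ 3 := by
      refine le_trans ?_ h1
      rw [mul_pow, ht3]
      nlinarith
    exact_mod_cast h2
  refine ⟨z, hz4, hz3, ?_⟩
  intro y Δ j
  rw [dec_ws z N hz5 y Δ j]
  refine (norm_sum_le _ _).trans (Finset.sum_le_sum fun k _ => ?_)
  refine (norm_sum_le _ _).trans (Finset.sum_le_sum fun e _ => ?_)
  rw [norm_mul]
  exact mul_le_mul_of_nonneg_right (norm_cf k) (norm_nonneg _)

theorem ws_zero_big {N z : ℕ} {e : Fin 6 → ℕ} {c : Fin 6 → Fin 4} (h : 10 * N < 2 ^ ∑ i, e i)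
    (y Δ : ℝ) (j : PC) : ws y Δ (GS z e c univ) (10 * N) j = 0 := by
  unfold ws
  refine Finset.sum_eq_zero fun n hn => ?_
  rw [Finset.mem_range] at hn
  rw [GS_low z e c univ n (by omega), mul_zero, mul_zero]

theorem GS_zero_delta {z : ℕ} {e : Fin 6 → ℕ} {c : Fin 6 → Fin 4} {i : Fin 6} (hc : c i = 0)
    (he : 1 ≤ e i) : GS z e c univ = 0 := by
  unfold GS
  refine Finset.prod_eq_zero (Finset.mem_univ i) ?_
  rw [hc]
  ext n
  show (if 2 ^ e i ≤ n ∧ n < 2 ^ (e i + 1) then base z 0 n else 0) = 0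
  split_ifs with h
  · show (1 : ArithmeticFunction ℂ) n = 0
    rw [ArithmeticFunction.one_apply, if_neg]
    have h1 : 2 ^ 1 ≤ 2 ^ e i := Nat.pow_le_pow_right (by norm_num) he
    omega
  · rfl

theorem GS_zero_mu {z : ℕ} {e : Fin 6 → ℕ} {c : Fin 6 → Fin 4} {i : Fin 6} (hc : c i = 1)
    (he : z < 2 ^ e i) : GS z e c univ = 0 := by
  unfold GS
  refine Finset.prod_eq_zero (Finset.mem_univ i) ?_
  rw [hc]
  ext n
  show (if 2 ^ e i ≤ n ∧ n < 2 ^ (e i + 1) then base z 1 n else 0) = 0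
  split_ifs with h
  · show (if n ≤ z then ((ArithmeticFunction.moebius n : ℤ) : ℂ) else 0) = 0
    rw [if_neg]
    omega
  · rfl

theorem exists_max (e : Fin 6 → ℕ) : ∃ i₀ : Fin 6, (∀ i, e i ≤ e i₀) ∧ ∑ i, e i ≤ 6 * e i₀ := by
  obtain ⟨i₀, _, h⟩ := Finset.exists_max_image (univ : Finset (Fin 6)) e ⟨0, Finset.mem_univ 0⟩
  refine ⟨i₀, fun i => h i (Finset.mem_univ i), ?_⟩
  have h1 := Finset.sum_le_card_nsmul univ e (e i₀) h
  rw [Finset.card_univ, Fintype.card_fin, smul_eq_mul] at h1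
  exact h1

end PGB
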