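import Mathlib

/-!
# Project PGB (MP_133aef_nt, Bombieri-Vinogradov section): definitions

The section proves a Bombieri-Vinogradov theorem for moduli `q₀ r`, where `q₀` is the product of the
primes `≤ ε log N` outside a very sparse set `D` of primes, without zero free regions: a primitive
character of conductor `≤ N ^ (1/200)` is *bad* if some partial sum of `μ χ` is large; by the large
sieve there are only `(log N) ^ C` bad characters, and `D` hits all bad conductors.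
-/

set_option autoImplicit false

open Finset

namespace PGB

/-- A Dirichlet character together with its modulus. -/
abbrev PC : Type := Σ q : ℕ, DirichletCharacter ℂ q

/-- The value of a character at `n`. -/
noncomputable def ch (j : PC) (n : ℕ) : ℂ := j.2 (n : ZMod j.1)

/-- `F` consists of primitive characters to moduli in `[2, X]`. -/
def Prims (X : ℝ) (F : Finset PC) : Prop :=
  ∀ j ∈ F, 2 ≤ j.1 ∧ (j.1 : ℝ) ≤ X ∧ j.2.IsPrimitive

/-- `f` is supported on `[1, N]`. -/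
def Supp (N : ℕ) (f : ℕ → ℂ) : Prop := ∀ n, n = 0 ∨ N < n → f n = 0

/-- The sum `∑ χ(n) f(n) n^(-s)`. -/
noncomputable def Ls (f : ℕ → ℂ) (j : PC) (s : ℂ) : ℂ := LSeries (fun n => ch j n * f n) s

/-- The trapezoid weight: `1` for `n ≤ y`, `0` for `n ≥ y e^Δ`, linear in `log n` between. -/
noncomputable def wt (y Δ : ℝ) (n : ℕ) : ℝ :=
  (max (Real.log y + Δ - Real.log n) 0 - max (Real.log y - Real.log n) 0) / Δ

/-- The weighted character sum `∑_{n ≤ M} w(n) χ(n) f(n)`. -/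
noncomputable def ws (y Δ : ℝ) (f : ℕ → ℂ) (M : ℕ) (j : PC) : ℂ :=
  ∑ n ∈ range (M + 1), (wt y Δ n : ℂ) * (ch j n * f n)

/-- The square of the `ℓ²`-norm of `f` on `[0, N]`. -/
noncomputable def nsq (f : ℕ → ℂ) (N : ℕ) : ℝ := ∑ n ∈ range (N + 1), ‖f n‖ ^ 2

/-- The von Mangoldt function with complex values. -/
noncomputable def Lam (n : ℕ) : ℂ := ((ArithmeticFunction.vonMangoldt n : ℝ) : ℂ)

/-- The partial sum `∑_{m ≤ u} μ(m) χ(m)`. -/
noncomputable def mus (j : PC) (u : ℕ) : ℂ :=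
  ∑ m ∈ range (u + 1), ((ArithmeticFunction.moebius m : ℤ) : ℂ) * ch j m

/-- The character `j` is bad for `N` (with exponent `A`): some partial sum of `μ χ` of length
between `N ^ (1/10)` and `10 N` is not small. -/
def Bad (A : ℝ) (N : ℕ) (j : PC) : Prop :=
  ∃ u : ℕ, (N : ℝ) ^ (1 / 10 : ℝ) ≤ u ∧ u ≤ 10 * N ∧ (u : ℝ) / Real.log N ^ A < ‖mus j u‖

/-- The character `j` is exceptional at `Q` (with constant `κ`): it is quadratic and its `L`-function
is very small somewhere on the segment `(1, 2]`. -/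
def Exc (κ Q : ℝ) (j : PC) : Prop :=
  j.2 ^ 2 = 1 ∧ ∃ σ : ℝ, 1 < σ ∧ σ ≤ 2 ∧ ‖LSeries (ch j) (σ : ℂ)‖ < κ / Real.log Q ^ 5

/-- The logarithmic size `log Q + log (|t| + 3)`. -/
noncomputable def LL (Q t : ℝ) : ℝ := Real.log Q + Real.log (|t| + 3)

open Classical in
/-- The primitive characters modulo `d` (empty for `d = 0`). -/
noncomputable def prc (d : ℕ) : Finset (DirichletCharacter ℂ d) :=
  if h : d = 0 then ∅ else
    haveI : NeZero d := ⟨h⟩
    Finset.univ.filter fun χ => χ.IsPrimitive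

/-- The primitive characters to moduli `≥ 2` which divide `q`. -/
noncomputable def PR (q : ℕ) : Finset PC := (q.divisors.filter (2 ≤ ·)).sigma prc

/-- The part of the modulus of `j` outside `q₀`. -/
def sj (q₀ : ℕ) (j : PC) : ℕ := j.1 / Nat.gcd j.1 q₀

/-- `ψ(x; q, a)`. -/
noncomputable def psiA (x q a : ℕ) : ℝ :=
  ∑ n ∈ (range (x + 1)).filter (fun n => n ≡ a [MOD q]), ArithmeticFunction.vonMangoldt n

/-- `ψ(x)`. -/
noncomputable def psi0 (x : ℕ) : ℝ := ∑ n ∈ range (x + 1), ArithmeticFunction.vonMangoldt n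

/-- The standing assumptions on the parameters: `y` is comparable to `N`, `0 < Δ ≤ 1`, and `F` is a
set of primitive characters to moduli in `[2, X]`. -/
def Ctx (N : ℕ) (y Δ X : ℝ) (F : Finset PC) : Prop :=
  (N : ℝ) / 3 ≤ y ∧ y ≤ 3 * N ∧ 0 < Δ ∧ Δ ≤ 1 ∧ 1 ≤ X ∧ Prims X F

theorem mem_prc {d : ℕ} {χ : DirichletCharacter ℂ d} : χ ∈ prc d ↔ d ≠ 0 ∧ χ.IsPrimitive := by
  classical
  unfold prc
  by_cases h : d = 0
  · simp [h]
  · rw [dif_neg h]
    simp [h]

theorem mem_PR {q : ℕ} {j : PC} :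
    j ∈ PR q ↔ q ≠ 0 ∧ j.1 ∣ q ∧ 2 ≤ j.1 ∧ j.2.IsPrimitive := by
  unfold PR
  rw [Finset.mem_sigma, Finset.mem_filter, Nat.mem_divisors, mem_prc]
  constructor
  · rintro ⟨⟨⟨h1, h2⟩, h3⟩, _, h5⟩
    exact ⟨h2, h1, h3, h5⟩
  · rintro ⟨h1, h2, h3, h4⟩
    exact ⟨⟨⟨h2, h1⟩, h3⟩, by omega, h4⟩

theorem ch_mul (j : PC) (m n : ℕ) : ch j (m * n) = ch j m * ch j n := by
  unfold ch
  push_cast
  exact map_mul _ _ _

theorem ch_one (j : PC) : ch j 1 = 1 := by
  unfold ch
  push_cast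
  exact map_one _

theorem norm_ch_le (j : PC) (n : ℕ) : ‖ch j n‖ ≤ 1 := j.2.norm_le_one _

theorem wt_nonneg {y Δ : ℝ} (hΔ : 0 < Δ) (n : ℕ) : 0 ≤ wt y Δ n := by
  unfold wt
  apply div_nonneg _ hΔ.le
  rw [sub_nonneg]
  exact max_le_max (by linarith) le_rfl

theorem wt_le_one {y Δ : ℝ} (hΔ : 0 < Δ) (n : ℕ) : wt y Δ n ≤ 1 := by
  unfold wt
  rw [div_le_one hΔ]
  rcases le_total (Real.log y + Δ - Real.log n) 0 with h | h
  · rw [max_eq_right h]
    have := le_max_right (Real.log y - Real.log n) 0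
    linarith
  · rw [max_eq_left h]
    have := le_max_left (Real.log y - Real.log n) 0
    linarith

/-- The weight is `1` up to `y`. -/
theorem wt_eq_one {y Δ : ℝ} (hΔ : 0 < Δ) {n : ℕ} (hn : 1 ≤ n) (hy : (n : ℝ) ≤ y) :
    wt y Δ n = 1 := by
  have hn' : (0 : ℝ) < n := by exact_mod_cast hn
  have h1 : Real.log n ≤ Real.log y := Real.log_le_log hn' hy
  unfold wt
  rw [max_eq_left (by linarith), max_eq_left (by linarith)]
  field_simp
  ring

/-- The weight is `0` from `y e^Δ` on. -/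
theorem wt_eq_zero {y Δ : ℝ} (hy : 0 < y) (hΔ : 0 < Δ) {n : ℕ} (hn : y * Real.exp Δ ≤ n) :
    wt y Δ n = 0 := by
  have h0 : 0 < y * Real.exp Δ := by positivity
  have h1 : Real.log (y * Real.exp Δ) ≤ Real.log n := Real.log_le_log h0 hn
  rw [Real.log_mul hy.ne' (Real.exp_pos _).ne', Real.log_exp] at h1
  unfold wt
  rw [max_eq_right (by linarith), max_eq_right (by linarith)]
  simp

/-- For `Δ ≤ 1` the weight is `0` from `3 y` on. -/
theorem wt_eq_zero' {y Δ : ℝ} (hy : 0 < y) (hΔ : 0 < Δ) (hΔ1 : Δ ≤ 1) {n : ℕ}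
    (hn : 3 * y ≤ n) : wt y Δ n = 0 := by
  refine wt_eq_zero hy hΔ (le_trans ?_ hn)
  have h1 : Real.exp Δ ≤ Real.exp 1 := Real.exp_le_exp.2 hΔ1
  have h2 := Real.exp_one_lt_d9
  nlinarith

/-- The weighted sum does not depend on its length, if the terms beyond vanish. -/
theorem ws_congr {y Δ : ℝ} {f : ℕ → ℂ} {M M' : ℕ} (j : PC)
    (h : ∀ n, min M M' < n → (wt y Δ n : ℂ) * (ch j n * f n) = 0) :
    ws y Δ f M j = ws y Δ f M' j := by
  have key : ∀ M K : ℕ, K ≤ M →
      (∀ n, K < n → (wt y Δ n : ℂ) * (ch j n * f n) = 0) →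
      ws y Δ f M j = ws y Δ f K j := by
    intro M K hK h0
    unfold ws
    symm
    apply Finset.sum_subset
    · intro n hn
      rw [Finset.mem_range] at hn ⊢
      omega
    · intro n _ hn
      rw [Finset.mem_range, not_lt] at hn
      exact h0 n (by omega)
  rw [key M (min M M') (min_le_left _ _) h, key M' (min M M') (min_le_right _ _) h]

end PGB
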