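import Mathlib

/-!
# Project PGB, Dv: moments of the divisor function

PROOF.  `harm`: `H_k(P) := ∑_{n ≤ P} τ(n)^k / n ≤ (1 + log P)^(2^k)` by induction on `k`.
`k = 0`: `harmonic_le_one_add_log`.  Step: `τ(n) = ∑_{d m = n} 1`, so
`H_{k+1}(P) = ∑_{n ≤ P} ∑_{d m = n} τ(d m)^k / (d m) ≤ ∑_{d ≤ P} ∑_{m ≤ P} τ(d)^k τ(m)^k / (d m)
= H_k(P)^2`, since `τ(d m) ≤ τ(d) τ(m)` (the map `(a, b) ↦ a b` from pairs of divisors onto the
divisors of `d m`: `Nat.divisors_mul`, `Finset.card_mul_le`) and every pair `(d, m)` with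
`d m = n ≤ P` has `d, m ≤ P` (`Nat.divisorsAntidiagonal`, `Finset.sum_sigma'`, injection
`(n, (d, m)) ↦ (d, m)`).
`mom`: `∑_{n ≤ P} τ(n)^k ≤ P ∑_{n ≤ P} τ(n)^k / n`.
-/

set_option autoImplicit false

open Finset

namespace PGB

private theorem tau_mul (a b : ℕ) :
    (a * b).divisors.card ≤ a.divisors.card * b.divisors.card := by
  rw [Nat.divisors_mul]
  exact Finset.card_mul_le

private theorem harm_step (k P : ℕ) :
    ∑ n ∈ Icc 1 P, (n.divisors.card : ℝ) ^ (k + 1) / n ≤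
      (∑ n ∈ Icc 1 P, (n.divisors.card : ℝ) ^ k / n) ^ 2 := by
  have h0 : ∀ n : ℕ, 0 ≤ (n.divisors.card : ℝ) ^ k / n := fun n => by positivity
  have h1 : ∀ n ∈ Icc 1 P, (n.divisors.card : ℝ) ^ (k + 1) / n ≤
      ∑ x ∈ n.divisorsAntidiagonal,
        ((x.1.divisors.card : ℝ) ^ k / x.1) * ((x.2.divisors.card : ℝ) ^ k / x.2) := by
    intro n hn
    have hn1 : 1 ≤ n := (Finset.mem_Icc.1 hn).1
    have hc : (n.divisors.card : ℝ) = (n.divisorsAntidiagonal.card : ℝ) := by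
      rw [← Nat.map_div_right_divisors, Finset.card_map]
    have h2 : (n.divisors.card : ℝ) ^ (k + 1) / n =
        ∑ x ∈ n.divisorsAntidiagonal, (n.divisors.card : ℝ) ^ k / n := by
      rw [Finset.sum_const, nsmul_eq_mul, ← hc]
      ring
    rw [h2]
    refine Finset.sum_le_sum fun x hx => ?_
    obtain ⟨hx1, hx2⟩ := Nat.mem_divisorsAntidiagonal.1 hx
    have hx3 : (n : ℝ) = (x.1 : ℝ) * (x.2 : ℝ) := by
      rw [← hx1]
      push_cast
      ring
    have hxa : 0 < x.1 := Nat.pos_of_ne_zero (by rintro h; rw [h, zero_mul] at hx1; omega)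
    have hxb : 0 < x.2 := Nat.pos_of_ne_zero (by rintro h; rw [h, mul_zero] at hx1; omega)
    have hxa' : (0 : ℝ) < x.1 := by exact_mod_cast hxa
    have hxb' : (0 : ℝ) < x.2 := by exact_mod_cast hxb
    have h3 : (n.divisors.card : ℝ) ≤ (x.1.divisors.card : ℝ) * (x.2.divisors.card : ℝ) := by
      have := tau_mul x.1 x.2
      rw [hx1] at this
      exact_mod_cast this
    have h4 : (n.divisors.card : ℝ) ^ k ≤
        (x.1.divisors.card : ℝ) ^ k * (x.2.divisors.card : ℝ) ^ k := by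
      rw [← mul_pow]
      exact pow_le_pow_left₀ (by positivity) h3 k
    rw [div_mul_div_comm, hx3]
    exact div_le_div_of_nonneg_right h4 (by positivity)
  refine (Finset.sum_le_sum h1).trans ?_
  have hdisj : ∀ n ∈ Icc 1 P, ∀ m ∈ Icc 1 P, n ≠ m →
      Disjoint n.divisorsAntidiagonal m.divisorsAntidiagonal := by
    intro n _ m _ hnm
    rw [Finset.disjoint_left]
    intro x hx hx'
    exact hnm ((Nat.mem_divisorsAntidiagonal.1 hx).1.symm.trans
      (Nat.mem_divisorsAntidiagonal.1 hx').1)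
  rw [← Finset.sum_biUnion (s := Icc 1 P) (t := fun n => n.divisorsAntidiagonal) hdisj]
  have h5 : (∑ n ∈ Icc 1 P, (n.divisors.card : ℝ) ^ k / n) ^ 2 =
      ∑ x ∈ Icc 1 P ×ˢ Icc 1 P,
        ((x.1.divisors.card : ℝ) ^ k / x.1) * ((x.2.divisors.card : ℝ) ^ k / x.2) := by
    rw [sq, Finset.sum_mul_sum, Finset.sum_product]
  rw [h5]
  refine Finset.sum_le_sum_of_subset_of_nonneg ?_ fun x _ _ => mul_nonneg (h0 _) (h0 _)
  intro x hx
  obtain ⟨n, hn, hx⟩ := Finset.mem_biUnion.1 hx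
  obtain ⟨hx1, hx2⟩ := Nat.mem_divisorsAntidiagonal.1 hx
  obtain ⟨hn1, hn2⟩ := Finset.mem_Icc.1 hn
  have hxa : 0 < x.1 := Nat.pos_of_ne_zero (by rintro h; rw [h, zero_mul] at hx1; omega)
  have hxb : 0 < x.2 := Nat.pos_of_ne_zero (by rintro h; rw [h, mul_zero] at hx1; omega)
  rw [Finset.mem_product, Finset.mem_Icc, Finset.mem_Icc]
  refine ⟨⟨hxa, ?_⟩, hxb, ?_⟩
  · exact (Nat.le_mul_of_pos_right x.1 hxb).trans (hx1.le.trans hn2)
  · exact (Nat.le_mul_of_pos_left x.2 hxa).trans (hx1.le.trans hn2)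

theorem harm (k P : ℕ) (hP : 1 ≤ P) :
    ∑ n ∈ Icc 1 P, (n.divisors.card : ℝ) ^ k / n ≤ (1 + Real.log P) ^ (2 ^ k) := by
  have hlog : 0 ≤ Real.log P := Real.log_natCast_nonneg P
  induction k with
  | zero =>
    have h := harmonic_le_one_add_log P
    rw [harmonic_eq_sum_Icc] at h
    push_cast at h
    simpa [one_div] using h
  | succ k ih =>
    refine (harm_step k P).trans ?_
    rw [pow_succ 2 k, pow_mul]
    exact pow_le_pow_left₀ (Finset.sum_nonneg fun n _ => by positivity) ih 2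

/-- Moments of the divisor function. -/
theorem mom (k P : ℕ) (hP : 1 ≤ P) :
    ∑ n ∈ Icc 1 P, (n.divisors.card : ℝ) ^ k ≤ P * (1 + Real.log P) ^ (2 ^ k) := by
  refine le_trans ?_ (mul_le_mul_of_nonneg_left (harm k P hP) (Nat.cast_nonneg P))
  rw [Finset.mul_sum]
  refine Finset.sum_le_sum fun n hn => ?_
  obtain ⟨h1, h2⟩ := Finset.mem_Icc.1 hn
  have h1' : (0 : ℝ) < n := by exact_mod_cast h1
  have h2' : (n : ℝ) ≤ P := by exact_mod_cast h2
  calc (n.divisors.card : ℝ) ^ k = n * ((n.divisors.card : ℝ) ^ k / n) := by field_simp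
    _ ≤ P * ((n.divisors.card : ℝ) ^ k / n) :=
      mul_le_mul_of_nonneg_right h2' (by positivity)

end PGB
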