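import Pool.Agent.PGB.Slw

/-!
# Project PGB, Suni: at most one exceptional character; exceptional moduli tend to infinity

PROOFS.
* `four`: for `χ² = 1`, `χ'² = 1`, `σ > 1`: `‖ζ(σ) L(σ, χ) L(σ, χ') L(σ, χ χ')‖ ≥ 1`.  All values of
  `χ, χ'` are in `{-1, 0, 1}`.  Euler products: `f = 1, χ, χ', χ χ'` are completely multiplicative and
  bounded by `1` (`EulerProduct.eulerProduct_completely_multiplicative_hasProd` or the form
  `exp (∑' p, -log (1 - f p p^(-σ)))`, `DirichletCharacter.LSeries_eulerProduct_exp_log`), so the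
  product of the four is `∏_p 1 / ((1-y)(1-χ(p) y)(1-χ'(p) y)(1-χ(p) χ'(p) y))`, `y = p^(-σ) ∈ (0, 1)`,
  and each denominator is in `(0, 1]`: for `(χ(p), χ'(p)) = (1,1)`: `(1-y)^4`; `(1,-1), (-1,1), (-1,-1)`:
  `(1-y²)²`; `(0, a)` or `(a, 0)`: `(1-y)(1-a y)`, `a ∈ {0, ±1}`.  ALTERNATIVE without Euler products:
  the coefficients of the fourfold convolution are `≥ 0` (multiplicative, nonnegative at prime powers)
  and the first one is `1`.
* `prod_bound`: if moreover `j ≠ j'` are primitive to moduli in `[2, Q]`, then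
  `‖LSeries (fun n => ch j n * ch j' n) σ‖ ≤ C log Q` for `1 < σ ≤ 2`, `Q ≥ 3`: the function is
  `ch ⟨q q', ψ⟩` with `ψ = changeLevel χ * changeLevel χ'` (values at `n` coprime to `q q'` agree, both
  vanish otherwise), `ψ ≠ 1`: otherwise `changeLevel χ = (changeLevel χ')⁻¹ = changeLevel χ'`, and then
  the conductors agree (`DirichletCharacter.conductor_changeLevel`), `q = q'`, and `χ = χ'`
  (`DirichletCharacter.changeLevel_injective`).  `Lder 0`, `LL (q q') 0 ≤ 2 log Q + log 3`.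
* `unique`: let `a(σ) = ‖L(σ, χ)‖`, `a'(σ)` similarly.  Constants: `L_inv`: `a(σ) ≥ (σ-1)/2`;
  `L_lip` (`τ = 0`, `LL q 0 ≤ 3 log Q`): `|a(σ) - a(σ')| ≤ C₁ (log Q)² |σ-σ'|`; `four`, `zeta_real`,
  `prod_bound`: `a(σ) a'(σ) ≥ (σ-1) / (2 C₂ log Q)`.  Let both be exceptional with
  `δ = κ / (log Q)^5`, `κ ≤ 1/4`: `a(σ₁) < δ`, `a'(σ₂) < δ`, so `σ₁ - 1, σ₂ - 1 ≤ 2 δ`.  With
  `σ* = 1 + 2 δ ≤ 2`: `a(σ*), a'(σ*) ≤ δ + 2 δ C₁ (log Q)² ≤ C₃ δ (log Q)²`, hence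
  `C₃² δ² (log Q)^4 ≥ 2 δ / (2 C₂ log Q)`, `δ ≥ 1 / (C₂ C₃² (log Q)^5)`: impossible for
  `κ < 1 / (C₂ C₃²)`.
* `fixed`: there are finitely many characters to moduli `≤ K`; for each `χ ≠ 1` the function
  `DirichletCharacter.LFunction χ` is continuous on `[1, 2]` and does not vanish there
  (`DirichletCharacter.LFunction_ne_zero_of_one_le_re`), so `‖L‖ ≥ m > 0` on the compact segment
  (`IsCompact.exists_isMinOn`), and `κ / (log Q)^5 < m` for large `Q`.  On `Re s > 1`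
  `LFunction = LSeries` (`DirichletCharacter.LFunction_eq_LSeries`).
-/

set_option autoImplicit false

open Finset

namespace PGB

/-- The completely multiplicative function `n ↦ f(n) n^(-s)`. -/
noncomputable def euHom (f : ℕ → ℂ) (h1 : f 1 = 1) (hm : ∀ m n, f (m * n) = f m * f n) {s : ℂ}
    (hs : s ≠ 0) : ℕ →*₀ ℂ where
  toFun n := f n * (n : ℂ) ^ (-s)
  map_zero' := by simp [hs]
  map_one' := by simp [h1]
  map_mul' m n := by
    have e : ((m * n : ℕ) : ℂ) ^ (-s) = (m : ℂ) ^ (-s) * (n : ℂ) ^ (-s) := by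
      have := Complex.mul_cpow_ofReal_nonneg (m.cast_nonneg (α := ℝ)) (n.cast_nonneg (α := ℝ)) (-s)
      simpa using this
    rw [hm, e]
    ring

theorem eu_tendsto (f : ℕ → ℂ) (h1 : f 1 = 1) (hm : ∀ m n, f (m * n) = f m * f n)
    (hb : ∀ n, ‖f n‖ ≤ 1) {s : ℂ} (hs : 1 < s.re) :
    Filter.Tendsto (fun n : ℕ => ∏ p ∈ Nat.primesBelow n, (1 - f p * (p : ℂ) ^ (-s))⁻¹)
      Filter.atTop (nhds (LSeries f s)) := by
  have hs0 : s ≠ 0 := by
    rintro rfl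
    simp at hs
    linarith
  have hsum : Summable (fun n => ‖euHom f h1 hm hs0 n‖) := by
    have h0 : Summable (fun n : ℕ => ((n : ℝ) ^ s.re)⁻¹) := Real.summable_nat_rpow_inv.mpr hs
    refine Summable.of_nonneg_of_le (fun n => norm_nonneg _) (fun n => ?_) h0
    change ‖f n * (n : ℂ) ^ (-s)‖ ≤ _
    rw [norm_mul]
    have e : ‖(n : ℂ) ^ (-s)‖ = ((n : ℝ) ^ s.re)⁻¹ := by
      rw [← Complex.ofReal_natCast, Complex.norm_cpow_eq_rpow_re_of_nonneg (Nat.cast_nonneg n),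
        Complex.neg_re, Real.rpow_neg (Nat.cast_nonneg n)]
      rw [Complex.neg_re]
      linarith
    rw [e]
    exact mul_le_of_le_one_left (by positivity) (hb n)
  have key := EulerProduct.eulerProduct_completely_multiplicative hsum
  have e : ∑' n, euHom f h1 hm hs0 n = LSeries f s := by
    unfold LSeries
    apply tsum_congr
    intro n
    change f n * (n : ℂ) ^ (-s) = _
    rcases eq_or_ne n 0 with rfl | hn
    · simp [hs0]
    · rw [LSeries.term_of_ne_zero hn, Complex.cpow_neg, div_eq_mul_inv]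
  rw [e] at key
  exact key

theorem ch_real {j : PC} (h : j.2 ^ 2 = 1) (n : ℕ) : ch j n = 0 ∨ ch j n = 1 ∨ ch j n = -1 := by
  unfold ch
  by_cases hu : IsUnit (n : ZMod j.1)
  · have h1 : (j.2 ^ 2) (n : ZMod j.1) = 1 := by
      rw [h, MulChar.one_apply hu]
    rw [MulChar.pow_apply' _ two_ne_zero] at h1
    right
    have h2 : (j.2 (n : ZMod j.1) - 1) * (j.2 (n : ZMod j.1) + 1) = 0 := by
      linear_combination h1
    rcases mul_eq_zero.1 h2 with h3 | h3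
    · left
      linear_combination h3
    · right
      linear_combination h3
  · left
    exact MulChar.map_nonunit _ hu

theorem four {j j' : PC} (h : j.2 ^ 2 = 1) (h' : j'.2 ^ 2 = 1) {σ : ℝ} (hσ : 1 < σ) :
    1 ≤ ‖riemannZeta (σ : ℂ) * LSeries (ch j) (σ : ℂ) * LSeries (ch j') (σ : ℂ) *
      LSeries (fun n => ch j n * ch j' n) (σ : ℂ)‖ := by
  have hs : 1 < (σ : ℂ).re := by simpa using hσ
  rw [← LSeries_one_eq_riemannZeta hs]
  have t0 := eu_tendsto (1 : ℕ → ℂ) rfl (fun m n => by simp) (fun n => by simp) hs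
  have t1 := eu_tendsto (ch j) (ch_one j) (ch_mul j) (norm_ch_le j) hs
  have t2 := eu_tendsto (ch j') (ch_one j') (ch_mul j') (norm_ch_le j') hs
  have t3 := eu_tendsto (fun n => ch j n * ch j' n) (by simp [ch_one])
    (fun m n => by rw [ch_mul, ch_mul]; ring)
    (fun n => by
      rw [norm_mul]
      exact mul_le_one₀ (norm_ch_le j n) (norm_nonneg _) (norm_ch_le j' n)) hs
  have t := (((t0.mul t1).mul t2).mul t3).norm
  refine ge_of_tendsto' t ?_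
  intro N
  rw [← Finset.prod_mul_distrib, ← Finset.prod_mul_distrib, ← Finset.prod_mul_distrib, norm_prod]
  have e1 : (1 : ℝ) = ∏ p ∈ Nat.primesBelow N, (1 : ℝ) := by simp
  rw [e1]
  apply Finset.prod_le_prod (fun _ _ => zero_le_one)
  intro p hp
  have hp2 : 2 ≤ p := (Nat.prime_of_mem_primesBelow hp).two_le
  have hp0 : (0 : ℝ) < p := by positivity
  set y : ℝ := (p : ℝ) ^ (-σ) with hy
  have hy0 : 0 < y := Real.rpow_pos_of_pos hp0 _
  have hy1 : y < 1 := by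
    apply Real.rpow_lt_one_of_one_lt_of_neg
    · exact_mod_cast hp2
    · linarith
  have ey : (p : ℂ) ^ (-(σ : ℂ)) = (y : ℂ) := by
    rw [hy, Complex.ofReal_cpow hp0.le]
    simp
  rw [ey]
  have key : ∀ a b : ℝ, (a = 0 ∨ a = 1 ∨ a = -1) → (b = 0 ∨ b = 1 ∨ b = -1) →
      (1 : ℝ) ≤ ‖(1 - (1 : ℂ) * (y : ℂ))⁻¹ * (1 - (a : ℂ) * (y : ℂ))⁻¹ *
        (1 - (b : ℂ) * (y : ℂ))⁻¹ * (1 - ((a : ℂ) * (b : ℂ)) * (y : ℂ))⁻¹‖ := by
    intro a b ha hb
    have e : (1 - (1 : ℂ) * (y : ℂ))⁻¹ * (1 - (a : ℂ) * (y : ℂ))⁻¹ *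
        (1 - (b : ℂ) * (y : ℂ))⁻¹ * (1 - ((a : ℂ) * (b : ℂ)) * (y : ℂ))⁻¹ =
        ((((1 - y) * (1 - a * y) * (1 - b * y) * (1 - a * b * y))⁻¹ : ℝ) : ℂ) := by
      push_cast
      rw [mul_inv, mul_inv, mul_inv, one_mul]
    rw [e, Complex.norm_real, Real.norm_eq_abs]
    have hpos : 0 < (1 - y) * (1 - a * y) * (1 - b * y) * (1 - a * b * y) ∧
        (1 - y) * (1 - a * y) * (1 - b * y) * (1 - a * b * y) ≤ 1 := by
      have z1 : 0 < 1 - y := by linarith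
      have z2 : 1 - y ≤ 1 := by linarith
      have z3 : 0 < 1 - y ^ 2 := by nlinarith
      have z4 : 1 - y ^ 2 ≤ 1 := by nlinarith
      rcases ha with rfl | rfl | rfl <;> rcases hb with rfl | rfl | rfl
      · constructor
        · have : (1 - y) * (1 - 0 * y) * (1 - 0 * y) * (1 - 0 * 0 * y) = 1 - y := by ring
          rw [this]; exact z1
        · have : (1 - y) * (1 - 0 * y) * (1 - 0 * y) * (1 - 0 * 0 * y) = 1 - y := by ring
          rw [this]; exact z2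
      · have : (1 - y) * (1 - 0 * y) * (1 - 1 * y) * (1 - 0 * 1 * y) = (1 - y) ^ 2 := by ring
        rw [this]
        exact ⟨by positivity, pow_le_one₀ z1.le z2⟩
      · have : (1 - y) * (1 - 0 * y) * (1 - -1 * y) * (1 - 0 * -1 * y) = 1 - y ^ 2 := by ring
        rw [this]
        exact ⟨z3, z4⟩
      · have : (1 - y) * (1 - 1 * y) * (1 - 0 * y) * (1 - 1 * 0 * y) = (1 - y) ^ 2 := by ring
        rw [this]
        exact ⟨by positivity, pow_le_one₀ z1.le z2⟩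
      · have : (1 - y) * (1 - 1 * y) * (1 - 1 * y) * (1 - 1 * 1 * y) = (1 - y) ^ 4 := by ring
        rw [this]
        exact ⟨by positivity, pow_le_one₀ z1.le z2⟩
      · have : (1 - y) * (1 - 1 * y) * (1 - -1 * y) * (1 - 1 * -1 * y) = (1 - y ^ 2) ^ 2 := by ring
        rw [this]
        exact ⟨by positivity, pow_le_one₀ z3.le z4⟩
      · have : (1 - y) * (1 - -1 * y) * (1 - 0 * y) * (1 - -1 * 0 * y) = 1 - y ^ 2 := by ring
        rw [this]
        exact ⟨z3, z4⟩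
      · have : (1 - y) * (1 - -1 * y) * (1 - 1 * y) * (1 - -1 * 1 * y) = (1 - y ^ 2) ^ 2 := by ring
        rw [this]
        exact ⟨by positivity, pow_le_one₀ z3.le z4⟩
      · have : (1 - y) * (1 - -1 * y) * (1 - -1 * y) * (1 - -1 * -1 * y) = (1 - y ^ 2) ^ 2 := by
          ring
        rw [this]
        exact ⟨by positivity, pow_le_one₀ z3.le z4⟩
    rw [abs_of_pos (inv_pos.2 hpos.1)]
    exact (one_le_inv₀ hpos.1).2 hpos.2
  have ra : ∃ a : ℝ, (a = 0 ∨ a = 1 ∨ a = -1) ∧ ch j p = (a : ℂ) := by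
    rcases ch_real h p with e | e | e
    · exact ⟨0, Or.inl rfl, by simp [e]⟩
    · exact ⟨1, Or.inr (Or.inl rfl), by simp [e]⟩
    · exact ⟨-1, Or.inr (Or.inr rfl), by simp [e]⟩
  have rb : ∃ b : ℝ, (b = 0 ∨ b = 1 ∨ b = -1) ∧ ch j' p = (b : ℂ) := by
    rcases ch_real h' p with e | e | e
    · exact ⟨0, Or.inl rfl, by simp [e]⟩
    · exact ⟨1, Or.inr (Or.inl rfl), by simp [e]⟩
    · exact ⟨-1, Or.inr (Or.inr rfl), by simp [e]⟩
  obtain ⟨a, ha, ea⟩ := ra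
  obtain ⟨b, hb, eb⟩ := rb
  rw [ea, eb]
  exact key a b ha hb

theorem prod_bound : ∃ C : ℝ, 0 < C ∧ ∀ Q : ℝ, 3 ≤ Q → ∀ j j' : PC, 2 ≤ j.1 → 2 ≤ j'.1 →
    (j.1 : ℝ) ≤ Q → (j'.1 : ℝ) ≤ Q → j.2.IsPrimitive → j'.2.IsPrimitive → j.2 ^ 2 = 1 →
    j'.2 ^ 2 = 1 → j ≠ j' → ∀ σ : ℝ, 1 < σ → σ ≤ 2 →
    ‖LSeries (fun n => ch j n * ch j' n) (σ : ℂ)‖ ≤ C * Real.log Q := by
  obtain ⟨C, hC, h0⟩ := Lder 0
  refine ⟨3 * C, by positivity, ?_⟩
  intro Q hQ j j' hj hj' hjQ hjQ' hp hp' hsq hsq' hne σ hσ hσ2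
  obtain ⟨q, χ⟩ := j
  obtain ⟨q', χ'⟩ := j'
  simp only at hj hj' hjQ hjQ' hp hp' hsq hsq'
  have : NeZero q := ⟨by omega⟩
  have : NeZero q' := ⟨by omega⟩
  have : NeZero (q * q') := ⟨Nat.mul_ne_zero (by omega) (by omega)⟩
  set ψ : DirichletCharacter ℂ (q * q') :=
    DirichletCharacter.changeLevel (dvd_mul_right q q') χ *
    DirichletCharacter.changeLevel (dvd_mul_left q' q) χ' with hψ
  have hval : (fun n => ch ⟨q, χ⟩ n * ch ⟨q', χ'⟩ n) = ch ⟨q * q', ψ⟩ := by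
    funext n
    unfold ch
    change χ (n : ZMod q) * χ' (n : ZMod q') = ψ (n : ZMod (q * q'))
    by_cases hn : Nat.Coprime n (q * q')
    · have hc : IsCoprime (n : ℤ) ((q * q' : ℕ) : ℤ) := Nat.isCoprime_iff_coprime.2 hn
      have e1 := DirichletCharacter.changeLevel_eq_cast_of_dvd' χ (dvd_mul_right q q') hc
      have e2 := DirichletCharacter.changeLevel_eq_cast_of_dvd' χ' (dvd_mul_left q' q) hc
      rw [hψ, MulChar.mul_apply]
      simp only [Int.cast_natCast] at e1 e2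
      rw [e1, e2]
    · have e0 : ψ (n : ZMod (q * q')) = 0 := by
        apply MulChar.map_nonunit
        rwa [ZMod.isUnit_iff_coprime]
      rw [e0]
      have : ¬ (Nat.Coprime n q ∧ Nat.Coprime n q') := fun hh => hn (Nat.Coprime.mul_right hh.1 hh.2)
      rw [not_and_or] at this
      rcases this with h1 | h1
      · have : χ (n : ZMod q) = 0 := by
          apply MulChar.map_nonunit
          rwa [ZMod.isUnit_iff_coprime]
        rw [this, zero_mul]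
      · have : χ' (n : ZMod q') = 0 := by
          apply MulChar.map_nonunit
          rwa [ZMod.isUnit_iff_coprime]
        rw [this, mul_zero]
  have hψ1 : ψ ≠ 1 := by
    intro hcon
    have e1 : DirichletCharacter.changeLevel (dvd_mul_left q' q) χ' *
        DirichletCharacter.changeLevel (dvd_mul_left q' q) χ' = 1 := by
      rw [← map_mul, ← sq, hsq', map_one]
    have e2 : DirichletCharacter.changeLevel (dvd_mul_right q q') χ =
        DirichletCharacter.changeLevel (dvd_mul_left q' q) χ' := by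
      have : DirichletCharacter.changeLevel (dvd_mul_right q q') χ *
          DirichletCharacter.changeLevel (dvd_mul_left q' q) χ' =
          DirichletCharacter.changeLevel (dvd_mul_left q' q) χ' *
          DirichletCharacter.changeLevel (dvd_mul_left q' q) χ' := by
        rw [e1, ← hψ, hcon]
      exact mul_right_cancel this
    have e3 : q = q' := by
      have c1 := DirichletCharacter.conductor_changeLevel (χ := χ) (dvd_mul_right q q')
      have c2 := DirichletCharacter.conductor_changeLevel (χ := χ') (dvd_mul_left q' q)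
      rw [e2, c2] at c1
      have d1 : χ.conductor = q := hp
      have d2 : χ'.conductor = q' := hp'
      rw [d1, d2] at c1
      exact c1.symm
    subst e3
    apply hne
    have e4 : χ = χ' := DirichletCharacter.changeLevel_injective (dvd_mul_right q q) e2
    rw [e4]
  rw [hval]
  have hq0 : (2 : ℝ) ≤ q := by exact_mod_cast hj
  have hq0' : (2 : ℝ) ≤ q' := by exact_mod_cast hj'
  have key := h0 ⟨q * q', ψ⟩ (by
    change 2 ≤ q * q'
    nlinarith) hψ1 (σ : ℂ) (by simpa using hσ) (by simpa using hσ2)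
  simp only [pow_zero, mul_one, zero_add, pow_one, Complex.ofReal_im] at key
  refine key.trans ?_
  have e5 : LL ((q * q' : ℕ) : ℝ) 0 ≤ 3 * Real.log Q := by
    unfold LL
    rw [abs_zero, zero_add]
    push_cast
    rw [Real.log_mul (by linarith) (by linarith)]
    have l1 : Real.log q ≤ Real.log Q := Real.log_le_log (by linarith) hjQ
    have l2 : Real.log q' ≤ Real.log Q := Real.log_le_log (by linarith) hjQ'
    have l3 : Real.log 3 ≤ Real.log Q := Real.log_le_log (by norm_num) hQ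
    linarith
  calc C * LL ((q * q' : ℕ) : ℝ) 0 ≤ C * (3 * Real.log Q) := mul_le_mul_of_nonneg_left e5 hC.le
    _ = 3 * C * Real.log Q := by ring

theorem one_le_log {Q : ℝ} (hQ : 3 ≤ Q) : 1 ≤ Real.log Q := by
  have h1 : Real.log (Real.exp 1) ≤ Real.log Q := by
    apply Real.log_le_log (Real.exp_pos _)
    have := Real.exp_one_lt_d9
    linarith
  rwa [Real.log_exp] at h1

theorem exc_small {C₁ : ℝ} (hC₁ : 0 < C₁) (hlip : ∀ j : PC, 2 ≤ j.1 → j.2 ≠ 1 → ∀ s s' : ℂ,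
    1 < s.re → s.re ≤ 2 → 1 < s'.re → s'.re ≤ 2 → ∀ τ : ℝ, |s.im| ≤ τ → |s'.im| ≤ τ →
    ‖LSeries (ch j) s - LSeries (ch j) s'‖ ≤ C₁ * LL j.1 τ ^ 2 * ‖s - s'‖)
    {δ Q : ℝ} (hδ : 0 < δ) (hδ2 : δ ≤ 1 / 2) (hQ : 3 ≤ Q) {j : PC} (hj : 2 ≤ j.1)
    (hjQ : (j.1 : ℝ) ≤ Q) (hj1 : j.2 ≠ 1) {σ : ℝ} (hσ : 1 < σ) (hσ2 : σ ≤ 2)
    (hs : ‖LSeries (ch j) (σ : ℂ)‖ < δ) :
    ‖LSeries (ch j) ((1 + 2 * δ : ℝ) : ℂ)‖ ≤ (1 + 8 * C₁) * δ * Real.log Q ^ 2 := by
  have hlog := one_le_log hQ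
  have h1 := L_inv (j := j) (s := (σ : ℂ)) (by simpa using hσ) (by simpa using hσ2)
  simp only [Complex.ofReal_re] at h1
  have h2 : σ - 1 < 2 * δ := by linarith
  have h3 := hlip j hj hj1 ((1 + 2 * δ : ℝ) : ℂ) (σ : ℂ) (by rw [Complex.ofReal_re]; linarith)
    (by rw [Complex.ofReal_re]; linarith) (by simpa using hσ) (by simpa using hσ2) 0 (by simp)
    (by simp)
  have h4 : ‖((1 + 2 * δ : ℝ) : ℂ) - (σ : ℂ)‖ ≤ 2 * δ := by
    rw [← Complex.ofReal_sub, Complex.norm_real, Real.norm_eq_abs, abs_le]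
    constructor <;> linarith
  have h5 : LL j.1 0 ≤ 2 * Real.log Q := by
    unfold LL
    rw [abs_zero, zero_add]
    have l1 : Real.log j.1 ≤ Real.log Q := Real.log_le_log (by positivity) hjQ
    have l3 : Real.log 3 ≤ Real.log Q := Real.log_le_log (by norm_num) hQ
    linarith
  have h6 : 0 ≤ LL j.1 0 := zero_le_one.trans (LL_ge_one hj _)
  have h7 : C₁ * LL j.1 0 ^ 2 * ‖((1 + 2 * δ : ℝ) : ℂ) - (σ : ℂ)‖ ≤
      C₁ * (2 * Real.log Q) ^ 2 * (2 * δ) := by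
    apply mul_le_mul _ h4 (norm_nonneg _) (by positivity)
    apply mul_le_mul_of_nonneg_left _ hC₁.le
    exact pow_le_pow_left₀ h6 h5 _
  have h8 : ‖LSeries (ch j) ((1 + 2 * δ : ℝ) : ℂ)‖ ≤ ‖LSeries (ch j) (σ : ℂ)‖ +
      ‖LSeries (ch j) ((1 + 2 * δ : ℝ) : ℂ) - LSeries (ch j) (σ : ℂ)‖ := by
    have := norm_add_le (LSeries (ch j) (σ : ℂ))
      (LSeries (ch j) ((1 + 2 * δ : ℝ) : ℂ) - LSeries (ch j) (σ : ℂ))
    rwa [add_sub_cancel] at this
  have h9 : (1 : ℝ) ≤ Real.log Q ^ 2 := one_le_pow₀ hlog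
  have h10 : δ ≤ δ * Real.log Q ^ 2 := le_mul_of_one_le_right hδ.le h9
  calc _ ≤ δ + C₁ * (2 * Real.log Q) ^ 2 * (2 * δ) := by linarith
    _ ≤ δ * Real.log Q ^ 2 + C₁ * (2 * Real.log Q) ^ 2 * (2 * δ) := by linarith
    _ = _ := by ring

theorem ne_one_of_prim {j : PC} (hj : 2 ≤ j.1) (hp : j.2.IsPrimitive) : j.2 ≠ 1 := by
  intro h
  have : NeZero j.1 := ⟨by omega⟩
  have h1 : j.2.conductor = 1 := DirichletCharacter.eq_one_iff_conductor_eq_one.1 h
  have h2 : j.2.conductor = j.1 := hp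
  omega

/-- At most one primitive character is exceptional. -/
theorem unique : ∃ κ : ℝ, 0 < κ ∧ ∀ Q : ℝ, 3 ≤ Q → ∀ j j' : PC, 2 ≤ j.1 → 2 ≤ j'.1 →
    (j.1 : ℝ) ≤ Q → (j'.1 : ℝ) ≤ Q → j.2.IsPrimitive → j'.2.IsPrimitive → Exc κ Q j →
    Exc κ Q j' → j = j' := by
  obtain ⟨C₁, hC₁, hlip⟩ := L_lip
  obtain ⟨C₂, hC₂, hpb⟩ := prod_bound
  set C₃ : ℝ := 1 + 8 * C₁ with hC₃
  have hC₃0 : 0 < C₃ := by positivity
  refine ⟨min (1 / 2) (1 / (2 * (C₃ ^ 2 * C₂))), lt_min (by norm_num) (by positivity), ?_⟩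
  set κ : ℝ := min (1 / 2) (1 / (2 * (C₃ ^ 2 * C₂))) with hκ
  have hκ0 : 0 < κ := lt_min (by norm_num) (by positivity)
  intro Q hQ j j' hj hj' hjQ hjQ' hp hp' hE hE'
  by_contra hne
  obtain ⟨hsq, σ₁, h11, h12, h13⟩ := hE
  obtain ⟨hsq', σ₂, h21, h22, h23⟩ := hE'
  have hlog := one_le_log hQ
  set δ : ℝ := κ / Real.log Q ^ 5 with hδ
  have hlog0 : 0 < Real.log Q := by linarith
  have hδ0 : 0 < δ := by positivity
  have hδ2 : δ ≤ 1 / 2 := by
    rw [hδ, div_le_iff₀ (by positivity)]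
    have a1 : κ ≤ 1 / 2 := min_le_left _ _
    have a2 : (1 : ℝ) ≤ Real.log Q ^ 5 := one_le_pow₀ hlog
    linarith
  have b1 := exc_small hC₁ hlip hδ0 hδ2 hQ hj hjQ (ne_one_of_prim hj hp) h11 h12 h13
  have b2 := exc_small hC₁ hlip hδ0 hδ2 hQ hj' hjQ' (ne_one_of_prim hj' hp') h21 h22 h23
  have hs1 : 1 < 1 + 2 * δ := by linarith
  have hs2 : 1 + 2 * δ ≤ 2 := by linarith
  have b3 := hpb Q hQ j j' hj hj' hjQ hjQ' hp hp' hsq hsq' hne (1 + 2 * δ) hs1 hs2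
  have b4 : ‖riemannZeta ((1 + 2 * δ : ℝ) : ℂ)‖ ≤ 1 / δ := by
    rw [← LSeries_one_eq_riemannZeta (by rw [Complex.ofReal_re]; exact hs1)]
    have := zeta_real (f := (1 : ℕ → ℂ)) (s := ((1 + 2 * δ : ℝ) : ℂ)) (fun n => by simp)
      (by rw [Complex.ofReal_re]; exact hs1) (by rw [Complex.ofReal_re]; exact hs2)
    rw [Complex.ofReal_re] at this
    refine this.trans (le_of_eq ?_)
    field_simp
    ring
  have b5 := four hsq hsq' hs1
  rw [norm_mul, norm_mul, norm_mul] at b5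
  have b6 : ‖riemannZeta ((1 + 2 * δ : ℝ) : ℂ)‖ * ‖LSeries (ch j) ((1 + 2 * δ : ℝ) : ℂ)‖ *
      ‖LSeries (ch j') ((1 + 2 * δ : ℝ) : ℂ)‖ *
      ‖LSeries (fun n => ch j n * ch j' n) ((1 + 2 * δ : ℝ) : ℂ)‖ ≤
      (1 / δ) * (C₃ * δ * Real.log Q ^ 2) * (C₃ * δ * Real.log Q ^ 2) * (C₂ * Real.log Q) := by
    apply mul_le_mul _ b3 (norm_nonneg _) (by positivity)
    apply mul_le_mul _ b2 (norm_nonneg _) (by positivity)
    exact mul_le_mul b4 b1 (norm_nonneg _) (by positivity)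
  have b7 : (1 / δ) * (C₃ * δ * Real.log Q ^ 2) * (C₃ * δ * Real.log Q ^ 2) * (C₂ * Real.log Q) =
      C₃ ^ 2 * C₂ * κ := by
    rw [hδ]
    field_simp
  have b8 : C₃ ^ 2 * C₂ * κ ≤ 1 / 2 := by
    have a1 : κ ≤ 1 / (2 * (C₃ ^ 2 * C₂)) := min_le_right _ _
    calc _ ≤ C₃ ^ 2 * C₂ * (1 / (2 * (C₃ ^ 2 * C₂))) :=
          mul_le_mul_of_nonneg_left a1 (by positivity)
      _ = 1 / 2 := by field_simp
  have : (1 : ℝ) ≤ 1 / 2 := by
    calc (1 : ℝ) ≤ _ := b5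
      _ ≤ _ := b6
      _ = _ := b7
      _ ≤ _ := b8
  norm_num at this

/-- A positive lower bound for one character. -/
theorem min_one {q : ℕ} [NeZero q] {χ : DirichletCharacter ℂ q} (hχ : χ ≠ 1) :
    ∃ m : ℝ, 0 < m ∧ ∀ σ : ℝ, 1 < σ → σ ≤ 2 → m ≤ ‖LSeries (ch ⟨q, χ⟩) (σ : ℂ)‖ := by
  have hcont : ContinuousOn (fun σ : ℝ => ‖DirichletCharacter.LFunction χ (σ : ℂ)‖)
      (Set.Icc 1 2) := by
    apply Continuous.continuousOn
    exact ((DirichletCharacter.differentiable_LFunction hχ).continuous.comp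
      Complex.continuous_ofReal).norm
  obtain ⟨σ₀, hσ₀, hmin⟩ := isCompact_Icc.exists_isMinOn (Set.nonempty_Icc.2 (by norm_num)) hcont
  refine ⟨‖DirichletCharacter.LFunction χ (σ₀ : ℂ)‖, ?_, ?_⟩
  · rw [norm_pos_iff]
    exact DirichletCharacter.LFunction_ne_zero_of_one_le_re χ (Or.inl hχ)
      (by simpa using hσ₀.1)
  · intro σ h1 h2
    have h3 := hmin (show σ ∈ Set.Icc (1 : ℝ) 2 from ⟨h1.le, h2⟩)
    have h4 : LSeries (ch ⟨q, χ⟩) (σ : ℂ) = DirichletCharacter.LFunction χ (σ : ℂ) :=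
      (DirichletCharacter.LFunction_eq_LSeries χ (by simpa using h1)).symm
    rw [h4]
    exact h3

theorem min_all (K : ℕ) : ∃ m : ℝ, 0 < m ∧ ∀ j : PC, 1 ≤ j.1 → j.1 ≤ K → j.2 ≠ 1 →
    ∀ σ : ℝ, 1 < σ → σ ≤ 2 → m ≤ ‖LSeries (ch j) (σ : ℂ)‖ := by
  classical
  induction K with
  | zero => exact ⟨1, one_pos, fun j h1 h2 => by omega⟩
  | succ K ih =>
    obtain ⟨m, hm, h⟩ := ih
    have : NeZero (K + 1) := ⟨by omega⟩
    have h' : ∀ χ : DirichletCharacter ℂ (K + 1), ∃ m' : ℝ, 0 < m' ∧ (χ ≠ 1 →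
        ∀ σ : ℝ, 1 < σ → σ ≤ 2 → m' ≤ ‖LSeries (ch ⟨K + 1, χ⟩) (σ : ℂ)‖) := by
      intro χ
      by_cases hχ : χ = 1
      · exact ⟨1, one_pos, fun hh => absurd hχ hh⟩
      · obtain ⟨m', h1, h2⟩ := min_one hχ
        exact ⟨m', h1, fun _ => h2⟩
    choose f hf0 hf using h'
    obtain ⟨χ₀, hχ₀⟩ := Finite.exists_min f
    refine ⟨min m (f χ₀), lt_min hm (hf0 χ₀), ?_⟩
    intro j h1 h2 h3 σ h4 h5
    rcases Nat.lt_or_ge K j.1 with h6 | h6
    · obtain ⟨q, χ⟩ := j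
      have h7 : q = K + 1 := by
        simp only at h2 h6
        omega
      subst h7
      exact (min_le_right _ _).trans ((hχ₀ χ).trans (hf χ h3 σ h4 h5))
    · exact (min_le_left _ _).trans (h j h1 h6 h3 σ h4 h5)

/-- Fixed characters are not exceptional for large `Q`. -/
theorem fixed (κ : ℝ) (K : ℕ) : ∃ Q₀ : ℝ, ∀ Q : ℝ, Q₀ ≤ Q → ∀ j : PC, 1 ≤ j.1 → j.1 ≤ K →
    j.2 ≠ 1 → ¬ Exc κ Q j := by
  obtain ⟨m, hm, h⟩ := min_all K
  refine ⟨Real.exp (|κ| / m + 1), ?_⟩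
  intro Q hQ j h1 h2 h3 hE
  obtain ⟨_, σ, h4, h5, h6⟩ := hE
  have h7 := h j h1 h2 h3 σ h4 h5
  have h8 : |κ| / m + 1 ≤ Real.log Q := by
    have := Real.log_le_log (Real.exp_pos _) hQ
    rwa [Real.log_exp] at this
  have h9 : 0 ≤ |κ| / m := by positivity
  have h10 : 1 ≤ Real.log Q := by linarith
  have h11 : Real.log Q ≤ Real.log Q ^ 5 := le_self_pow₀ h10 (by norm_num)
  have h12 : κ / Real.log Q ^ 5 ≤ m := by
    rw [div_le_iff₀ (by positivity)]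
    have h13 : |κ| / m ≤ Real.log Q ^ 5 := by linarith
    rw [div_le_iff₀ hm] at h13
    have := le_abs_self κ
    linarith
  linarith

end PGB
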