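import Pool.Agent.PGB.Ssml
import Pool.Agent.PGB.Suni

/-!
# Project PGB, Exk: the exceptional modulus has a large prime factor

PROOF.  Let `j` be exceptional at `QN N`, primitive, modulus squarefree and `≥ 2`, and suppose all its
prime factors are `≤ K`.  Then `j.1 ∣ K!` (product of distinct primes `≤ K`), so `j.1 ≤ K!`, and
`j.2 ≠ 1` (`DirichletCharacter.conductor_one`), a contradiction to `fixed κ (K!)` if
`QN N ≥ Q₀`; `QN N → ∞`.
-/

set_option autoImplicit false

open Finset Filter

namespace PGB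

private theorem QN_tendsto_22 : Tendsto QN atTop atTop := by
  unfold QN
  refine Real.tendsto_exp_atTop.comp ?_
  exact (tendsto_rpow_atTop (by norm_num : (0 : ℝ) < 1 / 100)).comp
    (Real.tendsto_log_atTop.comp tendsto_natCast_atTop_atTop)

theorem exc_prime (κ : ℝ) (K : ℕ) : ∀ᶠ N : ℕ in atTop, ∀ j : PC, 2 ≤ j.1 → Squarefree j.1 →
    j.2.IsPrimitive → Exc κ (QN N) j → ∃ p : ℕ, p.Prime ∧ K < p ∧ p ∣ j.1 := by
  obtain ⟨Q₀, hQ₀⟩ := fixed κ (Nat.factorial K)
  filter_upwards [QN_tendsto_22.eventually_ge_atTop Q₀] with N hN j hj hsq hprim hexc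
  by_contra hcon
  push Not at hcon
  have hle : ∀ p ∈ j.1.primeFactors, p ≤ K := by
    intro p hp
    by_contra hp1
    exact hcon p (Nat.prime_of_mem_primeFactors hp) (by omega) (Nat.dvd_of_mem_primeFactors hp)
  have hdvd : j.1 ∣ Nat.factorial K := by
    rw [← Nat.prod_primeFactors_of_squarefree hsq]
    refine Finset.prod_primes_dvd _ (fun p hp => (Nat.prime_of_mem_primeFactors hp).prime)
      (fun p hp => ?_)
    exact Nat.dvd_factorial (Nat.prime_of_mem_primeFactors hp).pos (hle p hp)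
  have hK : j.1 ≤ Nat.factorial K := Nat.le_of_dvd (Nat.factorial_pos K) hdvd
  refine hQ₀ (QN N) hN j (by omega) hK ?_ hexc
  intro h1
  have h2 : j.2.conductor = j.1 := hprim
  haveI : NeZero j.1 := ⟨by omega⟩
  rw [h1, DirichletCharacter.conductor_one] at h2
  omega

end PGB
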