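import Mathlib

/-!
# Project PGB, Hit: a sparse hitting set

PROOF.  Weights on the subsets `D ⊆ G`: `w(D) = θ^|D| (1-θ)^(|G|-|D|)`, `∑_D w(D) = 1`
(`Finset.sum_pow_mul_eq_add_pow` or `Finset.prod_add`).  For `S ⊆ G` with `|S| ≥ m`:
`∑_{D ∩ S = ∅} w(D) = (1-θ)^|S| ≤ (1-θ)^m` (the sets `D ⊆ G \ S`).  And
`∑_D w(D) c(D) = θ c(G)`, `c(D) = ∑_{p ∈ D} c p` (exchange: `∑_{D ∋ p} w(D) = θ`).  Hence the total
weight of the `D` which miss some `S ∈ 𝓕` is at most `|𝓕| (1-θ)^m < 1/2`, and the total weight of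
the `D` with `c(D) > 2 θ c(G)` is at most `1/2` (Markov; if `c(G) = 0` then `c(D) = 0` for all `D`).
So some `D` is in neither set.
ALTERNATIVE (derandomised): induction over `G` with the potential
`∑_{S not yet hit} (1-θ)^{|S ∩ rest|} + (cost so far + θ cost of the rest)/(2 θ c(G))`.
-/

set_option autoImplicit false

open Finset

namespace PGB

private noncomputable def wt (G : Finset ℕ) (θ : ℝ) (D : Finset ℕ) : ℝ :=
  θ ^ D.card * (1 - θ) ^ (G.card - D.card)

private theorem wt_sum (G : Finset ℕ) (θ : ℝ) : ∑ D ∈ G.powerset, wt G θ D = 1 := by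
  unfold wt
  rw [Finset.sum_pow_mul_eq_add_pow]
  norm_num

private theorem wt_disj {G S : Finset ℕ} (θ : ℝ) (hS : S ⊆ G) :
    ∑ D ∈ G.powerset.filter (fun D => D ∩ S = ∅), wt G θ D = (1 - θ) ^ S.card := by
  have h : G.powerset.filter (fun D => D ∩ S = ∅) = (G \ S).powerset := by
    ext D
    rw [mem_filter, mem_powerset, mem_powerset, subset_sdiff, disjoint_iff_inter_eq_empty]
  rw [h]
  have h2 : (G \ S).card + S.card = G.card := card_sdiff_add_card_eq_card hS
  have h3 : ∀ D ∈ (G \ S).powerset, wt G θ D =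
      (θ ^ D.card * (1 - θ) ^ ((G \ S).card - D.card)) * (1 - θ) ^ S.card := by
    intro D hD
    have h1 := card_le_card (mem_powerset.1 hD)
    have h4 : G.card - D.card = ((G \ S).card - D.card) + S.card := by omega
    unfold wt
    rw [h4, pow_add, mul_assoc]
  rw [sum_congr rfl h3, ← sum_mul, Finset.sum_pow_mul_eq_add_pow]
  norm_num

private theorem wt_mem {G : Finset ℕ} (θ : ℝ) {p : ℕ} (hp : p ∈ G) :
    ∑ D ∈ G.powerset, (if p ∈ D then wt G θ D else 0) = θ := by
  have h1 := wt_disj θ (singleton_subset_iff.2 hp)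
  rw [card_singleton, pow_one] at h1
  have h2 : ∑ D ∈ G.powerset, (if p ∈ D then wt G θ D else 0) +
      ∑ D ∈ G.powerset, (if p ∈ D then 0 else wt G θ D) = 1 := by
    rw [← sum_add_distrib, ← wt_sum G θ]
    refine sum_congr rfl fun D _ => ?_
    split_ifs
    · exact add_zero _
    · exact zero_add _
  have h3 : ∑ D ∈ G.powerset, (if p ∈ D then 0 else wt G θ D) = 1 - θ := by
    rw [← h1, sum_filter]
    refine sum_congr rfl fun D _ => ?_
    by_cases h : p ∈ D
    · rw [if_pos h, if_neg]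
      intro h5
      have : p ∈ D ∩ {p} := mem_inter.2 ⟨h, mem_singleton_self p⟩
      rw [h5] at this
      exact notMem_empty p this
    · rw [if_neg h, if_pos]
      rw [← disjoint_iff_inter_eq_empty, disjoint_singleton_right]
      exact h
  linarith

theorem hit {G : Finset ℕ} {F : Finset (Finset ℕ)} {m : ℕ} {θ : ℝ} (h0 : 0 < θ) (h1 : θ < 1)
    (hF : ∀ S ∈ F, S ⊆ G ∧ m ≤ S.card) (hm : (F.card : ℝ) * (1 - θ) ^ m < 1 / 2) (c : ℕ → ℝ)
    (hc : ∀ p ∈ G, 0 ≤ c p) :
    ∃ D ⊆ G, (∀ S ∈ F, (D ∩ S).Nonempty) ∧ ∑ p ∈ D, c p ≤ 2 * θ * ∑ p ∈ G, c p := by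
  by_contra hcon
  push Not at hcon
  have hw : ∀ D, 0 ≤ wt G θ D := fun D =>
    mul_nonneg (pow_nonneg h0.le _) (pow_nonneg (by linarith) _)
  set C : ℝ := ∑ p ∈ G, c p with hC
  have hC0 : 0 ≤ C := sum_nonneg hc
  -- the expected cost
  have hcost : ∑ D ∈ G.powerset, wt G θ D * ∑ p ∈ D, c p = θ * C := by
    have e1 : ∀ D ∈ G.powerset, wt G θ D * ∑ p ∈ D, c p =
        ∑ p ∈ G, c p * (if p ∈ D then wt G θ D else 0) := by
      intro D hD
      rw [mul_sum, ← sum_subset (mem_powerset.1 hD)]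
      · refine sum_congr rfl fun p hp => ?_
        rw [if_pos hp, mul_comm]
      · intro p _ hp
        rw [if_neg hp, mul_zero]
    rw [sum_congr rfl e1, sum_comm, hC, mul_sum]
    refine sum_congr rfl fun p hp => ?_
    rw [← mul_sum, wt_mem θ hp, mul_comm]
  -- the expected number of missed sets
  have hmiss : ∑ D ∈ G.powerset, wt G θ D * ((F.filter fun S => D ∩ S = ∅).card : ℝ) < 1 / 2 := by
    have e1 : ∀ D ∈ G.powerset, wt G θ D * ((F.filter fun S => D ∩ S = ∅).card : ℝ) =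
        ∑ S ∈ F, (if D ∩ S = ∅ then wt G θ D else 0) := by
      intro D _
      rw [card_filter, Nat.cast_sum, mul_sum]
      refine sum_congr rfl fun S _ => ?_
      split_ifs
      · rw [Nat.cast_one, mul_one]
      · rw [Nat.cast_zero, mul_zero]
    rw [sum_congr rfl e1, sum_comm]
    have e2 : ∀ S ∈ F, ∑ D ∈ G.powerset, (if D ∩ S = ∅ then wt G θ D else 0) ≤ (1 - θ) ^ m := by
      intro S hS
      rw [← sum_filter, wt_disj θ (hF S hS).1]
      exact pow_le_pow_of_le_one (by linarith) (by linarith) (hF S hS).2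
    refine lt_of_le_of_lt (sum_le_card_nsmul _ _ _ e2) ?_
    rw [nsmul_eq_mul]
    exact hm
  -- every set misses some member of the family or is expensive
  have hall : ∀ D ∈ G.powerset, wt G θ D ≤
      wt G θ D * ((F.filter fun S => D ∩ S = ∅).card : ℝ) +
        wt G θ D * (∑ p ∈ D, c p) / (2 * θ * C) := by
    intro D hD
    have hDG := mem_powerset.1 hD
    have hcD : 0 ≤ ∑ p ∈ D, c p := sum_nonneg fun p hp => hc p (hDG hp)
    have hcl : ∑ p ∈ D, c p ≤ C := sum_le_sum_of_subset_of_nonneg hDG fun p hp _ => hc p hp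
    by_cases hh : ∀ S ∈ F, (D ∩ S).Nonempty
    · have h2 := hcon D hDG hh
      have hCp : 0 < C := by
        rcases hC0.eq_or_lt with h | h
        · rw [← h] at h2 hcl
          rw [mul_zero] at h2
          linarith
        · exact h
      have h3 : 0 < 2 * θ * C := by positivity
      have h4 : 1 ≤ (∑ p ∈ D, c p) / (2 * θ * C) := (one_le_div h3).2 h2.le
      have h5 : wt G θ D ≤ wt G θ D * (∑ p ∈ D, c p) / (2 * θ * C) := by
        rw [mul_div_assoc]
        exact le_mul_of_one_le_right (hw D) h4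
      have h6 : 0 ≤ wt G θ D * ((F.filter fun S => D ∩ S = ∅).card : ℝ) :=
        mul_nonneg (hw D) (Nat.cast_nonneg _)
      linarith
    · push Not at hh
      obtain ⟨S, hS, hSD⟩ := hh
      have h7 : 1 ≤ (F.filter fun S => D ∩ S = ∅).card :=
        card_pos.2 ⟨S, mem_filter.2 ⟨hS, hSD⟩⟩
      have h8 : (1 : ℝ) ≤ ((F.filter fun S => D ∩ S = ∅).card : ℝ) := by exact_mod_cast h7
      have h9 : wt G θ D ≤ wt G θ D * ((F.filter fun S => D ∩ S = ∅).card : ℝ) :=
        le_mul_of_one_le_right (hw D) h8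
      have h10 : 0 ≤ wt G θ D * (∑ p ∈ D, c p) / (2 * θ * C) :=
        div_nonneg (mul_nonneg (hw D) hcD) (by positivity)
      linarith
  have hsum := sum_le_sum hall
  rw [wt_sum, sum_add_distrib, ← sum_div, hcost] at hsum
  have hhalf : θ * C / (2 * θ * C) ≤ 1 / 2 := by
    rcases hC0.eq_or_lt with h | h
    · rw [← h]
      norm_num
    · rw [div_le_div_iff₀ (by positivity) (by norm_num)]
      linarith
  linarith

end PGB
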