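import Pool.Agent.PGB.Pcb
import Pool.Agent.PGB.Lsv
import Pool.Agent.PGB.Sep

/-!
# Project PGB, T2: bilinear sums

PROOF.  `G = GS univ = A * B`, `A = pc z (e i₀) (c i₀) = GS {i₀}`, `B = GS (univ.erase i₀)`
(`Finset.mul_prod_erase`), with supports `P_A = 2^(e i₀ + 1)`, `P_B = 2 ^ ∑_{i ≠ i₀} (e i + 1)`
(`GS_supp`), product `P = 2 ^ ∑ (e i + 1)`.  `ws y Δ G (10 N) j = ws y Δ G P j` (`ws_congr`:
`GS_supp`, `wt_eq_zero'`).  `ws_eq` (`y ≥ N/3 ≥ 3`), `Ls_mul`:
`‖ws‖ ≤ ∫ ‖ker‖ ‖Ls A‖ ‖Ls B‖` (`norm_integral_le_integral_norm`).  Sum over `F`, exchange the finite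
sum and the integral (`integral_finset_sum`, `mul_int`), `ls_cauchy` for each `t`
(`(pt y t).re = 1 / log y ≥ 0`) and `ker_l1`:
total `≤ (10 log y / Δ) √((X^2 + 4π(P_A + 1)) nsq A) √((X^2 + 4π(P_B + 1)) nsq B)`, with
`nsq A ≤ P_A (log N)^C'`, `nsq B ≤ P_B (log N)^C'` (`GS_size` for `S = {i₀}` and `univ.erase i₀`; the
partial sums of the `e i` are at most the full one).  `√(X^2 + 4π(P_A + 1)) ≤ X + 6 √P_A`,
`P_A = 2 * 2^(e i₀)`, `P_B = 32 * 2^(∑_{i ≠ i₀} e i)`, `log y ≤ 2 log N`; constants and logarithms are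
at most `(log N)^C` with `C = C' + 3`.
-/

set_option autoImplicit false

open Finset Filter

namespace PGB

private theorem ws_int2 {N : ℕ} (hN : 9 ≤ N) {y Δ X : ℝ} {F : Finset PC} (h : Ctx N y Δ X F)
    (z : ℕ) (e : Fin 6 → ℕ) (c : Fin 6 → Fin 4) (j : PC) :
    ws y Δ (GS z e c univ) (10 * N) j =
      ∫ t, ker y Δ t * Ls (GS z e c univ) j (pt y t) := by
  obtain ⟨h1, h2, h3, h4, h5, h6⟩ := h
  have hN' : (9 : ℝ) ≤ N := by exact_mod_cast hN
  have hy : 3 ≤ y := by linarith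
  rw [← ws_eq hy h3 h4 (GS_supp z e c univ) j]
  refine ws_congr j fun n hn => ?_
  rcases min_lt_iff.1 hn with hn | hn
  · rw [wt_eq_zero' (by linarith) h3 h4 (n := n) ?_]
    · simp
    · have : ((10 * N : ℕ) : ℝ) < n := by exact_mod_cast hn
      push_cast at this
      linarith
  · rw [GS_supp z e c univ n (Or.inr hn)]
    simp

/-- The elementary inequality for one factor. -/
private theorem fac2 {X a P n l k : ℝ} (hX : 1 ≤ X) (ha : 1 ≤ a) (hP0 : 0 ≤ P)
    (hP : P ≤ k * a) (hl : 0 ≤ l)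
    (hk : 1 ≤ k) (hn : n ≤ P * l ^ 2) (hn0 : 0 ≤ n) :
    √((X ^ 2 + 4 * Real.pi * (P + 1)) * n) ≤ 6 * k * ((X + √a) * √a * l) := by
  have hsa : 0 ≤ √a := Real.sqrt_nonneg a
  have hsq : √a ^ 2 = a := Real.sq_sqrt (by linarith)
  have hpi := Real.pi_lt_d2
  have hpi0 := Real.pi_pos
  rw [Real.sqrt_le_iff]
  constructor
  · positivity
  · have hka : 1 ≤ k * a := by nlinarith
    have h1 : X ^ 2 + 4 * Real.pi * (P + 1) ≤ 36 * k * (X + √a) ^ 2 := by
      have h2 : 4 * Real.pi * (P + 1) ≤ 4 * 3.15 * (k * a + k * a) := by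
        apply mul_le_mul
        · linarith
        · linarith
        · linarith
        · norm_num
      have h3 : (X + √a) ^ 2 = X ^ 2 + 2 * X * √a + a := by
        rw [add_sq, hsq]
      have h4 : 0 ≤ X * √a := by positivity
      have h5 : X ^ 2 ≤ k * X ^ 2 := by nlinarith [sq_nonneg X]
      rw [h3]
      nlinarith
    have h6 : n ≤ k * a * l ^ 2 := by
      refine le_trans hn ?_
      exact mul_le_mul_of_nonneg_right hP (sq_nonneg l)
    calc (X ^ 2 + 4 * Real.pi * (P + 1)) * n ≤ (36 * k * (X + √a) ^ 2) * (k * a * l ^ 2) := by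
          apply mul_le_mul h1 h6 hn0
          positivity
      _ = (6 * k * ((X + √a) * √a * l)) ^ 2 := by
          rw [mul_pow, mul_pow, mul_pow, mul_pow, hsq]
          ring

theorem t2 : ∃ C : ℝ, 0 ≤ C ∧ ∀ᶠ N : ℕ in atTop, ∀ (y Δ X : ℝ) (F : Finset PC),
    Ctx N y Δ X F → ∀ (z : ℕ) (e : Fin 6 → ℕ) (c : Fin 6 → Fin 4), 2 ^ ∑ i, e i ≤ 10 * N →
    ∀ i₀ : Fin 6,
    ∑ j ∈ F, ‖ws y Δ (GS z e c univ) (10 * N) j‖ ≤
      Real.log N ^ C / Δ * ((X + √(2 ^ e i₀)) * (X + √(2 ^ ∑ i ∈ univ.erase i₀, e i)) *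
        √(2 ^ ∑ i, e i)) := by
  classical
  obtain ⟨C', hC', hsize⟩ := GS_size
  refine ⟨C' + 3, by linarith, ?_⟩
  have hlog : ∀ᶠ N : ℕ in atTop, (300 : ℝ) ≤ Real.log N :=
    (Real.tendsto_log_atTop.comp tendsto_natCast_atTop_atTop).eventually_ge_atTop 300
  filter_upwards [hsize, hlog, eventually_ge_atTop 9] with N hs hL hN
  intro y Δ X F hctx z e c hE i₀
  have hctx' := hctx
  obtain ⟨h1, h2, h3, h4, h5, h6⟩ := hctx
  have hN' : (9 : ℝ) ≤ N := by exact_mod_cast hN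
  have hy : 3 ≤ y := by linarith
  have hlogy : Real.log y ≤ 2 * Real.log N := by
    have e1 : Real.log y ≤ Real.log ((N : ℝ) ^ 2) := by
      apply Real.log_le_log (by linarith)
      nlinarith
    rw [Real.log_pow] at e1
    exact_mod_cast e1
  set L := Real.log N with hLdef
  have hL0 : 0 < L := by linarith
  -- the two factors
  have hsum : ∑ i, e i = e i₀ + ∑ i ∈ univ.erase i₀, e i :=
    (Finset.add_sum_erase univ e (mem_univ i₀)).symm
  have hG : GS z e c univ = GS z e c {i₀} * GS z e c (univ.erase i₀) := by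
    unfold GS
    rw [Finset.prod_singleton]
    exact (Finset.mul_prod_erase univ (fun i => pc z (e i) (c i)) (mem_univ i₀)).symm
  have hA := GS_supp z e c {i₀}
  have hB := GS_supp z e c (univ.erase i₀)
  have hsA := (hs z e c {i₀} (by
    rw [Finset.sum_singleton]
    refine le_trans (Nat.pow_le_pow_right (by norm_num) ?_) hE
    omega)).1
  have hsB := (hs z e c (univ.erase i₀) (by
    refine le_trans (Nat.pow_le_pow_right (by norm_num) ?_) hE
    omega)).1
  set PA : ℕ := 2 ^ ∑ i ∈ {i₀}, (e i + 1) with hPA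
  set PB : ℕ := 2 ^ ∑ i ∈ univ.erase i₀, (e i + 1) with hPB
  set a : ℝ := 2 ^ e i₀ with ha
  set b : ℝ := 2 ^ ∑ i ∈ univ.erase i₀, e i with hb
  have ha1 : 1 ≤ a := one_le_pow₀ (by norm_num)
  have hb1 : 1 ≤ b := one_le_pow₀ (by norm_num)
  have hPAa : (PA : ℝ) = 2 * a := by
    rw [hPA, Finset.sum_singleton]
    push_cast
    rw [pow_succ]
    ring
  have hPBb : (PB : ℝ) = 32 * b := by
    rw [hPB, Finset.sum_add_distrib, Finset.sum_const, Finset.card_erase_of_mem (mem_univ i₀)]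
    simp only [Finset.card_univ, Fintype.card_fin, smul_eq_mul, mul_one]
    push_cast
    rw [pow_add]
    norm_num
    ring
  set l : ℝ := √(L ^ C') with hl
  have hLC : 0 ≤ L ^ C' := (Real.rpow_pos_of_pos hL0 _).le
  have hlsq : l ^ 2 = L ^ C' := Real.sq_sqrt hLC
  have hl0 : 0 ≤ l := Real.sqrt_nonneg _
  have hnA0 : 0 ≤ nsq (GS z e c {i₀}) PA := by unfold nsq; positivity
  have hnB0 : 0 ≤ nsq (GS z e c (univ.erase i₀)) PB := by unfold nsq; positivity
  have kA : √((X ^ 2 + 4 * Real.pi * (PA + 1)) * nsq (GS z e c {i₀}) PA) ≤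
      6 * 2 * ((X + √a) * √a * l) := by
    apply fac2 h5 ha1 (by positivity) hPAa.le hl0 (by norm_num) ?_ hnA0
    rw [hlsq, hPAa]
    have : (2 : ℝ) ^ (∑ i ∈ {i₀}, (e i + 1)) = 2 * a := by
      rw [← hPAa, hPA]
      push_cast
      rfl
    rw [this] at hsA
    exact hsA
  have kB : √((X ^ 2 + 4 * Real.pi * (PB + 1)) * nsq (GS z e c (univ.erase i₀)) PB) ≤
      6 * 32 * ((X + √b) * √b * l) := by
    apply fac2 h5 hb1 (by positivity) hPBb.le hl0 (by norm_num) ?_ hnB0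
    rw [hlsq, hPBb]
    have : (2 : ℝ) ^ (∑ i ∈ univ.erase i₀, (e i + 1)) = 32 * b := by
      rw [← hPBb, hPB]
      push_cast
      rfl
    rw [this] at hsB
    exact hsB
  set K : ℝ := √((X ^ 2 + 4 * Real.pi * (PA + 1)) * nsq (GS z e c {i₀}) PA) *
    √((X ^ 2 + 4 * Real.pi * (PB + 1)) * nsq (GS z e c (univ.erase i₀)) PB) with hK
  have hK0 : 0 ≤ K := by positivity
  -- the integral bound
  have hint : ∀ j : PC, MeasureTheory.Integrable
      fun t => ‖ker y Δ t * Ls (GS z e c univ) j (pt y t)‖ := fun j =>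
    (mul_int hy h3 h4 (GS_supp z e c univ) j).norm
  have hre : ∀ t : ℝ, 0 ≤ (pt y t).re := by
    intro t
    rw [pt_re]
    have : 0 ≤ Real.log y := Real.log_nonneg (by linarith)
    positivity
  have main : ∑ j ∈ F, ‖ws y Δ (GS z e c univ) (10 * N) j‖ ≤ K * (10 * Real.log y / Δ) := by
    calc ∑ j ∈ F, ‖ws y Δ (GS z e c univ) (10 * N) j‖
        ≤ ∑ j ∈ F, ∫ t, ‖ker y Δ t * Ls (GS z e c univ) j (pt y t)‖ := by
          refine sum_le_sum fun j _ => ?_
          rw [ws_int2 hN hctx' z e c j]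
          exact MeasureTheory.norm_integral_le_integral_norm _
      _ = ∫ t, ∑ j ∈ F, ‖ker y Δ t * Ls (GS z e c univ) j (pt y t)‖ := by
          rw [MeasureTheory.integral_finsetSum]
          exact fun j _ => hint j
      _ ≤ ∫ t, K * ‖ker y Δ t‖ := by
          apply MeasureTheory.integral_mono
          · exact MeasureTheory.integrable_finsetSum F fun j _ => hint j
          · exact (ker_int hy h3 h4).norm.const_mul K
          · intro t
            show ∑ j ∈ F, ‖ker y Δ t * Ls (GS z e c univ) j (pt y t)‖ ≤ K * ‖ker y Δ t‖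
            have e1 : ∀ j : PC, ‖ker y Δ t * Ls (GS z e c univ) j (pt y t)‖ =
                ‖ker y Δ t‖ * (‖Ls (GS z e c {i₀}) j (pt y t)‖ *
                  ‖Ls (GS z e c (univ.erase i₀)) j (pt y t)‖) := by
              intro j
              rw [norm_mul, hG, Ls_mul hA hB, norm_mul]
            simp only [e1]
            rw [← Finset.mul_sum, mul_comm K]
            exact mul_le_mul_of_nonneg_left (ls_cauchy h5 h6 hA hB (hre t)) (norm_nonneg _)
      _ = K * ∫ t, ‖ker y Δ t‖ := MeasureTheory.integral_const_mul _ _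
      _ ≤ K * (10 * Real.log y / Δ) := mul_le_mul_of_nonneg_left (ker_l1 hy h3 h4) hK0
  refine le_trans main ?_
  have hroot : √(2 ^ ∑ i, e i) = √a * √b := by
    rw [hsum, pow_add, Real.sqrt_mul (by positivity)]
  have hrp : L ^ (C' + 3) = L ^ C' * L ^ 3 := by
    rw [Real.rpow_add hL0]
    norm_num
  rw [hroot, hrp, ← hlsq]
  set M : ℝ := (X + √a) * (X + √b) * (√a * √b) with hM
  have hM0 : 0 ≤ M := by positivity
  have hKM : K ≤ 2304 * (l ^ 2 * M) := by
    calc K ≤ (6 * 2 * ((X + √a) * √a * l)) * (6 * 32 * ((X + √b) * √b * l)) :=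
          mul_le_mul kA kB (Real.sqrt_nonneg _) (by positivity)
      _ = 2304 * (l ^ 2 * M) := by rw [hM]; ring
  have hly : 10 * Real.log y / Δ ≤ 20 * L / Δ := by
    apply div_le_div_of_nonneg_right _ h3.le
    linarith
  calc K * (10 * Real.log y / Δ) ≤ (2304 * (l ^ 2 * M)) * (20 * L / Δ) := by
        apply mul_le_mul hKM hly
        · have : 0 ≤ Real.log y := Real.log_nonneg (by linarith)
          positivity
        · positivity
    _ = (46080 * L) * (l ^ 2 * M / Δ) := by ring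
    _ ≤ (L ^ 3) * (l ^ 2 * M / Δ) := by
        apply mul_le_mul_of_nonneg_right _ (by positivity)
        have hL2 : 46080 ≤ L ^ 2 := by nlinarith
        calc 46080 * L ≤ L ^ 2 * L := mul_le_mul_of_nonneg_right hL2 hL0.le
          _ = L ^ 3 := by ring
    _ = l ^ 2 * L ^ 3 / Δ * M := by ring

end PGB
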