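import Pool.Agent.PGB.Dec
import Pool.Agent.PGB.T0
import Pool.Agent.PGB.T1
import Pool.Agent.PGB.T2

/-!
# Project PGB, Lrg: the mean value theorem for all primitive characters to moduli `≤ X`

PROOF.  Take `z` from `dec`, `C` the maximum of the constants of `t0`, `t1`, `t2`.  The number of
terms of `dec` is `3 (Nat.log 2 (10 N) + 1)^6 ≤ (log N)^7` for large `N` (after the factor `3`:
`(log N)^8`).  Let `(k, e)` be one term, `c = pat k`, `E = 2 ^ ∑ e i` (real).  If `E > 10 N` it is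
`0` (`ws_zero_big`).  So let `E ≤ 10 N`; recall `X ≤ N^(1/2 - δ/2)`, `δ ≤ 1/2`, so
`1 - δ/8 ≥ 0.9375`.  Claim: `∑_{j ∈ F} ‖ws‖ ≤ (log N)^(C+1) / Δ * (N + X N^(1-δ/8))`.
(a) `E ≤ N^0.9`: `t0`: `X^2 √E + X E ≤ X N^(1/2) N^0.45 ... + X N^0.9 ≤ 2 X N^(1-δ/8)`
    (`X √E ≤ N^(1/2 - δ/2 + 0.45) ≤ N^(0.95 - δ/2) ≤ N^(1 - δ/8)`); `1 ≤ 1 / Δ`.
(b) `E > N^0.9`; take `i₀` from `exists_max`, `B := 2^(e i₀) ≥ E^(1/6) ≥ N^0.15`, and
    `M := 2 ^ ∑_{i ≠ i₀} e i = E / B` (`Finset.add_sum_erase`).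
 (b1) `B ≤ N^(1-δ/2)`: `t2`: `(X + √B)(X + √M)√E = X^2 √E + X √B √E + X √M √E + E`, with
    `√E ≤ 4 √N`; `X^2 √E ≤ 4 X N^(1/2-δ/2) N^(1/2) ≤ 4 X N^(1-δ/2)`; `X √B √E ≤ 4 X N^(1/2-δ/4+1/2)`;
    `M ≤ 10 N^0.85`, `X √M √E ≤ 16 X N^0.925`; `E ≤ 10 N`.  All `≤ 16 (N + X N^(1-δ/8))`.
 (b2) `B > N^(1-δ/2) ≥ N^(3/4)`: if `c i₀ = 0` then `e i₀ ≥ 1` and the term is `0`
    (`GS_zero_delta`); if `c i₀ = 1` then `z ≤ 3 N^(1/3) < N^(3/4) < B` and it is `0` (`GS_zero_mu`);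
    otherwise `t1`: `X^3 M ≤ X N^(1-δ) * 10 N / N^(1-δ/2) = 10 X N^(1 - δ/2)`.
Constants are absorbed in one more factor `log N`.  Final constant `C + 12`.
-/

set_option autoImplicit false

open Finset Filter

namespace PGB

theorem lrg_A {n X E δ : ℝ} (hn : 1 ≤ n) (hδ : 0 < δ) (hδ2 : δ ≤ 1 / 2) (hX1 : 1 ≤ X)
    (hX : X ≤ n ^ (1 / 2 - δ / 2)) (hE : 0 ≤ E) (hE2 : E ≤ n ^ (9 / 10 : ℝ)) :
    X ^ 2 * √E + X * E ≤ 18 * (n + X * n ^ (1 - δ / 8)) := by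
  have hn0 : 0 < n := by linarith
  have h1 : √E ≤ n ^ (9 / 20 : ℝ) := by
    rw [Real.sqrt_eq_rpow]
    calc E ^ (1 / 2 : ℝ) ≤ (n ^ (9 / 10 : ℝ)) ^ (1 / 2 : ℝ) :=
          Real.rpow_le_rpow hE hE2 (by norm_num)
      _ = n ^ (9 / 20 : ℝ) := by
          rw [← Real.rpow_mul hn0.le]
          norm_num
  have h2 : X * √E ≤ n ^ (1 - δ / 8) := by
    calc X * √E ≤ n ^ (1 / 2 - δ / 2) * n ^ (9 / 20 : ℝ) :=
          mul_le_mul hX h1 (Real.sqrt_nonneg _) (by positivity)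
      _ = n ^ (1 / 2 - δ / 2 + 9 / 20) := (Real.rpow_add hn0 _ _).symm
      _ ≤ n ^ (1 - δ / 8) := Real.rpow_le_rpow_of_exponent_le hn (by linarith)
  have h3 : E ≤ n ^ (1 - δ / 8) :=
    hE2.trans (Real.rpow_le_rpow_of_exponent_le hn (by linarith))
  have h4 : X * (X * √E) ≤ X * n ^ (1 - δ / 8) := mul_le_mul_of_nonneg_left h2 (by linarith)
  have h5 : X * E ≤ X * n ^ (1 - δ / 8) := mul_le_mul_of_nonneg_left h3 (by linarith)
  have h6 : 0 ≤ X * n ^ (1 - δ / 8) := by positivity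
  nlinarith [h4, h5, h6, hn0]

theorem lrg_B1 {n X E B M δ : ℝ} (hn : 1 ≤ n) (hδ : 0 < δ) (hδ2 : δ ≤ 1 / 2) (hX1 : 1 ≤ X)
    (hX : X ≤ n ^ (1 / 2 - δ / 2)) (hB : 1 ≤ B) (hM : 1 ≤ M) (hEB : E = B * M)
    (hE2 : n ^ (9 / 10 : ℝ) < E) (hE3 : E ≤ 10 * n) (hB6 : E ≤ B ^ 6)
    (hB2 : B ≤ n ^ (1 - δ / 2)) :
    (X + √B) * (X + √M) * √E ≤ 18 * (n + X * n ^ (1 - δ / 8)) := by
  have hn0 : 0 < n := by linarith
  have hE0 : 0 ≤ E := by rw [hEB]; positivity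
  have hB15 : n ^ (3 / 20 : ℝ) ≤ B := by
    by_contra h
    push Not at h
    have h1 : B ^ 6 < (n ^ (3 / 20 : ℝ)) ^ 6 := pow_lt_pow_left₀ h (by linarith) (by norm_num)
    have h2 : (n ^ (3 / 20 : ℝ)) ^ 6 = n ^ (9 / 10 : ℝ) := by
      rw [← Real.rpow_natCast, ← Real.rpow_mul hn0.le]
      norm_num
    rw [h2] at h1
    linarith
  have hM85 : M ≤ 10 * n ^ (17 / 20 : ℝ) := by
    have h1 : M * n ^ (3 / 20 : ℝ) ≤ 10 * n := by
      calc M * n ^ (3 / 20 : ℝ) ≤ M * B := mul_le_mul_of_nonneg_left hB15 (by linarith)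
        _ = E := by rw [hEB]; ring
        _ ≤ 10 * n := hE3
    have h2 : (10 * n ^ (17 / 20 : ℝ)) * n ^ (3 / 20 : ℝ) = 10 * n := by
      rw [mul_assoc, ← Real.rpow_add hn0]
      norm_num
    have h3 : 0 < n ^ (3 / 20 : ℝ) := by positivity
    exact le_of_mul_le_mul_right (by rw [h2]; exact h1) h3
  have sE : √E ≤ 4 * n ^ (1 / 2 : ℝ) := by
    rw [← Real.sqrt_eq_rpow]
    apply Real.sqrt_le_iff.2
    refine ⟨by positivity, ?_⟩
    rw [mul_pow, Real.sq_sqrt hn0.le]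
    linarith
  have sB : √B ≤ n ^ (1 / 2 - δ / 4) := by
    rw [Real.sqrt_eq_rpow]
    calc B ^ (1 / 2 : ℝ) ≤ (n ^ (1 - δ / 2)) ^ (1 / 2 : ℝ) :=
          Real.rpow_le_rpow (by linarith) hB2 (by norm_num)
      _ = n ^ (1 / 2 - δ / 4) := by
          rw [← Real.rpow_mul hn0.le]
          congr 1
          ring
  have hME : √M * √E ≤ 10 * n ^ (37 / 40 : ℝ) := by
    rw [← Real.sqrt_mul (by linarith)]
    apply Real.sqrt_le_iff.2
    refine ⟨by positivity, ?_⟩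
    have h1 : (10 * n ^ (37 / 40 : ℝ)) ^ 2 = (10 * n ^ (17 / 20 : ℝ)) * (10 * n) := by
      rw [mul_pow, ← Real.rpow_natCast (n ^ (37 / 40 : ℝ)) 2, ← Real.rpow_mul hn0.le]
      have : n ^ (17 / 20 : ℝ) * n = n ^ (37 / 20 : ℝ) := by
        nth_rewrite 2 [← Real.rpow_one n]
        rw [← Real.rpow_add hn0]
        norm_num
      calc (10 : ℝ) ^ 2 * n ^ (37 / 40 * ((2 : ℕ) : ℝ)) = 100 * n ^ (37 / 20 : ℝ) := by
            norm_num
        _ = 100 * (n ^ (17 / 20 : ℝ) * n) := by rw [this]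
        _ = _ := by ring
    rw [h1]
    exact mul_le_mul hM85 hE3 hE0 (by positivity)
  have t1 : X * √E ≤ 4 * n ^ (1 - δ / 8) := by
    calc X * √E ≤ n ^ (1 / 2 - δ / 2) * (4 * n ^ (1 / 2 : ℝ)) :=
          mul_le_mul hX sE (Real.sqrt_nonneg _) (by positivity)
      _ = 4 * n ^ (1 / 2 - δ / 2 + 1 / 2) := by rw [Real.rpow_add hn0]; ring
      _ ≤ 4 * n ^ (1 - δ / 8) := by
          have := Real.rpow_le_rpow_of_exponent_le hn
            (show 1 / 2 - δ / 2 + 1 / 2 ≤ 1 - δ / 8 by linarith)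
          linarith
  have t2 : √B * √E ≤ 4 * n ^ (1 - δ / 8) := by
    calc √B * √E ≤ n ^ (1 / 2 - δ / 4) * (4 * n ^ (1 / 2 : ℝ)) :=
          mul_le_mul sB sE (Real.sqrt_nonneg _) (by positivity)
      _ = 4 * n ^ (1 / 2 - δ / 4 + 1 / 2) := by rw [Real.rpow_add hn0]; ring
      _ ≤ 4 * n ^ (1 - δ / 8) := by
          have := Real.rpow_le_rpow_of_exponent_le hn
            (show 1 / 2 - δ / 4 + 1 / 2 ≤ 1 - δ / 8 by linarith)
          linarith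
  have t3 : √M * √E ≤ 10 * n ^ (1 - δ / 8) := by
    have := Real.rpow_le_rpow_of_exponent_le hn
      (show (37 / 40 : ℝ) ≤ 1 - δ / 8 by linarith)
    linarith
  have t4 : √B * √M * √E = E := by
    rw [← Real.sqrt_mul (by linarith), ← hEB]
    exact Real.mul_self_sqrt hE0
  have hX0 : 0 ≤ X := by linarith
  have u1 := mul_le_mul_of_nonneg_left t1 hX0
  have u2 := mul_le_mul_of_nonneg_left t2 hX0
  have u3 := mul_le_mul_of_nonneg_left t3 hX0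
  have e1 : (X + √B) * (X + √M) * √E =
      X * (X * √E) + X * (√B * √E) + X * (√M * √E) + √B * √M * √E := by ring
  rw [e1, t4]
  linarith

theorem lrg_B2 {n X E B M δ : ℝ} (hn : 1 ≤ n) (hδ : 0 < δ) (hX1 : 1 ≤ X)
    (hX : X ≤ n ^ (1 / 2 - δ / 2)) (hM : 1 ≤ M) (hEB : E = B * M)
    (hE3 : E ≤ 10 * n) (hB2 : n ^ (1 - δ / 2) < B) :
    X ^ 3 * M ≤ 18 * (n + X * n ^ (1 - δ / 8)) := by
  have hn0 : 0 < n := by linarith
  have hX2 : X * X ≤ n ^ (1 - δ) := by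
    calc X * X ≤ n ^ (1 / 2 - δ / 2) * n ^ (1 / 2 - δ / 2) :=
          mul_le_mul hX hX (by linarith) (by positivity)
      _ = n ^ (1 - δ) := by
          rw [← Real.rpow_add hn0]
          congr 1
          ring
  have hM2 : M ≤ 10 * n ^ (δ / 2) := by
    have h1 : M * n ^ (1 - δ / 2) ≤ 10 * n := by
      calc M * n ^ (1 - δ / 2) ≤ M * B := mul_le_mul_of_nonneg_left hB2.le (by linarith)
        _ = E := by rw [hEB]; ring
        _ ≤ 10 * n := hE3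
    have h2 : (10 * n ^ (δ / 2)) * n ^ (1 - δ / 2) = 10 * n := by
      rw [mul_assoc, ← Real.rpow_add hn0]
      norm_num
    have h3 : 0 < n ^ (1 - δ / 2) := by positivity
    exact le_of_mul_le_mul_right (by rw [h2]; exact h1) h3
  have h4 : X * X * M ≤ 10 * n ^ (1 - δ / 8) := by
    calc X * X * M ≤ n ^ (1 - δ) * (10 * n ^ (δ / 2)) :=
          mul_le_mul hX2 hM2 (by linarith) (by positivity)
      _ = 10 * n ^ (1 - δ + δ / 2) := by rw [Real.rpow_add hn0]; ring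
      _ ≤ 10 * n ^ (1 - δ / 8) := by
          have := Real.rpow_le_rpow_of_exponent_le hn
            (show 1 - δ + δ / 2 ≤ 1 - δ / 8 by linarith)
          linarith
  have h5 := mul_le_mul_of_nonneg_left h4 (show 0 ≤ X by linarith)
  have h6 : 0 ≤ X * n ^ (1 - δ / 8) := by positivity
  have e1 : X ^ 3 * M = X * (X * X * M) := by ring
  rw [e1]
  linarith

theorem lrg_count {N : ℕ} (hN : 1 ≤ N) (hL : 1000 ≤ Real.log N) :
    ((Nat.log 2 (10 * N) + 1 : ℕ) : ℝ) ≤ 2 * Real.log N := by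
  have hN0 : (0 : ℝ) < N := by exact_mod_cast hN
  have h1 : 2 ^ Nat.log 2 (10 * N) ≤ 10 * N := Nat.pow_log_le_self 2 (by omega)
  have h2 : (2 : ℝ) ^ Nat.log 2 (10 * N) ≤ 10 * N := by exact_mod_cast h1
  have h3 := Real.log_le_log (by positivity) h2
  rw [Real.log_pow, Real.log_mul (by norm_num) hN0.ne'] at h3
  have h4 : Real.log 10 ≤ 9 := by
    have := Real.log_le_sub_one_of_pos (show (0 : ℝ) < 10 by norm_num)
    linarith
  have h5 := Real.log_two_gt_d9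
  have h6 : (Nat.log 2 (10 * N) : ℝ) * 0.69 ≤ (Nat.log 2 (10 * N) : ℝ) * Real.log 2 :=
    mul_le_mul_of_nonneg_left (by linarith) (by positivity)
  push_cast
  nlinarith

theorem lrg_term {δ : ℝ} (hδ : 0 < δ) (hδ2 : δ ≤ 1 / 2) : ∃ C : ℝ, 0 ≤ C ∧
    ∀ᶠ N : ℕ in atTop, ∀ (y Δ X : ℝ) (F : Finset PC), Ctx N y Δ X F →
      X ≤ (N : ℝ) ^ (1 / 2 - δ / 2) → ∀ (z : ℕ), (z : ℝ) ≤ 3 * (N : ℝ) ^ (1 / 3 : ℝ) →
      ∀ (e : Fin 6 → ℕ) (c : Fin 6 → Fin 4),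
      ∑ j ∈ F, ‖ws y Δ (GS z e c univ) (10 * N) j‖ ≤
        Real.log N ^ C / Δ * (18 * (N + X * (N : ℝ) ^ (1 - δ / 8))) := by
  obtain ⟨C0, hC0, h0⟩ := t0
  obtain ⟨C1, hC1, h1⟩ := t1
  obtain ⟨C2, hC2, h2⟩ := t2
  refine ⟨C0 + C1 + C2, by linarith, ?_⟩
  have hlog : Tendsto (fun N : ℕ => Real.log (N : ℝ)) atTop atTop :=
    Real.tendsto_log_atTop.comp tendsto_natCast_atTop_atTop
  have hpow : Tendsto (fun N : ℕ => (N : ℝ) ^ (5 / 12 : ℝ)) atTop atTop :=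
    (tendsto_rpow_atTop (by norm_num)).comp tendsto_natCast_atTop_atTop
  filter_upwards [h0, h1, h2, hlog.eventually_ge_atTop 1, hpow.eventually_gt_atTop 3,
    eventually_ge_atTop 1] with N H0 H1 H2 HL HP HN
  intro y Δ X F hctx hX z hz e c
  have hctx' := hctx
  obtain ⟨-, -, hΔ0, hΔ1, hX1, -⟩ := hctx'
  have hn : (1 : ℝ) ≤ N := by exact_mod_cast HN
  have hn0 : (0 : ℝ) < N := by linarith
  have hΔi : 1 ≤ 1 / Δ := by
    rw [le_div_iff₀ hΔ0]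
    linarith
  have hR0 : 0 ≤ 18 * ((N : ℝ) + X * (N : ℝ) ^ (1 - δ / 8)) := by positivity
  have hLC : ∀ C : ℝ, C ≤ C0 + C1 + C2 → Real.log N ^ C ≤ Real.log N ^ (C0 + C1 + C2) :=
    fun C hC => Real.rpow_le_rpow_of_exponent_le HL hC
  have hL0 : 0 ≤ Real.log N ^ (C0 + C1 + C2) := by positivity
  have hfin1 : ∀ C : ℝ, C ≤ C0 + C1 + C2 → ∀ S R : ℝ, 0 ≤ R → S ≤ Real.log N ^ C * R →
      R ≤ 18 * (N + X * (N : ℝ) ^ (1 - δ / 8)) →
      S ≤ Real.log N ^ (C0 + C1 + C2) / Δ * (18 * (N + X * (N : ℝ) ^ (1 - δ / 8))) := by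
    intro C hC S R hR hS hR2
    calc S ≤ Real.log N ^ C * R := hS
      _ ≤ Real.log N ^ (C0 + C1 + C2) * (18 * (N + X * (N : ℝ) ^ (1 - δ / 8))) :=
          mul_le_mul (hLC C hC) hR2 hR hL0
      _ ≤ Real.log N ^ (C0 + C1 + C2) / Δ * (18 * (N + X * (N : ℝ) ^ (1 - δ / 8))) := by
          apply mul_le_mul_of_nonneg_right _ hR0
          rw [div_eq_mul_one_div]
          exact le_mul_of_one_le_right hL0 hΔi
  by_cases hE1 : 10 * N < 2 ^ ∑ i, e i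
  · have : ∑ j ∈ F, ‖ws y Δ (GS z e c univ) (10 * N) j‖ = 0 := by
      apply Finset.sum_eq_zero
      intro j _
      rw [ws_zero_big hE1, norm_zero]
    rw [this]
    have : 0 ≤ Real.log N ^ (C0 + C1 + C2) / Δ := by positivity
    positivity
  push Not at hE1
  have hE3 : (2 : ℝ) ^ (∑ i, e i) ≤ 10 * N := by exact_mod_cast hE1
  have hEpos : (0 : ℝ) ≤ (2 : ℝ) ^ (∑ i, e i) := by positivity
  by_cases hE2 : (2 : ℝ) ^ (∑ i, e i) ≤ (N : ℝ) ^ (9 / 10 : ℝ)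
  · refine hfin1 C0 (by linarith) _ _ (by positivity) (H0 y Δ X F hctx z e c hE1) ?_
    exact lrg_A hn hδ hδ2 hX1 hX hEpos hE2
  push Not at hE2
  obtain ⟨i₀, -, hi6⟩ := exists_max e
  have hsum : e i₀ + ∑ i ∈ univ.erase i₀, e i = ∑ i, e i :=
    Finset.add_sum_erase univ e (mem_univ i₀)
  have hEB : (2 : ℝ) ^ (∑ i, e i) = 2 ^ e i₀ * 2 ^ (∑ i ∈ univ.erase i₀, e i) := by
    rw [← pow_add, hsum]
  have hB1 : (1 : ℝ) ≤ 2 ^ e i₀ := one_le_pow₀ (by norm_num)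
  have hM1 : (1 : ℝ) ≤ 2 ^ (∑ i ∈ univ.erase i₀, e i) := one_le_pow₀ (by norm_num)
  have hB6 : (2 : ℝ) ^ (∑ i, e i) ≤ (2 ^ e i₀) ^ 6 := by
    rw [← pow_mul]
    exact pow_le_pow_right₀ (by norm_num) (by omega)
  by_cases hB2 : (2 : ℝ) ^ e i₀ ≤ (N : ℝ) ^ (1 - δ / 2)
  · have key := lrg_B1 hn hδ hδ2 hX1 hX hB1 hM1 hEB hE2 hE3 hB6 hB2
    calc ∑ j ∈ F, ‖ws y Δ (GS z e c univ) (10 * N) j‖
        ≤ Real.log N ^ C2 / Δ * ((X + √(2 ^ e i₀)) * (X + √(2 ^ ∑ i ∈ univ.erase i₀, e i)) *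
          √(2 ^ ∑ i, e i)) := H2 y Δ X F hctx z e c hE1 i₀
      _ ≤ Real.log N ^ (C0 + C1 + C2) / Δ * (18 * (N + X * (N : ℝ) ^ (1 - δ / 8))) := by
          apply mul_le_mul _ key (by positivity) (by positivity)
          exact div_le_div_of_nonneg_right (hLC C2 (by linarith)) hΔ0.le
  push Not at hB2
  have hzero : ∀ G : ArithmeticFunction ℂ, G = 0 → GS z e c univ = G →
      ∑ j ∈ F, ‖ws y Δ (GS z e c univ) (10 * N) j‖ ≤
        Real.log N ^ (C0 + C1 + C2) / Δ * (18 * (N + X * (N : ℝ) ^ (1 - δ / 8))) := by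
    intro G hG hGS
    have : ∑ j ∈ F, ‖ws y Δ (GS z e c univ) (10 * N) j‖ = 0 := by
      apply Finset.sum_eq_zero
      intro j _
      rw [hGS, hG]
      unfold ws
      simp
    rw [this]
    have : 0 ≤ Real.log N ^ (C0 + C1 + C2) / Δ := by positivity
    positivity
  have hN34 : (N : ℝ) ^ (3 / 4 : ℝ) ≤ (N : ℝ) ^ (1 - δ / 2) :=
    Real.rpow_le_rpow_of_exponent_le hn (by linarith)
  have hN34' : 3 * (N : ℝ) ^ (1 / 3 : ℝ) ≤ (N : ℝ) ^ (3 / 4 : ℝ) := by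
    have : (N : ℝ) ^ (3 / 4 : ℝ) = (N : ℝ) ^ (5 / 12 : ℝ) * (N : ℝ) ^ (1 / 3 : ℝ) := by
      rw [← Real.rpow_add hn0]
      norm_num
    rw [this]
    exact mul_le_mul_of_nonneg_right HP.le (by positivity)
  have hcase : c i₀ = 0 ∨ c i₀ = 1 ∨ c i₀ = 2 ∨ c i₀ = 3 := by
    have : ∀ a : Fin 4, a = 0 ∨ a = 1 ∨ a = 2 ∨ a = 3 := by decide
    exact this _
  rcases hcase with hc | hc | hc
  · refine hzero 0 rfl (GS_zero_delta hc ?_)
    by_contra h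
    have h3 : e i₀ = 0 := by omega
    rw [h3, pow_zero] at hB2
    have : (1 : ℝ) ≤ (N : ℝ) ^ (1 - δ / 2) := Real.one_le_rpow hn (by linarith)
    linarith
  · refine hzero 0 rfl (GS_zero_mu hc ?_)
    have : (z : ℝ) < 2 ^ e i₀ := by linarith
    exact_mod_cast this
  · refine hfin1 C1 (by linarith) _ _ (by positivity) (H1 y Δ X F hctx z e c hE1 i₀ hc) ?_
    exact lrg_B2 hn hδ hX1 hX hM1 hEB hE3 hB2

theorem mean_large (δ : ℝ) (hδ : 0 < δ) (hδ2 : δ ≤ 1 / 2) : ∃ C : ℝ, 0 ≤ C ∧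
    ∀ᶠ N : ℕ in atTop, ∀ (y Δ X : ℝ) (F : Finset PC), Ctx N y Δ X F →
      X ≤ (N : ℝ) ^ (1 / 2 - δ / 2) →
      ∑ j ∈ F, ‖ws y Δ Lam (10 * N) j‖ ≤
        Real.log N ^ C / Δ * (N + X * (N : ℝ) ^ (1 - δ / 8)) := by
  obtain ⟨C, hC, hterm⟩ := lrg_term hδ hδ2
  refine ⟨C + 8, by linarith, ?_⟩
  have hlog : Tendsto (fun N : ℕ => Real.log (N : ℝ)) atTop atTop :=
    Real.tendsto_log_atTop.comp tendsto_natCast_atTop_atTop
  filter_upwards [dec, hterm, hlog.eventually_ge_atTop 1000, eventually_ge_atTop 1]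
    with N hdec ht HL HN
  intro y Δ X F hctx hX
  obtain ⟨z, -, hz, hd⟩ := hdec
  have hctx' := hctx
  obtain ⟨-, -, hΔ0, hΔ1, hX1, -⟩ := hctx'
  have hn0 : (0 : ℝ) < N := by exact_mod_cast HN
  set R : ℝ := (N : ℝ) + X * (N : ℝ) ^ (1 - δ / 8) with hR
  have hR0 : 0 ≤ R := by positivity
  set L : ℝ := Real.log N with hLdef
  have hL0 : 0 < L := by linarith
  set P := Fintype.piFinset (fun _ : Fin 6 => range (Nat.log 2 (10 * N) + 1)) with hP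
  have hcard : (P.card : ℝ) ≤ (2 * L) ^ 6 := by
    have h1 : P.card = (Nat.log 2 (10 * N) + 1) ^ 6 := by
      rw [hP, Fintype.card_piFinset]
      simp
    rw [h1]
    push_cast
    have h2 := lrg_count HN HL
    push_cast at h2
    exact pow_le_pow_left₀ (by positivity) h2 6
  calc ∑ j ∈ F, ‖ws y Δ Lam (10 * N) j‖
      ≤ ∑ j ∈ F, ∑ k : Fin 3, ∑ e ∈ P, 3 * ‖ws y Δ (GS z e (pat k) univ) (10 * N) j‖ :=
        Finset.sum_le_sum fun j _ => hd y Δ j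
    _ = ∑ k : Fin 3, ∑ e ∈ P, 3 * ∑ j ∈ F, ‖ws y Δ (GS z e (pat k) univ) (10 * N) j‖ := by
        rw [Finset.sum_comm]
        apply Finset.sum_congr rfl
        intro k _
        rw [Finset.sum_comm]
        apply Finset.sum_congr rfl
        intro e _
        rw [Finset.mul_sum]
    _ ≤ ∑ k : Fin 3, ∑ e ∈ P, 3 * (L ^ C / Δ * (18 * R)) := by
        apply Finset.sum_le_sum
        intro k _
        apply Finset.sum_le_sum
        intro e _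
        exact mul_le_mul_of_nonneg_left (ht y Δ X F hctx hX z hz e (pat k)) (by norm_num)
    _ = 162 * (P.card : ℝ) * (L ^ C / Δ * R) := by
        rw [Finset.sum_const, Finset.sum_const, Finset.card_univ, Fintype.card_fin]
        simp only [nsmul_eq_mul]
        push_cast
        ring
    _ ≤ L ^ 8 * (L ^ C / Δ * R) := by
        apply mul_le_mul_of_nonneg_right _ (by positivity)
        calc 162 * (P.card : ℝ) ≤ 162 * (2 * L) ^ 6 :=
              mul_le_mul_of_nonneg_left hcard (by norm_num)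
          _ = 10368 * L ^ 6 := by ring
          _ ≤ L ^ 2 * L ^ 6 := by
              apply mul_le_mul_of_nonneg_right _ (by positivity)
              nlinarith
          _ = L ^ 8 := by ring
    _ = L ^ (C + 8) / Δ * R := by
        rw [Real.rpow_add hL0]
        have : L ^ (8 : ℝ) = L ^ 8 := by
          rw [← Real.rpow_natCast]
          norm_num
        rw [this]
        ring

end PGB
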