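import Pool.Agent.PGB.Ssml

/-!
# Project PGB, Mny: moduli which are not small have many prime factors

PROOF.  Let `y = ε log N`, `L = log N`, `P` a squarefree number all of whose prime factors are `≤ y`,
  `d ∣ P s`, `1 ≤ s ≤ L^B`, `d > QN N`, i.e. `log d > L^(1/100)`.  `g = gcd(d, P)` is squarefree and
  `d ∣ g s` (`Nat.dvd_gcd_mul_of_dvd_mul` or `Nat.gcd_mul_right_dvd`…: `d / g ∣ (P / g) s` and
  `gcd(d/g, P/g) = 1`), so `log d ≤ log g + B log L`, `log g = ∑_{p ∣ g} log p`.  Primes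
  `p ≤ L^(1/200)`: their product is `≤ 4^(L^(1/200))` (`primorial_le_4_pow`), so they contribute at
  most `1.4 L^(1/200)`.  Primes `p > L^(1/200)` (they are `≤ y ≤ L`): they divide `d`, contribute
  `≤ m log L`, where `m` is the number of prime factors `p` of `d` with `L^(1/200) < p ≤ y`.  So
  `m ≥ (L^(1/100) - 1.4 L^(1/200) - B log L) / log L ≥ L^(1/200)` for large `N`.
-/

set_option autoImplicit false

open Finset Filter

namespace PGB

private theorem mny_arith (B : ℝ) : ∀ᶠ Z : ℝ in atTop,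
    1 ≤ Z ∧ (2 * Z + B) * (200 * Real.log Z) ≤ Z ^ 2 := by
  have h1 := Real.isLittleO_log_id_atTop.def (show (0 : ℝ) < 1 / 600 by norm_num)
  filter_upwards [h1, eventually_ge_atTop (1 : ℝ), eventually_ge_atTop B] with Z h2 h3 h4
  have h5 : 0 ≤ Real.log Z := Real.log_nonneg h3
  have h6 : Real.log Z ≤ 1 / 600 * Z := by
    have h7 : ‖(id Z : ℝ)‖ = Z := by
      rw [id, Real.norm_of_nonneg (by linarith)]
    rw [h7] at h2
    exact (le_abs_self _).trans h2
  refine ⟨h3, ?_⟩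
  calc (2 * Z + B) * (200 * Real.log Z) ≤ (3 * Z) * (200 * Real.log Z) :=
        mul_le_mul_of_nonneg_right (by linarith) (by linarith)
    _ ≤ (3 * Z) * (200 * (1 / 600 * Z)) :=
        mul_le_mul_of_nonneg_left (by linarith) (by linarith)
    _ = Z ^ 2 := by ring

/-- the statement with the filter over the natural numbers -/
theorem mny_nat (ε B : ℝ) (hε : 0 < ε) (hε1 : ε ≤ 1) : ∀ᶠ N : ℕ in atTop, ∀ P s d : ℕ,
    Squarefree P → (∀ p ∈ P.primeFactors, (p : ℝ) ≤ ε * Real.log N) → 1 ≤ s →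
    (s : ℝ) ≤ Real.log N ^ B → d ∣ P * s → QN N < d →
    Real.log N ^ (1 / 200 : ℝ) ≤ ((d.primeFactors.filter fun p : ℕ =>
      Real.log N ^ (1 / 200 : ℝ) < (p : ℝ) ∧ (p : ℝ) ≤ ε * Real.log N).card : ℝ) := by
  classical
  have hL : Tendsto (fun N : ℕ => Real.log N) atTop atTop :=
    Real.tendsto_log_atTop.comp tendsto_natCast_atTop_atTop
  have hZ : Tendsto (fun N : ℕ => Real.log N ^ (1 / 200 : ℝ)) atTop atTop :=
    (tendsto_rpow_atTop (by norm_num : (0 : ℝ) < 1 / 200)).comp hL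
  filter_upwards [hZ.eventually (mny_arith B), hL.eventually_ge_atTop 1] with N hN hL1 P s d hP hPp
    hs hsB hd hQ
  obtain ⟨hZ1, hZ2⟩ := hN
  have hL0 : (0 : ℝ) < Real.log N := by linarith
  have hlog : Real.log (Real.log N ^ (1 / 200 : ℝ)) = 1 / 200 * Real.log (Real.log N) :=
    Real.log_rpow hL0 _
  have hlL : 0 ≤ Real.log (Real.log N) := Real.log_nonneg hL1
  have hsq : (Real.log N ^ (1 / 200 : ℝ)) ^ 2 = Real.log N ^ (1 / 100 : ℝ) := by
    rw [← Real.rpow_natCast, ← Real.rpow_mul hL0.le]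
    norm_num
  set L : ℝ := Real.log N with hLdef
  set Z : ℝ := L ^ (1 / 200 : ℝ) with hZdef
  have hP0 : P ≠ 0 := hP.ne_zero
  have hs0 : s ≠ 0 := by omega
  have hd0 : d ≠ 0 := ne_zero_of_dvd_ne_zero (mul_ne_zero hP0 hs0) hd
  set g : ℕ := Nat.gcd d P with hg
  have hgP : g ∣ P := Nat.gcd_dvd_right d P
  have hgd : g ∣ d := Nat.gcd_dvd_left d P
  have hg0 : g ≠ 0 := ne_zero_of_dvd_ne_zero hP0 hgP
  have hgs : Squarefree g := hP.squarefree_of_dvd hgP
  have h1 : d ∣ g * s := dvd_gcd_mul_of_dvd_mul (α := ℕ) hd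
  have h2 : (d : ℝ) ≤ g * s := by
    exact_mod_cast Nat.le_of_dvd (Nat.pos_of_ne_zero (mul_ne_zero hg0 hs0)) h1
  have hgR : (0 : ℝ) < g := by exact_mod_cast Nat.pos_of_ne_zero hg0
  have hsR : (0 : ℝ) < s := by exact_mod_cast hs
  have hdR : (0 : ℝ) < d := by exact_mod_cast Nat.pos_of_ne_zero hd0
  have h3 : Real.log d ≤ Real.log g + Real.log s := by
    rw [← Real.log_mul hgR.ne' hsR.ne']
    exact Real.log_le_log hdR h2
  have h4 : Real.log s ≤ B * Real.log L := by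
    rw [← Real.log_rpow hL0]
    exact Real.log_le_log hsR hsB
  have h5 : Z ^ 2 < Real.log d := by
    rw [hsq, Real.lt_log_iff_exp_lt hdR]
    exact hQ
  -- the logarithm of `g`
  have h6 : Real.log g = ∑ p ∈ g.primeFactors, Real.log p := by
    have h7 : (g : ℝ) = ∏ p ∈ g.primeFactors, (p : ℝ) := by
      rw [← Nat.cast_prod, Nat.prod_primeFactors_of_squarefree hgs]
    conv_lhs => rw [h7]
    refine Real.log_prod ?_
    intro p hp
    have h8 : p.Prime := (Nat.mem_primeFactors.1 hp).1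
    exact_mod_cast h8.ne_zero
  have h7 : Real.log g ≤ (g.primeFactors.card : ℝ) * Real.log L := by
    rw [h6, ← nsmul_eq_mul]
    refine sum_le_card_nsmul _ _ _ ?_
    intro p hp
    have h8 := Nat.mem_primeFactors.1 hp
    have h9 := hPp p (Nat.mem_primeFactors.2 ⟨h8.1, h8.2.1.trans hgP, hP0⟩)
    refine Real.log_le_log (by exact_mod_cast h8.1.pos) (h9.trans ?_)
    nlinarith
  set M : Finset ℕ := d.primeFactors.filter fun p : ℕ => Z < (p : ℝ) ∧ (p : ℝ) ≤ ε * L with hM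
  have h8 : g.primeFactors ⊆ M ∪ Icc 1 ⌊Z⌋₊ := by
    intro p hp
    have h9 := Nat.mem_primeFactors.1 hp
    have h10 := hPp p (Nat.mem_primeFactors.2 ⟨h9.1, h9.2.1.trans hgP, hP0⟩)
    rw [mem_union]
    by_cases hpZ : Z < (p : ℝ)
    · left
      rw [hM, mem_filter]
      exact ⟨Nat.mem_primeFactors.2 ⟨h9.1, h9.2.1.trans hgd, hd0⟩, hpZ, h10⟩
    · right
      rw [mem_Icc]
      exact ⟨h9.1.one_lt.le, Nat.le_floor (not_lt.1 hpZ)⟩
  have h9 : (g.primeFactors.card : ℝ) ≤ M.card + Z := by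
    have h10 := (card_le_card h8).trans (card_union_le _ _)
    rw [Nat.card_Icc] at h10
    have h11 : ((⌊Z⌋₊ : ℕ) : ℝ) ≤ Z := Nat.floor_le (by linarith)
    have h12 : (g.primeFactors.card : ℝ) ≤ M.card + ⌊Z⌋₊ := by
      exact_mod_cast (by omega : g.primeFactors.card ≤ M.card + ⌊Z⌋₊)
    linarith
  by_contra hcon
  push Not at hcon
  have h10 : (g.primeFactors.card : ℝ) * Real.log L ≤ (2 * Z) * Real.log L :=
    mul_le_mul_of_nonneg_right (by linarith) hlL
  have h11 : 200 * Real.log Z = Real.log L := by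
    rw [hlog]
    ring
  rw [h11] at hZ2
  have h12 : (2 * Z + B) * Real.log L = (2 * Z) * Real.log L + B * Real.log L := by ring
  linarith

open Classical in
theorem mny (ε B : ℝ) (hε : 0 < ε) (hε1 : ε ≤ 1) : ∀ᶠ N : ℕ in atTop, ∀ P s d : ℕ,
    Squarefree P → (∀ p ∈ P.primeFactors, (p : ℝ) ≤ ε * Real.log N) → 1 ≤ s →
    (s : ℝ) ≤ Real.log N ^ B → d ∣ P * s → QN N < d →
    Real.log N ^ (1 / 200 : ℝ) ≤ ((d.primeFactors.filter fun p =>
      Real.log N ^ (1 / 200 : ℝ) < (p : ℝ) ∧ (p : ℝ) ≤ ε * Real.log N).card : ℝ) := by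
  filter_upwards [mny_nat ε B hε hε1] with N hN P s d hP hPp hs hsB hd hQ
  refine (hN P s d hP hPp hs hsB hd hQ).trans ?_
  have h1 : (d.primeFactors.filter fun p : ℕ => Real.log N ^ (1 / 200 : ℝ) < (p : ℝ) ∧
      (p : ℝ) ≤ ε * Real.log N).card = ((d.primeFactors.filter fun p : ℕ =>
      Real.log N ^ (1 / 200 : ℝ) < (p : ℝ) ∧ (p : ℝ) ≤ ε * Real.log N).image
      (fun n : ℕ => (n : ℝ))).card :=
    (card_image_of_injective _ Nat.cast_injective).symm
  have h2 := Nat.cast_le (α := ℝ).2 h1.le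
  refine h2.trans (Nat.cast_le.2 (card_le_card ?_))
  intro x hx
  rw [mem_image] at hx
  obtain ⟨n, hn, rfl⟩ := hx
  rw [mem_filter] at hn
  rw [mem_filter]
  refine ⟨?_, hn.2⟩
  exact Finset.mem_sup.2 ⟨n, hn.1, mem_singleton_self _⟩

end PGB
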