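import Pool.Agent.PGB.Defs

/-!
# Project PGB, Qz: the modulus `q₀`
-/

set_option autoImplicit false

open Finset

namespace PGB

/-- The modulus `q₀`: the product of the primes `p ≤ y` outside `D`. -/
noncomputable def qz (y : ℝ) (D : Finset ℕ) : ℕ :=
  ∏ p ∈ (range (⌊y⌋₊ + 1)).filter (fun p => p.Prime ∧ p ∉ D), p

/-- `∑_{N < n ≤ 2N, n ≡ a mod q} Λ(n)`. -/
noncomputable def Psi (N q a : ℕ) : ℝ :=
  ∑ n ∈ (Ioc N (2 * N)).filter (fun n => n ≡ a [MOD q]), ArithmeticFunction.vonMangoldt n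

theorem qz_pos (y : ℝ) (D : Finset ℕ) : 1 ≤ qz y D := by
  refine Nat.one_le_iff_ne_zero.2 (Finset.prod_ne_zero_iff.2 fun p hp => ?_)
  exact (Finset.mem_filter.1 hp).2.1.ne_zero

theorem dvd_qz {y : ℝ} (hy : 0 ≤ y) {D : Finset ℕ} {p : ℕ} (hp : p.Prime) :
    p ∣ qz y D ↔ (p : ℝ) ≤ y ∧ p ∉ D := by
  unfold qz
  rw [hp.prime.dvd_finsetProd_iff]
  constructor
  · rintro ⟨q, hq, hpq⟩
    rw [Finset.mem_filter, Finset.mem_range] at hq
    have h1 : p = q := (Nat.prime_dvd_prime_iff_eq hp hq.2.1).1 hpq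
    subst h1
    exact ⟨(Nat.le_floor_iff hy).1 (by omega), hq.2.2⟩
  · rintro ⟨h1, h2⟩
    refine ⟨p, ?_, dvd_rfl⟩
    rw [Finset.mem_filter, Finset.mem_range]
    have := (Nat.le_floor_iff hy).2 h1
    exact ⟨by omega, hp, h2⟩

theorem qz_sqf (y : ℝ) (D : Finset ℕ) : Squarefree (qz y D) := by
  unfold qz
  refine Finset.squarefree_prod_of_pairwise_isCoprime ?_ ?_
  · intro p hp q hq hpq
    have h1 := (Finset.mem_filter.1 hp).2.1
    have h2 := (Finset.mem_filter.1 hq).2.1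
    exact Nat.coprime_iff_isRelPrime.1 ((Nat.coprime_primes h1 h2).2 hpq)
  · intro p hp
    exact (Finset.mem_filter.1 hp).2.1.prime.squarefree

theorem qz_le (D : Finset ℕ) {N : ℕ} (hN : 1 ≤ N) {ε : ℝ} (hε : 0 ≤ ε) :
    (qz (ε * Real.log N) D : ℝ) ≤ (N : ℝ) ^ (2 * ε) := by
  have hN' : (0 : ℝ) < N := by exact_mod_cast hN
  have hL : 0 ≤ Real.log N := Real.log_nonneg (by exact_mod_cast hN)
  have h1 : qz (ε * Real.log N) D ≤ 4 ^ ⌊ε * Real.log N⌋₊ := by
    refine le_trans ?_ (primorial_le_four_pow _)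
    unfold qz primorial
    refine Finset.prod_le_prod_of_subset_of_one_le' ?_ ?_
    · intro p hp
      rw [Finset.mem_filter] at hp ⊢
      exact ⟨hp.1, hp.2.1⟩
    · intro p hp _
      exact (Finset.mem_filter.1 hp).2.one_le
  calc (qz (ε * Real.log N) D : ℝ) ≤ ((4 ^ ⌊ε * Real.log N⌋₊ : ℕ) : ℝ) := by exact_mod_cast h1
    _ = (4 : ℝ) ^ (⌊ε * Real.log N⌋₊ : ℝ) := by push_cast; rw [Real.rpow_natCast]
    _ ≤ (4 : ℝ) ^ (ε * Real.log N) :=
        Real.rpow_le_rpow_of_exponent_le (by norm_num) (Nat.floor_le (by positivity))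
    _ = Real.exp (Real.log 4 * (ε * Real.log N)) := by rw [Real.rpow_def_of_pos (by norm_num)]
    _ ≤ Real.exp (Real.log N * (2 * ε)) := by
        apply Real.exp_le_exp.2
        have h2 : Real.log 4 ≤ 2 := by
          rw [show (4 : ℝ) = 2 ^ 2 by norm_num, Real.log_pow]
          have := Real.log_two_lt_d9
          push_cast
          linarith
        have h3 : 0 ≤ ε * Real.log N := by positivity
        nlinarith
    _ = (N : ℝ) ^ (2 * ε) := by rw [Real.rpow_def_of_pos hN']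

theorem Psi_eq (N q a : ℕ) : Psi N q a = psiA (2 * N) q a - psiA N q a := by
  unfold Psi psiA
  rw [eq_sub_iff_add_eq, ← Finset.sum_union]
  · refine Finset.sum_congr ?_ fun _ _ => rfl
    ext n
    simp only [Finset.mem_union, Finset.mem_filter, Finset.mem_Ioc, Finset.mem_range]
    constructor
    · rintro (⟨⟨h1, h2⟩, h3⟩ | ⟨h1, h3⟩)
      · exact ⟨by omega, h3⟩
      · exact ⟨by omega, h3⟩
    · rintro ⟨h1, h3⟩
      rcases Nat.lt_or_ge N n with h | h
      · exact Or.inl ⟨⟨h, by omega⟩, h3⟩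
      · exact Or.inr ⟨by omega, h3⟩
  · rw [Finset.disjoint_left]
    intro n h1 h2
    simp only [Finset.mem_filter, Finset.mem_Ioc, Finset.mem_range] at h1 h2
    omega

theorem psiA_one (x : ℕ) : psiA x 1 0 = psi0 x := by
  unfold psiA psi0
  refine Finset.sum_congr ?_ fun _ _ => rfl
  ext n
  simp [Nat.modEq_one]

theorem Psi_one (N : ℕ) : Psi N 1 0 = psi0 (2 * N) - psi0 N := by
  rw [Psi_eq, psiA_one, psiA_one]

end PGB
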