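import Pool.Agent.PGB.Core
import Pool.Agent.PGB.Cnt
import Pool.Agent.PGB.Hit
import Pool.Agent.PGB.Mny
import Pool.Agent.PGB.Exk
import Pool.Agent.PGB.Qz

/-!
# Project PGB, Main: the Bombieri-Vinogradov theorem used by the project PGL

Assembly of `core`, `bad_card`, `hit`, `mny`, `exc_prime`, `unique`, `small_good`.
-/

set_option autoImplicit false

open Finset Filter

namespace PGB

/-- The bad characters to moduli `≤ N^(1/20)` form a finite set. -/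
private theorem bad_set (A : ℝ) (N : ℕ) : ∃ F : Finset PC,
    ∀ j : PC, j ∈ F ↔ (2 ≤ j.1 ∧ (j.1 : ℝ) ≤ (N : ℝ) ^ (1 / 20 : ℝ) ∧ j.2.IsPrimitive) ∧
      Bad A N j := by
  classical
  refine ⟨((Icc 2 ⌊(N : ℝ) ^ (1 / 20 : ℝ)⌋₊).sigma prc).filter fun j => Bad A N j, fun j => ?_⟩
  rw [Finset.mem_filter, Finset.mem_sigma, Finset.mem_Icc, mem_prc,
    Nat.le_floor_iff (by positivity)]
  constructor
  · rintro ⟨⟨⟨h1, h2⟩, h3, h4⟩, h5⟩
    exact ⟨⟨h1, h2, h4⟩, h5⟩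
  · rintro ⟨⟨h1, h2, h4⟩, h5⟩
    exact ⟨⟨⟨h1, h2⟩, by omega, h4⟩, h5⟩

private theorem log_tendsto : Tendsto (fun N : ℕ => Real.log N) atTop atTop :=
  Real.tendsto_log_atTop.comp tendsto_natCast_atTop_atTop

/-- `L^C e^{-L^c} < 1/2` for large `L`. -/
private theorem exp_beats (C : ℝ) {c : ℝ} (hc : 0 < c) :
    ∀ᶠ L : ℝ in atTop, L ^ C * Real.exp (-(L ^ c)) < 1 / 2 := by
  have h1 : Tendsto (fun x : ℝ => x ^ (C / c) * Real.exp (-x)) atTop (nhds 0) := by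
    have := tendsto_rpow_mul_exp_neg_mul_atTop_nhds_zero (C / c) 1 one_pos
    simpa using this
  have h2 : Tendsto (fun L : ℝ => L ^ c) atTop atTop := tendsto_rpow_atTop hc
  have h3 := h1.comp h2
  have h4 := (h3.eventually (gt_mem_nhds (show (0 : ℝ) < 1 / 2 by norm_num)))
  filter_upwards [h4, eventually_gt_atTop 0] with L hL hL0
  have h5 : (L ^ c) ^ (C / c) = L ^ C := by
    rw [← Real.rpow_mul hL0.le]
    congr 1
    field_simp
  simpa [Function.comp, h5] using hL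

/-- Powers of `log L` are smaller than powers of `L`. -/
private theorem log_small {c : ℝ} (hc : 0 < c) (M : ℝ) (hM : 0 < M) :
    ∀ᶠ L : ℝ in atTop, M * Real.log L ^ 3 ≤ L ^ c := by
  have h := (isLittleO_log_rpow_rpow_atTop 3 hc).bound (show 0 < 1 / M by positivity)
  filter_upwards [h, eventually_ge_atTop 1] with L hL hL1
  have h1 : 0 ≤ Real.log L := Real.log_nonneg hL1
  rw [Real.norm_of_nonneg (by positivity), Real.norm_of_nonneg (by positivity)] at hL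
  have h2 : Real.log L ^ (3 : ℝ) = Real.log L ^ 3 := by
    rw [← Real.rpow_natCast]
    norm_num
  rw [h2] at hL
  calc M * Real.log L ^ 3 ≤ M * (1 / M * L ^ c) := mul_le_mul_of_nonneg_left hL hM.le
    _ = L ^ c := by field_simp

/-- The sparse set which hits all bad moduli with many prime factors. -/
private theorem hitting (A' ε : ℝ) (hε : 0 < ε) (hε1 : ε ≤ 1) : ∀ᶠ N : ℕ in atTop,
    ∃ D' : Finset ℕ, (∀ p ∈ D', p.Prime ∧ Real.log N ^ (1 / 200 : ℝ) < (p : ℝ) ∧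
        (p : ℝ) ≤ ε * Real.log N) ∧
      ∑ p ∈ D', (1 : ℝ) / p ≤ 1 / Real.log (ε * Real.log N) ^ 2 ∧
      ∀ j : PC, 2 ≤ j.1 → (j.1 : ℝ) ≤ (N : ℝ) ^ (1 / 20 : ℝ) → j.2.IsPrimitive → Bad A' N j →
        Real.log N ^ (1 / 200 : ℝ) ≤ ((j.1.primeFactors.filter fun p : ℕ =>
          Real.log N ^ (1 / 200 : ℝ) < (p : ℝ) ∧ (p : ℝ) ≤ ε * Real.log N).card : ℝ) →
        ∃ p ∈ D', p ∣ j.1 := by
  classical
  obtain ⟨C, hC⟩ := bad_card A'
  have e1 := log_tendsto.eventually (exp_beats C (show (0 : ℝ) < 1 / 400 by norm_num))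
  have e2 := log_tendsto.eventually (log_small (show (0 : ℝ) < 1 / 400 by norm_num) 6 (by norm_num))
  have e3 := log_tendsto.eventually (eventually_ge_atTop (3 / ε))
  have e4 := log_tendsto.eventually (eventually_ge_atTop (3 : ℝ))
  have e5 := log_tendsto.eventually
    (Real.tendsto_log_atTop.eventually (eventually_ge_atTop (1 : ℝ)))
  filter_upwards [hC, e1, e2, e3, e4, e5] with N hcard h1 h2 h3 h4 h5
  set L : ℝ := Real.log N with hL
  have hL0 : 0 < L := by linarith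
  have hεL : 3 ≤ ε * L := by
    rw [div_le_iff₀ hε] at h3
    linarith
  have hεL2 : ε * L ≤ L := by nlinarith
  obtain ⟨F, hF⟩ := bad_set A' N
  have hFc : (F.card : ℝ) ≤ L ^ C := hcard F (fun j hj => ((hF j).1 hj).1)
    (fun j hj => ((hF j).1 hj).2)
  set θ : ℝ := L ^ (-(1 / 400) : ℝ) with hθ
  have hθ0 : 0 < θ := Real.rpow_pos_of_pos hL0 _
  have hθ1 : θ < 1 := Real.rpow_lt_one_of_one_lt_of_neg (by linarith) (by norm_num)
  set G : Finset ℕ := (range (⌊ε * L⌋₊ + 1)).filter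
    (fun p => p.Prime ∧ L ^ (1 / 200 : ℝ) < (p : ℝ)) with hG
  have hGm : ∀ p, p ∈ G ↔ p.Prime ∧ L ^ (1 / 200 : ℝ) < (p : ℝ) ∧ (p : ℝ) ≤ ε * L := by
    intro p
    rw [hG, Finset.mem_filter, Finset.mem_range, Nat.lt_succ_iff,
      Nat.le_floor_iff (by linarith)]
    tauto
  set m : ℕ := ⌈L ^ (1 / 200 : ℝ)⌉₊ with hm
  set FF : Finset (Finset ℕ) := (F.filter (fun j => m ≤ (j.1.primeFactors ∩ G).card)).image
    (fun j => j.1.primeFactors ∩ G) with hFF
  have hFFc : (FF.card : ℝ) ≤ L ^ C := by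
    refine le_trans ?_ hFc
    exact_mod_cast Finset.card_image_le.trans (Finset.card_filter_le _ _)
  have hmm : (FF.card : ℝ) * (1 - θ) ^ m < 1 / 2 := by
    have h6 : (1 - θ) ^ m ≤ Real.exp (-(L ^ (1 / 400 : ℝ))) := by
      have h7 : 1 - θ ≤ Real.exp (-θ) := by
        have := Real.add_one_le_exp (-θ)
        linarith
      calc (1 - θ) ^ m ≤ Real.exp (-θ) ^ m := pow_le_pow_left₀ (by linarith) h7 m
        _ = Real.exp (-(θ * m)) := by
            rw [← Real.exp_nat_mul]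
            congr 1
            ring
        _ ≤ Real.exp (-(L ^ (1 / 400 : ℝ))) := by
            apply Real.exp_le_exp.2
            have h8 : L ^ (1 / 200 : ℝ) ≤ m := Nat.le_ceil _
            have h9 : θ * L ^ (1 / 200 : ℝ) = L ^ (1 / 400 : ℝ) := by
              rw [hθ, ← Real.rpow_add hL0]
              norm_num
            have h10 : θ * L ^ (1 / 200 : ℝ) ≤ θ * m := mul_le_mul_of_nonneg_left h8 hθ0.le
            linarith
    calc (FF.card : ℝ) * (1 - θ) ^ m ≤ L ^ C * Real.exp (-(L ^ (1 / 400 : ℝ))) :=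
          mul_le_mul hFFc h6 (pow_nonneg (by linarith) _) (Real.rpow_nonneg hL0.le _)
      _ < 1 / 2 := h1
  obtain ⟨D', hD1, hD2, hD3⟩ := hit (G := G) (F := FF) (m := m) (θ := θ) hθ0 hθ1 (by
    intro S hS
    rw [hFF, Finset.mem_image] at hS
    obtain ⟨j, hj, rfl⟩ := hS
    exact ⟨Finset.inter_subset_right, (Finset.mem_filter.1 hj).2⟩) hmm (fun p => (1 : ℝ) / p)
    (fun p _ => by positivity)
  refine ⟨D', fun p hp => (hGm p).1 (hD1 hp), ?_, ?_⟩
  · -- the sum of the reciprocals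
    have h6 : ∑ p ∈ G, (1 : ℝ) / p ≤ 1 + Real.log L := by
      have h7 : ∑ p ∈ G, (1 : ℝ) / p ≤ ∑ n ∈ Icc 1 ⌊ε * L⌋₊, (1 : ℝ) / n := by
        refine Finset.sum_le_sum_of_subset_of_nonneg ?_ fun _ _ _ => by positivity
        intro p hp
        have h8 := (hGm p).1 hp
        rw [Finset.mem_Icc]
        exact ⟨h8.1.one_le, Nat.le_floor h8.2.2⟩
      have h8 : ∑ n ∈ Icc 1 ⌊ε * L⌋₊, (1 : ℝ) / n ≤ 1 + Real.log ⌊ε * L⌋₊ := by
        have := harmonic_le_one_add_log ⌊ε * L⌋₊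
        rw [harmonic_eq_sum_Icc] at this
        push_cast at this
        simpa [one_div] using this
      have h9 : Real.log ⌊ε * L⌋₊ ≤ Real.log L := by
        apply Real.log_le_log
        · have : 3 ≤ ⌊ε * L⌋₊ := Nat.le_floor (by exact_mod_cast hεL)
          have : (3 : ℝ) ≤ ⌊ε * L⌋₊ := by exact_mod_cast this
          linarith
        · exact (Nat.floor_le (by linarith)).trans hεL2
      linarith
    have h7 : 0 < Real.log (ε * L) := Real.log_pos (by linarith)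
    have h8 : Real.log (ε * L) ≤ Real.log L := Real.log_le_log (by linarith) hεL2
    refine hD3.trans ?_
    rw [le_div_iff₀ (by positivity)]
    have h9 : θ * L ^ (1 / 400 : ℝ) = 1 := by
      rw [hθ, ← Real.rpow_add hL0]
      norm_num
    have h10 : 0 ≤ ∑ p ∈ G, (1 : ℝ) / p := Finset.sum_nonneg fun _ _ => by positivity
    calc 2 * θ * (∑ p ∈ G, (1 : ℝ) / p) * Real.log (ε * L) ^ 2
        ≤ 2 * θ * (1 + Real.log L) * Real.log L ^ 2 := by gcongr
      _ ≤ 2 * θ * (2 * Real.log L) * Real.log L ^ 2 := by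
          gcongr
          linarith
      _ = 4 * θ * Real.log L ^ 3 := by ring
      _ ≤ θ * (6 * Real.log L ^ 3) := by
          have : 0 ≤ θ * Real.log L ^ 3 := by positivity
          nlinarith
      _ ≤ θ * L ^ (1 / 400 : ℝ) := mul_le_mul_of_nonneg_left h2 hθ0.le
      _ = 1 := h9
  · intro j hj1 hj2 hj3 hj4 hj5
    have h6 : j.1.primeFactors ∩ G = j.1.primeFactors.filter fun p : ℕ =>
        L ^ (1 / 200 : ℝ) < (p : ℝ) ∧ (p : ℝ) ≤ ε * L := by
      ext p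
      rw [Finset.mem_inter, hGm, Finset.mem_filter]
      constructor
      · rintro ⟨h7, _, h8⟩
        exact ⟨h7, h8⟩
      · rintro ⟨h7, h8⟩
        exact ⟨h7, Nat.prime_of_mem_primeFactors h7, h8⟩
    have h7 : m ≤ (j.1.primeFactors ∩ G).card := by
      rw [h6]
      exact Nat.ceil_le.2 hj5
    obtain ⟨p, hp⟩ := hD2 (j.1.primeFactors ∩ G) (by
      rw [hFF, Finset.mem_image]
      exact ⟨j, Finset.mem_filter.2 ⟨(hF j).2 ⟨⟨hj1, hj2, hj3⟩, hj4⟩, h7⟩, rfl⟩)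
    rw [Finset.mem_inter, Finset.mem_inter] at hp
    exact ⟨p, hp.1, Nat.dvd_of_mem_primeFactors hp.2.1⟩

/-- **Bombieri-Vinogradov with a large modulus.**  For all `δ ∈ (0, 1/2)` and `A` there is `ε₀ > 0`
such that for `0 < ε ≤ ε₀`, all `K` and all large `N` there is a finite set `D` of primes `> K`, all
but at most one of them in a set `D'` of primes `≤ y = ε log N` with `∑_{p ∈ D'} 1/p ≤ 1/(log y)^2`,
such that for `q₀ = ∏_{p ≤ y, p ∉ D} p` the primes in `(N, 2N]` have level of distribution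
`N^(1/2-δ)` for the moduli `q₀ r`, `r` squarefree and coprime to `q₀` and to `D`. -/
theorem mbv (δ A : ℝ) (hδ : 0 < δ) (hδ2 : δ < 1 / 2) :
    ∃ ε₀ : ℝ, 0 < ε₀ ∧ ∀ ε : ℝ, 0 < ε → ε ≤ ε₀ → ∀ K : ℕ, ∃ N₀ : ℕ, ∀ N : ℕ, N₀ ≤ N →
      ∃ D D' : Finset ℕ, D' ⊆ D ∧ (D \ D').card ≤ 1 ∧ (∀ p ∈ D, p.Prime ∧ K < p) ∧
        (∀ p ∈ D', (p : ℝ) ≤ ε * Real.log N) ∧
        ∑ p ∈ D', (1 : ℝ) / p ≤ 1 / Real.log (ε * Real.log N) ^ 2 ∧
        ∀ (R : Finset ℕ), (∀ r ∈ R, Squarefree r ∧ (r : ℝ) ≤ (N : ℝ) ^ (1 / 2 - δ) ∧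
            r.Coprime (qz (ε * Real.log N) D) ∧ ∀ p ∈ D, ¬ p ∣ r) →
          ∀ a : ℕ → ℕ, (∀ r ∈ R, (a r).Coprime (qz (ε * Real.log N) D * r)) →
            ∑ r ∈ R, |Psi N (qz (ε * Real.log N) D * r) (a r) -
                Psi N 1 0 / (Nat.totient (qz (ε * Real.log N) D * r) : ℝ)| ≤
              N / ((Nat.totient (qz (ε * Real.log N) D) : ℝ) * Real.log N ^ A) := by
  classical
  obtain ⟨κ, hκ, huni⟩ := unique
  obtain ⟨ε₁, A', B, hε₁, hε₁2, hB, hcore⟩ := core δ (A + 1) hδ hδ2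
  refine ⟨ε₁ / 2, by positivity, fun ε hε hεle K => ?_⟩
  have hε1 : ε ≤ 1 := by linarith
  have e1 := hitting A' ε hε hε1
  have e2 := small_good κ A' hκ
  have e3 := exc_prime κ K
  have e4 := mny_nat ε B hε hε1
  have e5 := log_tendsto.eventually (eventually_ge_atTop (3 : ℝ))
  have e6 := log_tendsto.eventually ((tendsto_rpow_atTop
    (show (0 : ℝ) < 1 / 200 by norm_num)).eventually (eventually_gt_atTop (K : ℝ)))
  have e7 := log_tendsto.eventually ((tendsto_rpow_atTop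
    (show (0 : ℝ) < 1 / 100 by norm_num)).eventually (eventually_ge_atTop (2 : ℝ)))
  have e8 : ∀ᶠ N : ℕ in atTop, (N : ℝ) ^ (1 / 400 : ℝ) * Real.log N ^ B ≤
      (N : ℝ) ^ (1 / 20 : ℝ) := by
    have h := (isLittleO_log_rpow_rpow_atTop B (show (0 : ℝ) < 1 / 20 - 1 / 400 by norm_num)).bound
      one_pos
    filter_upwards [tendsto_natCast_atTop_atTop.eventually h, eventually_ge_atTop 1] with N hN hN1
    have hN0 : (0 : ℝ) < N := by exact_mod_cast hN1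
    have hL : 0 ≤ Real.log N := Real.log_nonneg (by exact_mod_cast hN1)
    rw [Real.norm_of_nonneg (Real.rpow_nonneg hL _), Real.norm_of_nonneg (by positivity),
      one_mul] at hN
    calc (N : ℝ) ^ (1 / 400 : ℝ) * Real.log N ^ B
        ≤ (N : ℝ) ^ (1 / 400 : ℝ) * (N : ℝ) ^ (1 / 20 - 1 / 400 : ℝ) := by gcongr
      _ = (N : ℝ) ^ (1 / 20 : ℝ) := by
          rw [← Real.rpow_add hN0]
          norm_num
  obtain ⟨N₀, hN₀⟩ := eventually_atTop.1 (hcore.and (e1.and (e2.and (e3.and (e4.and (e5.and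
    (e6.and (e7.and (e8.and (eventually_ge_atTop 3))))))))))
  refine ⟨N₀, fun N hN => ?_⟩
  obtain ⟨hcore, e1, e2, e3, e4, e5, e6, e7, e8, hN3⟩ := hN₀ N hN
  set L : ℝ := Real.log N with hL
  have hL0 : 0 < L := by linarith
  have hy0 : 0 ≤ ε * L := by positivity
  obtain ⟨D', hD'1, hD'2, hD'3⟩ := e1
  have hQ3 : 3 ≤ QN N := by
    unfold QN
    have := Real.add_one_le_exp (Real.log N ^ (1 / 100 : ℝ))
    linarith
  -- the exceptional prime
  obtain ⟨D, hDD', hDc, hDK, hDe⟩ : ∃ D : Finset ℕ, D' ⊆ D ∧ (D \ D').card ≤ 1 ∧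
      (∀ p ∈ D, p.Prime ∧ K < p) ∧ ∀ j : PC, 2 ≤ j.1 → Squarefree j.1 → (j.1 : ℝ) ≤ QN N →
        j.2.IsPrimitive → Exc κ (QN N) j → ∃ p ∈ D, p ∣ j.1 := by
    have hD'K : ∀ p ∈ D', p.Prime ∧ K < p := by
      intro p hp
      have h := hD'1 p hp
      refine ⟨h.1, ?_⟩
      have : (K : ℝ) < p := lt_trans e6 h.2.1
      exact_mod_cast this
    by_cases hex : ∃ j : PC, 2 ≤ j.1 ∧ Squarefree j.1 ∧ (j.1 : ℝ) ≤ QN N ∧ j.2.IsPrimitive ∧
        Exc κ (QN N) j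
    · obtain ⟨j₀, h1, h2, h3, h4, h5⟩ := hex
      obtain ⟨p₀, hp1, hp2, hp3⟩ := e3 j₀ h1 h2 h4 h5
      refine ⟨insert p₀ D', Finset.subset_insert _ _, ?_, ?_, ?_⟩
      · refine (Finset.card_le_card (t := {p₀}) ?_).trans (by simp)
        intro p hp
        rw [Finset.mem_sdiff, Finset.mem_insert] at hp
        rw [Finset.mem_singleton]
        tauto
      · intro p hp
        rcases Finset.mem_insert.1 hp with rfl | hp
        · exact ⟨hp1, hp2⟩
        · exact hD'K p hp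
      · intro j g1 g2 g3 g4 g5
        have h6 : j = j₀ := huni (QN N) hQ3 j j₀ g1 h1 g3 h3 g4 h4 g5 h5
        subst h6
        exact ⟨p₀, Finset.mem_insert_self _ _, hp3⟩
    · refine ⟨D', subset_rfl, by simp, hD'K, ?_⟩
      intro j g1 g2 g3 g4 g5
      exact absurd ⟨j, g1, g2, g3, g4, g5⟩ hex
  refine ⟨D, D', hDD', hDc, hDK, fun p hp => (hD'1 p hp).2.2, hD'2, ?_⟩
  intro R hR a ha
  set q₀ : ℕ := qz (ε * L) D with hq₀
  have hq₀1 : 1 ≤ q₀ := qz_pos _ _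
  have hN1 : (1 : ℝ) ≤ N := by exact_mod_cast (show 1 ≤ N by omega)
  have hq₀le : (q₀ : ℝ) ≤ (N : ℝ) ^ ε₁ :=
    (qz_le D (by omega) hε.le).trans (Real.rpow_le_rpow_of_exponent_le hN1 (by linarith))
  have hR' : ∀ r ∈ R, 1 ≤ r ∧ (r : ℝ) ≤ (N : ℝ) ^ (1 / 2 - δ) ∧ r.Coprime q₀ := by
    intro r hr
    obtain ⟨h1, h2, h3, _⟩ := hR r hr
    exact ⟨Nat.one_le_iff_ne_zero.2 h1.ne_zero, h2, h3⟩
  have hgood : ∀ r ∈ R, ∀ j ∈ PR (q₀ * r), (sj q₀ j : ℝ) ≤ Real.log N ^ B → ¬ Bad A' N j := by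
    intro r hr j hj hs hbad
    obtain ⟨hr1, hr2, hr3, hr4⟩ := hR r hr
    obtain ⟨hj0, hj1, hj2, hj3⟩ := mem_PR.1 hj
    have hsq : Squarefree (q₀ * r) :=
      (Nat.squarefree_mul hr3.symm).2 ⟨qz_sqf _ _, hr1⟩
    have hjsq : Squarefree j.1 := hsq.squarefree_of_dvd hj1
    have hno : ∀ p ∈ D, ¬ p ∣ j.1 := by
      intro p hp hpj
      have hpp := (hDK p hp).1
      rcases (Nat.Prime.dvd_mul hpp).1 (hpj.trans hj1) with h | h
      · exact ((dvd_qz hy0 hpp).1 h).2 hp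
      · exact hr4 p hp h
    have hg1 : Nat.gcd j.1 q₀ ∣ j.1 := Nat.gcd_dvd_left _ _
    have hg2 : Nat.gcd j.1 q₀ ∣ q₀ := Nat.gcd_dvd_right _ _
    have hjs : j.1 = Nat.gcd j.1 q₀ * sj q₀ j := by
      unfold sj
      exact (Nat.mul_div_cancel' hg1).symm
    have hs1 : 1 ≤ sj q₀ j := by
      rcases Nat.eq_zero_or_pos (sj q₀ j) with h | h
      · rw [h, Nat.mul_zero] at hjs
        omega
      · exact h
    have hdvd : j.1 ∣ q₀ * sj q₀ j := by
      conv_lhs => rw [hjs]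
      exact Nat.mul_dvd_mul_right hg2 _
    have hjle : (j.1 : ℝ) ≤ (N : ℝ) ^ (1 / 20 : ℝ) := by
      have h1 : j.1 ≤ q₀ * sj q₀ j := Nat.le_of_dvd (Nat.mul_pos hq₀1 hs1) hdvd
      have h2 : (q₀ : ℝ) ≤ (N : ℝ) ^ (1 / 400 : ℝ) :=
        hq₀le.trans (Real.rpow_le_rpow_of_exponent_le hN1 hε₁2)
      calc (j.1 : ℝ) ≤ (q₀ : ℝ) * sj q₀ j := by exact_mod_cast h1
        _ ≤ (N : ℝ) ^ (1 / 400 : ℝ) * L ^ B := by gcongr
        _ ≤ _ := e8
    rcases lt_or_ge (QN N) (j.1 : ℝ) with h | h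
    · have h1 := e4 q₀ (sj q₀ j) j.1 (qz_sqf _ _) (fun p hp =>
        ((dvd_qz hy0 (Nat.prime_of_mem_primeFactors hp)).1 (Nat.dvd_of_mem_primeFactors hp)).1)
        hs1 hs hdvd h
      obtain ⟨p, hp, hpj⟩ := hD'3 j hj2 hjle hj3 hbad h1
      exact hno p (hDD' hp) hpj
    · by_cases hexc : Exc κ (QN N) j
      · obtain ⟨p, hp, hpj⟩ := hDe j hj2 hjsq h hj3 hexc
        exact hno p hp hpj
      · exact e2 j hj2 h hj3 hexc hbad
  have h1 := hcore q₀ hq₀1 hq₀le R hR' hgood a ha (2 * N) (Or.inr rfl)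
  have h2 := hcore q₀ hq₀1 hq₀le R hR' hgood a ha N (Or.inl rfl)
  have hφ : (0 : ℝ) < Nat.totient q₀ := by exact_mod_cast Nat.totient_pos.2 hq₀1
  calc ∑ r ∈ R, |Psi N (q₀ * r) (a r) - Psi N 1 0 / (Nat.totient (q₀ * r) : ℝ)|
      ≤ ∑ r ∈ R, (|psiA (2 * N) (q₀ * r) (a r) - psi0 (2 * N) / Nat.totient (q₀ * r)| +
          |psiA N (q₀ * r) (a r) - psi0 N / Nat.totient (q₀ * r)|) := by
        refine Finset.sum_le_sum fun r _ => ?_
        rw [Psi_eq, Psi_one]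
        have h3 : psiA (2 * N) (q₀ * r) (a r) - psiA N (q₀ * r) (a r) -
            (psi0 (2 * N) - psi0 N) / (Nat.totient (q₀ * r) : ℝ) =
            (psiA (2 * N) (q₀ * r) (a r) - psi0 (2 * N) / Nat.totient (q₀ * r)) -
            (psiA N (q₀ * r) (a r) - psi0 N / Nat.totient (q₀ * r)) := by ring
        rw [h3]
        exact abs_sub _ _
    _ ≤ N / (Nat.totient q₀ * L ^ (A + 1)) + N / (Nat.totient q₀ * L ^ (A + 1)) := by
        rw [Finset.sum_add_distrib]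
        exact add_le_add h1 h2
    _ ≤ N / ((Nat.totient q₀ : ℝ) * L ^ A) := by
        have hLA : 0 < L ^ A := Real.rpow_pos_of_pos hL0 _
        rw [Real.rpow_add_one hL0.ne']
        have h3 : (N : ℝ) / (Nat.totient q₀ * (L ^ A * L)) =
            N / (Nat.totient q₀ * L ^ A) / L := by
          field_simp
        rw [h3, ← two_mul, ← mul_div_assoc, div_le_iff₀ hL0]
        have h4 : (0 : ℝ) ≤ N / (Nat.totient q₀ * L ^ A) := by positivity
        nlinarith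

end PGB
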