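import Mathlib

/-!
# Project PGB, Mel: the kernel of `log⁺`

PROOF.  Put `g(u) = max(u, 0) e^{-c u}` (real `u`), with values in `ℂ`.  It is continuous and
integrable.  Its Fourier transform is
`𝓕 g ξ = ∫ u in Ioi 0, u * exp (-(c + 2 π i ξ) u) = 1 / (c + 2 π i ξ)^2`
(`integral_cpow_mul_exp_neg_mul_Ioi` with exponent `a = 2`, `Gamma 2 = 1`, or two integrations by
parts), which is continuous and integrable (its norm is `1 / (c^2 + 4 π² ξ²)`).  By Fourier inversion
(`MeasureTheory.Integrable.fourierInv_fourier_eq` or `Continuous.fourierInv_fourier_eq`)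
`g(u) = ∫ ξ, exp(2 π i ξ u) / (c + 2 π i ξ)^2`.  Substitute `t = 2 π ξ`
(`MeasureTheory.Measure.integral_comp_mul_left`), take `u = log y` and multiply by `e^{c u} = y^c`;
`(y : ℂ) ^ (c + t I) = exp((c + t I) log y)` (`Complex.cpow_def_of_ne_zero`, `Complex.ofReal_log`).
-/

set_option autoImplicit false

open MeasureTheory

namespace PGB

private theorem ne_zero_14 {c : ℝ} (hc : 0 < c) (t : ℝ) : (c : ℂ) + t * Complex.I ≠ 0 := by
  intro h
  have := congrArg Complex.re h
  simp at this
  exact hc.ne' this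

private theorem norm_sq_14 (c t : ℝ) : ‖((c : ℂ) + t * Complex.I) ^ 2‖ = c ^ 2 + t ^ 2 := by
  rw [norm_pow, ← Complex.normSq_eq_norm_sq, Complex.normSq_add_mul_I]

private theorem cont_14 {c : ℝ} (hc : 0 < c) {y : ℝ} (hy : 0 < y) :
    Continuous (fun t : ℝ => (y : ℂ) ^ ((c : ℂ) + t * Complex.I) /
      ((c : ℂ) + t * Complex.I) ^ 2) := by
  refine Continuous.div ?_ (by fun_prop) fun t => pow_ne_zero 2 (ne_zero_14 hc t)
  exact Continuous.const_cpow (by fun_prop) (Or.inl (by exact_mod_cast hy.ne'))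

/-- The kernel is integrable. -/
theorem logplus_int {c : ℝ} (hc : 0 < c) {y : ℝ} (hy : 0 < y) :
    Integrable (fun t : ℝ => (y : ℂ) ^ ((c : ℂ) + t * Complex.I) /
      ((c : ℂ) + t * Complex.I) ^ 2) := by
  have h1 : Integrable (fun t : ℝ => y ^ c * ((1 + 1 / c ^ 2) * (1 + t ^ 2)⁻¹)) :=
    (integrable_inv_one_add_sq.const_mul _).const_mul _
  refine h1.mono' (cont_14 hc hy).aestronglyMeasurable (Filter.Eventually.of_forall fun t => ?_)
  rw [norm_div, norm_sq_14, Complex.norm_cpow_eq_rpow_re_of_pos hy]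
  have e : ((c : ℂ) + t * Complex.I).re = c := by simp
  rw [e, div_eq_mul_inv]
  refine mul_le_mul_of_nonneg_left ?_ (Real.rpow_nonneg hy.le _)
  have hc2 : 0 < c ^ 2 := by positivity
  rw [← div_eq_mul_inv, inv_eq_one_div, div_le_div_iff₀ (by positivity) (by positivity), one_mul]
  have e2 : (1 + 1 / c ^ 2) * (c ^ 2 + t ^ 2) = 1 + t ^ 2 + (c ^ 2 + t ^ 2 / c ^ 2) := by
    field_simp
    ring
  rw [e2]
  have : 0 ≤ c ^ 2 + t ^ 2 / c ^ 2 := by positivity
  linarith

private noncomputable def f0_14 : ℝ → ℂ := Set.indicator (Set.Ioc 0 1) (fun _ => 1)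

private theorem mel_14 {s : ℂ} (hs : 0 < s.re) :
    MellinConvergent (fun t => Real.log t • f0_14 t) s ∧
      mellin (fun t => Real.log t • f0_14 t) s = -(1 / s ^ 2) := by
  have h := mellin_hasDerivAt_of_isBigO_rpow (a := s.re + 1) (b := 0) (f := f0_14) (s := s) ?_ ?_
    (by linarith) ?_ hs
  · refine ⟨h.1, ?_⟩
    have h2 := h.2
    have hs0 : s ≠ 0 := by
      intro h0
      rw [h0] at hs
      simp at hs
    have h3 : HasDerivAt (fun z : ℂ => 1 / z) (-(1 / s ^ 2)) s := by
      have := hasDerivAt_inv hs0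
      simpa [one_div] using this
    have h4 : (mellin f0_14) =ᶠ[nhds s] fun z : ℂ => 1 / z := by
      have hopen : IsOpen {z : ℂ | 0 < z.re} := isOpen_lt continuous_const Complex.continuous_re
      filter_upwards [hopen.mem_nhds hs] with z hz
      exact (hasMellin_one_Ioc hz).2
    exact h2.unique (h3.congr_of_eventuallyEq h4)
  · apply LocallyIntegrable.locallyIntegrableOn
    apply Integrable.locallyIntegrable
    unfold f0_14
    rw [integrable_indicator_iff measurableSet_Ioc]
    exact integrableOn_const (by simp) (by simp)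
  · refine Asymptotics.IsBigO.of_bound 1 ?_
    filter_upwards [Filter.eventually_gt_atTop (1 : ℝ)] with t ht
    have : f0_14 t = 0 := by
      unfold f0_14
      rw [Set.indicator_of_notMem]
      intro h
      exact absurd h.2 (not_le.2 ht)
    rw [this]
    simp
  · refine Asymptotics.IsBigO.of_bound 1 (Filter.Eventually.of_forall fun t => ?_)
    have : ‖f0_14 t‖ ≤ 1 := by
      unfold f0_14
      by_cases h : t ∈ Set.Ioc (0 : ℝ) 1
      · rw [Set.indicator_of_mem h]
        simp
      · rw [Set.indicator_of_notMem h]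
        simp
    simpa using this

/-- The Mellin kernel of `log⁺ y`. -/
theorem logplus_eq {c : ℝ} (hc : 0 < c) {y : ℝ} (hy : 0 < y) :
    ((max (Real.log y) 0 : ℝ) : ℂ) = (1 / (2 * (Real.pi : ℂ))) *
      ∫ t : ℝ, (y : ℂ) ^ ((c : ℂ) + t * Complex.I) / ((c : ℂ) + t * Complex.I) ^ 2 := by
  have hre : ∀ t : ℝ, 0 < ((c : ℂ) + t * Complex.I).re := fun t => by simpa using hc
  have hm : ∀ {s : ℂ}, 0 < s.re → MellinConvergent (fun t => -(Real.log t • f0_14 t)) s ∧
      mellin (fun t => -(Real.log t • f0_14 t)) s = 1 / s ^ 2 := by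
    intro s hs
    obtain ⟨h1, h2⟩ := mel_14 hs
    constructor
    · have := h1.const_smul (-1 : ℂ)
      simpa using this
    · have := mellin_const_smul (fun t => Real.log t • f0_14 t) s (-1 : ℂ)
      simp only [neg_smul, one_smul] at this
      rw [this, h2, neg_neg]
  have hx : 0 < y⁻¹ := inv_pos.2 hy
  have hval : ∀ x : ℝ, 0 < x → -(Real.log x • f0_14 x) = ((max (-Real.log x) 0 : ℝ) : ℂ) := by
    intro x hx
    unfold f0_14
    by_cases h : x ≤ 1
    · rw [Set.indicator_of_mem (Set.mem_Ioc.2 ⟨hx, h⟩), max_eq_left]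
      · push_cast
        simp
      · have := Real.log_nonpos hx.le h
        linarith
    · rw [Set.indicator_of_notMem (fun h' => h h'.2), max_eq_right]
      · simp
      · have := Real.log_nonneg (not_le.1 h).le
        linarith
  have hcts : ContinuousAt (fun t : ℝ => -(Real.log t • f0_14 t)) y⁻¹ := by
    have h1 : ContinuousAt (fun t : ℝ => ((max (-Real.log t) 0 : ℝ) : ℂ)) y⁻¹ := by
      apply Complex.continuous_ofReal.continuousAt.comp
      have h2 : ContinuousAt (fun t : ℝ => -Real.log t) y⁻¹ := (Real.continuousAt_log hx.ne').neg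
      exact h2.max continuousAt_const
    refine h1.congr ?_
    filter_upwards [lt_mem_nhds hx] with t ht
    exact (hval t ht).symm
  have hvert : Complex.VerticalIntegrable (mellin (fun t => -(Real.log t • f0_14 t))) c := by
    unfold Complex.VerticalIntegrable
    have h1 := logplus_int hc one_pos
    refine h1.congr (Filter.Eventually.of_forall fun t => ?_)
    show _ = mellin (fun t => -(Real.log t • f0_14 t)) ((c : ℂ) + t * Complex.I)
    rw [(hm (hre t)).2]
    simp
  have key := mellinInv_mellin_eq c (fun t => -(Real.log t • f0_14 t)) hx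
    (hm (by simpa using hc)).1 hvert hcts
  rw [hval _ hx, Real.log_inv, neg_neg] at key
  rw [← key, mellinInv]
  have e1 : ∀ t : ℝ, ((y⁻¹ : ℝ) : ℂ) ^ (-((c : ℂ) + t * Complex.I)) •
      mellin (fun t => -(Real.log t • f0_14 t)) ((c : ℂ) + t * Complex.I) =
      (y : ℂ) ^ ((c : ℂ) + t * Complex.I) / ((c : ℂ) + t * Complex.I) ^ 2 := by
    intro t
    rw [(hm (hre t)).2, Complex.ofReal_inv, Complex.cpow_neg, Complex.inv_cpow, inv_inv,
      smul_eq_mul, mul_one_div]
    rw [Complex.arg_ofReal_of_nonneg hy.le]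
    exact Real.pi_pos.ne
  simp only [e1]
  rw [Complex.real_smul]
  push_cast
  rfl

end PGB
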