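import Pool.Agent.PGB.Pcs
import Pool.Agent.PGB.Dv
import Pool.Agent.PGB.Lsb

/-!
# Project PGB, Pcb: sizes of products of pieces

Notation: `P_S = 2 ^ ∑_{i ∈ S} (e i + 1)`, `E_S = 2 ^ ∑_{i ∈ S} e i`.

PROOFS.
* `GS_supp`: `(f * g) n ≠ 0` gives `n = a b` with `f a ≠ 0`, `g b ≠ 0` (`ArithmeticFunction.mul_apply`);
  induction over `S` (`Finset.induction_on`, `Finset.prod_insert`), the empty product is `1`
  (supported at `n = 1`).
* `GS_low`: the same induction for the lower end.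
* `GS_norm`: if `1 ≤ L` and `log (2^(e i + 1)) ≤ L` for all `i ∈ S`, then `‖GS n‖ ≤ (L τ(n))^|S|` for
  `n ≥ 1`.  Induction: `‖pc .. a‖ ≤ L` for all `a` (cases `c i = 0, 1, 2, 3`; `|μ| ≤ 1`;
  `0 ≤ log a ≤ log 2^(e+1)`), and
  `‖(f * g) n‖ ≤ ∑_{a b = n} L (L τ(b))^s ≤ τ(n) L (L τ(n))^s` (`τ(b) ≤ τ(n)` for `b ∣ n`:
  `Nat.divisors_subset_of_dvd`; the number of pairs is `τ(n)`:
  `Nat.divisorsAntidiagonal`, `Nat.card_divisorsAntidiagonal` or `Nat.map_div_right_divisors`).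
* `GS_size`: eventually in `N`: `L = 3 log N` is admissible (`2^(e i + 1) ≤ 2 * 10 N ≤ N^2` as
  `2^(e i) ≤ E_S ≤ 10 N`), `P_S ≤ 64 E_S ≤ 640 N ≤ N^2`.  `nsq (GS) P_S ≤ ∑_{1 ≤ n ≤ P_S}
  (L τ(n))^(2 |S|) ≤ L^12 P_S (1 + log P_S)^(2^12)` (`mom` with `k = 12`, `τ ≥ 1`, `L ≥ 1`;
  `|S| ≤ 6`), and `≤ P_S (log N)^C` for `C = 5000`.  Similarly the `ℓ¹` norm with `k = 6`.
  (`1 + log P_S ≤ 1 + 2 log N ≤ 3 log N`, `3 log N ≤ (log N)^2`, so
  `L^12 (3 log N)^4096 ≤ (log N)^(24 + 8192)`: take `C = 9000`.)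
-/

set_option autoImplicit false

open Finset Filter

namespace PGB

private theorem pc_zero (z e : ℕ) (c : Fin 4) : pc z e c 0 = 0 := ArithmeticFunction.map_zero

private theorem pc_eq_zero (z e : ℕ) (c : Fin 4) (n : ℕ) (h : ¬ (2 ^ e ≤ n ∧ n < 2 ^ (e + 1))) :
    pc z e c n = 0 := by
  show (if 2 ^ e ≤ n ∧ n < 2 ^ (e + 1) then base z c n else 0) = 0
  rw [if_neg h]

private theorem pc_eq (z e : ℕ) (c : Fin 4) (n : ℕ) (h : 2 ^ e ≤ n ∧ n < 2 ^ (e + 1)) :
    pc z e c n = base z c n := by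
  show (if 2 ^ e ≤ n ∧ n < 2 ^ (e + 1) then base z c n else 0) = _
  rw [if_pos h]

private theorem GS_empty (z : ℕ) (e : Fin 6 → ℕ) (c : Fin 6 → Fin 4) : GS z e c ∅ = 1 := by
  unfold GS
  rw [Finset.prod_empty]

private theorem GS_insert (z : ℕ) (e : Fin 6 → ℕ) (c : Fin 6 → Fin 4) {i : Fin 6}
    {S : Finset (Fin 6)} (hi : i ∉ S) :
    GS z e c (insert i S) = pc z (e i) (c i) * GS z e c S := by
  unfold GS
  rw [Finset.prod_insert hi]

private theorem pc_supp (z e : ℕ) (c : Fin 4) : Supp (2 ^ (e + 1)) (pc z e c) := by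
  intro n hn
  rcases hn with hn | hn
  · rw [hn]; exact pc_zero z e c
  · exact pc_eq_zero z e c n (by omega)

theorem GS_supp (z : ℕ) (e : Fin 6 → ℕ) (c : Fin 6 → Fin 4) (S : Finset (Fin 6)) :
    Supp (2 ^ ∑ i ∈ S, (e i + 1)) (GS z e c S) := by
  classical
  induction S using Finset.induction_on with
  | empty =>
    rw [GS_empty, Finset.sum_empty, pow_zero]
    intro n hn
    rw [ArithmeticFunction.one_apply, if_neg (by omega)]
  | insert i S hi ih =>
    rw [GS_insert z e c hi, Finset.sum_insert hi, pow_add]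
    exact Supp_mul (pc_supp z (e i) (c i)) ih

theorem GS_low (z : ℕ) (e : Fin 6 → ℕ) (c : Fin 6 → Fin 4) (S : Finset (Fin 6)) (n : ℕ)
    (hn : n < 2 ^ ∑ i ∈ S, e i) : GS z e c S n = 0 := by
  classical
  induction S using Finset.induction_on generalizing n with
  | empty =>
    rw [Finset.sum_empty, pow_zero] at hn
    have : n = 0 := by omega
    rw [this]
    exact ArithmeticFunction.map_zero
  | insert i S hi ih =>
    rw [GS_insert z e c hi, ArithmeticFunction.mul_apply]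
    rw [Finset.sum_insert hi, pow_add] at hn
    refine Finset.sum_eq_zero fun x hx => ?_
    rw [Nat.mem_divisorsAntidiagonal] at hx
    by_cases h1 : x.1 < 2 ^ e i
    · rw [pc_eq_zero z (e i) (c i) x.1 (by omega), zero_mul]
    · by_cases h2 : x.2 < 2 ^ ∑ i ∈ S, e i
      · rw [ih x.2 h2, mul_zero]
      · exfalso
        have := Nat.mul_le_mul (not_lt.1 h1) (not_lt.1 h2)
        rw [hx.1] at this
        omega

private theorem norm_base_le (z e : ℕ) (c : Fin 4) {L : ℝ} (hL : 1 ≤ L)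
    (h : Real.log (2 ^ (e + 1)) ≤ L) (n : ℕ) (hn : 1 ≤ n) (hn2 : n < 2 ^ (e + 1)) :
    ‖base z c n‖ ≤ L := by
  have hc : c = 0 ∨ c = 1 ∨ c = 2 ∨ c = 3 := by
    fin_cases c <;> simp
  rcases hc with rfl | rfl | rfl | rfl
  · show ‖(1 : ArithmeticFunction ℂ) n‖ ≤ L
    rw [ArithmeticFunction.one_apply]
    split_ifs
    · rw [norm_one]; exact hL
    · rw [norm_zero]; linarith
  · show ‖(if n ≤ z then ((ArithmeticFunction.moebius n : ℤ) : ℂ) else 0)‖ ≤ L
    split_ifs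
    · rw [Complex.norm_intCast]
      refine le_trans ?_ hL
      have := ArithmeticFunction.abs_moebius_le_one (n := n)
      exact_mod_cast this
    · rw [norm_zero]; linarith
  · show ‖(if n = 0 then (0 : ℂ) else 1)‖ ≤ L
    split_ifs
    · rw [norm_zero]; linarith
    · rw [norm_one]; exact hL
  · show ‖((Real.log n : ℝ) : ℂ)‖ ≤ L
    have hn' : (1 : ℝ) ≤ n := by exact_mod_cast hn
    rw [Complex.norm_real, Real.norm_of_nonneg (Real.log_nonneg hn')]
    refine le_trans (Real.log_le_log (by linarith) ?_) h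
    exact_mod_cast hn2.le

private theorem norm_pc_le (z e : ℕ) (c : Fin 4) {L : ℝ} (hL : 1 ≤ L)
    (h : Real.log (2 ^ (e + 1)) ≤ L) (n : ℕ) : ‖pc z e c n‖ ≤ L := by
  by_cases h1 : 2 ^ e ≤ n ∧ n < 2 ^ (e + 1)
  · rw [pc_eq z e c n h1]
    exact norm_base_le z e c hL h n (le_trans (Nat.one_le_two_pow) h1.1) h1.2
  · rw [pc_eq_zero z e c n h1, norm_zero]
    linarith

private theorem card_anti (n : ℕ) : (n.divisorsAntidiagonal).card = n.divisors.card := by
  rw [← Nat.map_div_right_divisors, Finset.card_map]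

theorem GS_norm (z : ℕ) (e : Fin 6 → ℕ) (c : Fin 6 → Fin 4) (S : Finset (Fin 6)) {L : ℝ}
    (hL : 1 ≤ L) (h : ∀ i ∈ S, Real.log (2 ^ (e i + 1)) ≤ L) (n : ℕ) (hn : 1 ≤ n) :
    ‖GS z e c S n‖ ≤ (L * n.divisors.card) ^ S.card := by
  classical
  induction S using Finset.induction_on generalizing n with
  | empty =>
    rw [GS_empty, Finset.card_empty, pow_zero, ArithmeticFunction.one_apply]
    split_ifs
    · rw [norm_one]
    · rw [norm_zero]; exact zero_le_one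
  | insert i S hi ih =>
    rw [GS_insert z e c hi, ArithmeticFunction.mul_apply, Finset.card_insert_of_notMem hi]
    have h1 : ∀ x ∈ n.divisorsAntidiagonal,
        ‖pc z (e i) (c i) x.1 * GS z e c S x.2‖ ≤ L * (L * n.divisors.card) ^ S.card := by
      intro x hx
      rw [Nat.mem_divisorsAntidiagonal] at hx
      have hx2 : x.2 ∣ n := ⟨x.1, by rw [mul_comm]; exact hx.1.symm⟩
      have hx0 : 1 ≤ x.2 := Nat.pos_of_dvd_of_pos hx2 hn
      rw [norm_mul]
      have h2 := norm_pc_le z (e i) (c i) hL (h i (Finset.mem_insert_self i S)) x.1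
      have h3 := ih (fun k hk => h k (Finset.mem_insert_of_mem hk)) x.2 hx0
      have h4 : ((x.2.divisors.card : ℕ) : ℝ) ≤ n.divisors.card := by
        exact_mod_cast Finset.card_le_card (Nat.divisors_subset_of_dvd (by omega) hx2)
      have h5 : (L * x.2.divisors.card) ^ S.card ≤ (L * n.divisors.card) ^ S.card := by
        have : 0 ≤ L := by linarith
        gcongr
      exact mul_le_mul h2 (h3.trans h5) (norm_nonneg _) (by linarith)
    refine (norm_sum_le _ _).trans ((Finset.sum_le_sum h1).trans ?_)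
    rw [Finset.sum_const, card_anti, nsmul_eq_mul, pow_succ]
    apply le_of_eq
    ring

private theorem sumb (F G : ℕ → ℝ) (P : ℕ) (h0 : F 0 = 0)
    (h : ∀ n, 1 ≤ n → F n ≤ G n) : ∑ n ∈ range (P + 1), F n ≤ ∑ n ∈ Icc 1 P, G n := by
  have h1 : ∑ n ∈ range (P + 1), F n = ∑ n ∈ Icc 1 P, F n := by
    symm
    apply Finset.sum_subset
    · intro n hn
      rw [Finset.mem_Icc] at hn
      rw [Finset.mem_range]
      omega
    · intro n hn hn'
      rw [Finset.mem_range] at hn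
      rw [Finset.mem_Icc] at hn'
      have : n = 0 := by omega
      rw [this, h0]
  rw [h1]
  refine Finset.sum_le_sum fun n hn => ?_
  rw [Finset.mem_Icc] at hn
  exact h n hn.1

/-- The `ℓ²` and `ℓ¹` norms of products of pieces. -/
theorem GS_size : ∃ C : ℝ, 0 ≤ C ∧ ∀ᶠ N : ℕ in atTop, ∀ (z : ℕ) (e : Fin 6 → ℕ)
    (c : Fin 6 → Fin 4) (S : Finset (Fin 6)), 2 ^ ∑ i ∈ S, e i ≤ 10 * N →
    nsq (GS z e c S) (2 ^ ∑ i ∈ S, (e i + 1)) ≤
        (2 : ℝ) ^ (∑ i ∈ S, (e i + 1)) * Real.log N ^ C ∧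
      ∑ n ∈ range (2 ^ (∑ i ∈ S, (e i + 1)) + 1), ‖GS z e c S n‖ ≤
        (2 : ℝ) ^ (∑ i ∈ S, (e i + 1)) * Real.log N ^ C := by
  refine ⟨9000, by norm_num, ?_⟩
  have hev : ∀ᶠ N : ℕ in atTop, 3 ≤ Real.log N :=
    (Real.tendsto_log_atTop.comp tendsto_natCast_atTop_atTop).eventually_ge_atTop 3
  filter_upwards [hev, eventually_ge_atTop 640] with N hlog hN z e c S hS
  have hN1 : (640 : ℝ) ≤ N := by exact_mod_cast hN
  have hcard : S.card ≤ 6 := by
    have := Finset.card_le_univ S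
    simpa using this
  obtain ⟨P, hPdef⟩ : ∃ P : ℕ, P = 2 ^ ∑ i ∈ S, (e i + 1) := ⟨_, rfl⟩
  have hPr : (P : ℝ) = (2 : ℝ) ^ ∑ i ∈ S, (e i + 1) := by rw [hPdef]; push_cast; rfl
  rw [← hPdef, ← hPr]
  have hP1 : 1 ≤ P := by rw [hPdef]; exact Nat.one_le_two_pow
  have hP2 : P ≤ 640 * N := by
    have h1 : P = 2 ^ (∑ i ∈ S, e i) * 2 ^ S.card := by
      rw [hPdef, Finset.sum_add_distrib, pow_add]
      simp
    have h2 : 2 ^ S.card ≤ 2 ^ 6 := Nat.pow_le_pow_right (by norm_num) hcard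
    calc P = 2 ^ (∑ i ∈ S, e i) * 2 ^ S.card := h1
      _ ≤ (10 * N) * 2 ^ 6 := Nat.mul_le_mul hS h2
      _ = 640 * N := by ring
  have hP3 : (P : ℝ) ≤ (N : ℝ) ^ 2 := by
    have h1 : (P : ℝ) ≤ 640 * N := by exact_mod_cast hP2
    nlinarith
  obtain ⟨L, hLdef⟩ : ∃ L : ℝ, L = 3 * Real.log N := ⟨_, rfl⟩
  have hL1 : 1 ≤ L := by rw [hLdef]; linarith
  have hL2 : L ≤ Real.log N ^ 2 := by rw [hLdef]; nlinarith
  have hlogN2 : Real.log ((N : ℝ) ^ 2) = 2 * Real.log N := by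
    rw [Real.log_pow]; push_cast; ring
  have hPL : 1 + Real.log P ≤ L := by
    have h1 : Real.log P ≤ Real.log ((N : ℝ) ^ 2) :=
      Real.log_le_log (by exact_mod_cast hP1) hP3
    rw [hlogN2] at h1
    rw [hLdef]; linarith
  have hlogP0 : 0 ≤ Real.log P := Real.log_nonneg (by exact_mod_cast hP1)
  have hi : ∀ i ∈ S, Real.log (2 ^ (e i + 1)) ≤ L := by
    intro i hi
    have h1 : 2 ^ (e i) ≤ 2 ^ ∑ i ∈ S, e i :=
      Nat.pow_le_pow_right (by norm_num) (Finset.single_le_sum (fun _ _ => Nat.zero_le _) hi)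
    have h2 : (2 : ℝ) ^ (e i) ≤ 10 * N := by exact_mod_cast h1.trans hS
    have h3 : (2 : ℝ) ^ (e i + 1) ≤ (N : ℝ) ^ 2 := by
      rw [pow_succ]; nlinarith
    have h4 := Real.log_le_log (by positivity) h3
    rw [hlogN2] at h4
    rw [hLdef]; linarith
  have hτ : ∀ n : ℕ, 1 ≤ n → 1 ≤ L * n.divisors.card := by
    intro n hn
    have h1 : (1 : ℝ) ≤ n.divisors.card := by
      exact_mod_cast Finset.card_pos.mpr ⟨1, Nat.one_mem_divisors.mpr (by omega)⟩
    nlinarith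
  have hG : ∀ n : ℕ, 1 ≤ n → ∀ k, k ≤ 2 → ‖GS z e c S n‖ ^ k ≤ (L * n.divisors.card) ^ 12 := by
    intro n hn k hk
    have h1 := GS_norm z e c S hL1 hi n hn
    have h2 : ‖GS z e c S n‖ ^ k ≤ ((L * n.divisors.card) ^ S.card) ^ k :=
      pow_le_pow_left₀ (norm_nonneg _) h1 k
    refine h2.trans ?_
    rw [← pow_mul]
    exact pow_le_pow_right₀ (hτ n hn) (by nlinarith)
  have hmain : ∑ n ∈ Icc 1 P, (L * (n.divisors.card : ℝ)) ^ 12 ≤
      P * Real.log N ^ (9000 : ℝ) := by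
    have h1 : ∑ n ∈ Icc 1 P, (L * (n.divisors.card : ℝ)) ^ 12 =
        L ^ 12 * ∑ n ∈ Icc 1 P, (n.divisors.card : ℝ) ^ 12 := by
      rw [Finset.mul_sum]
      exact Finset.sum_congr rfl fun n _ => mul_pow _ _ _
    have h2 := mom 12 P hP1
    have h3 : (1 + Real.log P) ^ (2 ^ 12) ≤ L ^ (2 ^ 12) :=
      pow_le_pow_left₀ (by linarith) hPL _
    have h4 : L ^ 12 * L ^ (2 ^ 12) ≤ Real.log N ^ (9000 : ℝ) := by
      rw [← pow_add]
      have h5 : L ^ (12 + 2 ^ 12) ≤ (Real.log N ^ 2) ^ (12 + 2 ^ 12) :=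
        pow_le_pow_left₀ (by linarith) hL2 _
      have h6 : Real.log N ^ (9000 : ℝ) = Real.log N ^ (9000 : ℕ) := by
        rw [← Real.rpow_natCast]; norm_num
      rw [h6]
      refine h5.trans ?_
      rw [← pow_mul]
      exact pow_le_pow_right₀ (by linarith) (by norm_num)
    have hL0 : 0 ≤ L := by linarith
    have hP0 : (0 : ℝ) ≤ P := Nat.cast_nonneg _
    rw [h1]
    calc L ^ 12 * ∑ n ∈ Icc 1 P, (n.divisors.card : ℝ) ^ 12
        ≤ L ^ 12 * (P * (1 + Real.log P) ^ (2 ^ 12)) :=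
          mul_le_mul_of_nonneg_left h2 (pow_nonneg hL0 _)
      _ ≤ L ^ 12 * (P * L ^ (2 ^ 12)) :=
          mul_le_mul_of_nonneg_left (mul_le_mul_of_nonneg_left h3 hP0) (pow_nonneg hL0 _)
      _ = P * (L ^ 12 * L ^ (2 ^ 12)) := by rw [mul_left_comm]
      _ ≤ P * Real.log N ^ (9000 : ℝ) := mul_le_mul_of_nonneg_left h4 hP0
  have h0 : GS z e c S 0 = 0 := ArithmeticFunction.map_zero
  constructor
  · unfold nsq
    refine (sumb (fun n => ‖GS z e c S n‖ ^ 2) (fun n => (L * (n.divisors.card : ℝ)) ^ 12) P ?_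
      ?_).trans hmain
    · show ‖GS z e c S 0‖ ^ 2 = 0
      rw [h0, norm_zero]; norm_num
    · intro n hn
      exact hG n hn 2 le_rfl
  · refine (sumb (fun n => ‖GS z e c S n‖) (fun n => (L * (n.divisors.card : ℝ)) ^ 12) P ?_
      ?_).trans hmain
    · show ‖GS z e c S 0‖ = 0
      rw [h0, norm_zero]
    · intro n hn
      have := hG n hn 1 (by norm_num)
      rwa [pow_one] at this

end PGB
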