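import Pool.Agent.PGB.Defs

/-!
# Project PGB, Pcs: pieces, the Heath-Brown identity and the dyadic decomposition

The four basic functions are `δ` (`0`), `μ` truncated at `z` (`1`), the constant `1` (`2`) and `log`
(`3`); `pc z e c` is the restriction of the function `c` to the dyadic interval `[2^e, 2^(e+1))`.

PROOFS.
* `heath_brown`: in the ring `ArithmeticFunction ℂ` let `M = base z 1`, `Z = base z 2` (`= ζ`),
  `L = base z 3`, `Λ` the von Mangoldt function; `Λ * Z = L`
  (`ArithmeticFunction.vonMangoldt_mul_zeta`, cast to `ℂ`).  Let `E = 1 - M * Z`.  `E` vanishes at all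
  `n ≤ z` (for `n ≤ z` the truncation is invisible in `(M * Z) n = ∑_{d ∣ n} μ(d) = [n = 1]`:
  `ArithmeticFunction.moebius_mul_coe_zeta`).  So `(E ^ 3 * Λ) n = 0` for `n ≤ z^3`: a nonzero term
  `a b c d = n` has `a, b, c > z`, `d ≥ 1`, hence `n > z^3` (two or three applications of
  `ArithmeticFunction.mul_apply`; convenient: the lemma that `f * g` vanishes on `[0, A B]` if `f`
  vanishes on `[0, A]` and `g` on `[0, B]`, i.e. `(f * g) n ≠ 0` implies `n ≥ (A+1)(B+1)`).
  Expand: `E^3 Λ = Λ - 3 M Z Λ + 3 M^2 Z^2 Λ - M^3 Z^3 Λ = Λ - 3 M L + 3 M^2 Z L - M^3 Z^2 L`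
  (`ring` after `Z * Λ = L`), and the three products are the products over `Fin 6` of the patterns
  (`Fin.prod_univ_six`, `simp [pat, base]`).  Evaluate at `n`.
* `dyadic`: let `f_i = base z (c i)` and `f_i' = ∑_{e < I} pc z e (c i)`; `f_i' n = f_i n` for
  `n < 2^I` (for `n = 0` both are `0`, for `n ≥ 1` exactly one `e = Nat.log 2 n < I` contributes).
  If `f, f'` and `g, g'` agree on `[0, 2^I)` then `f * g` and `f' * g'` agree there
  (`ArithmeticFunction.mul_apply`, the factors of `n ≠ 0` are `≤ n`); by induction the products over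
  `Fin 6` agree.  Then `Finset.prod_univ_sum` (`∏ i, ∑ e ∈ t i, f i e = ∑ p ∈ piFinset t, ∏ i, f i
  (p i)`), evaluated at `n` (`ArithmeticFunction` sums are pointwise).
-/

set_option autoImplicit false

open Finset

namespace PGB

/-- The four basic functions. -/
noncomputable def base (z : ℕ) (c : Fin 4) : ArithmeticFunction ℂ :=
  ![1,
    ⟨fun n => if n ≤ z then ((ArithmeticFunction.moebius n : ℤ) : ℂ) else 0, by simp⟩,
    ⟨fun n => if n = 0 then 0 else 1, by simp⟩,
    ⟨fun n => ((Real.log n : ℝ) : ℂ), by simp⟩] c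

/-- The restriction of the function `c` to `[2^e, 2^(e+1))`. -/
noncomputable def pc (z e : ℕ) (c : Fin 4) : ArithmeticFunction ℂ :=
  ⟨fun n => if 2 ^ e ≤ n ∧ n < 2 ^ (e + 1) then base z c n else 0, by simp⟩

/-- The product of the pieces with index in `S`. -/
noncomputable def GS (z : ℕ) (e : Fin 6 → ℕ) (c : Fin 6 → Fin 4) (S : Finset (Fin 6)) :
    ArithmeticFunction ℂ := ∏ i ∈ S, pc z (e i) (c i)

/-- The three patterns of the Heath-Brown identity. -/
def pat : Fin 3 → Fin 6 → Fin 4 :=
  ![![1, 0, 0, 0, 0, 3], ![1, 1, 0, 2, 0, 3], ![1, 1, 1, 2, 2, 3]]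

/-- The three coefficients. -/
noncomputable def cf : Fin 3 → ℂ := ![3, -3, 1]

private theorem base_zero (z : ℕ) : base z 0 = 1 := rfl

private theorem base_one_apply (z n : ℕ) :
    base z 1 n = if n ≤ z then ((ArithmeticFunction.moebius n : ℤ) : ℂ) else 0 := rfl

private theorem base_two_apply (z n : ℕ) : base z 2 n = if n = 0 then 0 else 1 := rfl

private theorem base_three_apply (z n : ℕ) : base z 3 n = ((Real.log n : ℝ) : ℂ) := rfl

private theorem base_two_eq (z : ℕ) :
    base z 2 = ((ArithmeticFunction.zeta : ArithmeticFunction ℕ) : ArithmeticFunction ℂ) := by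
  ext n
  rw [base_two_apply, ArithmeticFunction.natCoe_apply, ArithmeticFunction.zeta_apply]
  by_cases h : n = 0 <;> simp [h]

private noncomputable def LamA : ArithmeticFunction ℂ := ⟨fun n => Lam n, by simp [Lam]⟩

private theorem LamA_apply (n : ℕ) : LamA n = Lam n := rfl

private theorem LamA_mul (z : ℕ) : LamA * base z 2 = base z 3 := by
  ext n
  rw [base_two_eq, ArithmeticFunction.coe_mul_zeta_apply, base_three_apply,
    ← ArithmeticFunction.vonMangoldt_sum]
  push_cast
  rfl

private theorem vanish_mul {f g : ArithmeticFunction ℂ} {A B : ℕ} (hf : ∀ n < A, f n = 0)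
    (hg : ∀ n < B, g n = 0) : ∀ n < A * B, (f * g) n = 0 := by
  intro n hn
  rw [ArithmeticFunction.mul_apply]
  refine sum_eq_zero ?_
  intro p hp
  rw [Nat.mem_divisorsAntidiagonal] at hp
  by_cases h1 : p.1 < A
  · rw [hf _ h1, zero_mul]
  · by_cases h2 : p.2 < B
    · rw [hg _ h2, mul_zero]
    · exfalso
      have h3 : A * B ≤ p.1 * p.2 := Nat.mul_le_mul (not_lt.1 h1) (not_lt.1 h2)
      rw [hp.1] at h3
      omega

private theorem err_vanish (z : ℕ) : ∀ n < z + 1,
    ((1 : ArithmeticFunction ℂ) - base z 1 * base z 2) n = 0 := by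
  intro n hn
  have h1 : (base z 1 * base z 2) n = (1 : ArithmeticFunction ℂ) n := by
    rw [base_two_eq, ArithmeticFunction.coe_mul_zeta_apply, ArithmeticFunction.one_apply]
    have h2 : ∑ i ∈ n.divisors, base z 1 i =
        ∑ i ∈ n.divisors, ((ArithmeticFunction.moebius i : ℤ) : ℂ) := by
      refine sum_congr rfl ?_
      intro i hi
      rw [base_one_apply, if_pos]
      exact (Nat.divisor_le hi).trans (by omega)
    rw [h2, ← Int.cast_sum, ← ArithmeticFunction.coe_mul_zeta_apply,
      ArithmeticFunction.moebius_mul_coe_zeta, ArithmeticFunction.one_apply]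
    by_cases h3 : n = 1 <;> simp [h3]
  have h4 : ((1 : ArithmeticFunction ℂ) - base z 1 * base z 2) + base z 1 * base z 2 = 1 := by
    ring
  have h5 := congrArg (fun f : ArithmeticFunction ℂ => f n) h4
  simp only [ArithmeticFunction.add_apply] at h5
  rw [h1] at h5
  exact add_eq_right.1 h5

theorem heath_brown (z n : ℕ) (hn : n ≤ z ^ 3) :
    Lam n = ∑ k : Fin 3, cf k * (∏ i : Fin 6, base z (pat k i)) n := by
  have p0 : ∏ i : Fin 6, base z (pat 0 i) = base z 1 * base z 3 := by
    rw [Fin.prod_univ_six]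
    change base z 1 * base z 0 * base z 0 * base z 0 * base z 0 * base z 3 = _
    rw [base_zero]
    ring
  have p1 : ∏ i : Fin 6, base z (pat 1 i) = base z 1 ^ 2 * base z 2 * base z 3 := by
    rw [Fin.prod_univ_six]
    change base z 1 * base z 1 * base z 0 * base z 2 * base z 0 * base z 3 = _
    rw [base_zero]
    ring
  have p2 : ∏ i : Fin 6, base z (pat 2 i) = base z 1 ^ 3 * base z 2 ^ 2 * base z 3 := by
    rw [Fin.prod_univ_six]
    change base z 1 * base z 1 * base z 1 * base z 2 * base z 2 * base z 3 = _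
    ring
  have c0 : cf 0 = 3 := rfl
  have c1 : cf 1 = -3 := rfl
  have c2 : cf 2 = 1 := rfl
  rw [Fin.sum_univ_three, p0, p1, p2, c0, c1, c2]
  set M := base z 1
  set Z := base z 2 with hZ
  set L := base z 3 with hL
  have hLam : LamA * Z = L := LamA_mul z
  have hv := vanish_mul (vanish_mul (vanish_mul (err_vanish z) (err_vanish z)) (err_vanish z))
    (fun (m : ℕ) (hm : m < 1) => by
      have hm0 : m = 0 := by omega
      rw [hm0]
      exact LamA.map_zero : ∀ m < 1, LamA m = 0)
  have hlt : n < (z + 1) * (z + 1) * (z + 1) * 1 := by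
    have h1 : z ^ 3 < (z + 1) ^ 3 := Nat.pow_lt_pow_left (Nat.lt_succ_self z) (by norm_num)
    calc n ≤ z ^ 3 := hn
      _ < (z + 1) ^ 3 := h1
      _ = (z + 1) * (z + 1) * (z + 1) * 1 := by ring
  have h0 := hv n hlt
  have hid : LamA + (M ^ 2 * Z * L + M ^ 2 * Z * L + M ^ 2 * Z * L) =
      (1 - M * Z) * (1 - M * Z) * (1 - M * Z) * LamA + (M * L + M * L + M * L) +
        M ^ 3 * Z ^ 2 * L := by
    rw [← hLam]
    ring
  have h1 := congrArg (fun f : ArithmeticFunction ℂ => f n) hid
  simp only [ArithmeticFunction.add_apply] at h1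
  rw [h0, LamA_apply] at h1
  linear_combination h1

private theorem mul_agree {f f' g g' : ArithmeticFunction ℂ} {K : ℕ} (hf : ∀ n < K, f n = f' n)
    (hg : ∀ n < K, g n = g' n) : ∀ n < K, (f * g) n = (f' * g') n := by
  intro n hn
  rw [ArithmeticFunction.mul_apply, ArithmeticFunction.mul_apply]
  refine sum_congr rfl ?_
  intro p hp
  have h1 := Nat.mem_divisorsAntidiagonal.1 hp
  have h2 : p.1 ≤ n := Nat.le_of_dvd (Nat.pos_of_ne_zero h1.2) ⟨p.2, h1.1.symm⟩
  have h3 : p.2 ≤ n := Nat.le_of_dvd (Nat.pos_of_ne_zero h1.2) ⟨p.1, by rw [mul_comm, h1.1]⟩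
  rw [hf _ (by omega), hg _ (by omega)]

private theorem sum_app {ι : Type} (s : Finset ι) (F : ι → ArithmeticFunction ℂ) (n : ℕ) :
    (∑ e ∈ s, F e) n = ∑ e ∈ s, F e n := by
  classical
  induction s using Finset.induction_on with
  | empty => simp
  | insert a s ha ih => rw [sum_insert ha, sum_insert ha, ArithmeticFunction.add_apply, ih]

private theorem pc_apply (z e : ℕ) (c : Fin 4) (n : ℕ) :
    pc z e c n = if 2 ^ e ≤ n ∧ n < 2 ^ (e + 1) then base z c n else 0 := rfl

private theorem pc_sum (z I : ℕ) (c : Fin 4) : ∀ n < 2 ^ I,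
    base z c n = (∑ e ∈ range I, pc z e c) n := by
  intro n hn
  rcases Nat.eq_zero_or_pos n with rfl | hpos
  · rw [ArithmeticFunction.map_zero, ArithmeticFunction.map_zero]
  rw [sum_app, sum_eq_single (Nat.log 2 n)]
  · rw [pc_apply, if_pos]
    exact ⟨Nat.pow_log_le_self 2 hpos.ne', Nat.lt_pow_succ_log_self (by norm_num) n⟩
  · intro e _ he
    rw [pc_apply, if_neg]
    rintro ⟨h1, h2⟩
    exact he (Nat.log_eq_of_pow_le_of_lt_pow h1 h2).symm
  · intro h
    exfalso
    apply h
    rw [mem_range]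
    have h1 : 2 ^ Nat.log 2 n < 2 ^ I := (Nat.pow_log_le_self 2 hpos.ne').trans_lt hn
    exact (Nat.pow_lt_pow_iff_right (by norm_num)).1 h1

theorem dyadic (z I n : ℕ) (hn : n < 2 ^ I) (c : Fin 6 → Fin 4) :
    (∏ i : Fin 6, base z (c i)) n =
      ∑ e ∈ Fintype.piFinset (fun _ : Fin 6 => range I), GS z e c univ n := by
  classical
  have key : ∀ s : Finset (Fin 6), ∀ m < 2 ^ I, (∏ i ∈ s, base z (c i)) m =
      (∏ i ∈ s, ∑ e ∈ range I, pc z e (c i)) m := by
    intro s
    induction s using Finset.induction_on with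
    | empty => intro m _; rw [prod_empty, prod_empty]
    | insert a s ha ih =>
      rw [prod_insert ha, prod_insert ha]
      exact mul_agree (pc_sum z I (c a)) ih
  rw [key univ n hn, prod_univ_sum, sum_app]
  rfl

end PGB
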