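import Pool.Agent.PGB.Defs

/-!
# Project PGB, Red: from residue classes to primitive characters

PROOF of `red`.  Let `q ≥ 1`, `NeZero q`, `w n = wt y Δ n ∈ [0, 1]`.
* Orthogonality (`DirichletCharacter.sum_char_inv_mul_char_eq`, `a` is a unit modulo `q`):
  `∑_{n ≡ a} w Λ = (1/φ(q)) ∑_χ χ(a)⁻¹ ∑_n w(n) Λ(n) χ(n)`; the term `χ = 1` is
  `(1/φ(q)) ∑_{(n, q) = 1} w Λ`; the others have `‖χ(a)⁻¹‖ = 1`.  So the difference of the class sum and
  `(1/φ(q)) ∑_{(n,q)=1} w Λ` is at most `(1/φ(q)) ∑_{χ ≠ 1} ‖∑_n w(n) Λ(n) χ(n)‖`.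
* Let `e(q) = ∑_{n ≤ M, (n, q) > 1} Λ(n) ≤ ω(q) log M ≤ Nat.log 2 q * log M`: `Λ(n) ≠ 0` only for
  prime powers `n = p^i`, `p ∣ q`, `Λ(n) = log p`, and for each `p` there are at most
  `log M / log p` exponents `i ≥ 1` with `p^i ≤ M`; `2^(ω(q)) ≤ q`
  (`Nat.primeFactors` product divides `q`).
* For `χ ≠ 1` modulo `q` let `χ* = χ.primitiveCharacter`, modulus `d = χ.conductor`, `d ∣ q`, `2 ≤ d`
  (`DirichletCharacter.eq_one_iff_conductor_eq_one`).  `χ(n) = χ*(n)` for `(n, q) = 1`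
  (`DirichletCharacter.primitiveCharacter_apply_of_isCoprime`) and `χ(n) = 0` otherwise, so
  `‖∑ w Λ χ‖ ≤ ‖∑ w Λ χ*‖ + e(q)`.  The map `χ ↦ ⟨d, χ*⟩` into `PR q` is injective
  (`DirichletCharacter.changeLevel_primitiveCharacter`: `χ = changeLevel χ*`), and there are at most
  `φ(q) - 1` characters `χ ≠ 1` (`DirichletCharacter.card_eq_totient_of_hasEnoughRootsOfUnity`).
* Finally the main term with all `n` instead of `(n, q) = 1` changes by at most `e(q) / φ(q)`.
Total: `(1/φ(q)) ∑_{j ∈ PR q} ‖ws y Δ Lam M j‖ + ((φ(q) - 1) / φ(q) + 1 / φ(q)) e(q)`.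
-/

set_option autoImplicit false

open Finset

namespace PGB

private theorem red_e {q M : ℕ} (hq : 1 ≤ q) (hM : 1 ≤ M) :
    ∑ n ∈ (range (M + 1)).filter (fun n => ¬ n.Coprime q), ArithmeticFunction.vonMangoldt n
      ≤ Nat.log 2 q * Real.log M := by
  classical
  set B := (range (M + 1)).filter (fun n => ¬ n.Coprime q ∧ IsPrimePow n) with hB
  have h1 : ∑ n ∈ (range (M + 1)).filter (fun n => ¬ n.Coprime q),
      ArithmeticFunction.vonMangoldt n = ∑ n ∈ B, ArithmeticFunction.vonMangoldt n := by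
    symm
    apply sum_subset
    · intro n hn
      rw [hB, mem_filter] at hn
      exact mem_filter.2 ⟨hn.1, hn.2.1⟩
    · intro n hn hn'
      rw [mem_filter] at hn
      rw [ArithmeticFunction.vonMangoldt_eq_zero_iff]
      intro hp
      exact hn' (mem_filter.2 ⟨hn.1, hn.2, hp⟩)
  rw [h1]
  have hmaps : ∀ n ∈ B, n.minFac ∈ q.primeFactors := by
    intro n hn
    rw [hB, mem_filter] at hn
    obtain ⟨-, hnc, hpp⟩ := hn
    obtain ⟨p, i, hp, hi, rfl⟩ := (isPrimePow_nat_iff n).1 hpp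
    rw [hp.pow_minFac hi.ne', Nat.mem_primeFactors]
    refine ⟨hp, ?_, by omega⟩
    by_contra hc
    exact hnc (Nat.Coprime.pow_left i ((Nat.Prime.coprime_iff_not_dvd hp).2 hc))
  rw [← sum_fiberwise_of_maps_to hmaps]
  have hfib : ∀ p ∈ q.primeFactors, ∑ n ∈ B.filter (fun n => n.minFac = p),
      ArithmeticFunction.vonMangoldt n ≤ Real.log M := by
    intro p hp
    have hpp := Nat.prime_of_mem_primeFactors hp
    have hp0 : (0 : ℝ) < p := by exact_mod_cast hpp.pos
    have h2 : ∀ n ∈ B.filter (fun n => n.minFac = p),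
        ArithmeticFunction.vonMangoldt n = Real.log p := by
      intro n hn
      rw [mem_filter, hB, mem_filter] at hn
      rw [ArithmeticFunction.vonMangoldt_apply, if_pos hn.1.2.2, hn.2]
    rw [sum_congr rfl h2, sum_const, nsmul_eq_mul]
    have hcard : (B.filter (fun n => n.minFac = p)).card ≤ Nat.log p M := by
      have hsub : B.filter (fun n => n.minFac = p) ⊆
          (Icc 1 (Nat.log p M)).image (fun i => p ^ i) := by
        intro n hn
        rw [mem_filter, hB, mem_filter, mem_range] at hn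
        obtain ⟨⟨h3, -, h4⟩, h5⟩ := hn
        obtain ⟨r, i, hr, hi, rfl⟩ := (isPrimePow_nat_iff n).1 h4
        rw [hr.pow_minFac hi.ne'] at h5
        subst h5
        rw [mem_image]
        refine ⟨i, mem_Icc.2 ⟨hi, ?_⟩, rfl⟩
        exact Nat.le_log_of_pow_le hr.one_lt (by omega)
      refine (card_le_card hsub).trans (card_image_le.trans ?_)
      rw [Nat.card_Icc]
      omega
    have h6 : (0 : ℝ) ≤ Real.log p := Real.log_nonneg (by exact_mod_cast hpp.one_lt.le)
    have h7 : (((B.filter (fun n => n.minFac = p)).card : ℕ) : ℝ) ≤ Nat.log p M := by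
      exact_mod_cast hcard
    refine (mul_le_mul_of_nonneg_right h7 h6).trans ?_
    rw [← Real.log_pow]
    refine Real.log_le_log (by positivity) ?_
    exact_mod_cast Nat.pow_log_le_self p (by omega)
  refine (sum_le_sum hfib).trans ?_
  rw [sum_const, nsmul_eq_mul]
  refine mul_le_mul_of_nonneg_right ?_ (Real.log_nonneg (by exact_mod_cast hM))
  have h8 : 2 ^ q.primeFactors.card ≤ q := by
    refine le_trans (pow_card_le_prod q.primeFactors _ 2 fun p hp => ?_)
      (Nat.le_of_dvd (by omega) (Nat.prod_primeFactors_dvd q))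
    exact (Nat.prime_of_mem_primeFactors hp).two_le
  exact_mod_cast Nat.le_log_of_pow_le one_lt_two h8

/-- changing the values at the integers which are not coprime to `q` -/
private theorem red_cmp {q M : ℕ} {y Δ : ℝ} (hΔ : 0 < Δ) {u v : ℕ → ℂ}
    (h1 : ∀ n : ℕ, n.Coprime q → u n = v n) (h2 : ∀ n : ℕ, ¬ n.Coprime q → ‖u n - v n‖ ≤ 1) :
    ‖∑ n ∈ range (M + 1), (wt y Δ n : ℂ) * (u n * Lam n) -
      ∑ n ∈ range (M + 1), (wt y Δ n : ℂ) * (v n * Lam n)‖ ≤
      ∑ n ∈ (range (M + 1)).filter (fun n => ¬ n.Coprime q),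
        ArithmeticFunction.vonMangoldt n := by
  rw [← sum_sub_distrib, sum_filter]
  refine norm_sum_le_of_le _ fun n _ => ?_
  have e : (wt y Δ n : ℂ) * (u n * Lam n) - (wt y Δ n : ℂ) * (v n * Lam n) =
      (wt y Δ n : ℂ) * ((u n - v n) * Lam n) := by ring
  rw [e]
  by_cases hn : n.Coprime q
  · rw [h1 n hn, sub_self, zero_mul, mul_zero, norm_zero, if_neg (not_not.2 hn)]
  · rw [if_pos hn, norm_mul, norm_mul, Complex.norm_real, Real.norm_eq_abs,
      abs_of_nonneg (wt_nonneg hΔ n)]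
    have h3 : ‖Lam n‖ = ArithmeticFunction.vonMangoldt n := by
      unfold Lam
      rw [Complex.norm_real, Real.norm_eq_abs,
        abs_of_nonneg ArithmeticFunction.vonMangoldt_nonneg]
    rw [h3]
    have h4 : (0 : ℝ) ≤ ArithmeticFunction.vonMangoldt n :=
      ArithmeticFunction.vonMangoldt_nonneg
    have h5 : ‖u n - v n‖ * ArithmeticFunction.vonMangoldt n ≤
        1 * ArithmeticFunction.vonMangoldt n := mul_le_mul_of_nonneg_right (h2 n hn) h4
    have h6 : 0 ≤ ‖u n - v n‖ * ArithmeticFunction.vonMangoldt n := by positivity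
    have h7 := mul_le_mul_of_nonneg_right (wt_le_one (y := y) hΔ n) h6
    linarith

/-- back from characters with their modulus to characters modulo `q` -/
private noncomputable def red_G (q : ℕ) (j : PC) : DirichletCharacter ℂ q :=
  if h : j.1 ∣ q then DirichletCharacter.changeLevel h j.2 else 1

private theorem red_G_prim {q : ℕ} (χ : DirichletCharacter ℂ q) :
    red_G q ⟨χ.conductor, χ.primitiveCharacter⟩ = χ := by
  unfold red_G
  rw [dif_pos (DirichletCharacter.conductor_dvd_level χ)]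
  exact DirichletCharacter.changeLevel_primitiveCharacter χ

private theorem red_inj (q : ℕ) : Function.Injective
    (fun χ : DirichletCharacter ℂ q => (⟨χ.conductor, χ.primitiveCharacter⟩ : PC)) := by
  intro χ ψ h
  have h1 := congrArg (red_G q) h
  simp only [] at h1
  rw [red_G_prim, red_G_prim] at h1
  exact h1

theorem red {q a M : ℕ} (hq : 1 ≤ q) (hM : 1 ≤ M) (ha : a.Coprime q) {y Δ : ℝ} (hΔ : 0 < Δ) :
    |∑ n ∈ (range (M + 1)).filter (fun n => n ≡ a [MOD q]),
        wt y Δ n * ArithmeticFunction.vonMangoldt n -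
      (∑ n ∈ range (M + 1), wt y Δ n * ArithmeticFunction.vonMangoldt n) / Nat.totient q| ≤
      (∑ j ∈ PR q, ‖ws y Δ Lam M j‖) / Nat.totient q + Nat.log 2 q * Real.log M := by
  classical
  have hNZ : NeZero q := ⟨by omega⟩
  have hφ : 0 < Nat.totient q := Nat.totient_pos.2 (by omega)
  have hφ' : (0 : ℝ) < Nat.totient q := by exact_mod_cast hφ
  obtain ⟨e, he⟩ : ∃ e : ℝ, e = ∑ n ∈ (range (M + 1)).filter (fun n => ¬ n.Coprime q),
    ArithmeticFunction.vonMangoldt n := ⟨_, rfl⟩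
  have he1 : e ≤ Nat.log 2 q * Real.log M := by
    rw [he]
    exact red_e hq hM
  have hau : IsUnit (a : ZMod q) := (ZMod.isUnit_iff_coprime a q).2 ha
  obtain ⟨T, hT⟩ : ∃ T : DirichletCharacter ℂ q → ℂ, ∀ χ, T χ =
    ∑ n ∈ range (M + 1), (wt y Δ n : ℂ) * (χ (n : ZMod q) * Lam n) := ⟨_, fun _ => rfl⟩
  obtain ⟨Sa, hSa⟩ : ∃ Sa : ℂ, Sa = ∑ n ∈ (range (M + 1)).filter (fun n => n ≡ a [MOD q]),
    (wt y Δ n : ℂ) * Lam n := ⟨_, rfl⟩
  obtain ⟨S, hS⟩ : ∃ S : ℂ, S = ∑ n ∈ range (M + 1), (wt y Δ n : ℂ) * (1 * Lam n) := ⟨_, rfl⟩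
  -- orthogonality
  have h1 : (Nat.totient q : ℂ) * Sa = ∑ χ : DirichletCharacter ℂ q, χ (a : ZMod q)⁻¹ * T χ := by
    have h2 : ∀ χ : DirichletCharacter ℂ q, χ (a : ZMod q)⁻¹ * T χ =
        ∑ n ∈ range (M + 1), (wt y Δ n : ℂ) * Lam n * (χ (a : ZMod q)⁻¹ * χ (n : ZMod q)) := by
      intro χ
      rw [hT, mul_sum]
      refine sum_congr rfl fun n _ => ?_
      ring
    rw [sum_congr rfl fun χ _ => h2 χ, sum_comm, hSa, sum_filter, mul_sum]
    refine sum_congr rfl fun n _ => ?_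
    rw [← mul_sum, DirichletCharacter.sum_char_inv_mul_char_eq ℂ hau]
    have h3 : ((a : ZMod q) = (n : ZMod q)) ↔ n ≡ a [MOD q] := by
      rw [eq_comm]
      exact ZMod.natCast_eq_natCast_iff n a q
    by_cases hn : n ≡ a [MOD q]
    · rw [if_pos hn, if_pos (h3.2 hn)]
      ring
    · rw [if_neg hn, if_neg fun h => hn (h3.1 h)]
      ring
  -- the principal character
  have h4 : ‖T 1 - S‖ ≤ e := by
    rw [hT, hS, he]
    refine red_cmp (u := fun n => (1 : DirichletCharacter ℂ q) (n : ZMod q))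
      (v := fun _ => 1) hΔ ?_ ?_
    · intro n hn
      exact MulChar.one_apply ((ZMod.isUnit_iff_coprime n q).2 hn)
    · intro n hn
      have h5 : (1 : DirichletCharacter ℂ q) (n : ZMod q) = 0 :=
        MulChar.map_nonunit _ fun h => hn ((ZMod.isUnit_iff_coprime n q).1 h)
      rw [h5, zero_sub, norm_neg, norm_one]
  -- primitive characters
  have h6 : ∀ χ : DirichletCharacter ℂ q,
      ‖T χ‖ ≤ ‖ws y Δ Lam M ⟨χ.conductor, χ.primitiveCharacter⟩‖ + e := by
    intro χ
    have h7 : ‖T χ - ws y Δ Lam M ⟨χ.conductor, χ.primitiveCharacter⟩‖ ≤ e := by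
      rw [hT, he]
      unfold ws
      refine red_cmp (u := fun n => χ (n : ZMod q))
        (v := fun n => ch ⟨χ.conductor, χ.primitiveCharacter⟩ n) hΔ ?_ ?_
      · intro n hn
        have h8 := DirichletCharacter.primitiveCharacter_apply_of_isCoprime χ (a := (n : ℤ))
          (Nat.isCoprime_iff_coprime.2 hn)
        simp only [Int.cast_natCast] at h8
        exact h8.symm
      · intro n hn
        have h5 : χ (n : ZMod q) = 0 :=
          MulChar.map_nonunit _ fun h => hn ((ZMod.isUnit_iff_coprime n q).1 h)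
        rw [h5, zero_sub, norm_neg]
        exact norm_ch_le _ n
    have h9 := norm_add_le (T χ - ws y Δ Lam M ⟨χ.conductor, χ.primitiveCharacter⟩)
      (ws y Δ Lam M ⟨χ.conductor, χ.primitiveCharacter⟩)
    rw [sub_add_cancel] at h9
    linarith
  -- summation over the characters
  have h10 : ∑ χ ∈ (univ : Finset (DirichletCharacter ℂ q)).erase 1,
      ‖ws y Δ Lam M ⟨χ.conductor, χ.primitiveCharacter⟩‖ ≤ ∑ j ∈ PR q, ‖ws y Δ Lam M j‖ := by
    have h11 : ∑ χ ∈ (univ : Finset (DirichletCharacter ℂ q)).erase 1,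
        ‖ws y Δ Lam M ⟨χ.conductor, χ.primitiveCharacter⟩‖ =
        ∑ j ∈ ((univ : Finset (DirichletCharacter ℂ q)).erase 1).image
          (fun χ : DirichletCharacter ℂ q => (⟨χ.conductor, χ.primitiveCharacter⟩ : PC)),
          ‖ws y Δ Lam M j‖ := by
      rw [sum_image]
      intro χ _ ψ _ h
      exact red_inj q h
    rw [h11]
    refine sum_le_sum_of_subset_of_nonneg ?_ fun _ _ _ => norm_nonneg _
    intro j hj
    rw [mem_image] at hj
    obtain ⟨χ, hχ, rfl⟩ := hj
    rw [mem_erase] at hχ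
    rw [mem_PR]
    have h12 := DirichletCharacter.conductor_dvd_level χ
    refine ⟨by omega, h12, ?_, DirichletCharacter.primitiveCharacter_isPrimitive χ⟩
    have h13 : χ.conductor ≠ 1 := fun h =>
      hχ.1 ((DirichletCharacter.eq_one_iff_conductor_eq_one (χ := χ)).2 h)
    have h14 : 0 < χ.conductor := Nat.pos_of_dvd_of_pos h12 (by omega)
    show 2 ≤ χ.conductor
    omega
  have hcard : (((univ : Finset (DirichletCharacter ℂ q)).erase 1).card : ℝ) =
      Nat.totient q - 1 := by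
    rw [card_erase_of_mem (mem_univ _), card_univ, ← Nat.card_eq_fintype_card,
      DirichletCharacter.card_eq_totient_of_hasEnoughRootsOfUnity ℂ q,
      Nat.cast_sub (by omega : 1 ≤ Nat.totient q)]
    push_cast
    ring
  have hχ1 : (1 : DirichletCharacter ℂ q) (a : ZMod q)⁻¹ = 1 := by
    refine MulChar.one_apply ?_
    obtain ⟨b, hb⟩ := hau
    rw [← hb, ZMod.inv_coe_unit]
    exact Units.isUnit _
  have h15 : (Nat.totient q : ℂ) * Sa - S = (T 1 - S) +
      ∑ χ ∈ (univ : Finset (DirichletCharacter ℂ q)).erase 1, χ (a : ZMod q)⁻¹ * T χ := by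
    rw [h1, ← add_sum_erase _ _ (mem_univ (1 : DirichletCharacter ℂ q)), hχ1]
    ring
  have h16 : ‖(Nat.totient q : ℂ) * Sa - S‖ ≤
      ∑ j ∈ PR q, ‖ws y Δ Lam M j‖ + Nat.totient q * e := by
    rw [h15]
    have h17 : ‖∑ χ ∈ (univ : Finset (DirichletCharacter ℂ q)).erase 1,
        χ (a : ZMod q)⁻¹ * T χ‖ ≤ ∑ χ ∈ (univ : Finset (DirichletCharacter ℂ q)).erase 1,
          (‖ws y Δ Lam M ⟨χ.conductor, χ.primitiveCharacter⟩‖ + e) := by
      refine norm_sum_le_of_le _ fun χ _ => ?_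
      rw [norm_mul]
      have h18 := χ.norm_le_one ((a : ZMod q)⁻¹)
      have h19 := mul_le_mul_of_nonneg_right h18 (norm_nonneg (T χ))
      rw [one_mul] at h19
      exact h19.trans (h6 χ)
    rw [sum_add_distrib, sum_const, nsmul_eq_mul, hcard] at h17
    have h20 := norm_add_le (T 1 - S) (∑ χ ∈ (univ : Finset (DirichletCharacter ℂ q)).erase 1,
      χ (a : ZMod q)⁻¹ * T χ)
    have h21 : ((Nat.totient q : ℝ) - 1) * e = Nat.totient q * e - e := by ring
    rw [h21] at h17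
    linarith
  -- back to the real numbers
  have h22 : ((∑ n ∈ (range (M + 1)).filter (fun n => n ≡ a [MOD q]),
      wt y Δ n * ArithmeticFunction.vonMangoldt n : ℝ) : ℂ) = Sa := by
    rw [hSa]
    push_cast
    rfl
  have h23 : ((∑ n ∈ range (M + 1), wt y Δ n * ArithmeticFunction.vonMangoldt n : ℝ) : ℂ) =
      S := by
    rw [hS]
    push_cast
    refine sum_congr rfl fun n _ => ?_
    rw [one_mul]
    rfl
  obtain ⟨A, hA⟩ : ∃ A : ℝ, A = ∑ n ∈ (range (M + 1)).filter (fun n => n ≡ a [MOD q]),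
      wt y Δ n * ArithmeticFunction.vonMangoldt n := ⟨_, rfl⟩
  obtain ⟨B, hB⟩ : ∃ B : ℝ, B = ∑ n ∈ range (M + 1),
      wt y Δ n * ArithmeticFunction.vonMangoldt n := ⟨_, rfl⟩
  rw [← hA] at h22 ⊢
  rw [← hB] at h23 ⊢
  rw [← h22, ← h23] at h16
  have h24 : ‖(Nat.totient q : ℂ) * (A : ℂ) - (B : ℂ)‖ = Nat.totient q * |A - B / Nat.totient q| := by
    have h25 : (Nat.totient q : ℂ) * (A : ℂ) - (B : ℂ) =
        ((Nat.totient q * (A - B / Nat.totient q) : ℝ) : ℂ) := by
      have h26 : (Nat.totient q : ℝ) * (A - B / Nat.totient q) = Nat.totient q * A - B := by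
        field_simp
      rw [h26]
      push_cast
      rfl
    rw [h25, Complex.norm_real, Real.norm_eq_abs, abs_mul, abs_of_pos hφ']
  rw [h24] at h16
  have h27 : |A - B / Nat.totient q| ≤
      (∑ j ∈ PR q, ‖ws y Δ Lam M j‖ + Nat.totient q * e) / Nat.totient q := by
    rw [le_div_iff₀ hφ', mul_comm]
    exact h16
  refine h27.trans ?_
  rw [add_div, mul_div_cancel_left₀ _ hφ'.ne']
  linarith

end PGB
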