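import Pool.Agent.PGB.Defs

/-!
# Project PGB, Sd: bounds for `L^(k)(s, χ)` to the right of `1`

Here only `Re s > 1` occurs, all series converge absolutely.

PROOF.  Let `q = j.1 ≥ 2`, `χ = j.2 ≠ 1`, `s = σ + i t`, `1 < σ ≤ 2`, `A = q (|t| + 3)`,
`ℓ = LL q t = log A`, `g(n) = (log n)^k n^(-s)`, `Y = ⌈A ^ 2⌉₊` (so `Y ≤ A ^ 3`, `log Y ≤ 3 ℓ`).
* Partial sums: `‖∑_{n < u} χ(n)‖ ≤ q` for all `u` (sum over a period vanishes).
* Head: `∑_{1 ≤ n < Y} |g(n)| ≤ (log Y)^k ∑_{n < Y} 1/n ≤ (log Y)^k (1 + log Y) ≤ C ℓ^(k+1)`.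
* Tail: `|g(n+1) - g(n)| ≤ (k + 2 + |t|) (log (n+1))^k / n^2 ≤ c (k + 2 + |t|) √(n+1) / n^2`;
  summation by parts on `[Y, M)` and telescoping with `1 / √n`.
-/

set_option autoImplicit false

open Finset

namespace PGB

theorem LL_ge_one {q : ℕ} (hq : 2 ≤ q) (t : ℝ) : 1 ≤ LL q t := by
  unfold LL
  have h1 : Real.log 2 ≤ Real.log (q : ℝ) :=
    Real.log_le_log (by norm_num) (by exact_mod_cast hq)
  have h2 : (1 : ℝ) ≤ Real.log (|t| + 3) := by
    rw [Real.le_log_iff_exp_le (by positivity)]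
    have := Real.exp_one_lt_d9
    have := abs_nonneg t
    linarith
  have h3 : 0 ≤ Real.log 2 := Real.log_nonneg (by norm_num)
  linarith

private theorem block_sum' {r : ℕ} [NeZero r] {χ : DirichletCharacter ℂ r} (hχ : χ ≠ 1) (N : ℕ) :
    ∑ n ∈ Finset.range r, χ ((N + n : ℕ) : ZMod r) = 0 := by
  have h1 : ∑ n ∈ Finset.range r, χ ((N + n : ℕ) : ZMod r) =
      ∑ x : ZMod r, χ (((N : ℕ) : ZMod r) + x) := by
    refine Finset.sum_nbij (fun n => (n : ZMod r)) (fun _ _ => Finset.mem_univ _) ?_ ?_ ?_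
    · intro a ha b hb hab
      have ha' := Finset.mem_range.1 (Finset.mem_coe.1 ha)
      have hb' := Finset.mem_range.1 (Finset.mem_coe.1 hb)
      have h2 := (ZMod.natCast_eq_natCast_iff' a b r).1 hab
      rwa [Nat.mod_eq_of_lt ha', Nat.mod_eq_of_lt hb'] at h2
    · intro x _
      exact ⟨x.val, Finset.mem_coe.2 (Finset.mem_range.2 (ZMod.val_lt x)), ZMod.natCast_zmod_val x⟩
    · intro n _
      congr 1
      push_cast
      ring
  have h2 : ∑ x : ZMod r, χ (((N : ℕ) : ZMod r) + x) = ∑ x : ZMod r, χ x :=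
    Equiv.sum_comp (Equiv.addLeft ((N : ℕ) : ZMod r)) (fun x => χ x)
  rw [h1, h2]
  exact MulChar.sum_eq_zero_of_ne_one hχ

private theorem char_sum' {j : PC} (hj : 1 ≤ j.1) (h1 : j.2 ≠ 1) (u : ℕ) :
    ‖∑ n ∈ range u, ch j n‖ ≤ j.1 := by
  have : NeZero j.1 := ⟨by omega⟩
  have hp : Function.Periodic (fun u : ℕ => ∑ n ∈ range u, ch j n) j.1 := by
    intro u
    show ∑ n ∈ range (u + j.1), ch j n = ∑ n ∈ range u, ch j n
    rw [Finset.sum_range_add]
    have h3 : ∑ n ∈ range j.1, ch j (u + n) = 0 := block_sum' h1 u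
    rw [h3, add_zero]
  have h4 : ∑ n ∈ range (u % j.1), ch j n = ∑ n ∈ range u, ch j n := hp.map_mod_nat u
  rw [← h4]
  refine (norm_sum_le _ _).trans ?_
  have h1 : ∑ n ∈ Finset.range (u % j.1), ‖ch j n‖ ≤ ∑ n ∈ Finset.range (u % j.1), (1 : ℝ) :=
    Finset.sum_le_sum fun n _ => norm_ch_le j n
  refine h1.trans ?_
  rw [Finset.sum_const, Finset.card_range, nsmul_eq_mul, mul_one]
  exact_mod_cast (Nat.mod_lt u (by omega)).le

/-- Summation by parts for an arbitrary sequence of complex numbers with bounded partial sums. -/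
private theorem abelC {c g : ℕ → ℂ} {B : ℝ} (hB : ∀ u, ‖∑ n ∈ range u, c n‖ ≤ B) (a m : ℕ) :
    ‖∑ n ∈ Ico a (a + m), c n * g n‖ ≤
      B * (‖g (a + m)‖ + ‖g a‖ + ∑ n ∈ Ico a (a + m), ‖g (n + 1) - g n‖) := by
  have hB0 : 0 ≤ B := (norm_nonneg _).trans (hB 0)
  have key : ∀ m : ℕ, ∑ n ∈ Ico a (a + m), c n * g n =
      (∑ n ∈ range (a + m), c n) * g (a + m) - (∑ n ∈ range a, c n) * g a -
        ∑ n ∈ Ico a (a + m), (∑ i ∈ range (n + 1), c i) * (g (n + 1) - g n) := by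
    intro m
    induction m with
    | zero => simp
    | succ m ih =>
      rw [← add_assoc, Finset.sum_Ico_succ_top (by omega), ih,
        Finset.sum_Ico_succ_top (by omega), Finset.sum_range_succ]
      ring
  rw [key m]
  refine (norm_sub_le _ _).trans ?_
  have h1 : ‖(∑ n ∈ range (a + m), c n) * g (a + m) - (∑ n ∈ range a, c n) * g a‖ ≤
      B * ‖g (a + m)‖ + B * ‖g a‖ := by
    refine (norm_sub_le _ _).trans ?_
    rw [norm_mul, norm_mul]
    exact add_le_add (mul_le_mul_of_nonneg_right (hB _) (norm_nonneg _))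
      (mul_le_mul_of_nonneg_right (hB _) (norm_nonneg _))
  have h2 : ‖∑ n ∈ Ico a (a + m), (∑ i ∈ range (n + 1), c i) * (g (n + 1) - g n)‖ ≤
      B * ∑ n ∈ Ico a (a + m), ‖g (n + 1) - g n‖ := by
    refine (norm_sum_le _ _).trans ?_
    rw [Finset.mul_sum]
    refine Finset.sum_le_sum fun n _ => ?_
    rw [norm_mul]
    exact mul_le_mul_of_nonneg_right (hB _) (norm_nonneg _)
  calc _ ≤ (B * ‖g (a + m)‖ + B * ‖g a‖) + B * ∑ n ∈ Ico a (a + m), ‖g (n + 1) - g n‖ :=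
        add_le_add h1 h2
    _ = _ := by ring

/-- The function `(log n)^k n^(-s)`. -/
private noncomputable def gg (k : ℕ) (s : ℂ) (n : ℕ) : ℂ :=
  ((Real.log n : ℝ) : ℂ) ^ k * (n : ℂ) ^ (-s)

private theorem norm_cpow_le {s : ℂ} (hs : 1 ≤ s.re) {n : ℕ} (hn : 1 ≤ n) :
    ‖(n : ℂ) ^ (-s)‖ ≤ 1 / n := by
  rw [Complex.norm_natCast_cpow_of_pos (by omega), Complex.neg_re, one_div, ← Real.rpow_neg_one]
  exact Real.rpow_le_rpow_of_exponent_le (by exact_mod_cast hn) (by linarith)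

private theorem norm_gg_le (k : ℕ) {s : ℂ} (hs : 1 ≤ s.re) {n : ℕ} (hn : 1 ≤ n) :
    ‖gg k s n‖ ≤ Real.log n ^ k / n := by
  unfold gg
  have h0 : 0 ≤ Real.log n := Real.log_nonneg (by exact_mod_cast hn)
  rw [norm_mul, norm_pow, Complex.norm_real, Real.norm_of_nonneg h0, div_eq_mul_one_div]
  exact mul_le_mul_of_nonneg_left (norm_cpow_le hs hn) (by positivity)

private theorem cpow_diff {s : ℂ} (hs : 1 ≤ s.re) {n : ℕ} (hn : 1 ≤ n) :
    ‖((n + 1 : ℕ) : ℂ) ^ (-s) - (n : ℂ) ^ (-s)‖ ≤ ‖s‖ / (n : ℝ) ^ 2 := by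
  have hn' : (1 : ℝ) ≤ n := by exact_mod_cast hn
  have hs0 : -s ≠ 0 := by
    intro h
    have := congrArg Complex.re h
    simp at this
    linarith
  have hder : ∀ x ∈ Set.Icc (n : ℝ) (n + 1 : ℝ),
      HasDerivWithinAt (fun x : ℝ => (x : ℂ) ^ (-s)) (-s * (x : ℂ) ^ (-s - 1))
        (Set.Icc (n : ℝ) (n + 1 : ℝ)) x := by
    intro x hx
    have hx0 : x ≠ 0 := by
      have := hx.1
      intro h
      linarith
    exact (hasDerivAt_ofReal_cpow_const hx0 hs0).hasDerivWithinAt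
  have hbd : ∀ x ∈ Set.Ico (n : ℝ) (n + 1 : ℝ), ‖-s * (x : ℂ) ^ (-s - 1)‖ ≤ ‖s‖ / (n : ℝ) ^ 2 := by
    intro x hx
    have hx0 : 0 < x := by
      have := hx.1
      linarith
    rw [norm_mul, norm_neg, Complex.norm_cpow_eq_rpow_re_of_pos hx0, div_eq_mul_inv]
    refine mul_le_mul_of_nonneg_left ?_ (norm_nonneg _)
    have e1 : (-s - 1).re = -s.re - 1 := by simp
    rw [e1]
    have h2 : x ^ (-s.re - 1) ≤ x ^ (-2 : ℝ) :=
      Real.rpow_le_rpow_of_exponent_le (by linarith [hx.1]) (by linarith)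
    refine h2.trans ?_
    rw [Real.rpow_neg hx0.le]
    refine inv_anti₀ (by positivity) ?_
    rw [Real.rpow_two]
    exact pow_le_pow_left₀ (by positivity) hx.1 2
  have h := norm_image_sub_le_of_norm_deriv_le_segment' hder hbd (n + 1 : ℝ)
    ⟨by linarith, le_rfl⟩
  have e2 : (n + 1 : ℝ) - n = 1 := by ring
  rw [e2, mul_one] at h
  have e3 : (((n + 1 : ℕ) : ℂ)) = (((n : ℝ) + 1 : ℝ) : ℂ) := by push_cast; ring
  have e4 : ((n : ℂ)) = (((n : ℝ) : ℝ) : ℂ) := by push_cast; ring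
  rw [e3, e4]
  exact h

private theorem pow_diff (k : ℕ) {a b : ℝ} (hb : 0 ≤ b) (hab : b ≤ a) (ha : 1 ≤ a) :
    a ^ k - b ^ k ≤ k * a ^ k * (a - b) := by
  induction k with
  | zero => simp
  | succ k ih =>
    have h1 : a ^ (k + 1) - b ^ (k + 1) = a * (a ^ k - b ^ k) + b ^ k * (a - b) := by ring
    have h2 : b ^ k ≤ a ^ k := pow_le_pow_left₀ hb hab k
    have h3 : a ^ k ≤ a ^ (k + 1) := pow_le_pow_right₀ ha (by omega)
    have h4 : a * (a ^ k - b ^ k) ≤ a * (k * a ^ k * (a - b)) :=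
      mul_le_mul_of_nonneg_left ih (by linarith)
    have h5 : b ^ k * (a - b) ≤ a ^ (k + 1) * (a - b) :=
      mul_le_mul_of_nonneg_right (h2.trans h3) (by linarith)
    rw [h1]
    push_cast
    calc _ ≤ a * (k * a ^ k * (a - b)) + a ^ (k + 1) * (a - b) := add_le_add h4 h5
      _ = (k + 1) * a ^ (k + 1) * (a - b) := by ring

private theorem log_diff {n : ℕ} (hn : 1 ≤ n) :
    Real.log ((n + 1 : ℕ) : ℝ) - Real.log n ≤ 1 / n := by
  have hn' : (0 : ℝ) < n := by exact_mod_cast hn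
  rw [← Real.log_div (by positivity) (by positivity)]
  have h := Real.log_le_sub_one_of_pos (x := ((n + 1 : ℕ) : ℝ) / n) (by positivity)
  refine h.trans (le_of_eq ?_)
  push_cast
  field_simp
  ring

private theorem gg_diff (k : ℕ) {s : ℂ} (hs : 1 ≤ s.re) (hs2 : s.re ≤ 2) {n : ℕ} (hn : 2 ≤ n) :
    ‖gg k s (n + 1) - gg k s n‖ ≤
      (k + 2 + |s.im|) * Real.log ((n + 1 : ℕ) : ℝ) ^ k / (n : ℝ) ^ 2 := by
  have hn' : (0 : ℝ) < n := by
    have : 0 < n := by omega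
    exact_mod_cast this
  have ha : 1 ≤ Real.log ((n + 1 : ℕ) : ℝ) := by
    rw [Real.le_log_iff_exp_le (by positivity)]
    have := Real.exp_one_lt_d9
    have h2 : (2 : ℝ) ≤ n := by exact_mod_cast hn
    push_cast
    linarith
  have hb : 0 ≤ Real.log (n : ℝ) := Real.log_natCast_nonneg n
  have hab : Real.log (n : ℝ) ≤ Real.log ((n + 1 : ℕ) : ℝ) :=
    Real.log_le_log hn' (by push_cast; linarith)
  set a := Real.log ((n + 1 : ℕ) : ℝ) with ha'
  set b := Real.log (n : ℝ) with hb'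
  have e : gg k s (n + 1) - gg k s n =
      ((a ^ k : ℝ) : ℂ) * (((n + 1 : ℕ) : ℂ) ^ (-s) - (n : ℂ) ^ (-s)) +
        ((a ^ k - b ^ k : ℝ) : ℂ) * (n : ℂ) ^ (-s) := by
    unfold gg
    rw [← ha', ← hb']
    push_cast
    ring
  have hak : 0 ≤ a ^ k := by positivity
  have hd : 0 ≤ a ^ k - b ^ k := sub_nonneg.2 (pow_le_pow_left₀ hb hab k)
  have hsn : ‖s‖ ≤ 2 + |s.im| := by
    refine (Complex.norm_le_abs_re_add_abs_im s).trans ?_
    rw [abs_of_nonneg (by linarith : 0 ≤ s.re)]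
    linarith
  have h1 : ‖((a ^ k : ℝ) : ℂ) * (((n + 1 : ℕ) : ℂ) ^ (-s) - (n : ℂ) ^ (-s))‖ ≤
      a ^ k * ((2 + |s.im|) / (n : ℝ) ^ 2) := by
    rw [norm_mul, Complex.norm_real, Real.norm_of_nonneg hak]
    refine mul_le_mul_of_nonneg_left ?_ hak
    exact (cpow_diff hs (by omega)).trans (div_le_div_of_nonneg_right hsn (by positivity))
  have h2 : ‖((a ^ k - b ^ k : ℝ) : ℂ) * (n : ℂ) ^ (-s)‖ ≤ (k * a ^ k * (1 / n)) * (1 / n) := by
    rw [norm_mul, Complex.norm_real, Real.norm_of_nonneg hd]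
    refine mul_le_mul ?_ (norm_cpow_le hs (by omega)) (norm_nonneg _) (by positivity)
    refine (pow_diff k hb hab ha).trans ?_
    exact mul_le_mul_of_nonneg_left (log_diff (by omega)) (by positivity)
  rw [e]
  refine (norm_add_le _ _).trans ((add_le_add h1 h2).trans (le_of_eq ?_))
  field_simp
  ring

/-- The constant in `(log x)^k ≤ cc k * √x`. -/
private noncomputable def cc (k : ℕ) : ℝ := (2 * (k + 1)) ^ k

private theorem cc_pos (k : ℕ) : 0 < cc k := by unfold cc; positivity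

private theorem log_pow_le (k : ℕ) {x : ℝ} (hx : 1 ≤ x) :
    Real.log x ^ k ≤ cc k * Real.sqrt x := by
  have hx0 : 0 ≤ x := by linarith
  have hε : (0 : ℝ) < 1 / (2 * (k + 1)) := by positivity
  have h1 := Real.log_le_rpow_div hx0 hε
  have h0 : 0 ≤ Real.log x := Real.log_nonneg hx
  have e1 : x ^ (1 / (2 * (k + 1)) : ℝ) / (1 / (2 * (k + 1)) : ℝ) =
      (2 * (k + 1)) * x ^ (1 / (2 * (k + 1)) : ℝ) := by
    field_simp
  rw [e1] at h1
  refine (pow_le_pow_left₀ h0 h1 k).trans ?_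
  rw [mul_pow, cc]
  refine mul_le_mul_of_nonneg_left ?_ (by positivity)
  rw [← Real.rpow_natCast, ← Real.rpow_mul hx0, Real.sqrt_eq_rpow]
  refine Real.rpow_le_rpow_of_exponent_le hx ?_
  rw [one_div, inv_mul_le_iff₀ (by positivity)]
  have : (0 : ℝ) ≤ k := Nat.cast_nonneg k
  linarith

private theorem tele {n : ℕ} (hn : 1 ≤ n) :
    Real.sqrt ((n + 1 : ℕ) : ℝ) / (n : ℝ) ^ 2 ≤
      6 * (1 / Real.sqrt n - 1 / Real.sqrt ((n + 1 : ℕ) : ℝ)) := by
  have hn' : (1 : ℝ) ≤ n := by exact_mod_cast hn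
  set u := Real.sqrt (n : ℝ) with hu
  set v := Real.sqrt ((n + 1 : ℕ) : ℝ) with hv
  have hu2 : u ^ 2 = n := Real.sq_sqrt (by linarith)
  have hv2 : v ^ 2 = n + 1 := by
    rw [hv, Real.sq_sqrt (by positivity)]
    push_cast
    ring
  have hu0 : 0 < u := Real.sqrt_pos.2 (by linarith)
  have hv0 : 0 < v := Real.sqrt_pos.2 (by positivity)
  have huv : u ≤ v := Real.sqrt_le_sqrt (by push_cast; linarith)
  have hu1 : 1 ≤ u := Real.one_le_sqrt.2 hn'
  have hd : v ^ 2 - u ^ 2 = 1 := by rw [hv2, hu2]; ring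
  have hd' : (v - u) * (v + u) = 1 := by rw [← hd]; ring
  -- `v ≤ √2 u`, `v ^ 2 ≤ 2 u ^ 2`
  have hv3 : v ^ 2 ≤ 2 * u ^ 2 := by nlinarith
  have hv4 : v ≤ 3 / 2 * u := by
    by_contra hc
    push Not at hc
    nlinarith
  rw [← hu2]
  have e1 : 6 * (1 / u - 1 / v) = 6 * (v - u) / (u * v) := by
    field_simp
  have e2 : v - u = 1 / (v + u) := by
    rw [eq_div_iff (by positivity)]
    exact hd'
  rw [e1, e2, div_le_div_iff₀ (by positivity) (by positivity)]
  -- `v * (u v) ≤ 6 / (v + u) * u ^ 4`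
  have h3 : v * (u * v) * (v + u) ≤ 6 * (u ^ 2) ^ 2 := by
    calc v * (u * v) * (v + u) = u * v ^ 2 * (v + u) := by ring
      _ ≤ u * (2 * u ^ 2) * (3 / 2 * u + u) := by
          refine mul_le_mul (mul_le_mul_of_nonneg_left hv3 hu0.le) (by linarith) (by positivity)
            (by positivity)
      _ = 5 * (u ^ 2) ^ 2 := by ring
      _ ≤ 6 * (u ^ 2) ^ 2 := by nlinarith [sq_nonneg (u ^ 2)]
  rw [mul_one_div, div_mul_eq_mul_div, le_div_iff₀ (by positivity)]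
  exact h3

private theorem tele_sum {a : ℕ} (ha : 1 ≤ a) (m : ℕ) :
    ∑ n ∈ Ico a (a + m), Real.sqrt ((n + 1 : ℕ) : ℝ) / (n : ℝ) ^ 2 ≤ 6 / Real.sqrt a := by
  have key : ∀ m : ℕ, ∑ n ∈ Ico a (a + m), Real.sqrt ((n + 1 : ℕ) : ℝ) / (n : ℝ) ^ 2 ≤
      6 * (1 / Real.sqrt a - 1 / Real.sqrt ((a + m : ℕ) : ℝ)) := by
    intro m
    induction m with
    | zero => simp
    | succ m ih =>
      rw [← add_assoc, Finset.sum_Ico_succ_top (by omega)]
      have h := tele (n := a + m) (by omega)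
      linarith
  refine (key m).trans ?_
  have h1 : 0 ≤ 1 / Real.sqrt ((a + m : ℕ) : ℝ) := by positivity
  have h2 : 6 / Real.sqrt a = 6 * (1 / Real.sqrt a) := by ring
  rw [h2]
  linarith

private theorem head_sum (k : ℕ) {s : ℂ} (hs : 1 ≤ s.re) {j : PC} (Y : ℕ) :
    ‖∑ n ∈ Ico 1 Y, ch j n * gg k s n‖ ≤ Real.log Y ^ k * (1 + Real.log Y) := by
  refine (norm_sum_le _ _).trans ?_
  have h0 : 0 ≤ Real.log Y := Real.log_natCast_nonneg Y
  have h1 : ∀ n ∈ Ico 1 Y, ‖ch j n * gg k s n‖ ≤ Real.log Y ^ k * (1 / n : ℝ) := by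
    intro n hn
    rw [Finset.mem_Ico] at hn
    rw [norm_mul]
    have h2 : ‖ch j n‖ * ‖gg k s n‖ ≤ 1 * (Real.log n ^ k / n) :=
      mul_le_mul (norm_ch_le j n) (norm_gg_le k hs hn.1) (norm_nonneg _) zero_le_one
    refine h2.trans ?_
    rw [one_mul, div_eq_mul_one_div]
    have hn1 : (1 : ℝ) ≤ n := by exact_mod_cast hn.1
    refine mul_le_mul_of_nonneg_right ?_ (by positivity)
    refine pow_le_pow_left₀ (Real.log_nonneg hn1) ?_ k
    exact Real.log_le_log (by linarith) (by exact_mod_cast hn.2.le)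
  refine (Finset.sum_le_sum h1).trans ?_
  rw [← Finset.mul_sum]
  refine mul_le_mul_of_nonneg_left ?_ (by positivity)
  have h3 : ∑ n ∈ Ico 1 Y, (1 / n : ℝ) ≤ ∑ n ∈ range Y, (1 / ((n : ℝ) + 1)) := by
    rcases Nat.eq_zero_or_pos Y with rfl | hY
    · simp
    · rw [Finset.sum_Ico_eq_sum_range]
      have e : ∀ i ∈ range (Y - 1), (1 / ((1 + i : ℕ) : ℝ)) = 1 / ((i : ℝ) + 1) := by
        intro i _
        push_cast
        rw [add_comm]
      rw [Finset.sum_congr rfl e]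
      refine Finset.sum_le_sum_of_subset_of_nonneg ?_ fun i _ _ => by positivity
      intro i hi
      rw [Finset.mem_range] at hi ⊢
      omega
  refine h3.trans ?_
  have h4 := harmonic_le_one_add_log Y
  unfold harmonic at h4
  push_cast at h4
  refine le_trans (le_of_eq ?_) h4
  refine Finset.sum_congr rfl fun i _ => ?_
  rw [one_div]

/-- Bounds for the derivatives of `L(s, χ)`, `Re s > 1`. -/
theorem Lder (k : ℕ) : ∃ C : ℝ, 0 < C ∧ ∀ j : PC, 2 ≤ j.1 → j.2 ≠ 1 → ∀ s : ℂ, 1 < s.re →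
    s.re ≤ 2 →
    ‖LSeries (fun n => ch j n * ((Real.log n : ℝ) : ℂ) ^ k) s‖ ≤ C * LL j.1 s.im ^ (k + 1) := by
  have hcc := cc_pos k
  refine ⟨4 * 3 ^ k + (6 * k + 8) * cc k, by positivity, ?_⟩
  intro j hq hχ s hs1 hs2
  have hs1' : 1 ≤ s.re := hs1.le
  set ℓ := LL j.1 s.im with hℓ
  have hℓ1 : 1 ≤ ℓ := LL_ge_one hq s.im
  set q : ℝ := (j.1 : ℝ) with hq'
  have hq2 : (2 : ℝ) ≤ q := by rw [hq']; exact_mod_cast hq
  have ht0 : 0 ≤ |s.im| := abs_nonneg _
  set A : ℝ := q * (|s.im| + 3) with hA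
  have hA6 : 6 ≤ A := by
    rw [hA]
    nlinarith
  have hlogA : Real.log A = ℓ := by
    rw [hA, hℓ, LL, Real.log_mul (by positivity) (by positivity)]
  obtain ⟨Y, hY⟩ : ∃ Y : ℕ, Y = ⌈A ^ 2⌉₊ := ⟨_, rfl⟩
  have hY1 : A ^ 2 ≤ Y := by rw [hY]; exact Nat.le_ceil _
  have hY2 : (Y : ℝ) < A ^ 2 + 1 := by rw [hY]; exact Nat.ceil_lt_add_one (by positivity)
  have hY3 : (Y : ℝ) ≤ A ^ 3 := by nlinarith [sq_nonneg A]
  have hY4 : (36 : ℝ) ≤ Y := by nlinarith
  have hY5 : 36 ≤ Y := by exact_mod_cast hY4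
  have hlogY : Real.log Y ≤ 3 * ℓ := by
    rw [← hlogA]
    have h := Real.log_le_log (by linarith) hY3
    rw [Real.log_pow] at h
    push_cast at h
    exact h
  have hlogY0 : 0 ≤ Real.log Y := Real.log_natCast_nonneg Y
  have hℓk : 1 ≤ ℓ ^ (k + 1) := one_le_pow₀ hℓ1
  have hsqrt : ∀ n : ℕ, Y ≤ n → A ≤ Real.sqrt n := by
    intro n hn
    refine Real.le_sqrt_of_sq_le ?_
    exact hY1.trans (by exact_mod_cast hn)
  -- head
  have hhead : ‖∑ n ∈ Ico 1 Y, ch j n * gg k s n‖ ≤ 4 * 3 ^ k * ℓ ^ (k + 1) := by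
    refine (head_sum k hs1' Y).trans ?_
    calc Real.log Y ^ k * (1 + Real.log Y) ≤ (3 * ℓ) ^ k * (ℓ + 3 * ℓ) := by
          refine mul_le_mul (pow_le_pow_left₀ hlogY0 hlogY k) (by linarith) (by positivity)
            (by positivity)
      _ = 4 * 3 ^ k * ℓ ^ (k + 1) := by
          rw [mul_pow]
          ring
  -- terms
  have hg : ∀ n : ℕ, Y ≤ n → q * ‖gg k s n‖ ≤ cc k := by
    intro n hn
    have hn1 : (1 : ℝ) ≤ n := by
      have : 1 ≤ n := by omega
      exact_mod_cast this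
    have h1 := norm_gg_le k hs1' (n := n) (by omega)
    have h2 := log_pow_le k hn1
    have h3 := hsqrt n hn
    have h4 : 0 < Real.sqrt n := by linarith
    have h5 : Real.sqrt n * Real.sqrt n = n := Real.mul_self_sqrt (by linarith)
    have h6 : Real.log n ^ k / n ≤ cc k / A := by
      rw [div_le_div_iff₀ (by linarith) (by linarith)]
      calc Real.log n ^ k * A ≤ (cc k * Real.sqrt n) * Real.sqrt n :=
            mul_le_mul h2 h3 (by linarith) (by positivity)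
        _ = cc k * n := by rw [mul_assoc, h5]
    calc q * ‖gg k s n‖ ≤ q * (cc k / A) :=
          mul_le_mul_of_nonneg_left (h1.trans h6) (by linarith)
      _ ≤ cc k := by
          rw [mul_div_assoc', div_le_iff₀ (by linarith)]
          have : q ≤ A := by rw [hA]; nlinarith
          nlinarith
  -- tail
  have htail : ∀ m : ℕ, ‖∑ n ∈ Ico Y (Y + m), ch j n * gg k s n‖ ≤ (6 * k + 8) * cc k := by
    intro m
    refine (abelC (fun u => char_sum' (by omega) hχ u) Y m).trans ?_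
    rw [← hq']
    have h1 : ∑ n ∈ Ico Y (Y + m), ‖gg k s (n + 1) - gg k s n‖ ≤
        (k + 2 + |s.im|) * cc k * (6 / A) := by
      have h2 : ∀ n ∈ Ico Y (Y + m), ‖gg k s (n + 1) - gg k s n‖ ≤
          (k + 2 + |s.im|) * cc k * (Real.sqrt ((n + 1 : ℕ) : ℝ) / (n : ℝ) ^ 2) := by
        intro n hn
        rw [Finset.mem_Ico] at hn
        refine (gg_diff k hs1' hs2 (n := n) (by omega)).trans ?_
        have h3 := log_pow_le k (x := ((n + 1 : ℕ) : ℝ)) (by push_cast; linarith [Nat.cast_nonneg (α := ℝ) n])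
        have h4 : (k + 2 + |s.im|) * Real.log ((n + 1 : ℕ) : ℝ) ^ k ≤
            (k + 2 + |s.im|) * (cc k * Real.sqrt ((n + 1 : ℕ) : ℝ)) :=
          mul_le_mul_of_nonneg_left h3 (by positivity)
        calc _ ≤ (k + 2 + |s.im|) * (cc k * Real.sqrt ((n + 1 : ℕ) : ℝ)) / (n : ℝ) ^ 2 :=
              div_le_div_of_nonneg_right h4 (by positivity)
          _ = _ := by ring
      refine (Finset.sum_le_sum h2).trans ?_
      rw [← Finset.mul_sum]
      refine mul_le_mul_of_nonneg_left ?_ (by positivity)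
      refine (tele_sum (by omega) m).trans ?_
      exact div_le_div_of_nonneg_left (by norm_num) (by linarith) (hsqrt Y le_rfl)
    have h5 : q * ((k + 2 + |s.im|) * cc k * (6 / A)) ≤ 6 * (k + 1) * cc k := by
      have e : q * ((k + 2 + |s.im|) * cc k * (6 / A)) =
          (6 * cc k) * (q * (k + 2 + |s.im|)) / A := by ring
      rw [e, div_le_iff₀ (by linarith)]
      have h6 : q * (k + 2 + |s.im|) ≤ (k + 1) * A := by
        rw [hA]
        have hk : (0 : ℝ) ≤ k := Nat.cast_nonneg k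
        have h7 : (k + 2 + |s.im|) ≤ (k + 1) * (|s.im| + 3) := by nlinarith
        calc q * (k + 2 + |s.im|) ≤ q * ((k + 1) * (|s.im| + 3)) :=
              mul_le_mul_of_nonneg_left h7 (by linarith)
          _ = _ := by ring
      calc (6 * cc k) * (q * (k + 2 + |s.im|)) ≤ (6 * cc k) * ((k + 1) * A) :=
            mul_le_mul_of_nonneg_left h6 (by positivity)
        _ = _ := by ring
    have h8 := hg Y le_rfl
    have h9 := hg (Y + m) (by omega)
    have h10 : q * ∑ n ∈ Ico Y (Y + m), ‖gg k s (n + 1) - gg k s n‖ ≤ 6 * (k + 1) * cc k :=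
      (mul_le_mul_of_nonneg_left h1 (by linarith)).trans h5
    calc _ = q * ‖gg k s (Y + m)‖ + q * ‖gg k s Y‖ +
          q * ∑ n ∈ Ico Y (Y + m), ‖gg k s (n + 1) - gg k s n‖ := by ring
      _ ≤ cc k + cc k + 6 * (k + 1) * cc k := by linarith
      _ = _ := by ring
  -- assembly
  have hpos : 0 ≤ (4 * 3 ^ k + (6 * k + 8) * cc k) * ℓ ^ (k + 1) := by positivity
  unfold LSeries
  by_cases hsum : Summable (LSeries.term (fun n => ch j n * ((Real.log n : ℝ) : ℂ) ^ k) s)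
  · have ht := hsum.hasSum.tendsto_sum_nat
    refine le_of_tendsto ht.norm (Filter.eventually_atTop.2 ⟨Y, fun M hM => ?_⟩)
    obtain ⟨m, rfl⟩ := Nat.exists_eq_add_of_le hM
    have e1 : ∑ i ∈ range (Y + m),
        LSeries.term (fun n => ch j n * ((Real.log n : ℝ) : ℂ) ^ k) s i =
        ∑ n ∈ Ico 1 Y, ch j n * gg k s n + ∑ n ∈ Ico Y (Y + m), ch j n * gg k s n := by
      rw [Finset.sum_Ico_consecutive _ (by omega) (by omega), Finset.range_eq_Ico,
        Finset.sum_eq_sum_Ico_succ_bot (by omega)]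
      rw [LSeries.term_zero, zero_add]
      refine Finset.sum_congr rfl fun n hn => ?_
      rw [Finset.mem_Ico] at hn
      rw [LSeries.term_of_ne_zero (by omega), gg, Complex.cpow_neg]
      ring
    rw [e1]
    refine (norm_add_le _ _).trans ((add_le_add hhead (htail m)).trans ?_)
    have h11 : (6 * k + 8) * cc k ≤ (6 * k + 8) * cc k * ℓ ^ (k + 1) :=
      le_mul_of_one_le_right (by positivity) hℓk
    calc _ ≤ 4 * 3 ^ k * ℓ ^ (k + 1) + (6 * k + 8) * cc k * ℓ ^ (k + 1) := by linarith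
      _ = _ := by ring
  · rw [tsum_eq_zero_of_not_summable hsum, norm_zero]
    exact hpos

end PGB
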