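import Pool.Agent.PGB.Defs
import Pool.Agent.MSP.Eul

/-!
# Project PGB, Sz: bounds for the principal character to the right of `1`

PROOFS.
* `zeta_real`: for `1 < σ ≤ 2` `‖L(σ, f)‖ ≤ ∑ n^(-σ) ≤ 1 + 1/(σ-1) ≤ 2/(σ-1)` for every `f` with
  `‖f n‖ ≤ 1` (integral comparison, or `ZetaAsymptotics`, or `tsum` bound by telescoping:
  `n^(-σ) ≤ ((n-1)^(1-σ) - n^(1-σ)) / (σ-1)` for `n ≥ 2`).
* `zeta_line`: for `1 < Re s ≤ 2`, `Im s = t ≠ 0`: `‖ζ(s)‖ ≤ 10 (1 / |t| + log (|t| + 3))`.  With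
  `Y = ⌈|t|⌉₊ + 2`: `∑_{n < Y} n^(-σ) ≤ 1 + log Y`, and
  `∑_{n ≥ Y} n^(-s) = Y^(1-s)/(s-1) + O(1 + |s| / Y)`: since
  `‖n^(-s) - ∫_n^{n+1} x^(-s) dx‖ ≤ |s| n^(-σ-1) ≤ |s| / n^2` and `∑_{n ≥ Y} 1/n^2 ≤ 2/Y`;
  `|Y^(1-s) / (s-1)| ≤ 1/|t|`, `|s| ≤ 2 + |t| ≤ 2 Y`.
  (There may be a usable bound of `riemannZeta` in `Pool/Agent/MSP/Zbd.lean`.)
* `triv_line`: `L(s, χ₀) = ζ(s) ∏_{p ∣ q} (1 - p^(-s))`
  (`DirichletCharacter.LFunctionTrivChar_eq_mul_riemannZeta` and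
  `DirichletCharacter.LFunction_eq_LSeries`), and
  `∏_{p ∣ q} (1 + 1/p) ≤ ∑_{d ∣ q} 1/d ≤ 1 + log q ≤ 2 LL q t`
  (expand the product over the prime factors: `Finset.prod_one_add`/`Finset.prod_add`, the products of
  different sets of primes are different divisors of `q`, so at most
  `∑_{1 ≤ d ≤ q} 1/d ≤ 1 + log q`, `harmonic_le_one_add_log`).
-/

set_option autoImplicit false

open Finset

namespace PGB

/-- `∑ n^(-σ) ≤ 1 + 1/(σ-1)`. -/
private lemma tsum_le {σ : ℝ} (hσ : 1 < σ) :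
    ∑' n : ℕ, 1 / (n + 1 : ℝ) ^ σ ≤ 1 + 1 / (σ - 1) := by
  have h1 := ZetaAsymptotics.zeta_limit_aux1 hσ
  have h2 : 0 ≤ ZetaAsymptotics.termTSum σ :=
    tsum_nonneg fun n => ZetaAsymptotics.term_nonneg (n + 1) σ
  have h3 : 0 ≤ σ * ZetaAsymptotics.termTSum σ := mul_nonneg (by linarith) h2
  linarith

theorem zeta_real {f : ℕ → ℂ} (hf : ∀ n, ‖f n‖ ≤ 1) {s : ℂ} (hs : 1 < s.re) (hs2 : s.re ≤ 2) :
    ‖LSeries f s‖ ≤ 2 / (s.re - 1) := by
  have hb : ∀ n : ℕ, ‖LSeries.term f s (n + 1)‖ ≤ 1 / (n + 1 : ℝ) ^ s.re := by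
    intro n
    rw [LSeries.norm_term_eq, if_neg (Nat.succ_ne_zero n)]
    push_cast
    gcongr
    exact hf _
  have hsum : Summable fun n : ℕ => 1 / (n + 1 : ℝ) ^ s.re := by
    exact_mod_cast (summable_nat_add_iff 1).mpr (Real.summable_one_div_nat_rpow.mpr hs)
  have hS : LSeriesSummable f s :=
    LSeriesSummable_of_bounded_of_one_lt_re (m := 1) (fun n _ => hf n) hs
  have h4 : ∑' n : ℕ, LSeries.term f s n = ∑' n : ℕ, LSeries.term f s (n + 1) := by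
    rw [hS.tsum_eq_zero_add, LSeries.term_zero, zero_add]
  have h5 : ‖LSeries f s‖ ≤ 1 + 1 / (s.re - 1) := by
    rw [LSeries, h4]
    exact (tsum_of_norm_bounded hsum.hasSum hb).trans (tsum_le hs)
  refine h5.trans ?_
  have h6 : 0 < s.re - 1 := by linarith
  rw [le_div_iff₀ h6, add_mul, div_mul_cancel₀ _ h6.ne']
  linarith

theorem zeta_line {s : ℂ} (hs : 1 < s.re) (hs2 : s.re ≤ 2) (ht : s.im ≠ 0) :
    ‖riemannZeta s‖ ≤ 10 * (1 / |s.im| + Real.log (|s.im| + 3)) := by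
  set t := |s.im| with ht'
  have ht0 : 0 < t := abs_pos.2 ht
  have hs1 : s ≠ 1 := by
    intro h
    rw [h] at ht
    simp at ht
  set N := ⌈t⌉₊ + 1 with hN
  have hN1 : 1 ≤ N := by omega
  have hN0 : (0 : ℝ) < N := by exact_mod_cast hN1
  have hNt : t + 1 ≤ N := by
    rw [hN]
    push_cast
    linarith [Nat.le_ceil t]
  have hNt2 : (N : ℝ) ≤ t + 3 := by
    rw [hN]
    push_cast
    linarith [(Nat.ceil_lt_add_one ht0.le).le]
  have h1 := Pool.MSP.zeta_approx (by linarith) hs1 hN1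
  have h2 : ‖∑ n ∈ Finset.Icc 1 N, (n : ℂ) ^ (-s)‖ ≤ 1 + Real.log N := by
    have h3 : ∀ n ∈ Finset.Icc 1 N, ‖(n : ℂ) ^ (-s)‖ ≤ (n : ℝ)⁻¹ := by
      intro n hn
      rw [Finset.mem_Icc] at hn
      have hn1 : (1 : ℝ) ≤ n := by exact_mod_cast hn.1
      rw [Complex.norm_natCast_cpow_of_pos hn.1, Complex.neg_re, ← Real.rpow_neg_one]
      exact Real.rpow_le_rpow_of_exponent_le hn1 (by linarith)
    refine (norm_sum_le _ _).trans ((Finset.sum_le_sum h3).trans ?_)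
    have h2 := harmonic_le_one_add_log N
    rw [harmonic_eq_sum_Icc] at h2
    push_cast at h2
    exact h2
  have h3 : ‖(N : ℂ) ^ (1 - s) / (s - 1)‖ ≤ 1 / t := by
    rw [norm_div, Complex.norm_natCast_cpow_of_pos hN1]
    have e1 : (N : ℝ) ^ (1 - s).re ≤ 1 := by
      apply Real.rpow_le_one_of_one_le_of_nonpos (by exact_mod_cast hN1)
      simp
      linarith
    have e2 : t ≤ ‖s - 1‖ := by
      have := Complex.abs_im_le_norm (s - 1)
      simpa using this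
    exact div_le_div₀ (by norm_num) e1 ht0 e2
  have h4 : ‖s‖ / s.re * (N : ℝ) ^ (-s.re) ≤ 2 := by
    have e1 : ‖s‖ ≤ 2 * N := by
      have := Complex.norm_le_abs_re_add_abs_im s
      rw [abs_of_pos (show 0 < s.re by linarith)] at this
      linarith
    have e2 : (N : ℝ) ^ (-s.re) ≤ (N : ℝ)⁻¹ := by
      rw [← Real.rpow_neg_one]
      exact Real.rpow_le_rpow_of_exponent_le (by exact_mod_cast hN1) (by linarith)
    have e3 : ‖s‖ / s.re ≤ 2 * N := by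
      rw [div_le_iff₀ (by linarith)]
      nlinarith
    calc ‖s‖ / s.re * (N : ℝ) ^ (-s.re) ≤ (2 * N) * (N : ℝ)⁻¹ :=
          mul_le_mul e3 e2 (by positivity) (by positivity)
      _ = 2 := by field_simp
  have h5 : Real.log N ≤ Real.log (t + 3) := Real.log_le_log hN0 hNt2
  have h6 : 1 ≤ Real.log (t + 3) := by
    rw [Real.le_log_iff_exp_le (by linarith)]
    linarith [Real.exp_one_lt_d9]
  have h7 : ‖riemannZeta s‖ ≤ ‖∑ n ∈ Finset.Icc 1 N, (n : ℂ) ^ (-s)‖ +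
      ‖(N : ℂ) ^ (1 - s) / (s - 1)‖ + ‖s‖ / s.re * (N : ℝ) ^ (-s.re) := by
    have e1 : riemannZeta s = (∑ n ∈ Finset.Icc 1 N, (n : ℂ) ^ (-s)) +
        (N : ℂ) ^ (1 - s) / (s - 1) + (riemannZeta s - (∑ n ∈ Finset.Icc 1 N, (n : ℂ) ^ (-s)) -
          (N : ℂ) ^ (1 - s) / (s - 1)) := by ring
    have e2 : ‖riemannZeta s‖ ≤ ‖∑ n ∈ Finset.Icc 1 N, (n : ℂ) ^ (-s)‖ +
        ‖(N : ℂ) ^ (1 - s) / (s - 1)‖ + ‖riemannZeta s - (∑ n ∈ Finset.Icc 1 N, (n : ℂ) ^ (-s)) -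
          (N : ℂ) ^ (1 - s) / (s - 1)‖ := by
      conv_lhs => rw [e1]
      exact norm_add₃_le
    linarith
  have h8 : 0 < 1 / t := by positivity
  linarith

/-- `∏_{p ∣ q} (1 + 1/p) ≤ 1 + log q`. -/
private theorem prod_bound {q : ℕ} (hq : 1 ≤ q) :
    ∏ p ∈ q.primeFactors, (1 + (p : ℝ)⁻¹) ≤ 1 + Real.log q := by
  classical
  rw [Finset.prod_one_add]
  have h1 : ∑ T ∈ q.primeFactors.powerset, ∏ p ∈ T, (p : ℝ)⁻¹ =
      ∑ T ∈ q.primeFactors.powerset, (((∏ p ∈ T, p : ℕ) : ℝ))⁻¹ := by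
    apply Finset.sum_congr rfl
    intro T _
    rw [Finset.prod_inv_distrib]
    push_cast
    rfl
  have hinj : Set.InjOn (fun T : Finset ℕ => ∏ p ∈ T, p)
      (q.primeFactors.powerset : Set (Finset ℕ)) := by
    intro T hT T' hT' h
    rw [Finset.mem_coe, Finset.mem_powerset] at hT hT'
    have e1 := Nat.primeFactors_prod (s := T) fun p hp => Nat.prime_of_mem_primeFactors (hT hp)
    have e2 := Nat.primeFactors_prod (s := T') fun p hp => Nat.prime_of_mem_primeFactors (hT' hp)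
    simp only at h
    rw [← e1, ← e2, h]
  rw [h1, ← Finset.sum_image (f := fun d : ℕ => ((d : ℝ))⁻¹) hinj]
  have h2 : (q.primeFactors.powerset).image (fun T : Finset ℕ => ∏ p ∈ T, p) ⊆ Icc 1 q := by
    intro d hd
    rw [Finset.mem_image] at hd
    obtain ⟨T, hT, rfl⟩ := hd
    rw [Finset.mem_powerset] at hT
    rw [Finset.mem_Icc]
    have h3 : ∏ p ∈ T, p ∣ q :=
      (Finset.prod_dvd_prod_of_subset _ _ _ hT).trans (Nat.prod_primeFactors_dvd q)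
    exact ⟨Nat.pos_of_dvd_of_pos h3 hq, Nat.le_of_dvd hq h3⟩
  refine (Finset.sum_le_sum_of_subset_of_nonneg h2 fun d _ _ => by positivity).trans ?_
  have h4 := harmonic_le_one_add_log q
  rw [harmonic_eq_sum_Icc] at h4
  push_cast at h4
  exact h4

/-- The `L`-series of the principal character off the real axis. -/
theorem triv_line {q : ℕ} (hq : 2 ≤ q) {s : ℂ} (hs : 1 < s.re) (hs2 : s.re ≤ 2)
    (ht : s.im ≠ 0) :
    ‖LSeries (ch ⟨q, 1⟩) s‖ ≤ 20 * LL q s.im * (1 / |s.im| + LL q s.im) := by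
  have : NeZero q := ⟨by omega⟩
  have hs1 : s ≠ 1 := by
    intro h
    rw [h] at ht
    simp at ht
  have h1 : LSeries (ch ⟨q, 1⟩) s =
      (∏ p ∈ q.primeFactors, (1 - (p : ℂ) ^ (-s))) * riemannZeta s := by
    rw [← DirichletCharacter.LFunctionTrivChar_eq_mul_riemannZeta hs1]
    exact (DirichletCharacter.LFunction_eq_LSeries (1 : DirichletCharacter ℂ q) hs).symm
  have hq0 : (0 : ℝ) < q := by exact_mod_cast (by omega : 0 < q)
  have h2 : ‖∏ p ∈ q.primeFactors, (1 - (p : ℂ) ^ (-s))‖ ≤ 1 + Real.log q := by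
    refine le_trans ?_ (prod_bound (by omega : 1 ≤ q))
    rw [norm_prod]
    apply Finset.prod_le_prod (fun p _ => norm_nonneg _)
    intro p hp
    have hp1 := (Nat.prime_of_mem_primeFactors hp).pos
    have h3 : ‖(p : ℂ) ^ (-s)‖ ≤ (p : ℝ)⁻¹ := by
      rw [Complex.norm_natCast_cpow_of_pos hp1, Complex.neg_re, ← Real.rpow_neg_one]
      exact Real.rpow_le_rpow_of_exponent_le (by exact_mod_cast hp1) (by linarith)
    calc ‖1 - (p : ℂ) ^ (-s)‖ ≤ ‖(1 : ℂ)‖ + ‖(p : ℂ) ^ (-s)‖ := norm_sub_le _ _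
      _ ≤ 1 + (p : ℝ)⁻¹ := by rw [norm_one]; linarith
  have h3 := zeta_line hs hs2 ht
  have ht0 : 0 < |s.im| := abs_pos.2 ht
  have h4 : 1 ≤ Real.log (|s.im| + 3) := by
    rw [Real.le_log_iff_exp_le (by linarith)]
    linarith [Real.exp_one_lt_d9]
  have h5 : 0 ≤ Real.log q := Real.log_nonneg (by exact_mod_cast (by omega : 1 ≤ q))
  have h6 : LL q s.im = Real.log q + Real.log (|s.im| + 3) := rfl
  have h7 : 0 < 1 / |s.im| := by positivity
  rw [h1, norm_mul]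
  calc ‖∏ p ∈ q.primeFactors, (1 - (p : ℂ) ^ (-s))‖ * ‖riemannZeta s‖ ≤
        (2 * LL q s.im) * (10 * (1 / |s.im| + LL q s.im)) := by
        apply mul_le_mul
        · linarith
        · linarith
        · exact norm_nonneg _
        · linarith
    _ = _ := by ring

end PGB
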