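import Pool.Agent.PGB.Sd
import Pool.Agent.PGB.Sz

/-!
# Project PGB, Slw: lower bounds for `L(s, χ)` to the right of `1`

PROOFS.  Write `L(s) = LSeries (ch j) s`, `q = j.1`, `ℓ = LL Q s.im ≥ LL q s.im ≥ 1`.
* `L_inv`: `L(s) * LSeries (μ χ) s = 1` (`DirichletCharacter.LSeries.mul_mu_eq_one`) and `zeta_real`
  for `μ χ`.
* `L_lip`: `L` is differentiable on `Re s > 1` with derivative `-LSeries (χ log) s`
  (`LSeries_hasDerivAt`, `LSeries.logMul`), bounded by `C (LL q τ)^2` for `|Im| ≤ τ` (`Lder 1`); mean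
  value inequality on the segment (`Convex.norm_image_sub_le_of_norm_deriv_le`); the real parts stay
  in `(1, 2]`.
* `three_four`: `DirichletCharacter.norm_LSeries_product_ge_one` (`χ₀^3 χ^4 χ^2`-product `≥ 1`) with
  `‖L(σ, χ₀)‖ ≤ 2 / (σ-1)` (`zeta_real`): `(2/(σ-1))^3 ‖L(s)‖^4 M ≥ 1`, so
  `‖L(s)‖ ≥ ((σ-1)/2)^(3/4) M^(-1/4)`; `c = 1/2`.
* `lower`: Let `C₁` be the constant of `L_lip` (with `LL Q (|t|+1) ≤ 2 ℓ`: `log(|t|+4) ≤ 2 log(|t|+3)`).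
  General step (G): if `M ≥ 1` bounds `‖L(σ + 2 i t, χ²)‖` for all `1 < σ ≤ 2`, and `M ≤ C₂ ℓ^10`, then
  with `σ₁ = 1 + b ℓ^(-18)`, `b ∈ (0, 1]` small constant: `‖L(σ + i t)‖ ≥ c₂ (σ-1)^(3/4) ℓ^(-5/2)` for
  `σ ≥ σ₁`, so `≥ c₂ b^(3/4) ℓ^(-16)`; for `σ < σ₁`: `‖L(σ+it)‖ ≥ ‖L(σ₁+it)‖ - (σ₁-σ) 4 C₁ ℓ^2 ≥
  (c₂ b^(3/4) - 4 C₁ b) ℓ^(-16)`; choose `b` with `4 C₁ b ≤ c₂ b^(3/4) / 2`.  So
  `‖L‖ ≥ c₃ ℓ^(-16)` in both cases.
  (i) `χ² ≠ 1`: `M = C (LL q (2t)) ≤ 2 C ℓ` (`Lder 0` for the character `χ²` modulo `q`).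
  (ii) `χ² = 1`, `|t| ≥ b' ℓ^(-7)`, `b'` fixed below: `triv_line` (`2 t ≠ 0`):
  `M = 20 * 2 ℓ * (ℓ^7 / (2 b') + 2 ℓ) ≤ C₂ ℓ^10`.
  (iii) `χ² = 1`, `|t| < b' ℓ^(-7)`: not exceptional: `‖L(σ)‖ ≥ κ (log Q)^(-5) ≥ κ ℓ^(-5)` and
  `‖L(σ+it) - L(σ)‖ ≤ |t| 4 C₁ ℓ^2 ≤ 4 C₁ b' ℓ^(-5) ≤ κ ℓ^(-5) / 2` for `b' = κ / (8 C₁)`
  (if `b' > 1` replace it by `1`).
-/

set_option autoImplicit false

open Finset

namespace PGB

theorem L_inv {j : PC} {s : ℂ} (hs : 1 < s.re) (hs2 : s.re ≤ 2) :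
    (s.re - 1) / 2 ≤ ‖LSeries (ch j) s‖ := by
  have h1 := DirichletCharacter.LSeries.mul_mu_eq_one j.2 hs
  have h2 : ‖LSeries ((fun n : ℕ => j.2 (n : ZMod j.1)) *
      (fun n : ℕ => ((ArithmeticFunction.moebius n : ℤ) : ℂ))) s‖ ≤ 2 / (s.re - 1) := by
    apply zeta_real _ hs hs2
    intro n
    rw [Pi.mul_apply, norm_mul]
    have e1 : ‖j.2 (n : ZMod j.1)‖ ≤ 1 := j.2.norm_le_one _
    have e2 : ‖((ArithmeticFunction.moebius n : ℤ) : ℂ)‖ ≤ 1 := by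
      rw [Complex.norm_intCast]
      have := ArithmeticFunction.abs_moebius_le_one (n := n)
      exact_mod_cast this
    calc _ ≤ (1 : ℝ) * 1 := mul_le_mul e1 e2 (norm_nonneg _) zero_le_one
      _ = 1 := one_mul 1
  have h3 : ‖LSeries (ch j) s‖ * ‖LSeries ((fun n : ℕ => j.2 (n : ZMod j.1)) *
      (fun n : ℕ => ((ArithmeticFunction.moebius n : ℤ) : ℂ))) s‖ = 1 := by
    rw [← norm_mul]
    change ‖LSeries (fun n : ℕ => j.2 (n : ZMod j.1)) s * _‖ = 1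
    rw [h1, norm_one]
  have h4 : 0 < s.re - 1 := by linarith
  have h5 : 1 ≤ ‖LSeries (ch j) s‖ * (2 / (s.re - 1)) :=
    h3.symm.le.trans (mul_le_mul_of_nonneg_left h2 (norm_nonneg _))
  rw [mul_div_assoc', le_div_iff₀ h4] at h5
  linarith

theorem LL_mono {Q Q' t t' : ℝ} (hQ : 0 < Q) (hQ' : Q ≤ Q') (ht : |t| ≤ |t'|) :
    LL Q t ≤ LL Q' t' := by
  unfold LL
  have h1 : Real.log Q ≤ Real.log Q' := Real.log_le_log hQ hQ'
  have h2 : Real.log (|t| + 3) ≤ Real.log (|t'| + 3) :=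
    Real.log_le_log (by positivity) (by linarith)
  linarith

/-- Lipschitz bound for `L(s, χ)` to the right of `1`. -/
theorem L_lip : ∃ C : ℝ, 0 < C ∧ ∀ j : PC, 2 ≤ j.1 → j.2 ≠ 1 → ∀ s s' : ℂ, 1 < s.re →
    s.re ≤ 2 → 1 < s'.re → s'.re ≤ 2 → ∀ τ : ℝ, |s.im| ≤ τ → |s'.im| ≤ τ →
    ‖LSeries (ch j) s - LSeries (ch j) s'‖ ≤ C * LL j.1 τ ^ 2 * ‖s - s'‖ := by
  obtain ⟨C, hC, h⟩ := Lder 1
  refine ⟨C, hC, ?_⟩
  intro j hj hj1 s s' hs1 hs2 hs1' hs2' τ hτ hτ'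
  have hj0 : j.1 ≠ 0 := by omega
  have hab : LSeries.abscissaOfAbsConv (ch j) = 1 :=
    DirichletCharacter.absicssaOfAbsConv_eq_one hj0 j.2
  set S : Set ℂ := {z : ℂ | 1 < z.re ∧ z.re ≤ 2 ∧ |z.im| ≤ τ} with hS
  have hconv : Convex ℝ S := by
    have e1 : Convex ℝ {z : ℂ | 1 < z.re} := convex_halfSpace_re_gt 1
    have e2 : Convex ℝ {z : ℂ | z.re ≤ 2} := convex_halfSpace_re_le 2
    have e3 : Convex ℝ {z : ℂ | z.im ≤ τ} := convex_halfSpace_im_le τ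
    have e4 : Convex ℝ {z : ℂ | -τ ≤ z.im} := convex_halfSpace_im_ge (-τ)
    have e5 : S = {z : ℂ | 1 < z.re} ∩ {z : ℂ | z.re ≤ 2} ∩
        ({z : ℂ | z.im ≤ τ} ∩ {z : ℂ | -τ ≤ z.im}) := by
      ext z
      simp only [hS, Set.mem_ofPred_eq, Set.mem_inter_iff, abs_le]
      tauto
    rw [e5]
    exact (e1.inter e2).inter (e3.inter e4)
  have hτ0 : 0 ≤ τ := le_trans (abs_nonneg _) hτ
  have hd : ∀ z ∈ S, HasDerivWithinAt (LSeries (ch j)) (-LSeries (LSeries.logMul (ch j)) z) S z := by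
    intro z hz
    apply HasDerivAt.hasDerivWithinAt
    apply LSeries_hasDerivAt
    rw [hab]
    exact_mod_cast hz.1
  have hb : ∀ z ∈ S, ‖-LSeries (LSeries.logMul (ch j)) z‖ ≤ C * LL j.1 τ ^ 2 := by
    intro z hz
    rw [norm_neg]
    have e1 : LSeries.logMul (ch j) = fun n => ch j n * ((Real.log n : ℝ) : ℂ) ^ 1 := by
      funext n
      rw [LSeries.logMul, pow_one, ← Complex.natCast_log, mul_comm]
    rw [e1]
    refine (h j hj hj1 z hz.1 hz.2.1).trans ?_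
    apply mul_le_mul_of_nonneg_left _ hC.le
    have e2 : LL j.1 z.im ≤ LL j.1 τ := LL_mono (by positivity) le_rfl
      (hz.2.2.trans (le_abs_self τ))
    have e3 : 1 ≤ LL j.1 z.im := LL_ge_one hj _
    exact pow_le_pow_left₀ (by linarith) e2 _
  have key := hconv.norm_image_sub_le_of_norm_hasDerivWithin_le hd hb
    (⟨hs1', hs2', hτ'⟩ : s' ∈ S) (⟨hs1, hs2, hτ⟩ : s ∈ S)
  exact key

/-- The 3-4-1 inequality. -/
theorem tf4 {j : PC} {σ t M : ℝ} (hσ : 1 < σ) (hσ2 : σ ≤ 2)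
    (h : ‖LSeries (ch ⟨j.1, j.2 ^ 2⟩) ((σ : ℂ) + (2 * t : ℝ) * Complex.I)‖ ≤ M) :
    1 ≤ (2 / (σ - 1)) ^ 3 * ‖LSeries (ch j) ((σ : ℂ) + (t : ℝ) * Complex.I)‖ ^ 4 * M := by
  have hx : 0 < σ - 1 := by linarith
  have key := DirichletCharacter.norm_LSeries_product_ge_one j.2 hx t
  have e1 : (1 : ℂ) + ((σ - 1 : ℝ) : ℂ) = (σ : ℂ) := by push_cast; ring
  have e2 : (1 : ℂ) + ((σ - 1 : ℝ) : ℂ) + Complex.I * (t : ℂ) = (σ : ℂ) + (t : ℝ) * Complex.I := by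
    push_cast; ring
  have e3 : (1 : ℂ) + ((σ - 1 : ℝ) : ℂ) + 2 * Complex.I * (t : ℂ) =
      (σ : ℂ) + (2 * t : ℝ) * Complex.I := by
    push_cast; ring
  rw [e2, e3, e1, norm_mul, norm_mul, norm_pow, norm_pow] at key
  have h0 : ‖LSeries (fun n : ℕ => (1 : DirichletCharacter ℂ j.1) (n : ZMod j.1)) (σ : ℂ)‖ ≤
      2 / (σ - 1) := by
    have := zeta_real (f := fun n : ℕ => (1 : DirichletCharacter ℂ j.1) (n : ZMod j.1))
      (s := (σ : ℂ)) (fun n => DirichletCharacter.norm_le_one _ _) (by simpa using hσ)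
      (by simpa using hσ2)
    simpa using this
  have hM : 0 ≤ M := (norm_nonneg _).trans h
  refine key.le.trans ?_
  apply mul_le_mul _ h (norm_nonneg _) (by positivity)
  apply mul_le_mul _ le_rfl (by positivity) (by positivity)
  exact pow_le_pow_left₀ (norm_nonneg _) h0 _

theorem three_four {j : PC} (hj : 2 ≤ j.1) {σ t M : ℝ} (hσ : 1 < σ) (hσ2 : σ ≤ 2) (hM : 1 ≤ M)
    (h : ‖LSeries (ch ⟨j.1, j.2 ^ 2⟩) ((σ : ℂ) + (2 * t : ℝ) * Complex.I)‖ ≤ M) :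
    1 / 2 * (σ - 1) ^ (3 / 4 : ℝ) * M ^ (-(1 / 4) : ℝ) ≤
      ‖LSeries (ch j) ((σ : ℂ) + (t : ℝ) * Complex.I)‖ := by
  have _ := hj
  have key := tf4 hσ hσ2 h
  have hx : 0 < σ - 1 := by linarith
  have hM0 : 0 < M := by linarith
  have h4 : (1 / 2 * (σ - 1) ^ (3 / 4 : ℝ) * M ^ (-(1 / 4) : ℝ)) ^ 4 ≤
      ‖LSeries (ch j) ((σ : ℂ) + (t : ℝ) * Complex.I)‖ ^ 4 := by
    rw [mul_pow, mul_pow, ← Real.rpow_natCast ((σ - 1) ^ (3 / 4 : ℝ)), ← Real.rpow_mul hx.le,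
      ← Real.rpow_natCast (M ^ (-(1 / 4) : ℝ)), ← Real.rpow_mul hM0.le]
    norm_num
    rw [Real.rpow_neg_one]
    set a := ‖LSeries (ch j) ((σ : ℂ) + (t : ℝ) * Complex.I)‖ with ha
    rw [div_pow, div_mul_eq_mul_div, div_mul_eq_mul_div, le_div_iff₀ (by positivity)] at key
    rw [← div_eq_mul_inv, div_le_iff₀ hM0]
    nlinarith [pow_pos hx 3]
  exact le_of_pow_le_pow_left₀ (by norm_num) (norm_nonneg _) h4

theorem LL_two {q : ℕ} {Q t : ℝ} (hq : 2 ≤ q) (hQ : (q : ℝ) ≤ Q) : LL q (2 * t) ≤ 2 * LL Q t := by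
  unfold LL
  have hq0 : (2 : ℝ) ≤ q := by exact_mod_cast hq
  have h1 : Real.log q ≤ Real.log Q := Real.log_le_log (by linarith) hQ
  have h0 : 0 ≤ Real.log Q := Real.log_nonneg (by linarith)
  have h2 : Real.log (|2 * t| + 3) ≤ 2 * Real.log (|t| + 3) := by
    rw [abs_mul, abs_two]
    have e1 : Real.log (2 * |t| + 3) ≤ Real.log ((|t| + 3) ^ 2) := by
      apply Real.log_le_log (by positivity)
      nlinarith [abs_nonneg t]
    rw [Real.log_pow] at e1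
    exact_mod_cast e1
  linarith

/-- Lower bound from an upper bound on the line of twice the height. -/
theorem stepG {C₁ : ℝ} (hC₁ : 0 < C₁) (hlip : ∀ j : PC, 2 ≤ j.1 → j.2 ≠ 1 → ∀ s s' : ℂ,
    1 < s.re → s.re ≤ 2 → 1 < s'.re → s'.re ≤ 2 → ∀ τ : ℝ, |s.im| ≤ τ → |s'.im| ≤ τ →
    ‖LSeries (ch j) s - LSeries (ch j) s'‖ ≤ C₁ * LL j.1 τ ^ 2 * ‖s - s'‖)
    {γ : ℝ} (hγ : 1 ≤ γ) {Q : ℝ} {j : PC} (hj : 2 ≤ j.1) (hjQ : (j.1 : ℝ) ≤ Q) (hj1 : j.2 ≠ 1)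
    {t : ℝ} {ℓ : ℝ} (hℓ : LL Q t = ℓ) (hℓ1 : 1 ≤ ℓ)
    (hM : ∀ σ : ℝ, 1 < σ → σ ≤ 2 →
      ‖LSeries (ch ⟨j.1, j.2 ^ 2⟩) ((σ : ℂ) + (2 * t : ℝ) * Complex.I)‖ ≤ γ * ℓ ^ 10)
    {σ : ℝ} (hσ : 1 < σ) (hσ2 : σ ≤ 2) :
    (1 / (4 * γ * (C₁ + 1))) ^ 3 / (4 * γ) / ℓ ^ 16 ≤
      ‖LSeries (ch j) ((σ : ℂ) + (t : ℝ) * Complex.I)‖ := by
  set β : ℝ := 1 / (4 * γ * (C₁ + 1)) with hβ
  have hβ0 : 0 < β := by positivity
  have hβ1 : β ≤ 1 := by
    rw [hβ, div_le_one (by positivity)]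
    nlinarith
  have hβC : C₁ * β ≤ 1 / (4 * γ) := by
    rw [hβ, le_div_iff₀ (by positivity)]
    have : C₁ * (1 / (4 * γ * (C₁ + 1))) * (4 * γ) = C₁ / (C₁ + 1) := by
      field_simp
    rw [this, div_le_one (by positivity)]
    linarith
  have hℓ0 : 0 < ℓ := by linarith
  have hbig : ∀ σ' : ℝ, 1 + β ^ 4 / ℓ ^ 18 ≤ σ' → σ' ≤ 2 → β ^ 3 / (2 * γ) / ℓ ^ 16 ≤
      ‖LSeries (ch j) ((σ' : ℂ) + (t : ℝ) * Complex.I)‖ := by
    intro σ' h1 h2
    have h3 : 0 < β ^ 4 / ℓ ^ 18 := by positivity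
    have h4 : 1 < σ' := by linarith
    have key := tf4 h4 h2 (hM σ' h4 h2)
    set a := ‖LSeries (ch j) ((σ' : ℂ) + (t : ℝ) * Complex.I)‖ with ha
    have ha0 : 0 ≤ a := norm_nonneg _
    have h5 : 2 / (σ' - 1) ≤ 2 * ℓ ^ 18 / β ^ 4 := by
      rw [div_le_div_iff₀ (by linarith) (by positivity)]
      have : β ^ 4 / ℓ ^ 18 ≤ σ' - 1 := by linarith
      rw [div_le_iff₀ (by positivity)] at this
      linarith
    have h6 : 1 ≤ (2 * ℓ ^ 18 / β ^ 4) ^ 3 * a ^ 4 * (γ * ℓ ^ 10) := by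
      refine key.trans ?_
      apply mul_le_mul_of_nonneg_right _ (by positivity)
      apply mul_le_mul_of_nonneg_right _ (by positivity)
      exact pow_le_pow_left₀ (div_nonneg (by norm_num) (by linarith)) h5 _
    apply le_of_pow_le_pow_left₀ (n := 4) (by norm_num) ha0
    have h7 : (2 * ℓ ^ 18 / β ^ 4) ^ 3 * a ^ 4 * (γ * ℓ ^ 10) =
        a ^ 4 * (8 * γ * ℓ ^ 64 / β ^ 12) := by
      field_simp
      ring
    rw [h7] at h6
    have h8 : (β ^ 3 / (2 * γ) / ℓ ^ 16) ^ 4 = β ^ 12 / (16 * γ ^ 4 * ℓ ^ 64) := by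
      field_simp
      ring
    rw [h8, div_le_iff₀ (by positivity)]
    have h9 : β ^ 12 ≤ a ^ 4 * (8 * γ * ℓ ^ 64) := by
      rw [mul_div_assoc', le_div_iff₀ (by positivity)] at h6
      linarith
    refine h9.trans ?_
    apply mul_le_mul_of_nonneg_left _ (by positivity)
    apply mul_le_mul_of_nonneg_right _ (by positivity)
    have : γ ≤ γ ^ 4 := le_self_pow₀ hγ (by norm_num)
    linarith
  rcases le_or_gt (1 + β ^ 4 / ℓ ^ 18) σ with h | h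
  · refine le_trans ?_ (hbig σ h hσ2)
    apply div_le_div_of_nonneg_right _ (by positivity)
    apply div_le_div_of_nonneg_left (by positivity) (by positivity)
    linarith
  · set σ₁ : ℝ := 1 + β ^ 4 / ℓ ^ 18 with hσ₁
    have h1 : β ^ 4 / ℓ ^ 18 ≤ 1 := by
      rw [div_le_one (by positivity)]
      exact (pow_le_one₀ hβ0.le hβ1).trans (one_le_pow₀ hℓ1)
    have h2 := hbig σ₁ le_rfl (by linarith)
    have h3 := hlip j hj hj1 ((σ₁ : ℂ) + (t : ℝ) * Complex.I) ((σ : ℂ) + (t : ℝ) * Complex.I)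
      (by simp; linarith) (by simp; linarith) (by simp; linarith) (by simp; linarith) |t|
      (by simp) (by simp)
    have h4 : ‖((σ₁ : ℂ) + (t : ℝ) * Complex.I) - ((σ : ℂ) + (t : ℝ) * Complex.I)‖ = σ₁ - σ := by
      have : ((σ₁ : ℂ) + (t : ℝ) * Complex.I) - ((σ : ℂ) + (t : ℝ) * Complex.I) =
        ((σ₁ - σ : ℝ) : ℂ) := by push_cast; ring
      rw [this, Complex.norm_real, Real.norm_eq_abs, abs_of_nonneg (by linarith)]
    rw [h4] at h3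
    have h5 : LL j.1 |t| ≤ ℓ := by
      rw [← hℓ]
      exact LL_mono (by positivity) hjQ (by simp)
    have h6 : (0 : ℝ) ≤ LL j.1 |t| := zero_le_one.trans (LL_ge_one hj _)
    have h7 : C₁ * LL j.1 |t| ^ 2 * (σ₁ - σ) ≤ C₁ * β * (β ^ 3 / ℓ ^ 16) := by
      calc _ ≤ C₁ * ℓ ^ 2 * (β ^ 4 / ℓ ^ 18) := by
            apply mul_le_mul _ (by linarith) (by linarith) (by positivity)
            apply mul_le_mul_of_nonneg_left _ hC₁.le
            exact pow_le_pow_left₀ h6 h5 _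
        _ = _ := by field_simp
    have h8 : C₁ * β * (β ^ 3 / ℓ ^ 16) ≤ 1 / (4 * γ) * (β ^ 3 / ℓ ^ 16) :=
      mul_le_mul_of_nonneg_right hβC (by positivity)
    have h9 : ‖LSeries (ch j) ((σ₁ : ℂ) + (t : ℝ) * Complex.I)‖ ≤
        ‖LSeries (ch j) ((σ : ℂ) + (t : ℝ) * Complex.I)‖ +
        ‖LSeries (ch j) ((σ₁ : ℂ) + (t : ℝ) * Complex.I) -
          LSeries (ch j) ((σ : ℂ) + (t : ℝ) * Complex.I)‖ := by
      have := norm_add_le (LSeries (ch j) ((σ : ℂ) + (t : ℝ) * Complex.I))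
        (LSeries (ch j) ((σ₁ : ℂ) + (t : ℝ) * Complex.I) -
          LSeries (ch j) ((σ : ℂ) + (t : ℝ) * Complex.I))
      rw [add_sub_cancel] at this
      exact this
    have h10 : β ^ 3 / (2 * γ) / ℓ ^ 16 - 1 / (4 * γ) * (β ^ 3 / ℓ ^ 16) =
        β ^ 3 / (4 * γ) / ℓ ^ 16 := by
      field_simp
      ring
    linarith

/-- Lower bound for the `L`-function of a character which is not exceptional. -/
theorem lower (κ : ℝ) (hκ : 0 < κ) : ∃ c : ℝ, 0 < c ∧ ∀ Q : ℝ, 3 ≤ Q → ∀ j : PC, 2 ≤ j.1 →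
    (j.1 : ℝ) ≤ Q → j.2 ≠ 1 → ¬ Exc κ Q j → ∀ s : ℂ, 1 < s.re → s.re ≤ 2 →
    c / LL Q s.im ^ 20 ≤ ‖LSeries (ch j) s‖ := by
  obtain ⟨C₁, hC₁, hlip⟩ := L_lip
  obtain ⟨C₀, hC₀, hL0⟩ := Lder 0
  set b : ℝ := κ / (2 * (C₁ + 1)) with hb
  have hb0 : 0 < b := by positivity
  set γ : ℝ := 1 + 2 * C₀ + 20 / b + 80 with hγ
  have hγ1 : 1 ≤ γ := by
    have : 0 < 20 / b := by positivity
    linarith
  set c₁ : ℝ := (1 / (4 * γ * (C₁ + 1))) ^ 3 / (4 * γ) with hc₁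
  have hc₁0 : 0 < c₁ := by positivity
  refine ⟨min c₁ (κ / 2), lt_min hc₁0 (by positivity), ?_⟩
  intro Q hQ j hj hjQ hj1 hexc s hs1 hs2
  set ℓ : ℝ := LL Q s.im with hℓ
  have hlogQ : 1 ≤ Real.log Q := by
    have h1 : Real.log (Real.exp 1) ≤ Real.log Q := by
      apply Real.log_le_log (Real.exp_pos _)
      have := Real.exp_one_lt_d9
      linarith
    rwa [Real.log_exp] at h1
  have hlogt : 0 ≤ Real.log (|s.im| + 3) := Real.log_nonneg (by linarith [abs_nonneg s.im])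
  have hℓQ : Real.log Q ≤ ℓ := by
    rw [hℓ]
    unfold LL
    linarith
  have hℓ1 : 1 ≤ ℓ := by linarith
  have hℓ0 : 0 < ℓ := by linarith
  have hs : s = ((s.re : ℝ) : ℂ) + ((s.im : ℝ) : ℂ) * Complex.I := (Complex.re_add_im s).symm
  have hq0 : (0 : ℝ) < j.1 := by positivity
  have hLL2 : LL j.1 (2 * s.im) ≤ 2 * ℓ := LL_two hj hjQ
  have hLL2' : 1 ≤ LL j.1 (2 * s.im) := LL_ge_one hj _
  -- reduction of the two first cases
  have hG : (∀ σ : ℝ, 1 < σ → σ ≤ 2 →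
      ‖LSeries (ch ⟨j.1, j.2 ^ 2⟩) ((σ : ℂ) + (2 * s.im : ℝ) * Complex.I)‖ ≤ γ * ℓ ^ 10) →
      min c₁ (κ / 2) / ℓ ^ 20 ≤ ‖LSeries (ch j) s‖ := by
    intro hM
    have h1 := stepG hC₁ hlip hγ1 hj hjQ hj1 (t := s.im) hℓ.symm hℓ1 hM hs1 hs2
    rw [← hs] at h1
    refine le_trans ?_ h1
    apply div_le_div₀ hc₁0.le (min_le_left _ _) (by positivity)
    exact pow_le_pow_right₀ hℓ1 (by norm_num)
  by_cases hsq : j.2 ^ 2 = 1
  · rcases le_or_gt (b / ℓ ^ 7) |s.im| with ht | ht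
    · -- case (ii)
      apply hG
      intro σ hσ hσ2
      have him0 : 0 < |s.im| := lt_of_lt_of_le (by positivity) ht
      have e0 : (⟨j.1, j.2 ^ 2⟩ : PC) = ⟨j.1, 1⟩ := by rw [hsq]
      have h1 := triv_line hj (s := (σ : ℂ) + (2 * s.im : ℝ) * Complex.I) (by simpa using hσ)
        (by simpa using hσ2) (by
          have : s.im ≠ 0 := abs_pos.1 him0
          simpa using this)
      have him : ((σ : ℂ) + (2 * s.im : ℝ) * Complex.I).im = 2 * s.im := by simp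
      rw [him] at h1
      rw [e0]
      refine h1.trans ?_
      have h2 : 1 / |2 * s.im| ≤ ℓ ^ 7 / b := by
        rw [abs_mul, abs_two, div_le_div_iff₀ (by positivity) hb0]
        rw [div_le_iff₀ (by positivity)] at ht
        nlinarith
      calc 20 * LL j.1 (2 * s.im) * (1 / |2 * s.im| + LL j.1 (2 * s.im))
          ≤ 20 * (2 * ℓ) * (1 / |2 * s.im| + LL j.1 (2 * s.im)) := by
            apply mul_le_mul_of_nonneg_right (by linarith)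
            have : 0 ≤ 1 / |2 * s.im| := by positivity
            linarith
        _ = (20 * ℓ) * (2 * (1 / |2 * s.im|)) + 40 * ℓ * LL j.1 (2 * s.im) := by ring
        _ ≤ (20 * ℓ) * (ℓ ^ 7 / b) + 40 * ℓ * (2 * ℓ) := by
            have h3 : 2 * (1 / |2 * s.im|) ≤ ℓ ^ 7 / b := by
              rw [abs_mul, abs_two]
              have h4 : 2 * (1 / (2 * |s.im|)) = 1 / |s.im| := by field_simp
              rw [h4, div_le_div_iff₀ him0 hb0]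
              rw [div_le_iff₀ (by positivity)] at ht
              linarith
            have h5 : (20 * ℓ) * (2 * (1 / |2 * s.im|)) ≤ (20 * ℓ) * (ℓ ^ 7 / b) :=
              mul_le_mul_of_nonneg_left h3 (by positivity)
            have h6 : 40 * ℓ * LL j.1 (2 * s.im) ≤ 40 * ℓ * (2 * ℓ) :=
              mul_le_mul_of_nonneg_left hLL2 (by positivity)
            linarith
        _ = 20 / b * ℓ ^ 8 + 80 * ℓ ^ 2 := by ring
        _ ≤ 20 / b * ℓ ^ 10 + 80 * ℓ ^ 10 := by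
            have h7 : ℓ ^ 8 ≤ ℓ ^ 10 := pow_le_pow_right₀ hℓ1 (by norm_num)
            have h8 : ℓ ^ 2 ≤ ℓ ^ 10 := pow_le_pow_right₀ hℓ1 (by norm_num)
            have h9 : 20 / b * ℓ ^ 8 ≤ 20 / b * ℓ ^ 10 := mul_le_mul_of_nonneg_left h7 (by positivity)
            linarith
        _ ≤ γ * ℓ ^ 10 := by
            rw [← add_mul]
            apply mul_le_mul_of_nonneg_right _ (by positivity)
            linarith
    · -- case (iii)
      have h1 : κ / Real.log Q ^ 5 ≤ ‖LSeries (ch j) ((s.re : ℝ) : ℂ)‖ := by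
        by_contra hcon
        exact hexc ⟨hsq, s.re, hs1, hs2, not_le.1 hcon⟩
      have h2 : κ / ℓ ^ 5 ≤ κ / Real.log Q ^ 5 := by
        apply div_le_div_of_nonneg_left hκ.le (by positivity)
        exact pow_le_pow_left₀ (by linarith) hℓQ _
      have h3 := hlip j hj hj1 ((s.re : ℝ) : ℂ) s (by simpa using hs1) (by simpa using hs2) hs1 hs2
        |s.im| (by simp) le_rfl
      have h4 : ‖((s.re : ℝ) : ℂ) - s‖ = |s.im| := by
        have e : ((s.re : ℝ) : ℂ) - s = -(((s.im : ℝ) : ℂ) * Complex.I) := by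
          apply Complex.ext <;> simp
        rw [e, norm_neg, norm_mul, Complex.norm_I, mul_one, Complex.norm_real, Real.norm_eq_abs]
      rw [h4] at h3
      have h5 : LL j.1 |s.im| ≤ ℓ := LL_mono hq0 hjQ (by simp)
      have h6 : (0 : ℝ) ≤ LL j.1 |s.im| := zero_le_one.trans (LL_ge_one hj _)
      have h7 : C₁ * LL j.1 |s.im| ^ 2 * |s.im| ≤ C₁ * b / ℓ ^ 5 := by
        calc _ ≤ C₁ * ℓ ^ 2 * (b / ℓ ^ 7) := by
              apply mul_le_mul _ ht.le (abs_nonneg _) (by positivity)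
              apply mul_le_mul_of_nonneg_left _ hC₁.le
              exact pow_le_pow_left₀ h6 h5 _
          _ = _ := by field_simp
      have h8 : C₁ * b ≤ κ / 2 := by
        rw [hb]
        rw [mul_div_assoc', div_le_div_iff₀ (by positivity) (by norm_num)]
        nlinarith
      have h9 : ‖LSeries (ch j) ((s.re : ℝ) : ℂ)‖ ≤ ‖LSeries (ch j) s‖ +
          ‖LSeries (ch j) ((s.re : ℝ) : ℂ) - LSeries (ch j) s‖ := by
        have := norm_add_le (LSeries (ch j) s) (LSeries (ch j) ((s.re : ℝ) : ℂ) - LSeries (ch j) s)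
        rw [add_sub_cancel] at this
        exact this
      have h10 : C₁ * b / ℓ ^ 5 ≤ κ / 2 / ℓ ^ 5 := div_le_div_of_nonneg_right h8 (by positivity)
      have h11 : κ / ℓ ^ 5 - κ / 2 / ℓ ^ 5 = κ / 2 / ℓ ^ 5 := by ring
      have h12 : min c₁ (κ / 2) / ℓ ^ 20 ≤ κ / 2 / ℓ ^ 5 := by
        apply div_le_div₀ (by positivity) (min_le_right _ _) (by positivity)
        exact pow_le_pow_right₀ hℓ1 (by norm_num)
      linarith
  · -- case (i)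
    apply hG
    intro σ hσ hσ2
    have h1 := hL0 ⟨j.1, j.2 ^ 2⟩ hj hsq ((σ : ℂ) + (2 * s.im : ℝ) * Complex.I)
      (by simpa using hσ) (by simpa using hσ2)
    have him : ((σ : ℂ) + (2 * s.im : ℝ) * Complex.I).im = 2 * s.im := by simp
    rw [him] at h1
    simp only [pow_zero, mul_one, zero_add, pow_one] at h1
    refine h1.trans ?_
    calc C₀ * LL j.1 (2 * s.im) ≤ C₀ * (2 * ℓ) := mul_le_mul_of_nonneg_left hLL2 hC₀.le
      _ = 2 * C₀ * ℓ := by ring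
      _ ≤ γ * ℓ ^ 10 := by
          apply mul_le_mul _ (le_self_pow₀ hℓ1 (by norm_num)) hℓ0.le (by linarith)
          have : 0 < 20 / b := by positivity
          linarith

end PGB
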