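import Pool.Agent.PGB.Sd

/-!
# Project PGB, Srec: bounds for the derivatives of `1 / L(s, χ)`

PROOF of `Mbd`.  Strong induction on `k`; write `M_k = LSeries (mk j k) s`,
`S_i = LSeries (fun n => ch j n * (log n)^i) s`, `L = S_0`, `ℓ = LL Q s.im ≥ LL j.1 s.im ≥ 1`.
`k = 0`: `L * M_0 = 1` (`DirichletCharacter.LSeries.mul_mu_eq_one`), so `‖M_0‖ ≤ ℓ^20 / c`.
`k ≥ 1`: `∑_{i=0}^k (k choose i) S_i M_{k-i} = 0`: the convolution
`∑_{a b = n} ∑_i (k choose i) χ(a) (log a)^i μ(b) χ(b) (log b)^(k-i) = χ(n) (log n)^k ∑_{b ∣ n} μ(b)`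
(binomial theorem `add_pow`, `log a + log b = log n`) vanishes for all `n ≥ 1` (for `n ≥ 2` as
`∑ μ = 0`, for `n = 1` as `log 1 = 0`); `LSeries_convolution'` (everything is summable for
`Re s > 1`: bounded times a power of `log`: `LSeriesSummable` of `n^(ε)`-bounded functions,
e.g. `LSeries.logMul`-iterates, or compare with `n^((Re s - 1)/2)`), linearity.  Hence
`‖M_k‖ ≤ (ℓ^20 / c) ∑_{i=1}^k (k choose i) C_i ℓ^(i+1) C'_{k-i} ℓ^(22 (k-i+1))` with `Lder i` and the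
induction hypothesis; the exponent is `20 + i + 1 + 22 (k - i + 1) = 22 k + 43 - 21 i ≤ 22 (k + 1)`.
-/

set_option autoImplicit false

open Finset

namespace PGB

/-- The coefficients `μ(n) χ(n) (log n)^k`. -/
noncomputable def mk (j : PC) (k : ℕ) (n : ℕ) : ℂ :=
  ((ArithmeticFunction.moebius n : ℤ) : ℂ) * ch j n * ((Real.log n : ℝ) : ℂ) ^ k

private theorem logk_le_22 (k : ℕ) {ε : ℝ} (hε : 0 < ε) : ∃ C : ℝ, 0 ≤ C ∧ ∀ n : ℕ, n ≠ 0 →
    ‖(((Real.log n : ℝ) : ℂ)) ^ k‖ ≤ C * (n : ℝ) ^ ε := by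
  have hk : (0 : ℝ) < (k : ℝ) + 1 := by positivity
  set δ : ℝ := ε / (k + 1) with hδ
  have hδ0 : 0 < δ := by positivity
  refine ⟨(1 / δ) ^ k, by positivity, fun n hn => ?_⟩
  have hn1 : (1 : ℝ) ≤ n := by exact_mod_cast Nat.one_le_iff_ne_zero.2 hn
  have hn0 : (0 : ℝ) ≤ n := by linarith
  have hl0 : 0 ≤ Real.log n := Real.log_nonneg hn1
  have h1 : Real.log n ≤ (n : ℝ) ^ δ / δ := Real.log_le_rpow_div hn0 hδ0
  have h2 : Real.log n ^ k ≤ ((n : ℝ) ^ δ / δ) ^ k := pow_le_pow_left₀ hl0 h1 k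
  rw [norm_pow, Complex.norm_real, Real.norm_eq_abs, abs_of_nonneg hl0]
  refine h2.trans ?_
  rw [div_eq_mul_one_div, mul_pow, mul_comm]
  refine mul_le_mul_of_nonneg_left ?_ (by positivity)
  rw [← Real.rpow_natCast, ← Real.rpow_mul hn0]
  apply Real.rpow_le_rpow_of_exponent_le hn1
  rw [hδ, div_mul_eq_mul_div, div_le_iff₀ hk]
  nlinarith

private theorem sumb_22 (g : ℕ → ℂ) (hg : ∀ n, ‖g n‖ ≤ 1) (k : ℕ) {s : ℂ}
    (hs : 1 < s.re) :
    LSeriesSummable (fun n => g n * ((Real.log n : ℝ) : ℂ) ^ k) s := by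
  obtain ⟨C, hC0, hC⟩ := logk_le_22 k (ε := (s.re - 1) / 2) (by linarith)
  apply LSeriesSummable_of_le_const_mul_rpow (x := (1 + s.re) / 2) (by linarith)
  refine ⟨C, fun n hn => ?_⟩
  rw [norm_mul]
  have e : (1 + s.re) / 2 - 1 = (s.re - 1) / 2 := by ring
  rw [e]
  calc ‖g n‖ * ‖((Real.log n : ℝ) : ℂ) ^ k‖ ≤ 1 * (C * (n : ℝ) ^ ((s.re - 1) / 2)) :=
        mul_le_mul (hg n) (hC n hn) (norm_nonneg _) zero_le_one
    _ = _ := one_mul _

private theorem mk_sumb_22 (j : PC) (k : ℕ) {s : ℂ} (hs : 1 < s.re) :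
    LSeriesSummable (mk j k) s := by
  refine sumb_22 (fun n => ((ArithmeticFunction.moebius n : ℤ) : ℂ) * ch j n) (fun n => ?_) k hs
  rw [norm_mul]
  have h1 : ‖((ArithmeticFunction.moebius n : ℤ) : ℂ)‖ ≤ 1 := by
    rw [Complex.norm_intCast]
    exact_mod_cast ArithmeticFunction.abs_moebius_le_one
  calc _ ≤ 1 * 1 := mul_le_mul h1 (norm_ch_le j n) (norm_nonneg _) zero_le_one
    _ = 1 := one_mul 1

private theorem conv_22 (j : PC) (k n : ℕ) (hn : n ≠ 0) (hkn : k ≠ 0) :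
    ∑ i ∈ range (k + 1), (k.choose i : ℂ) *
      ∑ p ∈ n.divisorsAntidiagonal, (ch j p.1 * ((Real.log p.1 : ℝ) : ℂ) ^ i) *
        mk j (k - i) p.2 = 0 := by
  have h1 : ∑ i ∈ range (k + 1), (k.choose i : ℂ) *
      ∑ p ∈ n.divisorsAntidiagonal, (ch j p.1 * ((Real.log p.1 : ℝ) : ℂ) ^ i) *
        mk j (k - i) p.2 = ∑ p ∈ n.divisorsAntidiagonal,
        ((ArithmeticFunction.moebius p.2 : ℤ) : ℂ) * (ch j n * ((Real.log n : ℝ) : ℂ) ^ k) := by
    simp_rw [Finset.mul_sum]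
    rw [Finset.sum_comm]
    refine Finset.sum_congr rfl fun p hp => ?_
    have hp' := Nat.mem_divisorsAntidiagonal.1 hp
    have hp1 : p.1 ≠ 0 := fun h => hp'.2 (by rw [← hp'.1, h, zero_mul])
    have hp2 : p.2 ≠ 0 := fun h => hp'.2 (by rw [← hp'.1, h, mul_zero])
    have hlog : Real.log n = Real.log p.1 + Real.log p.2 := by
      rw [← Real.log_mul (by exact_mod_cast hp1) (by exact_mod_cast hp2)]
      congr 1
      exact_mod_cast hp'.1.symm
    rw [hlog, Complex.ofReal_add, add_pow, Finset.mul_sum, Finset.mul_sum]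
    refine Finset.sum_congr rfl fun i hi => ?_
    unfold mk
    rw [← hp'.1, ch_mul]
    ring
  rw [h1, ← Finset.sum_mul]
  rcases eq_or_ne n 1 with rfl | h2
  · simp [hkn]
  · have h3 : ∑ p ∈ n.divisorsAntidiagonal, ((ArithmeticFunction.moebius p.2 : ℤ) : ℂ) = 0 := by
      have h4 : ∑ p ∈ n.divisorsAntidiagonal, (ArithmeticFunction.moebius p.2 : ℤ) = 0 := by
        rw [Nat.sum_divisorsAntidiagonal' (f := fun _ b => (ArithmeticFunction.moebius b : ℤ))]
        rw [← ArithmeticFunction.coe_mul_zeta_apply, ArithmeticFunction.moebius_mul_coe_zeta,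
          ArithmeticFunction.one_apply_ne h2]
      exact_mod_cast h4
    rw [h3, zero_mul]

private theorem rec_22 (j : PC) (k : ℕ) (hk : k ≠ 0) {s : ℂ} (hs : 1 < s.re) :
    ∑ i ∈ range (k + 1), (k.choose i : ℂ) *
      (LSeries (fun n => ch j n * ((Real.log n : ℝ) : ℂ) ^ i) s * LSeries (mk j (k - i)) s)
      = 0 := by
  have hS : ∀ i, LSeriesSummable (fun n => ch j n * ((Real.log n : ℝ) : ℂ) ^ i) s :=
    fun i => sumb_22 (ch j) (norm_ch_le j) i hs
  have hM : ∀ i, LSeriesSummable (mk j i) s := fun i => mk_sumb_22 j i hs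
  have h1 : ∀ i ∈ range (k + 1), (k.choose i : ℂ) *
      (LSeries (fun n => ch j n * ((Real.log n : ℝ) : ℂ) ^ i) s * LSeries (mk j (k - i)) s)
      = LSeries ((k.choose i : ℂ) • (LSeries.convolution
        (fun n => ch j n * ((Real.log n : ℝ) : ℂ) ^ i) (mk j (k - i)))) s := by
    intro i _
    rw [LSeries_smul, LSeries_convolution' (hS i) (hM (k - i))]
  rw [Finset.sum_congr rfl h1, ← LSeries_sum (fun i _ => ((hS i).convolution (hM (k - i))).smul _)]
  have h2 : LSeries (∑ i ∈ range (k + 1), (k.choose i : ℂ) • (LSeries.convolution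
        (fun n => ch j n * ((Real.log n : ℝ) : ℂ) ^ i) (mk j (k - i)))) s = LSeries 0 s := by
    apply LSeries_congr
    intro n hn
    rw [Finset.sum_apply]
    simp only [Pi.smul_apply, smul_eq_mul, Pi.zero_apply, LSeries.convolution_def]
    exact conv_22 j k n hn hk
  rw [h2, LSeries_zero, Pi.zero_apply]

private theorem one_22 (j : PC) {s : ℂ} (hs : 1 < s.re) :
    LSeries (ch j) s * LSeries (mk j 0) s = 1 := by
  have h := DirichletCharacter.LSeries.mul_mu_eq_one j.2 hs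
  have e : LSeries (mk j 0) s = LSeries ((fun n : ℕ => j.2 (n : ZMod j.1)) *
      fun n : ℕ => ((ArithmeticFunction.moebius n : ℤ) : ℂ)) s := by
    apply LSeries_congr
    intro n _
    simp only [mk, pow_zero, mul_one, Pi.mul_apply, ch]
    ring
  rw [e]
  exact h

theorem Mbd (c : ℝ) (hc : 0 < c) (k : ℕ) : ∃ C : ℝ, 0 < C ∧ ∀ Q : ℝ, 3 ≤ Q → ∀ j : PC,
    2 ≤ j.1 → (j.1 : ℝ) ≤ Q → j.2 ≠ 1 →
    (∀ s : ℂ, 1 < s.re → s.re ≤ 2 → c / LL Q s.im ^ 20 ≤ ‖LSeries (ch j) s‖) →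
    ∀ s : ℂ, 1 < s.re → s.re ≤ 2 → ‖LSeries (mk j k) s‖ ≤ C * LL Q s.im ^ (22 * (k + 1)) := by
  have hLLQ : ∀ Q : ℝ, 3 ≤ Q → ∀ j : PC, 2 ≤ j.1 → (j.1 : ℝ) ≤ Q → ∀ t : ℝ,
      LL j.1 t ≤ LL Q t ∧ 1 ≤ LL Q t ∧ 0 ≤ LL j.1 t := by
    intro Q hQ j hj hjQ t
    have h1 : 1 ≤ LL j.1 t := LL_ge_one hj t
    have h2 : LL j.1 t ≤ LL Q t := by
      unfold LL
      have h3 : Real.log j.1 ≤ Real.log Q := Real.log_le_log (by exact_mod_cast (by omega : 0 < j.1)) hjQ
      linarith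
    exact ⟨h2, h1.trans h2, by linarith⟩
  choose D hD0 hD using Lder
  suffices H : ∀ K : ℕ, ∃ C : ℝ, 0 < C ∧ ∀ k ≤ K, ∀ Q : ℝ, 3 ≤ Q → ∀ j : PC,
    2 ≤ j.1 → (j.1 : ℝ) ≤ Q → j.2 ≠ 1 →
    (∀ s : ℂ, 1 < s.re → s.re ≤ 2 → c / LL Q s.im ^ 20 ≤ ‖LSeries (ch j) s‖) →
    ∀ s : ℂ, 1 < s.re → s.re ≤ 2 → ‖LSeries (mk j k) s‖ ≤ C * LL Q s.im ^ (22 * (k + 1)) by
    obtain ⟨C, hC, h⟩ := H k
    exact ⟨C, hC, h k le_rfl⟩
  intro K
  induction K with
  | zero =>
    refine ⟨1 / c, by positivity, ?_⟩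
    intro k hk Q hQ j hj hjQ hj1 hL s hs1 hs2
    obtain rfl : k = 0 := by omega
    obtain ⟨_, hl1, _⟩ := hLLQ Q hQ j hj hjQ s.im
    have hl0 : 0 < LL Q s.im := by linarith
    have h1 := one_22 j hs1
    have h2 : ‖LSeries (ch j) s‖ * ‖LSeries (mk j 0) s‖ = 1 := by rw [← norm_mul, h1, norm_one]
    have h3 := hL s hs1 hs2
    have h4 : c / LL Q s.im ^ 20 * ‖LSeries (mk j 0) s‖ ≤ 1 := by
      rw [← h2]
      exact mul_le_mul_of_nonneg_right h3 (norm_nonneg _)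
    have h5 : ‖LSeries (mk j 0) s‖ ≤ 1 / c * LL Q s.im ^ 20 := by
      rw [div_mul_eq_mul_div, div_le_one (by positivity)] at h4
      rw [div_mul_eq_mul_div, one_mul, le_div_iff₀ hc]
      linarith
    refine h5.trans (mul_le_mul_of_nonneg_left ?_ (by positivity))
    exact pow_le_pow_right₀ hl1 (by norm_num)
  | succ K ih =>
    obtain ⟨C, hC0, hC⟩ := ih
    set E : ℝ := 1 / c * ∑ i ∈ range (K + 1), ((K + 1).choose (i + 1) : ℝ) * (D (i + 1) * C)
      with hE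
    refine ⟨max C E, lt_max_of_lt_left hC0, ?_⟩
    intro k hk Q hQ j hj hjQ hj1 hL s hs1 hs2
    obtain ⟨hl2, hl1, hl3⟩ := hLLQ Q hQ j hj hjQ s.im
    have hl0 : 0 < LL Q s.im := by linarith
    rcases Nat.lt_or_ge k (K + 1) with hk1 | hk1
    · refine (hC k (by omega) Q hQ j hj hjQ hj1 hL s hs1 hs2).trans ?_
      exact mul_le_mul_of_nonneg_right (le_max_left _ _) (by positivity)
    · obtain rfl : k = K + 1 := by omega
      have h1 := rec_22 j (K + 1) (by omega) hs1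
      rw [Finset.sum_range_succ'] at h1
      have e0 : LSeries (fun n => ch j n * ((Real.log n : ℝ) : ℂ) ^ 0) s = LSeries (ch j) s := by
        simp
      rw [e0, Nat.choose_zero_right, Nat.cast_one, one_mul, Nat.sub_zero] at h1
      have h2 : ‖LSeries (ch j) s‖ * ‖LSeries (mk j (K + 1)) s‖ ≤
          ∑ i ∈ range (K + 1), ((K + 1).choose (i + 1) : ℝ) * (D (i + 1) * C) *
            LL Q s.im ^ (22 * (K + 1) + 2) := by
        rw [← norm_mul, eq_neg_of_add_eq_zero_right h1, norm_neg]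
        refine (norm_sum_le _ _).trans (Finset.sum_le_sum fun i hi => ?_)
        have hi' := Finset.mem_range.1 hi
        rw [norm_mul, norm_mul, Complex.norm_natCast, mul_assoc]
        refine mul_le_mul_of_nonneg_left ?_ (by positivity)
        have g1 : ‖LSeries (fun n => ch j n * ((Real.log n : ℝ) : ℂ) ^ (i + 1)) s‖ ≤
            D (i + 1) * LL Q s.im ^ (i + 2) :=
          (hD (i + 1) j hj hj1 s hs1 hs2).trans
            (mul_le_mul_of_nonneg_left (pow_le_pow_left₀ hl3 hl2 _) (hD0 _).le)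
        have g2 := hC (K + 1 - (i + 1)) (by omega) Q hQ j hj hjQ hj1 hL s hs1 hs2
        refine (mul_le_mul g1 g2 (norm_nonneg _)
          (mul_nonneg (hD0 _).le (by positivity))).trans ?_
        have e : D (i + 1) * LL Q s.im ^ (i + 2) *
            (C * LL Q s.im ^ (22 * (K + 1 - (i + 1) + 1))) =
            D (i + 1) * C * LL Q s.im ^ ((i + 2) + 22 * (K + 1 - (i + 1) + 1)) := by
          rw [pow_add]
          ring
        rw [e]
        refine mul_le_mul_of_nonneg_left ?_ (mul_nonneg (hD0 _).le hC0.le)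
        exact pow_le_pow_right₀ hl1 (by omega)
      have h3 := hL s hs1 hs2
      have h4 : c / LL Q s.im ^ 20 * ‖LSeries (mk j (K + 1)) s‖ ≤
          (∑ i ∈ range (K + 1), ((K + 1).choose (i + 1) : ℝ) * (D (i + 1) * C)) *
            LL Q s.im ^ (22 * (K + 1) + 2) := by
        rw [Finset.sum_mul]
        exact (mul_le_mul_of_nonneg_right h3 (norm_nonneg _)).trans h2
      have h5 : ‖LSeries (mk j (K + 1)) s‖ ≤ E * LL Q s.im ^ (22 * (K + 1 + 1)) := by
        rw [div_mul_eq_mul_div, div_le_iff₀ (by positivity)] at h4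
        have e : E * LL Q s.im ^ (22 * (K + 1 + 1)) =
            ((∑ i ∈ range (K + 1), ((K + 1).choose (i + 1) : ℝ) * (D (i + 1) * C)) *
            LL Q s.im ^ (22 * (K + 1) + 2) * LL Q s.im ^ 20) / c := by
          rw [hE, mul_assoc _ (LL Q s.im ^ (22 * (K + 1) + 2)), ← pow_add]
          generalize (∑ i ∈ range (K + 1), ((K + 1).choose (i + 1) : ℝ) * (D (i + 1) * C)) = S
          rw [show 22 * (K + 1) + 2 + 20 = 22 * (K + 1 + 1) by ring]
          ring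
        rw [e, le_div_iff₀ hc]
        linarith
      exact h5.trans (mul_le_mul_of_nonneg_right (le_max_right _ _) (by positivity))

end PGB
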