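import Pool.Agent.PGB.Srec

/-!
# Project PGB, Sshp: sharp partial sums, removal of the logarithms

PROOFS.  `m = 22 (k + 1)`.
* `sharp`: let `u ≥ 3`, `η = (log u)^(-k/2) ∈ (0, 1]`, `F(x)` the sum of the hypothesis.  Then
  `F(u (1+η)) - F(u) = log(1+η) ∑_{n ≤ u} mk n + ∑_{u < n ≤ u(1+η)} mk n log(u(1+η)/n)`
  (`log (u(1+η)/n) - log(u/n) = log(1+η)`).  In the last sum there are at most `η u + 1` terms, each of
  norm `≤ (log (2u))^k log(1+η)`.  So with `log (1+η) ≥ η/2`: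
  `‖∑_{n ≤ u} mk n‖ ≤ (2/η) (C u (1+η) + C u) (log Q)^m + (η u + 1) (log 2u)^k
  ≤ 6 C u (log Q)^m (log u)^(k/2) + u (2 log u)^k (log u)^(-k/2) + (2 log u)^k`
  (`log (2u) ≤ 2 log u`), and `(2 log u)^k ≤ C_k u`; all `≤ C' u (log Q)^m (log u)^(k/2)`
  (`log Q, log u ≥ 1`).
* `remove`: let `u ≥ 9`, `v = ⌊√u⌋₊ ≥ 3`.  `‖mus j v‖ ≤ v ≤ √u ≤ C_k u (log u)^(-k/2)`.
  For `v < n ≤ u`, `μ(n) χ(n) = mk n (log n)^(-k)`; with `S(w) = ∑_{n ≤ w} mk n` partial summation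
  (the weights `(log n)^(-k)` are decreasing) gives
  `‖∑_{v < n ≤ u} μ(n) χ(n)‖ ≤ 2 (log (v+1))^(-k) sup_{v ≤ w ≤ u} ‖S(w)‖
  ≤ 2 ((log u)/2)^(-k) C u (log Q)^m (log u)^(k/2)` (`log (v + 1) ≥ (log u) / 2`; for `w ≥ 3` the
  hypothesis, and it is monotone in `w`).
-/

set_option autoImplicit false

open Finset

namespace PGB

theorem norm_mu_le (n : ℕ) : ‖((ArithmeticFunction.moebius n : ℤ) : ℂ)‖ ≤ 1 := by
  rw [Complex.norm_intCast]
  exact_mod_cast ArithmeticFunction.abs_moebius_le_one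

theorem norm_mk_le (j : PC) (k n : ℕ) : ‖mk j k n‖ ≤ Real.log n ^ k := by
  unfold mk
  rw [norm_mul, norm_mul, norm_pow, Complex.norm_real, Real.norm_eq_abs,
    abs_of_nonneg (Real.log_natCast_nonneg n)]
  have h1 := norm_mu_le n
  have h2 := norm_ch_le j n
  have h3 : (0 : ℝ) ≤ Real.log n ^ k := pow_nonneg (Real.log_natCast_nonneg n) k
  calc ‖((ArithmeticFunction.moebius n : ℤ) : ℂ)‖ * ‖ch j n‖ * Real.log n ^ k
      ≤ 1 * Real.log n ^ k := by
        apply mul_le_mul_of_nonneg_right _ h3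
        nlinarith [norm_nonneg ((ArithmeticFunction.moebius n : ℤ) : ℂ), norm_nonneg (ch j n)]
    _ = Real.log n ^ k := one_mul _

theorem log_three_ge : (1 : ℝ) ≤ Real.log 3 := by
  rw [Real.le_log_iff_exp_le (by norm_num)]
  have := Real.exp_one_lt_d9
  linarith

theorem log_one_add_ge {η : ℝ} (h0 : 0 < η) (h1 : η ≤ 1) : η / 2 ≤ Real.log (1 + η) := by
  have h : 1 - (1 + η)⁻¹ ≤ Real.log (1 + η) := Real.one_sub_inv_le_log_of_pos (by linarith)
  have h2 : η / 2 ≤ 1 - (1 + η)⁻¹ := by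
    have h3 : (1 + η) * (1 + η)⁻¹ = 1 := mul_inv_cancel₀ (by linarith)
    have h4 : 0 < (1 + η)⁻¹ := by positivity
    nlinarith
  linarith

theorem sharp (k : ℕ) (C : ℝ) (hC : 0 < C) : ∃ C' : ℝ, 0 < C' ∧ ∀ Q : ℝ, 3 ≤ Q → ∀ j : PC,
    (∀ x : ℝ, 3 ≤ x → ‖∑ n ∈ Icc 1 ⌊x⌋₊, mk j k n * ((Real.log (x / n) : ℝ) : ℂ)‖ ≤
        C * x * Real.log Q ^ (22 * (k + 1))) →
    ∀ u : ℕ, 3 ≤ u → ‖∑ n ∈ Icc 1 u, mk j k n‖ ≤
      C' * u * Real.log Q ^ (22 * (k + 1)) * Real.log u ^ ((k : ℝ) / 2) := by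
  refine ⟨6 * C + 2 ^ k, by positivity, ?_⟩
  intro Q hQ j hF u hu
  have huR : (3 : ℝ) ≤ u := by exact_mod_cast hu
  have hu0 : (0 : ℝ) < u := by linarith
  set ℓ : ℝ := Real.log u with hℓ
  have hℓ1 : 1 ≤ ℓ := log_three_ge.trans (Real.log_le_log (by norm_num) huR)
  have hℓ0 : 0 < ℓ := by linarith
  have hLQ : 1 ≤ Real.log Q := log_three_ge.trans (Real.log_le_log (by norm_num) hQ)
  set Lm : ℝ := Real.log Q ^ (22 * (k + 1)) with hLm
  have hLm1 : 1 ≤ Lm := one_le_pow₀ hLQ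
  set η : ℝ := ℓ ^ (-((k : ℝ) / 2)) with hη
  have hη0 : 0 < η := Real.rpow_pos_of_pos hℓ0 _
  have hη1 : η ≤ 1 := Real.rpow_le_one_of_one_le_of_nonpos hℓ1 (by
    have : (0 : ℝ) ≤ (k : ℝ) / 2 := by positivity
    linarith)
  set E : ℝ := ℓ ^ ((k : ℝ) / 2) with hE
  have hE1 : 1 ≤ E := Real.one_le_rpow hℓ1 (by positivity)
  have hEη : E * η = 1 := by
    rw [hE, hη, ← Real.rpow_add hℓ0]
    simp
  have hkη : ℓ ^ k * η = E := by
    rw [hE, hη, ← Real.rpow_natCast, ← Real.rpow_add hℓ0]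
    congr 1
    ring
  set lg : ℝ := Real.log (1 + η) with hlg
  have hlg2 : η / 2 ≤ lg := log_one_add_ge hη0 hη1
  have hlg0 : 0 < lg := by linarith
  set x : ℝ := u * (1 + η) with hx
  have hxu : (u : ℝ) ≤ x := by rw [hx]; nlinarith
  have hx0 : 0 < x := by linarith
  set w : ℕ := ⌊x⌋₊ with hw
  have huw : u ≤ w := Nat.le_floor hxu
  have hwx : (w : ℝ) ≤ x := Nat.floor_le hx0.le
  have hxlog : Real.log x = ℓ + lg := by
    rw [hx, Real.log_mul (by linarith) (by linarith)]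
  have hxlog2 : Real.log x ≤ 2 * ℓ := by
    have h1 : lg ≤ η := by
      have := Real.log_le_sub_one_of_pos (show 0 < 1 + η by linarith)
      linarith
    linarith
  -- the two sums
  have e1 := hF x (by linarith)
  have e2 := hF u huR
  rw [Nat.floor_natCast] at e2
  rw [← hw] at e1
  set F1 : ℂ := ∑ n ∈ Icc 1 w, mk j k n * ((Real.log (x / n) : ℝ) : ℂ) with hF1
  set F2 : ℂ := ∑ n ∈ Icc 1 u, mk j k n * ((Real.log (u / n) : ℝ) : ℂ) with hF2
  set S : ℂ := ∑ n ∈ Icc 1 u, mk j k n with hS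
  set R : ℂ := ∑ n ∈ Ioc u w, mk j k n * ((Real.log (x / n) : ℝ) : ℂ) with hR
  have hsplit : F1 = F2 + (lg : ℂ) * S + R := by
    have h1 : Icc 1 w = Icc 1 u ∪ Ioc u w := by
      ext n
      simp only [mem_union, mem_Icc, mem_Ioc]
      omega
    have h2 : Disjoint (Icc 1 u) (Ioc u w) := by
      rw [Finset.disjoint_left]
      intro n hn hn'
      rw [mem_Icc] at hn
      rw [mem_Ioc] at hn'
      omega
    rw [hF1, h1, sum_union h2, ← hR, hF2, hS, mul_sum, ← sum_add_distrib]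
    congr 1
    apply sum_congr rfl
    intro n hn
    rw [mem_Icc] at hn
    have hn0 : (0 : ℝ) < n := by exact_mod_cast hn.1
    have h3 : Real.log (x / n) = Real.log (u / n) + lg := by
      rw [Real.log_div hx0.ne' hn0.ne', Real.log_div hu0.ne' hn0.ne', hxlog]
      ring
    rw [h3]
    push_cast
    ring
  have hRb : ‖R‖ ≤ η * u * (2 * ℓ) ^ k * lg := by
    have h1 : ‖R‖ ≤ ∑ n ∈ Ioc u w, (2 * ℓ) ^ k * lg := by
      rw [hR]
      refine (norm_sum_le _ _).trans (sum_le_sum ?_)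
      intro n hn
      rw [mem_Ioc] at hn
      have hnu : (u : ℝ) < n := by exact_mod_cast hn.1
      have hn0 : (0 : ℝ) < n := by linarith
      have hnx : (n : ℝ) ≤ x := le_trans (by exact_mod_cast hn.2) hwx
      rw [norm_mul, Complex.norm_real, Real.norm_eq_abs,
        abs_of_nonneg (Real.log_nonneg (by rw [le_div_iff₀ hn0]; linarith))]
      have h2 : Real.log (x / n) ≤ lg := by
        rw [Real.log_div hx0.ne' hn0.ne', hxlog]
        have := Real.log_le_log hu0 hnu.le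
        linarith
      have h3 : ‖mk j k n‖ ≤ (2 * ℓ) ^ k := by
        refine (norm_mk_le j k n).trans ?_
        apply pow_le_pow_left₀ (Real.log_natCast_nonneg n)
        exact (Real.log_le_log hn0 hnx).trans hxlog2
      have h4 : 0 ≤ Real.log (x / n) := Real.log_nonneg (by rw [le_div_iff₀ hn0]; linarith)
      exact mul_le_mul h3 h2 h4 (by positivity)
    rw [sum_const, Nat.card_Ioc, nsmul_eq_mul] at h1
    refine h1.trans ?_
    have h5 : ((w - u : ℕ) : ℝ) ≤ η * u := by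
      rw [Nat.cast_sub huw]
      have : x = u + η * u := by rw [hx]; ring
      linarith
    calc ((w - u : ℕ) : ℝ) * ((2 * ℓ) ^ k * lg) ≤ η * u * ((2 * ℓ) ^ k * lg) := by
          apply mul_le_mul_of_nonneg_right h5
          positivity
      _ = η * u * (2 * ℓ) ^ k * lg := by ring
  have hmain : lg * ‖S‖ ≤ 3 * C * u * Lm + η * u * (2 * ℓ) ^ k * lg := by
    have h1 : (lg : ℂ) * S = F1 - F2 - R := by rw [hsplit]; ring
    have h2 : lg * ‖S‖ = ‖(lg : ℂ) * S‖ := by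
      rw [norm_mul, Complex.norm_real, Real.norm_eq_abs, abs_of_pos hlg0]
    rw [h2, h1]
    have h3 : ‖F1 - F2 - R‖ ≤ ‖F1‖ + ‖F2‖ + ‖R‖ :=
      (norm_sub_le _ _).trans (add_le_add_left (norm_sub_le _ _) _)
    have h4 : C * x * Lm ≤ 2 * C * u * Lm := by
      apply mul_le_mul_of_nonneg_right _ (by linarith)
      have : x ≤ 2 * u := by rw [hx]; nlinarith
      nlinarith
    linarith
  have h6 : 3 * C * u * Lm ≤ lg * (6 * C * u * Lm * E) := by
    have h7 : 3 * C * u * Lm = (η / 2) * (6 * C * u * Lm * E) := by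
      calc 3 * C * u * Lm = 3 * C * u * Lm * (E * η) := by rw [hEη, mul_one]
        _ = (η / 2) * (6 * C * u * Lm * E) := by ring
    rw [h7]
    apply mul_le_mul_of_nonneg_right hlg2
    positivity
  have h8 : η * u * (2 * ℓ) ^ k * lg = lg * (2 ^ k * u * E) := by
    rw [mul_pow, ← hkη]
    ring
  have h9 : lg * ‖S‖ ≤ lg * (6 * C * u * Lm * E + 2 ^ k * u * E) := by
    rw [mul_add, ← h8]
    linarith
  have h10 := le_of_mul_le_mul_left h9 hlg0
  refine h10.trans ?_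
  have h11 : (2 : ℝ) ^ k * u * E ≤ 2 ^ k * u * Lm * E := by
    apply mul_le_mul_of_nonneg_right _ (by linarith)
    have : (0 : ℝ) < 2 ^ k * u := by positivity
    nlinarith
  calc 6 * C * u * Lm * E + 2 ^ k * u * E ≤ 6 * C * u * Lm * E + 2 ^ k * u * Lm * E := by linarith
    _ = (6 * C + 2 ^ k) * u * Lm * E := by ring

theorem abel_id (f : ℕ → ℂ) (a : ℕ → ℝ) (v : ℕ) (d : ℕ) :
    ∑ n ∈ Ioc v (v + d), f n * (a n : ℂ) =
      (∑ n ∈ Icc 1 (v + d), f n) * (a (v + d + 1) : ℂ) - (∑ n ∈ Icc 1 v, f n) * (a (v + 1) : ℂ) +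
        ∑ n ∈ Ioc v (v + d), (∑ m ∈ Icc 1 n, f m) * ((a n - a (n + 1) : ℝ) : ℂ) := by
  induction d with
  | zero => simp
  | succ d ih =>
    have h1 : Ioc v (v + (d + 1)) = insert (v + d + 1) (Ioc v (v + d)) := by
      ext n
      simp only [mem_insert, mem_Ioc]
      omega
    have h2 : v + d + 1 ∉ Ioc v (v + d) := by simp
    have h3 : ∑ n ∈ Icc 1 (v + d + 1), f n = (∑ n ∈ Icc 1 (v + d), f n) + f (v + d + 1) := by
      rw [Finset.sum_Icc_succ_top (by omega)]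
    rw [h1, sum_insert h2, sum_insert h2, ih, show v + (d + 1) = v + d + 1 from rfl, h3]
    push_cast
    ring

theorem abel_bd (f : ℕ → ℂ) (a : ℕ → ℝ) (v d : ℕ) (M : ℝ)
    (ha0 : ∀ n, v < n → 0 ≤ a n) (hanti : ∀ n, v < n → a (n + 1) ≤ a n)
    (hM : ∀ n, v ≤ n → n ≤ v + d → ‖∑ m ∈ Icc 1 n, f m‖ ≤ M) :
    ‖∑ n ∈ Ioc v (v + d), f n * (a n : ℂ)‖ ≤ 2 * M * a (v + 1) := by
  rw [abel_id]
  have hM0 : 0 ≤ M := (norm_nonneg _).trans (hM v le_rfl (by omega))
  have h1 : ‖(∑ n ∈ Icc 1 (v + d), f n) * (a (v + d + 1) : ℂ)‖ ≤ M * a (v + d + 1) := by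
    rw [norm_mul, Complex.norm_real, Real.norm_eq_abs, abs_of_nonneg (ha0 _ (by omega))]
    exact mul_le_mul_of_nonneg_right (hM _ (by omega) le_rfl) (ha0 _ (by omega))
  have h2 : ‖(∑ n ∈ Icc 1 v, f n) * (a (v + 1) : ℂ)‖ ≤ M * a (v + 1) := by
    rw [norm_mul, Complex.norm_real, Real.norm_eq_abs, abs_of_nonneg (ha0 _ (by omega))]
    exact mul_le_mul_of_nonneg_right (hM _ le_rfl (by omega)) (ha0 _ (by omega))
  have h3 : ‖∑ n ∈ Ioc v (v + d), (∑ m ∈ Icc 1 n, f m) * ((a n - a (n + 1) : ℝ) : ℂ)‖ ≤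
      ∑ n ∈ Ioc v (v + d), M * (a n - a (n + 1)) := by
    refine (norm_sum_le _ _).trans (sum_le_sum ?_)
    intro n hn
    rw [mem_Ioc] at hn
    have h4 : 0 ≤ a n - a (n + 1) := by linarith [hanti n hn.1]
    rw [norm_mul, Complex.norm_real, Real.norm_eq_abs, abs_of_nonneg h4]
    exact mul_le_mul_of_nonneg_right (hM _ hn.1.le hn.2) h4
  have h5 : ∑ n ∈ Ioc v (v + d), (a n - a (n + 1)) = a (v + 1) - a (v + d + 1) := by
    clear hM h1 h3
    induction d with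
    | zero => simp
    | succ d ih =>
      have h6 : Ioc v (v + (d + 1)) = insert (v + d + 1) (Ioc v (v + d)) := by
        ext n
        simp only [mem_insert, mem_Ioc]
        omega
      rw [h6, sum_insert (by simp), ih, show v + (d + 1) = v + d + 1 from rfl]
      ring
  rw [← mul_sum, h5] at h3
  have h6 : ‖(∑ n ∈ Icc 1 (v + d), f n) * (a (v + d + 1) : ℂ) -
      (∑ n ∈ Icc 1 v, f n) * (a (v + 1) : ℂ) +
        ∑ n ∈ Ioc v (v + d), (∑ m ∈ Icc 1 n, f m) * ((a n - a (n + 1) : ℝ) : ℂ)‖ ≤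
      M * a (v + d + 1) + M * a (v + 1) + M * (a (v + 1) - a (v + d + 1)) :=
    (norm_add_le _ _).trans (add_le_add ((norm_sub_le _ _).trans (add_le_add h1 h2)) h3)
  refine h6.trans (le_of_eq ?_)
  ring

theorem remove (k : ℕ) (C : ℝ) (hC : 0 < C) : ∃ C' : ℝ, 0 < C' ∧ ∀ Q : ℝ, 3 ≤ Q → ∀ j : PC,
    (∀ u : ℕ, 3 ≤ u → ‖∑ n ∈ Icc 1 u, mk j k n‖ ≤
      C * u * Real.log Q ^ (22 * (k + 1)) * Real.log u ^ ((k : ℝ) / 2)) →
    ∀ u : ℕ, 9 ≤ u → ‖mus j u‖ ≤
      C' * u * Real.log Q ^ (22 * (k + 1)) * Real.log u ^ (-((k : ℝ) / 2)) := by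
  refine ⟨2 ^ k * (Nat.factorial k : ℝ) + 2 ^ (k + 1) * C, by positivity, ?_⟩
  intro Q hQ j hS u hu
  have huR : (9 : ℝ) ≤ u := by exact_mod_cast hu
  have hu0 : (0 : ℝ) < u := by linarith
  set ℓ : ℝ := Real.log u with hℓ
  have hℓ1 : 1 ≤ ℓ := log_three_ge.trans (Real.log_le_log (by norm_num) (by linarith))
  have hℓ0 : 0 < ℓ := by linarith
  have hLQ : 1 ≤ Real.log Q := log_three_ge.trans (Real.log_le_log (by norm_num) hQ)
  set Lm : ℝ := Real.log Q ^ (22 * (k + 1)) with hLm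
  have hLm1 : 1 ≤ Lm := one_le_pow₀ hLQ
  set G : ℝ := ℓ ^ (-((k : ℝ) / 2)) with hG
  have hG0 : 0 < G := Real.rpow_pos_of_pos hℓ0 _
  set E : ℝ := ℓ ^ ((k : ℝ) / 2) with hE
  have hE1 : 1 ≤ E := Real.one_le_rpow hℓ1 (by positivity)
  have hEG : E = ℓ ^ k * G := by
    rw [hE, hG, ← Real.rpow_natCast, ← Real.rpow_add hℓ0]
    congr 1
    ring
  have hEG1 : E * G = 1 := by
    rw [hE, hG, ← Real.rpow_add hℓ0]
    simp
  set v : ℕ := Nat.sqrt u with hv
  have hv3 : 3 ≤ v := by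
    rw [hv, Nat.le_sqrt]
    omega
  have hvu : v ≤ u := Nat.sqrt_le_self u
  have hv2 : v * v ≤ u := Nat.sqrt_le u
  have hv3' : u < (v + 1) * (v + 1) := Nat.lt_succ_sqrt u
  obtain ⟨d, hd⟩ := Nat.exists_eq_add_of_le hvu
  -- split
  have hsplit : mus j u = mus j v + ∑ n ∈ Ioc v u,
      mk j k n * ((((Real.log n ^ k)⁻¹ : ℝ)) : ℂ) := by
    unfold mus
    have h1 : range (u + 1) = range (v + 1) ∪ Ioc v u := by
      ext n
      simp only [mem_union, mem_range, mem_Ioc]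
      omega
    have h2 : Disjoint (range (v + 1)) (Ioc v u) := by
      rw [Finset.disjoint_left]
      intro n hn hn'
      rw [mem_range] at hn
      rw [mem_Ioc] at hn'
      omega
    rw [h1, sum_union h2]
    congr 1
    apply sum_congr rfl
    intro n hn
    rw [mem_Ioc] at hn
    have hn1 : (1 : ℝ) < n := by
      have : 1 < n := by omega
      exact_mod_cast this
    have hlog : Real.log n ≠ 0 := (Real.log_pos hn1).ne'
    have hlogC : ((Real.log n : ℝ) : ℂ) ^ k ≠ 0 := pow_ne_zero _ (by exact_mod_cast hlog)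
    unfold mk
    rw [Complex.ofReal_inv, Complex.ofReal_pow]
    rw [mul_assoc, mul_inv_cancel₀ hlogC, mul_one]
  have hmusv : ‖mus j v‖ ≤ v := by
    unfold mus
    rw [Finset.sum_range_succ']
    simp only [ArithmeticFunction.map_zero, Int.cast_zero, zero_mul, add_zero]
    refine (norm_sum_le _ _).trans ?_
    have h1 : ∀ n ∈ range v, ‖((ArithmeticFunction.moebius (n + 1) : ℤ) : ℂ) * ch j (n + 1)‖ ≤ 1 := by
      intro n _
      rw [norm_mul]
      have h1 := norm_mu_le (n + 1)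
      have h2 := norm_ch_le j (n + 1)
      nlinarith [norm_nonneg ((ArithmeticFunction.moebius (n + 1) : ℤ) : ℂ),
        norm_nonneg (ch j (n + 1))]
    refine (sum_le_sum h1).trans ?_
    simp
  have hsqrt : (v : ℝ) ≤ 2 ^ k * (Nat.factorial k : ℝ) * u * G := by
    have h1 : (v : ℝ) ^ 2 ≤ u := by
      rw [sq]
      exact_mod_cast hv2
    have h2 : (ℓ / 2) ^ k / (Nat.factorial k : ℝ) ≤ Real.exp (ℓ / 2) :=
      Real.pow_div_factorial_le_exp _ (by linarith) k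
    have h3 : Real.exp (ℓ / 2) * Real.exp (ℓ / 2) = u := by
      rw [← Real.exp_add, add_halves, hℓ, Real.exp_log hu0]
    have h4 : (v : ℝ) ≤ Real.exp (ℓ / 2) := by
      have h5 : 0 < Real.exp (ℓ / 2) := Real.exp_pos _
      nlinarith
    have h5 : ℓ ^ k ≤ 2 ^ k * (Nat.factorial k : ℝ) * Real.exp (ℓ / 2) := by
      rw [div_pow, div_div, div_le_iff₀ (by positivity)] at h2
      linarith
    have h6 : 1 ≤ ℓ ^ k * G := by
      rw [← hEG]
      exact hE1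
    have h7 : (1 : ℝ) ≤ 2 ^ k * (Nat.factorial k : ℝ) * Real.exp (ℓ / 2) * G :=
      h6.trans (mul_le_mul_of_nonneg_right h5 hG0.le)
    calc (v : ℝ) ≤ Real.exp (ℓ / 2) * 1 := by linarith
      _ ≤ Real.exp (ℓ / 2) * (2 ^ k * (Nat.factorial k : ℝ) * Real.exp (ℓ / 2) * G) :=
          mul_le_mul_of_nonneg_left h7 (Real.exp_pos _).le
      _ = 2 ^ k * (Nat.factorial k : ℝ) * (Real.exp (ℓ / 2) * Real.exp (ℓ / 2)) * G := by ring
      _ = 2 ^ k * (Nat.factorial k : ℝ) * u * G := by rw [h3]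
  have hvlog : ℓ / 2 ≤ Real.log ((v + 1 : ℕ) : ℝ) := by
    have h1 : (u : ℝ) ≤ ((v + 1 : ℕ) : ℝ) ^ 2 := by
      rw [sq]
      exact_mod_cast hv3'.le
    have h2 := Real.log_le_log hu0 h1
    rw [Real.log_pow] at h2
    push_cast at h2 ⊢
    linarith
  have hM : ∀ n, v ≤ n → n ≤ v + d → ‖∑ m ∈ Icc 1 n, mk j k m‖ ≤ C * u * Lm * E := by
    intro n hn1 hn2
    have hn3 : 3 ≤ n := hv3.trans hn1
    refine (hS n hn3).trans ?_
    have hnu : (n : ℝ) ≤ u := by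
      rw [← hd] at hn2
      exact_mod_cast hn2
    have hn3R : (3 : ℝ) ≤ n := by exact_mod_cast hn3
    have h1 : Real.log n ^ ((k : ℝ) / 2) ≤ E := by
      apply Real.rpow_le_rpow (Real.log_natCast_nonneg n) _ (by positivity)
      exact Real.log_le_log (by linarith) hnu
    have h2 : C * n * Lm ≤ C * u * Lm := by
      apply mul_le_mul_of_nonneg_right _ (by linarith)
      exact mul_le_mul_of_nonneg_left hnu hC.le
    exact mul_le_mul h2 h1 (Real.rpow_nonneg (Real.log_natCast_nonneg n) _) (by positivity)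
  have hpos : ∀ n : ℕ, v < n → 0 < Real.log n := by
    intro n hn
    apply Real.log_pos
    have : 1 < n := by omega
    exact_mod_cast this
  have hab := abel_bd (mk j k) (fun n => (Real.log n ^ k)⁻¹) v d (C * u * Lm * E)
    (fun n hn => by
      have := hpos n hn
      positivity)
    (fun n hn => by
      have h1 := hpos n hn
      have h2 : Real.log n ≤ Real.log ((n + 1 : ℕ) : ℝ) := by
        apply Real.log_le_log
        · have : 0 < n := by omega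
          exact_mod_cast this
        · push_cast
          linarith
      show (Real.log ((n + 1 : ℕ) : ℝ) ^ k)⁻¹ ≤ (Real.log n ^ k)⁻¹
      apply inv_anti₀ (by positivity)
      exact pow_le_pow_left₀ h1.le h2 k) hM
  rw [← hd] at hab
  have hinv : (Real.log ((v + 1 : ℕ) : ℝ) ^ k)⁻¹ ≤ ((ℓ / 2) ^ k)⁻¹ := by
    apply inv_anti₀ (by positivity)
    exact pow_le_pow_left₀ (by linarith) hvlog k
  have hfin : 2 * (C * u * Lm * E) * (Real.log ((v + 1 : ℕ) : ℝ) ^ k)⁻¹ ≤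
      2 ^ (k + 1) * C * u * Lm * G := by
    have h1 : 2 * (C * u * Lm * E) * (Real.log ((v + 1 : ℕ) : ℝ) ^ k)⁻¹ ≤
        2 * (C * u * Lm * E) * ((ℓ / 2) ^ k)⁻¹ :=
      mul_le_mul_of_nonneg_left hinv (by positivity)
    refine h1.trans (le_of_eq ?_)
    rw [hEG, div_pow]
    have : ℓ ^ k ≠ 0 := by positivity
    field_simp
    ring
  rw [hsplit]
  refine (norm_add_le _ _).trans ?_
  have h20 : 2 ^ k * (Nat.factorial k : ℝ) * u * G ≤ 2 ^ k * (Nat.factorial k : ℝ) * u * Lm * G := by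
    apply mul_le_mul_of_nonneg_right _ hG0.le
    have : (0 : ℝ) < 2 ^ k * (Nat.factorial k : ℝ) * u := by positivity
    nlinarith
  calc ‖mus j v‖ + ‖∑ n ∈ Ioc v u, mk j k n * ((((Real.log n ^ k)⁻¹ : ℝ)) : ℂ)‖
      ≤ 2 ^ k * (Nat.factorial k : ℝ) * u * Lm * G + 2 ^ (k + 1) * C * u * Lm * G :=
        add_le_add (hmusv.trans (hsqrt.trans h20)) (hab.trans hfin)
    _ = (2 ^ k * (Nat.factorial k : ℝ) + 2 ^ (k + 1) * C) * u * Lm * G := by ring

end PGB
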