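import Pool.Agent.PGB.Srec
import Pool.Agent.PGB.Mel

/-!
# Project PGB, Strf: from the line to sums with the weight `log (x / n)`

PROOF.  Let `m = 22 (k+1)`, `c₀ = 1 + 1 / log x ∈ (1, 2]` (`x ≥ 3`, `log x ≥ 1`), `s = c₀ + i t`.
For `n ≥ 1` `logplus_eq` gives `log⁺ (x / n) = (1 / 2π) ∫ (x/n)^s / s² dt`, and
`(x / n)^s = x^s n^(-s)`.  The sum over all `n ≥ 1` of `mk j k n log⁺ (x/n)` is the finite sum over
`n ≤ ⌊x⌋` (`log⁺ = 0` for `n ≥ x`, and `= log (x/n)` for `n ≤ x`).  Exchange sum and integral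
(`MeasureTheory.hasSum_integral_of_summable_integral_norm`: the integral of the norm of the `n`-th
term is `≤ |mk j k n| n^(-c₀) x^c₀ ∫ 1/|s|² dt`, summable because
`|mk j k n| n^(-c₀) ≤ (log n)^k n^(-c₀)`):
`∑ = (1 / 2π) ∫ LSeries (mk j k) s x^s / s² dt`.
Bound: `|x^s| = x^c₀ = e x`, `|s|² ≥ 1 + t²`, `‖LSeries (mk j k) s‖ ≤ C (LL Q t)^m`,
`LL Q t = log Q + log(|t|+3) ≤ log Q (1 + log (|t| + 3))` (`log Q ≥ 1`), so the integral is at most
`e x C (log Q)^m ∫ (1 + log (|t|+3))^m / (1 + t²) dt`, a finite constant (integrable: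
`(1 + log(|t|+3))^m ≤ C_m (1 + t²)^(1/4)`, `integrable_rpow_neg_one_add_norm_sq` or
comparison with `(1+t²)^(-3/4)`).
-/

set_option autoImplicit false

open Finset MeasureTheory

namespace PGB

private theorem mk_norm42 (j : PC) (k n : ℕ) : ‖mk j k n‖ ≤ |Real.log n| ^ k := by
  unfold mk
  rw [norm_mul, norm_mul, norm_pow, Complex.norm_real, Real.norm_eq_abs, Complex.norm_intCast]
  have h1 : |((ArithmeticFunction.moebius n : ℤ) : ℝ)| ≤ 1 := by
    exact_mod_cast ArithmeticFunction.abs_moebius_le_one (n := n)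
  have h2 := norm_ch_le j n
  have h3 : |((ArithmeticFunction.moebius n : ℤ) : ℝ)| * ‖ch j n‖ ≤ 1 :=
    mul_le_one₀ h1 (norm_nonneg _) h2
  calc _ ≤ 1 * |Real.log n| ^ k := mul_le_mul_of_nonneg_right h3 (by positivity)
    _ = _ := one_mul _

private theorem mk_zero42 (j : PC) (k : ℕ) : mk j k 0 = 0 := by
  unfold mk
  simp

private theorem summ42 (j : PC) (k : ℕ) {s : ℂ} (hs : 1 < s.re) :
    LSeriesSummable (mk j k) s := by
  have hδ : 0 < (s.re - 1) / 2 := by linarith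
  refine LSeriesSummable_of_isBigO_rpow (x := (1 + s.re) / 2) (by linarith) ?_
  have h1 := ((isLittleO_log_rpow_rpow_atTop (k : ℝ) hδ).isBigO).comp_tendsto
    (tendsto_natCast_atTop_atTop (R := ℝ))
  have h2 : (fun n : ℕ => mk j k n) =O[Filter.atTop] fun n : ℕ => Real.log n ^ (k : ℝ) := by
    refine Asymptotics.IsBigO.of_bound 1 (Filter.Eventually.of_forall fun n => ?_)
    rw [Real.rpow_natCast, one_mul, norm_pow, Real.norm_eq_abs]
    exact mk_norm42 j k n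
  refine h2.trans ?_
  have e : (1 + s.re) / 2 - 1 = (s.re - 1) / 2 := by ring
  rw [e]
  exact h1

/-- the integrand -/
private noncomputable def FF42 (j : PC) (k : ℕ) (x c : ℝ) (n : ℕ) (t : ℝ) : ℂ :=
  (1 / (2 * (Real.pi : ℂ))) * (mk j k n * (((x / n : ℝ) : ℂ) ^ ((c : ℂ) + t * Complex.I) /
    ((c : ℂ) + t * Complex.I) ^ 2))

private theorem FF_eq42 (j : PC) (k : ℕ) {x : ℝ} (hx : 0 < x) (c : ℝ) (n : ℕ) (t : ℝ) :
    FF42 j k x c n t = (1 / (2 * (Real.pi : ℂ))) * ((x : ℂ) ^ ((c : ℂ) + t * Complex.I) /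
      ((c : ℂ) + t * Complex.I) ^ 2) * LSeries.term (mk j k) ((c : ℂ) + t * Complex.I) n := by
  unfold FF42
  rcases Nat.eq_zero_or_pos n with rfl | hn
  · rw [mk_zero42, LSeries.term_zero]
    ring
  · rw [LSeries.term_of_ne_zero hn.ne']
    have e : ((x / n : ℝ) : ℂ) = ((x : ℝ) : ℂ) / (((n : ℝ)) : ℂ) := Complex.ofReal_div _ _
    rw [e, Complex.div_cpow_ofReal_nonneg hx.le (Nat.cast_nonneg n), Complex.ofReal_natCast]
    ring

private theorem FF_int42 (j : PC) (k : ℕ) {x c : ℝ} (hx : 0 < x) (hc : 0 < c) (n : ℕ) :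
    Integrable (FF42 j k x c n) := by
  rcases Nat.eq_zero_or_pos n with rfl | hn
  · have e : FF42 j k x c 0 = fun _ => 0 := by
      funext t
      unfold FF42
      rw [mk_zero42]
      ring
    rw [e]
    exact integrable_zero _ _ _
  · have hxn : 0 < x / n := div_pos hx (by exact_mod_cast hn)
    exact ((logplus_int hc hxn).const_mul (mk j k n)).const_mul _

private theorem FF_val42 (j : PC) (k : ℕ) {x c : ℝ} (hx : 0 < x) (hc : 0 < c) (n : ℕ) :
    ∫ t, FF42 j k x c n t = mk j k n * ((max (Real.log (x / n)) 0 : ℝ) : ℂ) := by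
  rcases Nat.eq_zero_or_pos n with rfl | hn
  · have e : FF42 j k x c 0 = fun _ => 0 := by
      funext t
      unfold FF42
      rw [mk_zero42]
      ring
    rw [e, mk_zero42, integral_zero]
    ring
  · have hxn : 0 < x / n := div_pos hx (by exact_mod_cast hn)
    unfold FF42
    rw [integral_const_mul, integral_const_mul, logplus_eq hc hxn]
    ring

private theorem norm_sq42 (c t : ℝ) : ‖((c : ℂ) + t * Complex.I) ^ 2‖ = c ^ 2 + t ^ 2 := by
  rw [norm_pow, ← Complex.normSq_eq_norm_sq, Complex.normSq_add_mul_I]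

private theorem re42 (c t : ℝ) : ((c : ℂ) + t * Complex.I).re = c := by simp

private theorem im42 (c t : ℝ) : ((c : ℂ) + t * Complex.I).im = t := by simp

private theorem FF_norm42 (j : PC) (k : ℕ) {x : ℝ} (hx : 0 < x) (c : ℝ) (n : ℕ) (t : ℝ) :
    ‖FF42 j k x c n t‖ = ‖LSeries.term (mk j k) (c : ℂ) n‖ *
      ((1 / (2 * Real.pi)) * (x ^ c / (c ^ 2 + t ^ 2))) := by
  have h1 : ‖(1 / (2 * (Real.pi : ℂ)))‖ = 1 / (2 * Real.pi) := by
    rw [norm_div, norm_mul, Complex.norm_real, Real.norm_of_nonneg Real.pi_pos.le]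
    simp
  rw [FF_eq42 j k hx, norm_mul, norm_mul, h1, norm_div, norm_sq42,
    Complex.norm_cpow_eq_rpow_re_of_pos hx, re42, LSeries.norm_term_eq, LSeries.norm_term_eq, re42,
    Complex.ofReal_re]
  ring

private theorem sum_eq42 (j : PC) (k : ℕ) {x c : ℝ} (hx : 0 < x) (hc : 1 < c) :
    ∑ n ∈ Icc 1 ⌊x⌋₊, mk j k n * ((Real.log (x / n) : ℝ) : ℂ) =
      ∫ t : ℝ, (1 / (2 * (Real.pi : ℂ))) * ((x : ℂ) ^ ((c : ℂ) + t * Complex.I) /
        ((c : ℂ) + t * Complex.I) ^ 2) * LSeries (mk j k) ((c : ℂ) + t * Complex.I) := by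
  have hc0 : 0 < c := by linarith
  have h1 : Summable fun n => ∫ t, ‖FF42 j k x c n t‖ := by
    have h2 : ∀ n, (∫ t, ‖FF42 j k x c n t‖) = ‖LSeries.term (mk j k) (c : ℂ) n‖ *
        ∫ t : ℝ, (1 / (2 * Real.pi)) * (x ^ c / (c ^ 2 + t ^ 2)) := by
      intro n
      simp only [FF_norm42 j k hx]
      rw [integral_const_mul]
    simp only [h2]
    have h3 : Summable (LSeries.term (mk j k) (c : ℂ)) := summ42 j k (by simpa using hc)
    exact h3.norm.mul_right _
  have h4 := integral_tsum_of_summable_integral_norm (fun n => FF_int42 j k hx hc0 n) h1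
  have h5 : ∀ t : ℝ, (∑' n, FF42 j k x c n t) = (1 / (2 * (Real.pi : ℂ))) *
      ((x : ℂ) ^ ((c : ℂ) + t * Complex.I) / ((c : ℂ) + t * Complex.I) ^ 2) *
        LSeries (mk j k) ((c : ℂ) + t * Complex.I) := by
    intro t
    simp only [FF_eq42 j k hx]
    rw [tsum_mul_left]
    rfl
  simp only [h5] at h4
  rw [← h4]
  simp only [FF_val42 j k hx hc0]
  rw [tsum_eq_sum (s := Icc 1 ⌊x⌋₊)]
  · refine sum_congr rfl fun n hn => ?_
    rw [mem_Icc] at hn
    have hn0 : (0 : ℝ) < n := by exact_mod_cast hn.1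
    have hnx : (n : ℝ) ≤ x := (Nat.le_floor_iff hx.le).1 hn.2
    have h6 : 0 ≤ Real.log (x / n) := Real.log_nonneg (by rw [le_div_iff₀ hn0]; linarith)
    rw [max_eq_left h6]
  · intro n hn
    rw [mem_Icc, not_and_or, not_le, not_le] at hn
    rcases hn with hn | hn
    · have : n = 0 := by omega
      rw [this, mk_zero42, zero_mul]
    · have hnx : x < n := (Nat.floor_lt hx.le).1 hn
      have hn0 : (0 : ℝ) < n := hx.trans hnx
      have h6 : Real.log (x / n) ≤ 0 :=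
        Real.log_nonpos (by positivity) (by rw [div_le_one hn0]; exact hnx.le)
      rw [max_eq_right h6, Complex.ofReal_zero, mul_zero]

private theorem int_g42 (m : ℕ) (hm : 0 < m) :
    Integrable fun t : ℝ => (1 + Real.log (|t| + 3)) ^ m / (1 + t ^ 2) := by
  have h1 : Integrable fun t : ℝ => ((1 : ℝ) + ‖t‖ ^ 2) ^ (-(3 / 2 : ℝ) / 2) :=
    integrable_rpow_neg_one_add_norm_sq (by norm_num)
  have hm' : (0 : ℝ) < m := by exact_mod_cast hm
  have h2 := h1.const_mul ((1 + 2 * (m : ℝ)) ^ m * (18 : ℝ) ^ (1 / 4 : ℝ))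
  refine h2.mono' ?_ (Filter.Eventually.of_forall fun t => ?_)
  · have hcont : Continuous fun t : ℝ => (1 + Real.log (|t| + 3)) ^ m / (1 + t ^ 2) := by
      refine Continuous.div ?_ (by fun_prop) fun t => by positivity
      refine (continuous_const.add (Continuous.log (by fun_prop) fun t => ?_)).pow m
      positivity
    exact hcont.aestronglyMeasurable
  · have hy : (1 : ℝ) ≤ |t| + 3 := by linarith [abs_nonneg t]
    have hy0 : (0 : ℝ) ≤ |t| + 3 := by linarith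
    have hl := Real.log_nonneg hy
    rw [Real.norm_of_nonneg (by positivity), Real.norm_eq_abs, sq_abs]
    have hε : (0 : ℝ) < 1 / (2 * m) := by positivity
    have h3 := Real.log_le_rpow_div hy0 hε
    have h4 : (1 : ℝ) ≤ (|t| + 3) ^ (1 / (2 * m) : ℝ) := Real.one_le_rpow hy hε.le
    have h5 : 1 + Real.log (|t| + 3) ≤ (1 + 2 * m) * (|t| + 3) ^ (1 / (2 * m) : ℝ) := by
      have e : (|t| + 3) ^ (1 / (2 * m) : ℝ) / (1 / (2 * m) : ℝ) =
          2 * m * (|t| + 3) ^ (1 / (2 * m) : ℝ) := by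
        field_simp
      rw [e] at h3
      nlinarith
    have h6 : (1 + Real.log (|t| + 3)) ^ m ≤ (1 + 2 * m) ^ m * (|t| + 3) ^ (1 / 2 : ℝ) := by
      have h7 := pow_le_pow_left₀ (by linarith) h5 m
      rw [mul_pow, ← Real.rpow_natCast ((|t| + 3) ^ (1 / (2 * m) : ℝ)), ← Real.rpow_mul hy0] at h7
      have e : (1 / (2 * (m : ℝ))) * m = 1 / 2 := by field_simp
      rwa [e] at h7
    have h8 : (|t| + 3) ^ (1 / 2 : ℝ) ≤ (18 : ℝ) ^ (1 / 4 : ℝ) * (1 + t ^ 2) ^ (1 / 4 : ℝ) := by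
      rw [← Real.mul_rpow (by norm_num) (by positivity)]
      have e : (|t| + 3) ^ (1 / 2 : ℝ) = ((|t| + 3) ^ 2) ^ (1 / 4 : ℝ) := by
        rw [← Real.rpow_natCast (|t| + 3) 2, ← Real.rpow_mul hy0]
        norm_num
      rw [e]
      refine Real.rpow_le_rpow (by positivity) ?_ (by norm_num)
      have h9 : t ^ 2 = |t| ^ 2 := (sq_abs t).symm
      rw [h9]
      nlinarith [sq_nonneg (|t| - 3), abs_nonneg t, sq_nonneg (|t|)]
    have h10 : (1 + t ^ 2) ^ (-(3 / 2 : ℝ) / 2) = (1 + t ^ 2) ^ (1 / 4 : ℝ) / (1 + t ^ 2) := by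
      have e : (-(3 / 2 : ℝ) / 2) = 1 / 4 - 1 := by norm_num
      rw [e, Real.rpow_sub_one (by positivity)]
    rw [h10, ← mul_div_assoc]
    refine div_le_div_of_nonneg_right ?_ (by positivity)
    calc (1 + Real.log (|t| + 3)) ^ m ≤ (1 + 2 * m) ^ m * (|t| + 3) ^ (1 / 2 : ℝ) := h6
      _ ≤ (1 + 2 * m) ^ m * ((18 : ℝ) ^ (1 / 4 : ℝ) * (1 + t ^ 2) ^ (1 / 4 : ℝ)) :=
          mul_le_mul_of_nonneg_left h8 (by positivity)
      _ = _ := by ring

theorem trf (k : ℕ) (C : ℝ) (hC : 0 < C) : ∃ C' : ℝ, 0 < C' ∧ ∀ Q : ℝ, 3 ≤ Q → ∀ j : PC,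
    (∀ s : ℂ, 1 < s.re → s.re ≤ 2 → ‖LSeries (mk j k) s‖ ≤ C * LL Q s.im ^ (22 * (k + 1))) →
    ∀ x : ℝ, 3 ≤ x →
      ‖∑ n ∈ Icc 1 ⌊x⌋₊, mk j k n * ((Real.log (x / n) : ℝ) : ℂ)‖ ≤
        C' * x * Real.log Q ^ (22 * (k + 1)) := by
  obtain ⟨m, hm⟩ : ∃ m, m = 22 * (k + 1) := ⟨_, rfl⟩
  rw [← hm]
  have hm0 : 0 < m := by omega
  have hI := int_g42 m hm0
  obtain ⟨B, hB⟩ : ∃ B, B = ∫ t : ℝ, (1 + Real.log (|t| + 3)) ^ m / (1 + t ^ 2) := ⟨_, rfl⟩
  have hg0 : ∀ t : ℝ, 0 ≤ (1 + Real.log (|t| + 3)) ^ m / (1 + t ^ 2) := by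
    intro t
    have hl := Real.log_nonneg (show (1 : ℝ) ≤ |t| + 3 by linarith [abs_nonneg t])
    positivity
  have hB0 : 0 ≤ B := by
    rw [hB]
    exact integral_nonneg hg0
  refine ⟨1 / (2 * Real.pi) * (Real.exp 1 * C) * B + 1, by positivity, ?_⟩
  intro Q hQ j hL x hx
  have hx0 : 0 < x := by linarith
  have hlx : 1 ≤ Real.log x := by
    rw [Real.le_log_iff_exp_le hx0]
    linarith [Real.exp_one_lt_d9]
  have hlQ : 1 ≤ Real.log Q := by
    rw [Real.le_log_iff_exp_le (by linarith)]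
    linarith [Real.exp_one_lt_d9]
  obtain ⟨c, hc⟩ : ∃ c, c = 1 + 1 / Real.log x := ⟨_, rfl⟩
  have hc1 : 1 < c := by
    rw [hc]
    have : 0 < 1 / Real.log x := by positivity
    linarith
  have hc2 : c ≤ 2 := by
    rw [hc]
    have : 1 / Real.log x ≤ 1 := by
      rw [div_le_one (by linarith)]
      exact hlx
    linarith
  have hxc : x ^ c = Real.exp 1 * x := by
    rw [hc, Real.rpow_add hx0, Real.rpow_one, Real.rpow_def_of_pos hx0]
    rw [mul_one_div_cancel (by linarith)]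
    ring
  rw [sum_eq42 j k hx0 hc1]
  have hdom : ∀ t : ℝ, ‖(1 / (2 * (Real.pi : ℂ))) * ((x : ℂ) ^ ((c : ℂ) + t * Complex.I) /
        ((c : ℂ) + t * Complex.I) ^ 2) * LSeries (mk j k) ((c : ℂ) + t * Complex.I)‖ ≤
      (1 / (2 * Real.pi) * (Real.exp 1 * C) * x * Real.log Q ^ m) *
        ((1 + Real.log (|t| + 3)) ^ m / (1 + t ^ 2)) := by
    intro t
    have h1 : ‖(1 / (2 * (Real.pi : ℂ)))‖ = 1 / (2 * Real.pi) := by
      rw [norm_div, norm_mul, Complex.norm_real, Real.norm_of_nonneg Real.pi_pos.le]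
      simp
    rw [norm_mul, norm_mul, h1, norm_div, norm_sq42, Complex.norm_cpow_eq_rpow_re_of_pos hx0, re42,
      hxc]
    have h2 := hL ((c : ℂ) + t * Complex.I) (by rw [re42]; exact hc1) (by rw [re42]; exact hc2)
    rw [im42] at h2
    have hl := Real.log_nonneg (show (1 : ℝ) ≤ |t| + 3 by linarith [abs_nonneg t])
    have h3 : LL Q t ≤ Real.log Q * (1 + Real.log (|t| + 3)) := by
      unfold LL
      nlinarith
    have h3' : 0 ≤ LL Q t := by
      unfold LL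
      linarith
    have h4 : LL Q t ^ m ≤ Real.log Q ^ m * (1 + Real.log (|t| + 3)) ^ m := by
      rw [← mul_pow]
      exact pow_le_pow_left₀ h3' h3 m
    have h5 : Real.exp 1 * x / (c ^ 2 + t ^ 2) ≤ Real.exp 1 * x / (1 + t ^ 2) := by
      refine div_le_div_of_nonneg_left (by positivity) (by positivity) ?_
      nlinarith
    calc 1 / (2 * Real.pi) * (Real.exp 1 * x / (c ^ 2 + t ^ 2)) *
          ‖LSeries (mk j k) ((c : ℂ) + t * Complex.I)‖
        ≤ 1 / (2 * Real.pi) * (Real.exp 1 * x / (1 + t ^ 2)) *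
          (C * (Real.log Q ^ m * (1 + Real.log (|t| + 3)) ^ m)) := by
          refine mul_le_mul (mul_le_mul_of_nonneg_left h5 (by positivity)) (h2.trans ?_)
            (norm_nonneg _) (by positivity)
          exact mul_le_mul_of_nonneg_left h4 hC.le
      _ = _ := by ring
  have hint := hI.const_mul (1 / (2 * Real.pi) * (Real.exp 1 * C) * x * Real.log Q ^ m)
  refine (norm_integral_le_of_norm_le hint (Filter.Eventually.of_forall hdom)).trans ?_
  rw [integral_const_mul, ← hB]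
  have h6 : 0 ≤ x * Real.log Q ^ m := by positivity
  nlinarith

end PGB
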