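import Pool.Agent.PGB.Slw
import Pool.Agent.PGB.Strf
import Pool.Agent.PGB.Sshp

/-!
# Project PGB, Ssml: characters to small moduli are not bad unless they are exceptional

PROOF.  Choose `k : ℕ` with `k ≥ 4 |A| + 4`.  Constants: `c` from `lower κ`, then `Mbd c k`, `trf k`,
`sharp k`, `remove k` give `C` with
`‖mus j u‖ ≤ C u (log Q)^(22 (k+1)) (log u)^(-k/2)` for all `u ≥ 9`, all `Q ≥ 3` and all `j` to moduli
in `[2, Q]`, `j.2 ≠ 1`, not exceptional at `Q`.  Take `Q = QN N`, `log Q = (log N)^(1/100)` (for large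
`N` `Q ≥ 3`).  A primitive character to a modulus `≥ 2` is not `1`
(`DirichletCharacter.conductor_one`: the conductor of `1` is `1`).  For `u ≥ N^(1/10)`
(`≥ 9` for large `N`): `log u ≥ (log N) / 10`, so
`‖mus j u‖ ≤ C 10^(k/2) u (log N)^(0.22 (k+1) - k/2) ≤ u (log N)^(-A)` for large `N`, because
`k/2 - 0.22 (k+1) = 0.28 k - 0.22 ≥ 1.12 |A| + 0.9 > A`.  So `j` is not bad.
-/

set_option autoImplicit false

open Finset Filter

namespace PGB

/-- The bound for small moduli: `exp ((log N)^(1/100))`. -/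
noncomputable def QN (N : ℕ) : ℝ := Real.exp (Real.log N ^ (1 / 100 : ℝ))

theorem log_QN (N : ℕ) : Real.log (QN N) = Real.log N ^ (1 / 100 : ℝ) := by
  unfold QN
  rw [Real.log_exp]

/-- The bound for `mus` for characters which are not exceptional. -/
theorem mus_bound (κ : ℝ) (hκ : 0 < κ) (k : ℕ) : ∃ C : ℝ, 0 < C ∧ ∀ Q : ℝ, 3 ≤ Q → ∀ j : PC,
    2 ≤ j.1 → (j.1 : ℝ) ≤ Q → j.2 ≠ 1 → ¬ Exc κ Q j → ∀ u : ℕ, 9 ≤ u → ‖mus j u‖ ≤
      C * u * Real.log Q ^ (22 * (k + 1)) * Real.log u ^ (-((k : ℝ) / 2)) := by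
  obtain ⟨c, hc, h1⟩ := lower κ hκ
  obtain ⟨C₁, hC₁, h2⟩ := Mbd c hc k
  obtain ⟨C₂, hC₂, h3⟩ := trf k C₁ hC₁
  obtain ⟨C₃, hC₃, h4⟩ := sharp k C₂ hC₂
  obtain ⟨C₄, hC₄, h5⟩ := remove k C₃ hC₃
  refine ⟨C₄, hC₄, ?_⟩
  intro Q hQ j hj hjQ hj1 hexc
  have e1 := h1 Q hQ j hj hjQ hj1 hexc
  have e2 := h2 Q hQ j hj hjQ hj1 e1
  have e3 := h3 Q hQ j e2
  have e4 := h4 Q hQ j e3
  exact h5 Q hQ j e4

theorem small_good (κ A : ℝ) (hκ : 0 < κ) : ∀ᶠ N : ℕ in atTop, ∀ j : PC, 2 ≤ j.1 →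
    (j.1 : ℝ) ≤ QN N → j.2.IsPrimitive → ¬ Exc κ (QN N) j → ¬ Bad A N j := by
  obtain ⟨k, hk⟩ : ∃ k : ℕ, 4 * |A| + 4 ≤ k := exists_nat_ge _
  obtain ⟨C, hC, hmus⟩ := mus_bound κ hκ k
  have hE : 0 < -((22 * (k + 1) : ℝ) / 100 - (k : ℝ) / 2 + A) := by
    have := le_abs_self A
    have := abs_nonneg A
    linarith
  have hlog : Tendsto (fun N : ℕ => Real.log (N : ℝ)) atTop atTop :=
    Real.tendsto_log_atTop.comp tendsto_natCast_atTop_atTop
  have t1 : Tendsto (fun N : ℕ => Real.log (N : ℝ) ^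
      (-(-((22 * (k + 1) : ℝ) / 100 - (k : ℝ) / 2 + A)))) atTop (nhds 0) :=
    (tendsto_rpow_neg_atTop hE).comp hlog
  have hD : (0 : ℝ) < C * 10 ^ ((k : ℝ) / 2) := by positivity
  have t2 := t1.eventually (gt_mem_nhds (show (0 : ℝ) < 1 / (C * 10 ^ ((k : ℝ) / 2)) by positivity))
  have t3 : Tendsto (fun N : ℕ => Real.log (N : ℝ) ^ (1 / 100 : ℝ)) atTop atTop :=
    (tendsto_rpow_atTop (by norm_num)).comp hlog
  have t4 : Tendsto (fun N : ℕ => (N : ℝ) ^ (1 / 10 : ℝ)) atTop atTop :=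
    (tendsto_rpow_atTop (by norm_num)).comp tendsto_natCast_atTop_atTop
  filter_upwards [t2, t3.eventually_ge_atTop (Real.log 3), t4.eventually_ge_atTop 9,
    hlog.eventually_ge_atTop 1] with N g1 g2 g3 g4
  intro j hj hjQ hprim hexc hbad
  obtain ⟨u, hu1, hu2, hu3⟩ := hbad
  rw [neg_neg] at g1
  have hQ : 3 ≤ QN N := by
    unfold QN
    rw [← Real.exp_log (show (0 : ℝ) < 3 by norm_num)]
    exact Real.exp_le_exp.mpr g2
  have hj1 : j.2 ≠ 1 := by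
    intro h
    have h0 : j.2.conductor = j.1 := hprim
    haveI : NeZero j.1 := ⟨by omega⟩
    rw [h, DirichletCharacter.conductor_one] at h0
    omega
  have hu9 : 9 ≤ u := by
    have : (9 : ℝ) ≤ u := g3.trans hu1
    exact_mod_cast this
  have key := hmus (QN N) hQ j hj hjQ hj1 hexc u hu9
  obtain ⟨L, hL⟩ : ∃ L, L = Real.log (N : ℝ) := ⟨_, rfl⟩
  rw [log_QN] at key
  rw [← hL] at key g1 g2 g4 hu3
  have hL0 : 0 < L := by linarith
  have hu0 : (0 : ℝ) < u := by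
    have : (9 : ℝ) ≤ u := by exact_mod_cast hu9
    linarith
  have hN0 : (0 : ℝ) < N := by
    rcases Nat.eq_zero_or_pos N with h | h
    · rw [h] at hL
      simp at hL
      linarith
    · exact_mod_cast h
  have hlu : L / 10 ≤ Real.log u := by
    have h1 : Real.log ((N : ℝ) ^ (1 / 10 : ℝ)) ≤ Real.log u :=
      Real.log_le_log (Real.rpow_pos_of_pos hN0 _) hu1
    rw [Real.log_rpow hN0, ← hL] at h1
    linarith
  have h1 : Real.log u ^ (-((k : ℝ) / 2)) ≤ 10 ^ ((k : ℝ) / 2) * L ^ (-((k : ℝ) / 2)) := by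
    have e1 : Real.log u ^ (-((k : ℝ) / 2)) ≤ (L / 10) ^ (-((k : ℝ) / 2)) :=
      Real.rpow_le_rpow_of_nonpos (by positivity) hlu (by
        have : (0 : ℝ) ≤ k := Nat.cast_nonneg k
        linarith)
    refine e1.trans (le_of_eq ?_)
    rw [Real.div_rpow hL0.le (by norm_num), Real.rpow_neg (by norm_num : (0 : ℝ) ≤ 10)]
    field_simp
  have h2 : (L ^ (1 / 100 : ℝ)) ^ (22 * (k + 1)) = L ^ ((22 * (k + 1) : ℝ) / 100) := by
    rw [← Real.rpow_natCast, ← Real.rpow_mul hL0.le]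
    congr 1
    push_cast
    ring
  rw [h2] at key
  have h3 : L ^ ((22 * (k + 1) : ℝ) / 100) * L ^ (-((k : ℝ) / 2)) * L ^ A =
      L ^ ((22 * (k + 1) : ℝ) / 100 - (k : ℝ) / 2 + A) := by
    rw [← Real.rpow_add hL0, ← Real.rpow_add hL0]
    congr 1
  have h4 : C * 10 ^ ((k : ℝ) / 2) *
      (L ^ ((22 * (k + 1) : ℝ) / 100) * L ^ (-((k : ℝ) / 2)) * L ^ A) ≤ 1 := by
    rw [h3]
    rw [lt_div_iff₀ hD] at g1
    linarith
  have hLA : 0 < L ^ A := Real.rpow_pos_of_pos hL0 _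
  have hLp : 0 < L ^ ((22 * (k + 1) : ℝ) / 100) := Real.rpow_pos_of_pos hL0 _
  have h5 : ‖mus j u‖ ≤ u / L ^ A := by
    rw [le_div_iff₀ hLA]
    calc ‖mus j u‖ * L ^ A ≤ (C * u * L ^ ((22 * (k + 1) : ℝ) / 100) *
          Real.log u ^ (-((k : ℝ) / 2))) * L ^ A :=
            mul_le_mul_of_nonneg_right key hLA.le
      _ ≤ (C * u * L ^ ((22 * (k + 1) : ℝ) / 100) *
          (10 ^ ((k : ℝ) / 2) * L ^ (-((k : ℝ) / 2)))) * L ^ A := by
            apply mul_le_mul_of_nonneg_right _ hLA.le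
            exact mul_le_mul_of_nonneg_left h1 (by positivity)
      _ = u * (C * 10 ^ ((k : ℝ) / 2) *
          (L ^ ((22 * (k + 1) : ℝ) / 100) * L ^ (-((k : ℝ) / 2)) * L ^ A)) := by ring
      _ ≤ u * 1 := mul_le_mul_of_nonneg_left h4 hu0.le
      _ = u := mul_one _
  linarith

end PGB
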